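import Pool.Agent.H36.QX.Lead

/-!
# Dom : `R` is a domain

If `r` is in `Y m` and not in `Y (m - 1)`, and `s` in `Y n` and not in `Y (n - 1)`, then the value of `r * s` at the
point `x = 0` is the product of two nonzero elements of the field `K`.
-/

set_option autoImplicit false

namespace H36.QX

open H36.NX
namespace QRing

variable {k : Type} [Field k] {t : k} {R : Type} [CommRing R] [Algebra k R]
variable {K : Type} [Field K] [Algebra k K]

theorem exists_degree (C : QRing k t R) (r : R) (h : r ≠ 0) :
    ∃ n : ℤ, r ∈ C.Y n ∧ r ∉ C.Y (n - 1) := by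
  classical
  have h0 : ∃ n0 : ℤ, r ∉ C.Y n0 := by
    by_contra hcon
    push Not at hcon
    exact h (C.eq_zero_of_mem_Y r hcon)
  obtain ⟨n0, hn0⟩ := h0
  obtain ⟨n, hn, hmin⟩ := Int.exists_least_of_bdd (P := fun n : ℤ => r ∈ C.Y n)
    ⟨n0, fun z hz => by
      by_contra hlt
      exact hn0 (C.Y_mono (le_of_lt (not_le.mp hlt)) hz)⟩ (C.exists_mem_Y r)
  refine ⟨n, hn, fun hc => ?_⟩
  have := hmin (n - 1) hc
  omega

theorem isDomain (C : QRing k t R) (_E : QRoot k t K) : IsDomain R := by
  have hnt : Nontrivial R := by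
    refine ⟨⟨1, 0, fun hc => ?_⟩⟩
    have h1 := C.lead_one _E
    rw [hc, map_zero] at h1
    exact zero_ne_one h1
  have hnz : NoZeroDivisors R := by
    refine ⟨fun {a b} hab => ?_⟩
    by_contra hcon
    push Not at hcon
    obtain ⟨ha, hb⟩ := hcon
    obtain ⟨m, hm, hm'⟩ := C.exists_degree a ha
    obtain ⟨n, hn, hn'⟩ := C.exists_degree b hb
    have h1 := C.lead_mul _E hm hn
    rw [hab, map_zero] at h1
    rcases mul_eq_zero.mp h1.symm with h2 | h2
    · exact hm' ((C.lead_eq_zero_iff _E hm).mp h2)
    · exact hn' ((C.lead_eq_zero_iff _E hn).mp h2)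
  exact NoZeroDivisors.to_isDomain R

/-- `k[u]` is a polynomial ring -/
theorem transcendental_u (C : QRing k t R) : Transcendental k (C.u : R) := by
  classical
  rw [transcendental_iff]
  intro p hp
  have hpow : ∀ i : ℕ, (C.u : R) ^ i = C.bas ((i : ℤ), 0) := by
    intro i
    rw [C.bas_eq]
    simp
  rw [Polynomial.aeval_eq_sum_range] at hp
  ext i
  rw [Polynomial.coeff_zero]
  by_cases hi : i ∈ Finset.range (p.natDegree + 1)
  · have h1 := congrArg (fun x => C.bas.repr x ((i : ℤ), 0)) hp
    simp only [map_sum, map_smul, map_zero, Finsupp.coe_finsetSum, Finset.sum_apply, Finsupp.coe_zero,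
      Pi.zero_apply, hpow, Module.Basis.repr_self, Finsupp.coe_smul, Pi.smul_apply] at h1
    rw [Finset.sum_eq_single i] at h1
    · simpa using h1
    · intro j _ hj
      rw [Finsupp.single_eq_of_ne]
      · simp
      · intro hc
        apply hj
        have := (Prod.mk.inj hc).1
        omega
    · intro hc
      exact absurd hi hc
  · rw [Finset.mem_range, not_lt] at hi
    exact Polynomial.coeff_eq_zero_of_natDegree_lt (by omega)

end QRing
end H36.QX
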