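import Pool.Agent.H36.QX.Acts
import Pool.Agent.H15.QX.Sep

/-!
# ChtS : the structure of a chart
-/

set_option autoImplicit false

open NC

noncomputable section

namespace H36.QX

open H36.NX
variable {k : Type} [Field k] {t : k} {R : Type} [CommRing R] [Algebra k R]
  {F : Type} [Field F] [Algebra k F]

/-- a chart, contained in one of the two pieces `e` -/
structure Cht (C : QRing k t R) (j : R →ₐ[k] F) where
  T : PS C j
  τ : R
  d : ℕ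
  e : Pc
  e' : Pc
  g : F
  B : Subalgebra k F
  c : F
  jinj : Function.Injective j
  he : (e = Pc.X ∧ e' = Pc.Y) ∨ (e = Pc.Y ∧ e' = Pc.X)
  g0 : g ≠ 0
  τ0 : j τ ≠ 0
  hτ : ∀ s : Pc, τ ∈ C.pc s d
  hloc : ∀ (s : Pc) (n : ℤ) (x : F), x ∈ T.S s n ↔
    ∃ (m : ℕ) (r : R), r ∈ C.pc s (n + m * d) ∧ (j τ) ^ m * x = j r
  hB : ∀ (n : ℤ) (x : F), x ∈ T.S e n ↔ g ^ (-n) * x ∈ B
  hac : ∀ n : ℤ, T.S Pc.R n ≤ T.S e' n
  hg : g = 1 ∨ g = j (C.u : R)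
  cB : c ∈ B
  sep : SepOver k B ⟨c, cB⟩

end H36.QX
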