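import Pool.Agent.H36.QX.MV

/-!
# HHb : the even part of the Hochschild homology of `AA C` is spanned by two classes
-/

set_option autoImplicit false

open NC

noncomputable section

namespace H36.QX

open H36.NX
variable {k : Type} [Field k] {t : k} {R : Type} [CommRing R] [Algebra k R]
  {F : Type} [Field F] [Algebra k F] {C : QRing k t R} {j : R →ₐ[k] F}

namespace MVS

variable (M : MVS C j)

/-- the middle term -/
abbrev MXV : SD k := HC ((fBi M.X.T).prod (fBi M.V.T))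

/-- the first inclusion on Hochschild complexes -/
def inX : SD.Hom (HC (fBi M.X.T)) M.MXV :=
  hcN (fBi M.X.T) ((fBi M.X.T).prod (fBi M.V.T))
    (SD.inl (fSD M.X.T wt wt) (fSD M.V.T wt wt)) (by
    constructor
    · intro a n
      exact Prod.ext rfl (map_zero ((fLA M.V.T wt).act a)).symm
    · intro n a
      exact Prod.ext rfl (by
        change (0 : (fSD M.V.T wt wt).V) = (fRA M.V.T wt).act 0 a
        rw [map_zero, LinearMap.zero_apply]))

/-- the second inclusion on Hochschild complexes -/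
def inV : SD.Hom (HC (fBi M.V.T)) M.MXV :=
  hcN (fBi M.V.T) ((fBi M.X.T).prod (fBi M.V.T))
    (SD.inr (fSD M.X.T wt wt) (fSD M.V.T wt wt)) (by
    constructor
    · intro a n
      exact Prod.ext (map_zero ((fLA M.X.T wt).act a)).symm rfl
    · intro n a
      exact Prod.ext (by
        change (0 : (fSD M.X.T wt wt).V) = (fRA M.X.T wt).act 0 a
        rw [map_zero, LinearMap.zero_apply]) rfl)

/-- the first projection on Hochschild complexes -/
def prX : SD.Hom M.MXV (HC (fBi M.X.T)) :=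
  hcN ((fBi M.X.T).prod (fBi M.V.T)) (fBi M.X.T)
    (SD.fst (fSD M.X.T wt wt) (fSD M.V.T wt wt)) ⟨fun _ _ => rfl, fun _ _ => rfl⟩

/-- the second projection on Hochschild complexes -/
def prV : SD.Hom M.MXV (HC (fBi M.V.T)) :=
  hcN ((fBi M.X.T).prod (fBi M.V.T)) (fBi M.V.T)
    (SD.snd (fSD M.X.T wt wt) (fSD M.V.T wt wt)) ⟨fun _ _ => rfl, fun _ _ => rfl⟩

/-- the second map of the Mayer-Vietoris sequence on Hochschild complexes -/
def hcG : SD.Hom M.MXV (HC (fBi M.W.T)) :=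
  hcN _ _ M.mvg M.mvg_isHom

/-- the first map of the Mayer-Vietoris sequence on Hochschild complexes -/
def hcF : SD.Hom (HC (AA C).diag) M.MXV :=
  hcN _ _ M.mvf M.mvf_isHom

theorem hc_SES : SD.SES M.hcF M.hcG :=
  SES_hc _ _ _ _ M.mvf_isHom _ M.mvg_isHom M.mv_SES

theorem in_pr (m : M.MXV.V) : M.inX.f (M.prX.f m) + M.inV.f (M.prV.f m) = m := by
  have h1 : M.inX.f (M.prX.f m) = Wd.mh (AA C).V
      ((SD.inl (fSD M.X.T wt wt) (fSD M.V.T wt wt)).f ∘ₗ
        (SD.fst (fSD M.X.T wt wt) (fSD M.V.T wt wt)).f) m := Wd.mh_comp _ _ m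
  have h2 : M.inV.f (M.prV.f m) = Wd.mh (AA C).V
      ((SD.inr (fSD M.X.T wt wt) (fSD M.V.T wt wt)).f ∘ₗ
        (SD.snd (fSD M.X.T wt wt) (fSD M.V.T wt wt)).f) m := Wd.mh_comp _ _ m
  rw [h1, h2]
  refine (Wd.mh_add _ _ m).symm.trans ?_
  refine (Wd.mh_congr (g := LinearMap.id) (fun n => ?_) m).trans (Wd.mh_id m)
  exact Prod.ext (add_zero _) (zero_add _)

theorem hcG_eq (m : M.MXV.V) :
    M.hcG.f m = M.iXW.f (M.prX.f m) - M.iVW.f (M.prV.f m) := by
  have h1 : M.iXW.f (M.prX.f m) = Wd.mh (AA C).V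
      ((fIncl M.leX wt wt).f ∘ₗ
        (SD.fst (fSD M.X.T wt wt) (fSD M.V.T wt wt)).f) m := Wd.mh_comp _ _ m
  have h2 : M.iVW.f (M.prV.f m) = Wd.mh (AA C).V
      ((fIncl M.leV wt wt).f ∘ₗ
        (SD.snd (fSD M.X.T wt wt) (fSD M.V.T wt wt)).f) m := Wd.mh_comp _ _ m
  rw [h1, h2]
  refine Eq.trans ?_ (Wd.mh_sub _ _ m)
  refine Wd.mh_congr (fun n => ?_) m
  exact (sub_eq_add_neg _ _).symm

theorem prX_inX (x : (HC (fBi M.X.T)).V) : M.prX.f (M.inX.f x) = x :=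
  (Wd.mh_comp _ _ x).trans ((Wd.mh_congr (g := LinearMap.id) (fun _ => rfl) x).trans (Wd.mh_id x))

theorem prV_inV (x : (HC (fBi M.V.T)).V) : M.prV.f (M.inV.f x) = x :=
  (Wd.mh_comp _ _ x).trans ((Wd.mh_congr (g := LinearMap.id) (fun _ => rfl) x).trans (Wd.mh_id x))

theorem prV_inX (x : (HC (fBi M.X.T)).V) : M.prV.f (M.inX.f x) = 0 :=
  (Wd.mh_comp _ _ x).trans ((Wd.mh_congr (g := 0) (fun _ => rfl) x).trans (Wd.mh_zero x))

theorem prX_inV (x : (HC (fBi M.V.T)).V) : M.prX.f (M.inV.f x) = 0 :=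
  (Wd.mh_comp _ _ x).trans ((Wd.mh_congr (g := 0) (fun _ => rfl) x).trans (Wd.mh_zero x))

theorem hcG_inX (x : (HC (fBi M.X.T)).V) : M.hcG.f (M.inX.f x) = M.iXW.f x := by
  rw [hcG_eq, prX_inX, prV_inX, map_zero, sub_zero]

theorem hcG_inV (x : (HC (fBi M.V.T)).V) : M.hcG.f (M.inV.f x) = - M.iVW.f x := by
  rw [hcG_eq, prX_inV, prV_inV, map_zero, zero_sub]

theorem hml_add {N : SD k} {x y x' y' : N.V} (h : N.Hml x y) (h' : N.Hml x' y') :
    N.Hml (x + x') (y + y') := by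
  obtain ⟨z, hz⟩ := h
  obtain ⟨z', hz'⟩ := h'
  exact ⟨z + z', by rw [map_add, hz, hz']; abel⟩

theorem hml_sub {N : SD k} {x y x' y' : N.V} (h : N.Hml x y) (h' : N.Hml x' y') :
    N.Hml (x - x') (y - y') := by
  obtain ⟨z, hz⟩ := h
  obtain ⟨z', hz'⟩ := h'
  exact ⟨z - z', by rw [map_sub, hz, hz']; abel⟩

/-- **the even part of the Hochschild homology is spanned by two classes**, under the numerical hypotheses on the
chart rings -/
theorem hh_even (dF : F →ₗ[k] F) (hdF : ∀ a b, dF (a * b) = a * dF b + dF a * b)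
    (mem_k : ∀ x, x ∈ M.X.B → x ∈ M.V.B → ∃ c : k, x = algebraMap k F c)
    (kap : F) (hkap : kap ∈ M.W.B)
    (exists_sum : ∀ x ∈ M.W.B, ∃ a ∈ M.X.B, ∃ b ∈ M.V.B, ∃ c : k, x = a + b + c • kap)
    (hW : dF M.W.c ∈ M.W.B) (uW : ∃ b ∈ M.W.B, b * dF M.W.c = 1)
    (uX : ∃ b ∈ M.X.B, b * dF M.X.c = 1) (uV : ∃ b ∈ M.V.B, b * dF M.V.c = 1) :
    ∃ a b : (HC (AA C).diag).V, (HC (AA C).diag).D a = 0 ∧
      (HC (AA C).diag).D b = 0 ∧ (HC (AA C).diag).P a = a ∧ (HC (AA C).diag).P b = b ∧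
      ∀ x, (HC (AA C).diag).P x = x → (HC (AA C).diag).D x = 0 →
        ∃ c d : k, (HC (AA C).diag).Hml x (c • a + d • b) := by
  obtain ⟨iW, hiW, hiW1⟩ := uW
  obtain ⟨iX, hiX, hiX1⟩ := uX
  obtain ⟨iV, hiV, hiV1⟩ := uV
  have hu0 : dF M.W.c ≠ 0 := fun h => by
    rw [h, mul_zero] at hiW1
    exact zero_ne_one hiW1
  have hu : dF (j (C.u : R)) ≠ 0 := by rw [← M.cW]; exact hu0
  obtain ⟨n0, hn0P, hn0D, hn0⟩ := tau_surj M.W dF hdF (⟨kap, hkap⟩ * ⟨iW, hiW⟩ : M.W.B)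
  have hn0' : M.τW dF hdF n0 = kap := by
    refine hn0.trans ?_
    change kap * iW * dF M.W.c = kap
    rw [mul_assoc, hiW1, mul_one]
  refine SD.SES.even_bound M.hc_SES (M.inX.f (gU M.X 1) + M.inV.f (gU M.V 1)) n0 ?_ ?_
  · rintro m hP hD ⟨n, hn⟩
    obtain ⟨a, ha⟩ := heven_U M.X (M.prX.f m)
      ((M.prX.P m).symm.trans (congrArg M.prX.f hP))
      ((M.prX.D m).symm.trans ((congrArg M.prX.f hD).trans (map_zero _)))
    obtain ⟨b, hb⟩ := heven_U M.V (M.prV.f m)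
      ((M.prV.P m).symm.trans (congrArg M.prV.f hP))
      ((M.prV.D m).symm.trans ((congrArg M.prV.f hD).trans (map_zero _)))
    have h1 := hml_sub (ha.map M.iXW) (hb.map M.iVW)
    rw [iXW_gU, iVW_gU, ← hcG_eq, ← map_sub, ← hn] at h1
    obtain ⟨v, hv⟩ := h1
    have h2 := M.gU_W_inj _ ⟨n - v, by rw [map_sub, hv, sub_sub_cancel]⟩
    have h3 : (a : F) = b := by
      have := congrArg (Subtype.val) h2
      exact sub_eq_zero.1 this
    obtain ⟨c, hc⟩ := mem_k a a.2 (h3 ▸ b.2)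
    refine ⟨c, ?_⟩
    have ea : a = c • (1 : M.X.B) := Subtype.ext (by
      rw [hc, Algebra.algebraMap_eq_smul_one]; rfl)
    have eb : b = c • (1 : M.V.B) := Subtype.ext (by
      rw [← h3, hc, Algebra.algebraMap_eq_smul_one]; rfl)
    have h4 := hml_add (ha.map M.inX) (hb.map M.inV)
    rw [in_pr, ea, eb, map_smul, map_smul, map_smul, map_smul, ← smul_add] at h4
    exact h4
  · intro n hP hD
    obtain ⟨b, hb⟩ := tau_mem M.W dF hdF n hP hD
    obtain ⟨a, ha, b1, hb1, c, hc⟩ := exists_sum ((b : F) * dF M.W.c) (M.W.B.mul_mem b.2 hW)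
    obtain ⟨x, hxP, hxD, hx⟩ := tau_surj M.X dF hdF (⟨a, ha⟩ * ⟨iX, hiX⟩ : M.X.B)
    have hx' : tauU M.X dF hdF x = a := by
      refine hx.trans ?_
      change a * iX * dF M.X.c = a
      rw [mul_assoc, hiX1, mul_one]
    obtain ⟨v, hvP, hvD, hv⟩ := tau_surj M.V dF hdF (⟨b1, hb1⟩ * ⟨iV, hiV⟩ : M.V.B)
    have hv' : tauU M.V dF hdF v = b1 := by
      refine hv.trans ?_
      change b1 * iV * dF M.V.c = b1
      rw [mul_assoc, hiV1, mul_one]
    refine ⟨c, M.inX.f x - M.inV.f v, ?_, ?_⟩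
    · have e1 : M.MXV.D (M.inX.f x) = 0 := by
        rw [← M.inX.D, hxD, map_zero]
      have e2 : M.MXV.D (M.inV.f v) = 0 := by
        rw [← M.inV.D, hvD, map_zero]
      rw [map_sub, e1, e2, sub_zero]
    · rw [map_sub, hcG_inX, hcG_inV, sub_neg_eq_add]
      obtain ⟨w, hw⟩ := tau_inj M.W dF hdF hu0 (n - (c • n0 + (M.iXW.f x + M.iVW.f v)))
        (by rw [map_sub, map_add, map_add, map_smul, ← M.iXW.P, ← M.iVW.P, hP, hn0P, hxP, hvP,
          map_zero, map_zero, smul_zero, add_zero, add_zero, sub_zero])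
        (by rw [map_sub, map_add, map_add, map_smul, ← M.iXW.D, ← M.iVW.D, hD, hn0D, hxD, hvD,
          map_zero, map_zero, smul_zero, add_zero, add_zero, sub_zero])
        (by
          have e1 : tauU M.W dF hdF (M.iXW.f x) = a := (M.tau_iXW dF hdF x).trans hx'
          have e2 : tauU M.W dF hdF (M.iVW.f v) = b1 :=
            (M.tau_iVW dF hdF hu v hvP hvD).trans hv'
          have e3 : tauU M.W dF hdF n0 = kap := hn0'
          rw [map_sub, map_add, map_add, map_smul, hb, e1, e2, e3, hc]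
          ring)
      exact ⟨w, hw⟩

end MVS

end H36.QX
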