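import Pool.Agent.H36.QX.SLoc

/-!
# SLocQ : the two Čech complexes `(X, Y n, R)` and `(L.X, L.Y n, S)` have the same cohomology

`exists_sub_mem_Y`: every element of `S` is the sum of an element of `R` and of an element of `L.Y n`.
`exists_of_mem_inf`: `L.X ⊓ L.Y n` is the image of `X ⊓ Y n`. `ι_mem_sup_n`: an element of `R` in `L.X ⊔ L.Y n` is in
`X ⊔ Y n`.
-/

set_option autoImplicit false
set_option linter.unusedSectionVars false

namespace H36.QX

open H36.NX

variable {k : Type} [Field k] {t : k} {R : Type} [CommRing R] [Algebra k R]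
  {K : Type} [Field K] [Algebra k K] {C : QRing k t R} {S : Type} [CommRing S] [Algebra k S]

theorem QRing.lead_tau_pow (C : QRing k t R) (E : QRoot k t K) (m : ℕ) :
    C.lead E (2 * m) (C.tau ^ m) = 1 := by
  induction m with
  | zero =>
    rw [pow_zero, Nat.cast_zero, mul_zero]
    exact C.lead_one E
  | succ m ih =>
    have h := C.lead_mul E (C.tau_pow_mem_Y m) C.tau_mem_Y
    rw [ih, C.lead_tau, one_mul, ← pow_succ] at h
    rw [← h]
    congr 1

theorem QRing.exists_sub_tau_pow (C : QRing k t R) (E : QRoot k t K) (m : ℕ) (n : ℤ) (r : R) :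
    ∃ s : R, r - C.tau ^ m * s ∈ C.Y (n + 2 * m) := by
  have key : ∀ (d : ℕ) (r : R), r ∈ C.Y (n + 2 * m + d) →
      ∃ s : R, r - C.tau ^ m * s ∈ C.Y (n + 2 * m) := by
    intro d
    induction d with
    | zero =>
      intro r hr
      exact ⟨0, by simpa using hr⟩
    | succ d ih =>
      intro r hr
      set N : ℤ := n + 2 * m + ((d + 1 : ℕ) : ℤ) with hN
      obtain ⟨s, hs, hs1⟩ := C.exists_lead E (N - 2 * m) (C.lead E N r)
      have h1 := C.mul_mem_Y (C.tau_pow_mem_Y m) hs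
      rw [show 2 * (m : ℤ) + (N - 2 * m) = N by ring] at h1
      have h2 := C.lead_mul E (C.tau_pow_mem_Y m) hs
      rw [show 2 * (m : ℤ) + (N - 2 * m) = N by ring, C.lead_tau_pow, one_mul, hs1] at h2
      have h3 : r - C.tau ^ m * s ∈ C.Y N := (C.Y N).sub_mem hr h1
      have h4 : r - C.tau ^ m * s ∈ C.Y (N - 1) := by
        rw [← C.lead_eq_zero_iff E h3, map_sub, h2, sub_self]
      have h5 : N - 1 = n + 2 * m + (d : ℤ) := by rw [hN]; push_cast; ring
      rw [h5] at h4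
      obtain ⟨s', hs'⟩ := ih _ h4
      refine ⟨s + s', ?_⟩
      rwa [mul_add, ← sub_sub]
  obtain ⟨N, hN⟩ := C.exists_mem_Y r
  exact key (N - (n + 2 * m)).toNat r (C.Y_mono (by omega) hN)

namespace SRing

variable (L : SRing C S)

theorem exists_sub_mem_Y (E : QRoot k t K) (n : ℤ) (x : S) : ∃ r : R, x - L.ι r ∈ L.Y n := by
  obtain ⟨m, r, hr⟩ := L.surj x
  obtain ⟨s, hs⟩ := C.exists_sub_tau_pow E m n r
  refine ⟨s, m, _, hs, ?_⟩
  rw [map_sub, map_mul, map_pow, ← hr, mul_sub]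

theorem exists_of_mem_inf (E : QRoot k t K) (n : ℤ) {x : S} (hX : x ∈ L.X) (hY : x ∈ L.Y n) :
    ∃ r ∈ C.B n, L.ι r = x := by
  obtain ⟨r, hr, rfl⟩ := hX
  exact ⟨r, Submodule.mem_inf.2 ⟨hr, L.of_ι_mem_Y E hY⟩, rfl⟩

theorem ι_mem_sup_n (E : QRoot k t K) (n : ℤ) {r : R} (h : L.ι r ∈ L.X ⊔ L.Y n) :
    r ∈ C.X ⊔ C.Y n := by
  obtain ⟨x, ⟨s, hs, rfl⟩, y, hy, h1⟩ := Submodule.mem_sup.1 h
  have h3 : L.ι (r - s) = y := by
    rw [map_sub, ← h1]
    exact add_sub_cancel_left _ _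
  have h2 := L.of_ι_mem_Y E (n := n) (r := r - s) (by rw [h3]; exact hy)
  have h4 : r = s + (r - s) := by abel
  rw [h4]
  exact Submodule.add_mem_sup hs h2

end SRing

end H36.QX
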