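import Pool.Agent.H36.QX.Homs

/-!
# HomsF : for `m, n ∈ {0, 1}`, `K m (-n) = A e_m ⊗ e_n A` is a direct factor of the free bimodule `A ⊗ A`
-/

set_option autoImplicit false

open NC
open scoped TensorProduct

namespace H36.QX

open H36.NX
variable {k : Type} [Field k] {t : k} {R : Type} [CommRing R] [Algebra k R]

/-- put a column at the place `m` -/
def colPut (R : Type) [CommRing R] (m : Fin 2) (f : Pc → Matrix (Fin 2) Unit R) :
    Pc → Matrix (Fin 2) (Fin 2) R :=
  fun s i j => if j = m then f s i () else 0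

/-- put a row at the place `n` -/
def rowPut (R : Type) [CommRing R] (n : Fin 2) (f : Pc → Matrix Unit (Fin 2) R) :
    Pc → Matrix (Fin 2) (Fin 2) R :=
  fun s i j => if i = n then f s () j else 0

/-- take the column `m` -/
def colGet (R : Type) [CommRing R] (m : Fin 2) (f : Pc → Matrix (Fin 2) (Fin 2) R) :
    Pc → Matrix (Fin 2) Unit R :=
  fun s i _ => f s i m

/-- take the row `n` -/
def rowGet (R : Type) [CommRing R] (n : Fin 2) (f : Pc → Matrix (Fin 2) (Fin 2) R) :
    Pc → Matrix Unit (Fin 2) R :=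
  fun s _ j => f s n j

section helpers

variable (m n : Fin 2)

theorem colPut_apply (f : Pc → Matrix (Fin 2) Unit R) (s : Pc) (i j : Fin 2) :
    colPut R m f s i j = if j = m then f s i () else 0 := rfl

theorem rowPut_apply (f : Pc → Matrix Unit (Fin 2) R) (s : Pc) (i j : Fin 2) :
    rowPut R n f s i j = if i = n then f s () j else 0 := rfl

theorem colGet_apply (f : Pc → Matrix (Fin 2) (Fin 2) R) (s : Pc) (i : Fin 2) (j : Unit) :
    colGet R m f s i j = f s i m := rfl

theorem rowGet_apply (f : Pc → Matrix (Fin 2) (Fin 2) R) (s : Pc) (i : Unit) (j : Fin 2) :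
    rowGet R n f s i j = f s n j := rfl

theorem colPut_add (f g : Pc → Matrix (Fin 2) Unit R) :
    colPut R m (f + g) = colPut R m f + colPut R m g := by
  funext s i j
  change (if j = m then (f s i () + g s i ()) else 0)
    = (if j = m then f s i () else 0) + (if j = m then g s i () else 0)
  split_ifs
  · rfl
  · rw [add_zero]

theorem rowPut_add (f g : Pc → Matrix Unit (Fin 2) R) :
    rowPut R n (f + g) = rowPut R n f + rowPut R n g := by
  funext s i j
  change (if i = n then (f s () j + g s () j) else 0)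
    = (if i = n then f s () j else 0) + (if i = n then g s () j else 0)
  split_ifs
  · rfl
  · rw [add_zero]

theorem colPut_smul (c : k) (f : Pc → Matrix (Fin 2) Unit R) :
    colPut R m (c • f) = c • colPut R m f := by
  funext s i j
  change (if j = m then (c • f s i ()) else 0) = c • (if j = m then f s i () else 0)
  split_ifs
  · rfl
  · rw [smul_zero]

theorem rowPut_smul (c : k) (f : Pc → Matrix Unit (Fin 2) R) :
    rowPut R n (c • f) = c • rowPut R n f := by
  funext s i j
  change (if i = n then (c • f s () j) else 0) = c • (if i = n then f s () j else 0)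
  split_ifs
  · rfl
  · rw [smul_zero]

theorem colPut_D (f : Pc → Matrix (Fin 2) Unit R) :
    colPut R m (cD k _ f) = cD k _ (colPut R m f) := by
  funext s i j
  cases s with
  | X => change (if j = m then (0 : R) else 0) = 0; split_ifs <;> rfl
  | Y => change (if j = m then (0 : R) else 0) = 0; split_ifs <;> rfl
  | R =>
    change (if j = m then (f Pc.Y i () - f Pc.X i ()) else 0)
      = (if j = m then f Pc.Y i () else 0) - (if j = m then f Pc.X i () else 0)
    split_ifs
    · rfl
    · rw [sub_zero]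

theorem colPut_P (f : Pc → Matrix (Fin 2) Unit R) :
    colPut R m (cP k _ f) = cP k _ (colPut R m f) := by
  funext s i j
  cases s with
  | X => rfl
  | Y => rfl
  | R => change (if j = m then (0 : R) else 0) = 0; split_ifs <;> rfl

theorem rowPut_D (f : Pc → Matrix Unit (Fin 2) R) :
    rowPut R n (cD k _ f) = cD k _ (rowPut R n f) := by
  funext s i j
  cases s with
  | X => change (if i = n then (0 : R) else 0) = 0; split_ifs <;> rfl
  | Y => change (if i = n then (0 : R) else 0) = 0; split_ifs <;> rfl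
  | R =>
    change (if i = n then (f Pc.Y () j - f Pc.X () j) else 0)
      = (if i = n then f Pc.Y () j else 0) - (if i = n then f Pc.X () j else 0)
    split_ifs
    · rfl
    · rw [sub_zero]

theorem rowPut_P (f : Pc → Matrix Unit (Fin 2) R) :
    rowPut R n (cP k _ f) = cP k _ (rowPut R n f) := by
  funext s i j
  cases s with
  | X => rfl
  | Y => rfl
  | R => change (if i = n then (0 : R) else 0) = 0; split_ifs <;> rfl

theorem colGet_D (f : Pc → Matrix (Fin 2) (Fin 2) R) :
    colGet R m (cD k _ f) = cD k _ (colGet R m f) := by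
  funext s i j
  cases s <;> rfl

theorem colGet_P (f : Pc → Matrix (Fin 2) (Fin 2) R) :
    colGet R m (cP k _ f) = cP k _ (colGet R m f) := by
  funext s i j
  cases s <;> rfl

theorem rowGet_D (f : Pc → Matrix (Fin 2) (Fin 2) R) :
    rowGet R n (cD k _ f) = cD k _ (rowGet R n f) := by
  funext s i j
  cases s <;> rfl

theorem rowGet_P (f : Pc → Matrix (Fin 2) (Fin 2) R) :
    rowGet R n (cP k _ f) = cP k _ (rowGet R n f) := by
  funext s i j
  cases s <;> rfl

theorem colGet_colPut (f : Pc → Matrix (Fin 2) Unit R) :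
    colGet R m (colPut R m f) = f := by
  funext s i j
  rw [colGet_apply, colPut_apply, if_pos rfl]

theorem rowGet_rowPut (f : Pc → Matrix Unit (Fin 2) R) :
    rowGet R n (rowPut R n f) = f := by
  funext s i j
  rw [rowGet_apply, rowPut_apply, if_pos rfl]

theorem mul_colPut (a : Matrix (Fin 2) (Fin 2) R) (f : Pc → Matrix (Fin 2) Unit R) (s : Pc)
    (i j : Fin 2) :
    (a * colPut R m f s) i j = if j = m then (a * f s) i () else 0 := by
  rw [Matrix.mul_apply]
  split_ifs with h
  · rw [Matrix.mul_apply]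
    refine Finset.sum_congr rfl fun l _ => ?_
    rw [colPut_apply, if_pos h]
  · refine Finset.sum_eq_zero fun l _ => ?_
    rw [colPut_apply, if_neg h, mul_zero]

theorem rowPut_mul (a : Matrix (Fin 2) (Fin 2) R) (f : Pc → Matrix Unit (Fin 2) R) (s : Pc)
    (i j : Fin 2) :
    (rowPut R n f s * a) i j = if i = n then (f s * a) () j else 0 := by
  rw [Matrix.mul_apply]
  split_ifs with h
  · rw [Matrix.mul_apply]
    refine Finset.sum_congr rfl fun l _ => ?_
    rw [rowPut_apply, if_pos h]
  · refine Finset.sum_eq_zero fun l _ => ?_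
    rw [rowPut_apply, if_neg h, zero_mul]

theorem cMul_colPut (a : Pc → Matrix (Fin 2) (Fin 2) R) (f : Pc → Matrix (Fin 2) Unit R) :
    colPut R m (cMul k (matMul k R (Fin 2) (Fin 2) Unit) a f)
      = cMul k (matMul k R (Fin 2) (Fin 2) (Fin 2)) a (colPut R m f) := by
  funext s i j
  cases s with
  | X =>
    change (if j = m then (a Pc.X * f Pc.X) i () else 0) = (a Pc.X * colPut R m f Pc.X) i j
    rw [mul_colPut]
  | Y =>
    change (if j = m then (a Pc.Y * f Pc.Y) i () else 0) = (a Pc.Y * colPut R m f Pc.Y) i j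
    rw [mul_colPut]
  | R =>
    change (if j = m then (a Pc.X * f Pc.R) i () + (a Pc.R * f Pc.Y) i () else 0)
      = (a Pc.X * colPut R m f Pc.R) i j + (a Pc.R * colPut R m f Pc.Y) i j
    rw [mul_colPut, mul_colPut]
    split_ifs
    · rfl
    · rw [add_zero]

theorem rowPut_cMul (a : Pc → Matrix (Fin 2) (Fin 2) R) (f : Pc → Matrix Unit (Fin 2) R) :
    rowPut R n (cMul k (matMul k R Unit (Fin 2) (Fin 2)) f a)
      = cMul k (matMul k R (Fin 2) (Fin 2) (Fin 2)) (rowPut R n f) a := by
  funext s i j
  cases s with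
  | X =>
    change (if i = n then (f Pc.X * a Pc.X) () j else 0) = (rowPut R n f Pc.X * a Pc.X) i j
    rw [rowPut_mul]
  | Y =>
    change (if i = n then (f Pc.Y * a Pc.Y) () j else 0) = (rowPut R n f Pc.Y * a Pc.Y) i j
    rw [rowPut_mul]
  | R =>
    change (if i = n then (f Pc.X * a Pc.R) () j + (f Pc.R * a Pc.Y) () j else 0)
      = (rowPut R n f Pc.X * a Pc.R) i j + (rowPut R n f Pc.R * a Pc.Y) i j
    rw [rowPut_mul, rowPut_mul]
    split_ifs
    · rfl
    · rw [add_zero]

theorem colGet_cMul (a f : Pc → Matrix (Fin 2) (Fin 2) R) :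
    colGet R m (cMul k (matMul k R (Fin 2) (Fin 2) (Fin 2)) a f)
      = cMul k (matMul k R (Fin 2) (Fin 2) Unit) a (colGet R m f) := by
  funext s i j
  cases s <;> rfl

theorem rowGet_cMul (f a : Pc → Matrix (Fin 2) (Fin 2) R) :
    rowGet R n (cMul k (matMul k R (Fin 2) (Fin 2) (Fin 2)) f a)
      = cMul k (matMul k R Unit (Fin 2) (Fin 2)) (rowGet R n f) a := by
  funext s i j
  cases s <;> rfl

end helpers

theorem colPut_mem (C : QRing k t R) (m : Fin 2) {f : Pc → Matrix (Fin 2) Unit R}
    (hf : f ∈ QQ C wt (fun _ : Unit => wt m)) : colPut R m f ∈ QQ C wt wt := by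
  intro s i j
  rw [colPut_apply]
  split_ifs with h
  · subst h
    exact hf s i ()
  · exact Submodule.zero_mem _

theorem rowPut_mem (C : QRing k t R) (n : Fin 2) {f : Pc → Matrix Unit (Fin 2) R}
    (hf : f ∈ QQ C (fun _ : Unit => (0 : ℤ)) (wtn (-wt n))) : rowPut R n f ∈ QQ C wt wt := by
  intro s i j
  rw [rowPut_apply]
  split_ifs with h
  · subst h
    have h1 := hf s () j
    rw [show wtn (-wt i) j - 0 = wt j - wt i by simp only [wtn, wt]; ring] at h1
    exact h1
  · exact Submodule.zero_mem _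

theorem colGet_mem (C : QRing k t R) (m : Fin 2) {f : Pc → Matrix (Fin 2) (Fin 2) R}
    (hf : f ∈ QQ C wt wt) : colGet R m f ∈ QQ C wt (fun _ : Unit => wt m) := by
  intro s i j
  exact hf s i m

theorem rowGet_mem (C : QRing k t R) (n : Fin 2) {f : Pc → Matrix (Fin 2) (Fin 2) R}
    (hf : f ∈ QQ C wt wt) : rowGet R n f ∈ QQ C (fun _ : Unit => (0 : ℤ)) (wtn (-wt n)) := by
  intro s i j
  have h1 := hf s n j
  rw [show wt j - wt n = wtn (-wt n) j - 0 by simp only [wtn, wt]; ring] at h1
  exact h1

/-- `A e_m → A` -/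
noncomputable def lPutH (C : QRing k t R) (m : Fin 2) : SD.Hom (Lc C (wt m)) (AA C).toSD where
  f :=
    { toFun := fun f => amk C (colPut R m (qv C wt (fun _ : Unit => wt m) f))
        (colPut_mem C m (qv_mem C f))
      map_add' := fun f f' => a_ext C (by
        rw [map_add (av C), av_amk, av_amk, av_amk, map_add (qv C wt (fun _ : Unit => wt m)),
          colPut_add])
      map_smul' := fun c f => a_ext C (by
        rw [map_smul (av C), av_amk, av_amk, map_smul (qv C wt (fun _ : Unit => wt m)),
          colPut_smul, RingHom.id_apply]) }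
  D v := a_ext C (by
    rw [av_D]
    change colPut R m (qv C wt (fun _ : Unit => wt m) ((Lc C (wt m)).D v))
      = cD k _ (colPut R m (qv C wt (fun _ : Unit => wt m) v))
    rw [qv_D, colPut_D])
  P v := a_ext C (by
    rw [av_P]
    change colPut R m (qv C wt (fun _ : Unit => wt m) ((Lc C (wt m)).P v))
      = cP k _ (colPut R m (qv C wt (fun _ : Unit => wt m) v))
    rw [qv_P, colPut_P])

/-- `A → A e_m` -/
noncomputable def lGetH (C : QRing k t R) (m : Fin 2) : SD.Hom (AA C).toSD (Lc C (wt m)) where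
  f :=
    { toFun := fun f => qmk C wt (fun _ : Unit => wt m) (colGet R m (av C f))
        (colGet_mem C m (av_mem C f))
      map_add' := fun f f' => q_ext C (by
        rw [map_add (qv C wt (fun _ : Unit => wt m)), qv_qmk, qv_qmk, qv_qmk, map_add (av C)]
        rfl)
      map_smul' := fun c f => q_ext C (by
        rw [map_smul (qv C wt (fun _ : Unit => wt m)), qv_qmk, qv_qmk, map_smul (av C),
          RingHom.id_apply]
        rfl) }
  D v := q_ext C (by
    rw [qv_D]
    change colGet R m (av C ((AA C).D v)) = cD k _ (colGet R m (av C v))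
    rw [av_D, colGet_D])
  P v := q_ext C (by
    rw [qv_P]
    change colGet R m (av C ((AA C).P v)) = cP k _ (colGet R m (av C v))
    rw [av_P, colGet_P])

/-- `e_n A → A` -/
noncomputable def rPutH (C : QRing k t R) (n : Fin 2) : SD.Hom (Pr C (-wt n)) (AA C).toSD where
  f :=
    { toFun := fun f => amk C (rowPut R n (qv C (fun _ : Unit => (0 : ℤ)) (wtn (-wt n)) f))
        (rowPut_mem C n (qv_mem C f))
      map_add' := fun f f' => a_ext C (by
        rw [map_add (av C), av_amk, av_amk, av_amk,
          map_add (qv C (fun _ : Unit => (0 : ℤ)) (wtn (-wt n))), rowPut_add])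
      map_smul' := fun c f => a_ext C (by
        rw [map_smul (av C), av_amk, av_amk,
          map_smul (qv C (fun _ : Unit => (0 : ℤ)) (wtn (-wt n))), rowPut_smul,
          RingHom.id_apply]) }
  D v := a_ext C (by
    rw [av_D]
    change rowPut R n (qv C (fun _ : Unit => (0 : ℤ)) (wtn (-wt n)) ((Pr C (-wt n)).D v))
      = cD k _ (rowPut R n (qv C (fun _ : Unit => (0 : ℤ)) (wtn (-wt n)) v))
    rw [qv_D, rowPut_D])
  P v := a_ext C (by
    rw [av_P]
    change rowPut R n (qv C (fun _ : Unit => (0 : ℤ)) (wtn (-wt n)) ((Pr C (-wt n)).P v))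
      = cP k _ (rowPut R n (qv C (fun _ : Unit => (0 : ℤ)) (wtn (-wt n)) v))
    rw [qv_P, rowPut_P])

/-- `A → e_n A` -/
noncomputable def rGetH (C : QRing k t R) (n : Fin 2) : SD.Hom (AA C).toSD (Pr C (-wt n)) where
  f :=
    { toFun := fun f => qmk C (fun _ : Unit => (0 : ℤ)) (wtn (-wt n)) (rowGet R n (av C f))
        (rowGet_mem C n (av_mem C f))
      map_add' := fun f f' => q_ext C (by
        rw [map_add (qv C (fun _ : Unit => (0 : ℤ)) (wtn (-wt n))), qv_qmk, qv_qmk, qv_qmk,
          map_add (av C)]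
        rfl)
      map_smul' := fun c f => q_ext C (by
        rw [map_smul (qv C (fun _ : Unit => (0 : ℤ)) (wtn (-wt n))), qv_qmk, qv_qmk,
          map_smul (av C), RingHom.id_apply]
        rfl) }
  D v := q_ext C (by
    rw [qv_D]
    change rowGet R n (av C ((AA C).D v)) = cD k _ (rowGet R n (av C v))
    rw [av_D, rowGet_D])
  P v := q_ext C (by
    rw [qv_P]
    change rowGet R n (av C ((AA C).P v)) = cP k _ (rowGet R n (av C v))
    rw [av_P, rowGet_P])

theorem lPutH_left (C : QRing k t R) (m : Fin 2) :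
    (qLA C (fun _ : Unit => wt m)).IsHom (AA C).diag.l (lPutH C m) := by
  intro a v
  refine a_ext C ?_
  change colPut R m (qv C wt (fun _ : Unit => wt m) (qMulL C (fun _ : Unit => wt m) a v))
    = cMul k (matMul k R (Fin 2) (Fin 2) (Fin 2)) (av C a)
        (colPut R m (qv C wt (fun _ : Unit => wt m) v))
  rw [qv_qMulL, cMul_colPut]

theorem lGetH_left (C : QRing k t R) (m : Fin 2) :
    (AA C).diag.l.IsHom (qLA C (fun _ : Unit => wt m)) (lGetH C m) := by
  intro a v
  refine q_ext C ?_
  change colGet R m (cMul k (matMul k R (Fin 2) (Fin 2) (Fin 2)) (av C a) (av C v))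
    = cMul k (matMul k R (Fin 2) (Fin 2) Unit) (av C a) (colGet R m (av C v))
  rw [colGet_cMul]

theorem rPutH_right (C : QRing k t R) (n : Fin 2) :
    (qRA C (fun _ : Unit => (0 : ℤ)) (-wt n)).IsHom (AA C).diag.r (rPutH C n) := by
  intro v a
  refine a_ext C ?_
  change rowPut R n (qv C (fun _ : Unit => (0 : ℤ)) (wtn (-wt n))
      (qMulR C (fun _ : Unit => (0 : ℤ)) (-wt n) v a))
    = cMul k (matMul k R (Fin 2) (Fin 2) (Fin 2))
        (rowPut R n (qv C (fun _ : Unit => (0 : ℤ)) (wtn (-wt n)) v)) (av C a)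
  rw [qv_qMulR, rowPut_cMul]

theorem rGetH_right (C : QRing k t R) (n : Fin 2) :
    (AA C).diag.r.IsHom (qRA C (fun _ : Unit => (0 : ℤ)) (-wt n)) (rGetH C n) := by
  intro v a
  refine q_ext C ?_
  change rowGet R n (cMul k (matMul k R (Fin 2) (Fin 2) (Fin 2)) (av C v) (av C a))
    = cMul k (matMul k R Unit (Fin 2) (Fin 2)) (rowGet R n (av C v)) (av C a)
  rw [rowGet_cMul]

theorem lGet_lPut (C : QRing k t R) (m : Fin 2) (v : (Lc C (wt m)).V) :
    (lGetH C m).f ((lPutH C m).f v) = v := by
  refine q_ext C ?_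
  change colGet R m (colPut R m (qv C wt (fun _ : Unit => wt m) v)) = _
  rw [colGet_colPut]

theorem rGet_rPut (C : QRing k t R) (n : Fin 2) (v : (Pr C (-wt n)).V) :
    (rGetH C n).f ((rPutH C n).f v) = v := by
  refine q_ext C ?_
  change rowGet R n (rowPut R n (qv C (fun _ : Unit => (0 : ℤ)) (wtn (-wt n)) v)) = _
  rw [rowGet_rowPut]

/-- `K m (-n) → A ⊗ A` -/
noncomputable def kPut (C : QRing k t R) (m n : Fin 2) :
    BMod.Hom (Kb C (wt m) (-wt n)) (BMod.free (AA C) (AA C)) where
  toHom := (lPutH C m).tens (rPutH C n)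
  isHom := isHom_tens _ _ (lPutH_left C m) (rPutH_right C n)

/-- `A ⊗ A → K m (-n)` -/
noncomputable def kGet (C : QRing k t R) (m n : Fin 2) :
    BMod.Hom (BMod.free (AA C) (AA C)) (Kb C (wt m) (-wt n)) where
  toHom := (lGetH C m).tens (rGetH C n)
  isHom := isHom_tens _ _ (lGetH_left C m) (rGetH_right C n)

theorem kGet_kPut (C : QRing k t R) (m n : Fin 2) (v : (Kb C (wt m) (-wt n)).N.V) :
    (kGet C m n).f ((kPut C m n).f v) = v := by
  refine tens_ext (f := (kGet C m n).f ∘ₗ (kPut C m n).f) (g := LinearMap.id)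
    (fun x y => ?_) v
  change (lGetH C m).f ((lPutH C m).f x) ⊗ₜ[k] (rGetH C n).f ((rPutH C n).f y) = x ⊗ₜ[k] y
  rw [lGet_lPut, rGet_rPut]

end H36.QX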