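import Pool.Agent.H36.QX.FQ
import Pool.Agent.H36.QX.Bim

/-!
# Acts : the actions of `AA C` on Čech matrices with entries in `R` and in `F`
-/

set_option autoImplicit false

open NC

noncomputable section

namespace H36.QX

open H36.NX
variable {k : Type} [Field k] {t : k} {R : Type} [CommRing R] [Algebra k R]
  {F : Type} [Field F] [Algebra k F] {I J L M : Type}

section

variable {C : QRing k t R} {j : R →ₐ[k] F}

theorem fv_sub_P (T : PS C j) {α : I → ℤ} {β : J → ℤ} (f : (fSD T α β).V) :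
    fv T α β (f - (fSD T α β).P f) = fv T α β f - cP k _ (fv T α β f) := rfl

/-- left action of `AA C` on Čech matrices over `F` -/
def fLA (T : PS C j) (β : J → ℤ) : LA (AA C) (fSD T wt β) where
  act := fL T wt wt β
  mul_act a b y := f_ext T (by
    change cMul k (matL j (Fin 2) (Fin 2) J)
        (cMul k (matMul k R (Fin 2) (Fin 2) (Fin 2)) (qv C wt wt a) (qv C wt wt b)) (fv T wt β y)
      = cMul k (matL j (Fin 2) (Fin 2) J) (qv C wt wt a)
        (cMul k (matL j (Fin 2) (Fin 2) J) (qv C wt wt b) (fv T wt β y))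
    exact cMul_assoc k (matMul k R (Fin 2) (Fin 2) (Fin 2)) (matL j (Fin 2) (Fin 2) J)
      (matL j (Fin 2) (Fin 2) J) (matL j (Fin 2) (Fin 2) J)
      (fun a b c => matL_assoc a b c) _ _ _)
  P_act a y := f_ext T (by
    change cP k _ (cMul k (matL j (Fin 2) (Fin 2) J) (qv C wt wt a) (fv T wt β y)) = _
    exact cMul_P k (matL j (Fin 2) (Fin 2) J) _ _)
  D_act a y := f_ext T (by
    change cD k _ (cMul k (matL j (Fin 2) (Fin 2) J) (qv C wt wt a) (fv T wt β y)) = _
    exact cMul_D k (matL j (Fin 2) (Fin 2) J) _ _)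

@[simp] theorem fv_fLA (T : PS C j) (β : J → ℤ) (a : (AA C).V) (y : (fSD T wt β).V) :
    fv T wt β ((fLA T β).act a y)
      = cMul k (matL j (Fin 2) (Fin 2) J) (qv C wt wt a) (fv T wt β y) := rfl

/-- right action of `AA C` on Čech matrices over `F` -/
def fRA (T : PS C j) (α : I → ℤ) : RA (AA C) (fSD T α wt) where
  act := fR T α wt wt
  act_mul y a b := f_ext T (by
    change cMul k (matR j I (Fin 2) (Fin 2))
        (cMul k (matR j I (Fin 2) (Fin 2)) (fv T α wt y) (qv C wt wt a)) (qv C wt wt b)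
      = cMul k (matR j I (Fin 2) (Fin 2)) (fv T α wt y)
        (cMul k (matMul k R (Fin 2) (Fin 2) (Fin 2)) (qv C wt wt a) (qv C wt wt b))
    exact cMul_assoc k (matR j I (Fin 2) (Fin 2)) (matR j I (Fin 2) (Fin 2))
      (matMul k R (Fin 2) (Fin 2) (Fin 2)) (matR j I (Fin 2) (Fin 2))
      (fun a b c => matR_assoc a b c) _ _ _)
  P_act y a := f_ext T (by
    change cP k _ (cMul k (matR j I (Fin 2) (Fin 2)) (fv T α wt y) (qv C wt wt a)) = _
    exact cMul_P k (matR j I (Fin 2) (Fin 2)) _ _)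
  D_act y a := f_ext T (by
    change cD k _ (cMul k (matR j I (Fin 2) (Fin 2)) (fv T α wt y) (qv C wt wt a)) = _
    exact cMul_D k (matR j I (Fin 2) (Fin 2)) _ _)

@[simp] theorem fv_fRA (T : PS C j) (α : I → ℤ) (y : (fSD T α wt).V) (a : (AA C).V) :
    fv T α wt ((fRA T α).act y a)
      = cMul k (matR j I (Fin 2) (Fin 2)) (fv T α wt y) (qv C wt wt a) := rfl

/-- the dg bimodule of Čech matrices over `F` -/
def fBi (T : PS C j) : Bi (AA C) (AA C) (fSD T wt wt) where
  l := fLA T wt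
  r := fRA T wt
  lr a x b := f_ext T (by
    change cMul k (matR j (Fin 2) (Fin 2) (Fin 2))
        (cMul k (matL j (Fin 2) (Fin 2) (Fin 2)) (qv C wt wt a) (fv T wt wt x)) (qv C wt wt b)
      = cMul k (matL j (Fin 2) (Fin 2) (Fin 2)) (qv C wt wt a)
        (cMul k (matR j (Fin 2) (Fin 2) (Fin 2)) (fv T wt wt x) (qv C wt wt b))
    exact cMul_assoc k (matL j (Fin 2) (Fin 2) (Fin 2)) (matR j (Fin 2) (Fin 2) (Fin 2))
      (matR j (Fin 2) (Fin 2) (Fin 2)) (matL j (Fin 2) (Fin 2) (Fin 2))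
      (fun a b c => matLR_assoc a b c) _ _ _)

end

section

variable (C : QRing k t R)

theorem qv_sub_P' {α : I → ℤ} {β : J → ℤ} (f : (qSD C α β).V) :
    qv C α β (f - (qSD C α β).P f) = qv C α β f - cP k _ (qv C α β f) := rfl

@[simp] theorem qv_qLA (β : J → ℤ) (a : (AA C).V) (y : (qSD C wt β).V) :
    qv C wt β ((qLA C β).act a y)
      = cMul k (matMul k R (Fin 2) (Fin 2) J) (qv C wt wt a) (qv C wt β y) := rfl

end

end H36.QX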