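import Pool.Agent.H36.QX.Base

/-!
# Mul : membership and products in the chart `x ≠ 0` and in the filtration `Y n`
-/

set_option autoImplicit false

namespace H36.QX

open H36.NX
namespace QRing

variable {k : Type} [Field k] {t : k} {R : Type} [CommRing R] [Algebra k R]

theorem Mul_X_eq (C : QRing k t R) :
    C.X = Submodule.span k (C.bas '' {q : ℤ × Fin 2 | 0 ≤ q.1}) := by
  unfold X
  congr 1
  ext r
  constructor
  · rintro ⟨p, rfl⟩
    exact ⟨((p.1 : ℤ), p.2), Int.natCast_nonneg _, rfl⟩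
  · rintro ⟨⟨m, a⟩, hm, rfl⟩
    have hm' : 0 ≤ m := hm
    refine ⟨(m.toNat, a), ?_⟩
    simp only
    rw [Int.toNat_of_nonneg hm']

theorem Mul_Y_eq (C : QRing k t R) (n : ℤ) :
    C.Y n = Submodule.span k (C.bas '' {q : ℤ × Fin 2 | q.1 + 2 * ((q.2 : ℕ) : ℤ) ≤ n}) := by
  unfold Y
  congr 1
  ext r
  constructor
  · rintro ⟨p, rfl⟩
    refine ⟨(n - 2 * ((p.2 : ℕ) : ℤ) - (p.1 : ℤ), p.2), ?_, rfl⟩
    simp only [Set.mem_ofPred_eq]
    omega
  · rintro ⟨⟨m, a⟩, hm, rfl⟩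
    have hm' : m + 2 * ((a : ℕ) : ℤ) ≤ n := hm
    refine ⟨((n - 2 * ((a : ℕ) : ℤ) - m).toNat, a), ?_⟩
    simp only
    rw [Int.toNat_of_nonneg (by omega)]
    congr 2
    omega

theorem mem_X_iff (C : QRing k t R) (r : R) :
    r ∈ C.X ↔ ∀ (m : ℤ) (a : Fin 2), m < 0 → C.bas.repr r (m, a) = 0 := by
  rw [Mul_X_eq, Module.Basis.mem_span_image]
  constructor
  · intro h m a hm
    by_contra hc
    have h1 : (m, a) ∈ (C.bas.repr r).support := Finsupp.mem_support_iff.2 hc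
    have h2 := h (Finset.mem_coe.2 h1)
    have h3 : 0 ≤ m := h2
    omega
  · intro h q hq
    have h1 := Finsupp.mem_support_iff.1 (Finset.mem_coe.1 hq)
    by_contra hc
    refine h1 (h q.1 q.2 ?_)
    exact not_le.1 hc

theorem mem_Y_iff (C : QRing k t R) (n : ℤ) (r : R) :
    r ∈ C.Y n ↔ ∀ (m : ℤ) (a : Fin 2), n < m + 2 * ((a : ℕ) : ℤ) → C.bas.repr r (m, a) = 0 := by
  rw [Mul_Y_eq, Module.Basis.mem_span_image]
  constructor
  · intro h m a hm
    by_contra hc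
    have h1 : (m, a) ∈ (C.bas.repr r).support := Finsupp.mem_support_iff.2 hc
    have h2 := h (Finset.mem_coe.2 h1)
    have h3 : m + 2 * ((a : ℕ) : ℤ) ≤ n := h2
    omega
  · intro h q hq
    have h1 := Finsupp.mem_support_iff.1 (Finset.mem_coe.1 hq)
    by_contra hc
    refine h1 (h q.1 q.2 ?_)
    exact not_le.1 hc

theorem bas_mem_X (C : QRing k t R) (m : ℤ) (a : Fin 2) (h : 0 ≤ m) : C.bas (m, a) ∈ C.X := by
  rw [Mul_X_eq]
  exact Submodule.subset_span ⟨(m, a), h, rfl⟩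

theorem bas_mem_Y (C : QRing k t R) (n m : ℤ) (a : Fin 2) (h : m + 2 * ((a : ℕ) : ℤ) ≤ n) :
    C.bas (m, a) ∈ C.Y n := by
  rw [Mul_Y_eq]
  exact Submodule.subset_span ⟨(m, a), h, rfl⟩

theorem Mul_bas (C : QRing k t R) (m : ℤ) (a : ℕ) (ha : a < 2) :
    C.bas (m, ⟨a, ha⟩) = ((C.u ^ m : Rˣ) : R) * C.w ^ a := C.bas_eq _ _

theorem Mul_bas0 (C : QRing k t R) (m : ℤ) :
    C.bas (m, 0) = ((C.u ^ m : Rˣ) : R) := by
  rw [C.bas_eq]; simp

theorem Mul_bas1 (C : QRing k t R) (m : ℤ) :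
    C.bas (m, 1) = ((C.u ^ m : Rˣ) : R) * C.w := by
  rw [C.bas_eq]; simp

theorem Mul_upow_add (C : QRing k t R) (m : ℤ) (j : ℕ) :
    ((C.u ^ (m + (j : ℤ)) : Rˣ) : R) = ((C.u ^ m : Rˣ) : R) * (C.u : R) ^ j := by
  rw [zpow_add, zpow_natCast, Units.val_mul, Units.val_pow_eq_pow_val]

/-- multiplication by `Q` -/
theorem Mul_Q (C : QRing k t R) (m : ℤ) (x : R) :
    ((C.u ^ m : Rˣ) : R) * (C.Q * x) = ((C.u ^ (m + ((2 : ℕ) : ℤ)) : Rˣ) : R) * x
      + ((C.u ^ (m + ((1 : ℕ) : ℤ)) : Rˣ) : R) * x + t • (((C.u ^ m : Rˣ) : R) * x) := by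
  rw [Mul_upow_add, Mul_upow_add, C.Q_eq]
  simp only [Algebra.smul_def]
  ring

/-- reduction of `u^m w^(2 + j)` -/
theorem Mul_wp (C : QRing k t R) (m : ℤ) (j : ℕ) :
    ((C.u ^ m : Rˣ) : R) * C.w ^ (2 + j) = ((C.u ^ m : Rˣ) : R) * (C.Q * C.w ^ (j + 1))
      + (t + 1) • (((C.u ^ m : Rˣ) : R) * (C.Q * (C.Q * C.w ^ j)))
      + ((C.u ^ m : Rˣ) : R) * (C.Q * C.w ^ j) := by
  rw [pow_add C.w 2 j, C.rel']
  simp only [Algebra.smul_def]
  ring

/-- `Q u^m w^j` in a submodule which contains the relevant elements -/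
theorem Mul_Q_mem (C : QRing k t R) (P : Submodule k R) (m : ℤ) (x : R)
    (h0 : ((C.u ^ m : Rˣ) : R) * x ∈ P) (h1 : ((C.u ^ (m + ((1 : ℕ) : ℤ)) : Rˣ) : R) * x ∈ P)
    (h2 : ((C.u ^ (m + ((2 : ℕ) : ℤ)) : Rˣ) : R) * x ∈ P) :
    ((C.u ^ m : Rˣ) : R) * (C.Q * x) ∈ P := by
  rw [Mul_Q]
  exact P.add_mem (P.add_mem h2 h1) (P.smul_mem _ h0)

/-- `u^m w^j` in a submodule which contains the relevant basis elements -/
theorem Mul_upw_mem (C : QRing k t R) (P : Submodule k R) (m : ℤ) (j : ℕ)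
    (h : ∀ (m' : ℤ) (a : Fin 2), m ≤ m' → m' + 2 * ((a : ℕ) : ℤ) ≤ m + 2 * (j : ℤ) →
      C.bas (m', a) ∈ P) : ((C.u ^ m : Rˣ) : R) * C.w ^ j ∈ P := by
  induction j using Nat.strong_induction_on generalizing m with
  | _ j ih =>
    by_cases hj : j < 2
    · rw [← Mul_bas C m j hj]
      exact h _ _ le_rfl le_rfl
    · obtain ⟨i, rfl⟩ := Nat.exists_eq_add_of_le (not_lt.1 hj)
      have h1 : ∀ m' : ℤ, m ≤ m' → m' + 2 * ((i + 1 : ℕ) : ℤ) ≤ m + 2 * ((2 + i : ℕ) : ℤ) →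
          ((C.u ^ m' : Rˣ) : R) * C.w ^ (i + 1) ∈ P := fun m' h2 h3 =>
        ih (i + 1) (by omega) m' fun m'' a h4 h5 => h m'' a (by omega) (by omega)
      have h0 : ∀ m' : ℤ, m ≤ m' → m' + 2 * ((i : ℕ) : ℤ) ≤ m + 2 * ((2 + i : ℕ) : ℤ) →
          ((C.u ^ m' : Rˣ) : R) * C.w ^ i ∈ P := fun m' h2 h3 =>
        ih i (by omega) m' fun m'' a h4 h5 => h m'' a (by omega) (by omega)
      have hQ : ∀ m' : ℤ, m ≤ m' → m' + 2 + 2 * ((i : ℕ) : ℤ) ≤ m + 2 * ((2 + i : ℕ) : ℤ) →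
          ((C.u ^ m' : Rˣ) : R) * (C.Q * C.w ^ i) ∈ P := fun m' h2 h3 =>
        Mul_Q_mem C P m' _ (h0 _ (by push_cast at h3 ⊢; omega) (by push_cast at h3 ⊢; omega))
          (h0 _ (by push_cast at h3 ⊢; omega) (by push_cast at h3 ⊢; omega))
          (h0 _ (by push_cast at h3 ⊢; omega) (by push_cast at h3 ⊢; omega))
      rw [Mul_wp]
      refine P.add_mem (P.add_mem ?_ (P.smul_mem _ ?_)) ?_
      · exact Mul_Q_mem C P m _ (h1 _ (by push_cast; omega) (by push_cast; omega))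
          (h1 _ (by push_cast; omega) (by push_cast; omega))
          (h1 _ (by push_cast; omega) (by push_cast; omega))
      · exact Mul_Q_mem C P m _ (hQ _ (by push_cast; omega) (by push_cast; omega))
          (hQ _ (by push_cast; omega) (by push_cast; omega))
          (hQ _ (by push_cast; omega) (by push_cast; omega))
      · exact hQ _ (by omega) (by push_cast; omega)

theorem Mul_bas_mul (C : QRing k t R) (m n : ℤ) (a b : Fin 2) :
    C.bas (m, a) * C.bas (n, b) =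
      ((C.u ^ (m + n) : Rˣ) : R) * C.w ^ ((a : ℕ) + (b : ℕ)) := by
  rw [C.bas_eq, C.bas_eq, zpow_add, Units.val_mul, pow_add]
  ring

theorem one_mem_X (C : QRing k t R) : (1 : R) ∈ C.X := by
  have h := bas_mem_X C 0 0 le_rfl
  rw [Mul_bas0] at h
  simpa using h

theorem u_mem_X (C : QRing k t R) : (C.u : R) ∈ C.X := by
  have h := bas_mem_X C 1 0 (by norm_num)
  rw [Mul_bas0] at h
  simpa using h

theorem w_mem_X (C : QRing k t R) : C.w ∈ C.X := by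
  have h := bas_mem_X C 0 1 le_rfl
  rw [Mul_bas1] at h
  simpa using h

theorem Y_mono (C : QRing k t R) {m n : ℤ} (h : m ≤ n) : C.Y m ≤ C.Y n := by
  intro r hr
  rw [mem_Y_iff] at hr ⊢
  exact fun m' a hm => hr m' a (lt_of_le_of_lt h hm)

theorem upow_mem_Y (C : QRing k t R) {m n : ℤ} (h : m ≤ n) : ((C.u ^ m : Rˣ) : R) ∈ C.Y n := by
  rw [← Mul_bas0]
  exact bas_mem_Y C n m 0 (by simpa using h)

theorem one_mem_Y (C : QRing k t R) {n : ℤ} (h : 0 ≤ n) : (1 : R) ∈ C.Y n := by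
  simpa using upow_mem_Y C h

theorem w_mem_Y (C : QRing k t R) {n : ℤ} (h : 2 ≤ n) : C.w ∈ C.Y n := by
  have h1 := bas_mem_Y C n 0 1 (by simpa using h)
  rw [Mul_bas1] at h1
  simpa using h1

theorem Q_mem_X (C : QRing k t R) : C.Q ∈ C.X := by
  have h := Mul_Q_mem C C.X 0 1 (by rw [mul_one]; simpa using one_mem_X C)
    (by rw [mul_one]; simpa using u_mem_X C) (by
      rw [mul_one]
      have h1 := bas_mem_X C 2 0 (by norm_num)
      rw [Mul_bas0] at h1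
      simpa using h1)
  simpa using h

theorem Q_mem_Y (C : QRing k t R) {n : ℤ} (h : 2 ≤ n) : C.Q ∈ C.Y n := by
  have h := Mul_Q_mem C (C.Y n) 0 1 (by rw [mul_one]; exact upow_mem_Y C (by omega))
    (by rw [mul_one]; exact upow_mem_Y C (by push_cast; omega))
    (by rw [mul_one]; exact upow_mem_Y C (by push_cast; omega))
  simpa using h

/-- the chart `x ≠ 0` is closed under products -/
theorem mul_mem_X (C : QRing k t R) {r s : R} (hr : r ∈ C.X) (hs : s ∈ C.X) : r * s ∈ C.X := by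
  have h1 : C.X * C.X ≤ C.X := by
    conv_lhs => rw [Mul_X_eq, Submodule.span_mul_span]
    rw [Submodule.span_le]
    rintro _ ⟨_, ⟨⟨m, a⟩, hm, rfl⟩, _, ⟨⟨n, b⟩, hn, rfl⟩, rfl⟩
    have hm' : 0 ≤ m := hm
    have hn' : 0 ≤ n := hn
    change C.bas (m, a) * C.bas (n, b) ∈ C.X
    rw [Mul_bas_mul]
    exact Mul_upw_mem C C.X _ _ fun m' c h1 _ => bas_mem_X C m' c (by omega)
  exact h1 (Submodule.mul_mem_mul hr hs)

/-- the filtration is multiplicative: `w^2` has degree `≤ 4` -/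
theorem mul_mem_Y (C : QRing k t R) {m n : ℤ} {r s : R} (hr : r ∈ C.Y m) (hs : s ∈ C.Y n) :
    r * s ∈ C.Y (m + n) := by
  have h1 : C.Y m * C.Y n ≤ C.Y (m + n) := by
    rw [Mul_Y_eq C m, Mul_Y_eq C n, Submodule.span_mul_span, Submodule.span_le]
    rintro _ ⟨_, ⟨⟨m1, a⟩, hm, rfl⟩, _, ⟨⟨n1, b⟩, hn, rfl⟩, rfl⟩
    have hm' : m1 + 2 * ((a : ℕ) : ℤ) ≤ m := hm
    have hn' : n1 + 2 * ((b : ℕ) : ℤ) ≤ n := hn
    change C.bas (m1, a) * C.bas (n1, b) ∈ C.Y (m + n)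
    rw [Mul_bas_mul]
    refine Mul_upw_mem C _ _ _ fun m' c _ h2 => bas_mem_Y C _ m' c ?_
    push_cast at h2
    omega
  exact h1 (Submodule.mul_mem_mul hr hs)

theorem wpow_mem_X (C : QRing k t R) (j : ℕ) : C.w ^ j ∈ C.X := by
  have h := Mul_upw_mem C C.X 0 j fun m' c h1 _ => bas_mem_X C m' c h1
  simpa using h

theorem wpow_mem_Y (C : QRing k t R) {n : ℤ} (j : ℕ) (hj : 2 * (j : ℤ) ≤ n) : C.w ^ j ∈ C.Y n := by
  have h := Mul_upw_mem C (C.Y n) 0 j fun m' c _ h2 => bas_mem_Y C n m' c (by omega)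
  simpa using h

theorem upow_mul_mem_Y_iff (C : QRing k t R) (j n : ℤ) (r : R) :
    ((C.u ^ j : Rˣ) : R) * r ∈ C.Y (n + j) ↔ r ∈ C.Y n := by
  constructor
  · intro h
    have h1 := mul_mem_Y C (upow_mem_Y C (le_refl (-j))) h
    rw [← mul_assoc, ← Units.val_mul, ← zpow_add, neg_add_cancel, zpow_zero, Units.val_one,
      one_mul] at h1
    have h2 : -j + (n + j) = n := by ring
    rwa [h2] at h1
  · intro h
    have h1 := mul_mem_Y C (upow_mem_Y C (le_refl j)) h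
    rwa [add_comm j n] at h1

theorem exists_mem_Y (C : QRing k t R) (r : R) : ∃ n : ℤ, r ∈ C.Y n := by
  have h : r ∈ Submodule.span k (Set.range C.bas) := by
    rw [C.bas.span_eq]; exact Submodule.mem_top
  induction h using Submodule.span_induction with
  | mem x hx =>
    obtain ⟨⟨m, a⟩, rfl⟩ := hx
    exact ⟨m + 2 * ((a : ℕ) : ℤ), bas_mem_Y C _ m a le_rfl⟩
  | zero => exact ⟨0, Submodule.zero_mem _⟩
  | add x y _ _ hx hy =>
    obtain ⟨m, hm⟩ := hx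
    obtain ⟨n, hn⟩ := hy
    exact ⟨max m n, Submodule.add_mem _ (Y_mono C (le_max_left m n) hm)
      (Y_mono C (le_max_right m n) hn)⟩
  | smul c x _ hx =>
    obtain ⟨m, hm⟩ := hx
    exact ⟨m, Submodule.smul_mem _ _ hm⟩

theorem exists_upow_mul_mem_X (C : QRing k t R) (r : R) :
    ∃ n : ℕ, ((C.u : R)) ^ n * r ∈ C.X := by
  have hmono : ∀ (x : R) (n n' : ℕ), n ≤ n' → (C.u : R) ^ n * x ∈ C.X →
      (C.u : R) ^ n' * x ∈ C.X := by
    intro x n n' hn hx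
    obtain ⟨d, rfl⟩ := Nat.exists_eq_add_of_le hn
    clear hn
    induction d with
    | zero => exact hx
    | succ d ih =>
      have h1 := mul_mem_X C (u_mem_X C) ih
      have h2 : (C.u : R) ^ (n + (d + 1)) * x = (C.u : R) * ((C.u : R) ^ (n + d) * x) := by ring
      rw [h2]
      exact h1
  have h : r ∈ Submodule.span k (Set.range C.bas) := by
    rw [C.bas.span_eq]; exact Submodule.mem_top
  induction h using Submodule.span_induction with
  | mem x hx =>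
    obtain ⟨⟨m, a⟩, rfl⟩ := hx
    refine ⟨m.natAbs, ?_⟩
    have h1 : (C.u : R) ^ m.natAbs * C.bas (m, a) = C.bas (m + (m.natAbs : ℤ), a) := by
      rw [C.bas_eq, C.bas_eq, Mul_upow_add]
      ring
    rw [h1]
    exact bas_mem_X C _ _ (by omega)
  | zero => exact ⟨0, by rw [mul_zero]; exact Submodule.zero_mem _⟩
  | add x y _ _ hx hy =>
    obtain ⟨m, hm⟩ := hx
    obtain ⟨n, hn⟩ := hy
    refine ⟨max m n, ?_⟩
    rw [mul_add]
    exact Submodule.add_mem _ (hmono x m _ (le_max_left m n) hm)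
      (hmono y n _ (le_max_right m n) hn)
  | smul c x _ hx =>
    obtain ⟨m, hm⟩ := hx
    refine ⟨m, ?_⟩
    rw [mul_smul_comm]
    exact Submodule.smul_mem _ _ hm

theorem eq_zero_of_mem_Y (C : QRing k t R) (r : R) (h : ∀ n : ℤ, r ∈ C.Y n) : r = 0 := by
  apply C.bas.repr.injective
  rw [map_zero]
  ext ⟨m, a⟩
  exact (mem_Y_iff C _ r).1 (h (m + 2 * ((a : ℕ) : ℤ) - 1)) m a (by omega)

end QRing
end H36.QX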