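import Mathlib

/-!
# Base : the coordinate ring of the overlap of the two charts of the curve of genus one

MP_eadf0f_ag, example half in characteristic two. `k` is a field of characteristic two, `t` an element of
`k`, `Q = u^2 + u + t` and `R = k[u, 1/u][w] / (w^2 - Q w - (t + 1) Q^2 - Q)` with its `k`-basis `u^m w^a`
(`m` an integer, `a = 0, 1`). The element `w` has weight two. The sections of the chart `x ≠ 0` are spanned by
the `u^m w^a`, `m ≥ 0`, those of `O(n)` over the chart `y ≠ 0` (trivialised by `x^n`) by the `u^m w^a`,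
`m ≤ n - 2 a`.
-/

set_option autoImplicit false

namespace H36.NX
end H36.NX

namespace H36.QX

/-- A commutative `k`-algebra `R` with a unit `u` and an element `w` with
`w^2 = Q w + (t + 1) Q^2 + Q`, `Q = u^2 + u + t`, with basis `u^m w^a`. -/
structure QRing (k : Type) [Field k] (t : k) (R : Type) [CommRing R] [Algebra k R] where
  /-- `u = y / x` -/
  u : Rˣ
  /-- `w = z / x^2` -/
  w : R
  /-- the basis `u^m w^a` -/
  bas : Module.Basis (ℤ × Fin 2) k R
  bas_eq : ∀ (m : ℤ) (a : Fin 2), bas (m, a) = ((u ^ m : Rˣ) : R) * w ^ (a : ℕ)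
  rel : w ^ 2 = ((u : R) ^ 2 + (u : R) + algebraMap k R t) * w
    + algebraMap k R (t + 1) * ((u : R) ^ 2 + (u : R) + algebraMap k R t) ^ 2
    + ((u : R) ^ 2 + (u : R) + algebraMap k R t)

namespace QRing

variable {k : Type} [Field k] {t : k} {R : Type} [CommRing R] [Algebra k R]

/-- the element `Q = u^2 + u + t` -/
noncomputable def Q (C : QRing k t R) : R := (C.u : R) ^ 2 + (C.u : R) + algebraMap k R t

theorem Q_eq (C : QRing k t R) : C.Q = (C.u : R) ^ 2 + (C.u : R) + algebraMap k R t := rfl

theorem rel' (C : QRing k t R) :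
    C.w ^ 2 = C.Q * C.w + algebraMap k R (t + 1) * C.Q ^ 2 + C.Q := C.rel

/-- functions on the chart `x ≠ 0` -/
noncomputable def X (C : QRing k t R) : Submodule k R :=
  Submodule.span k (Set.range fun p : ℕ × Fin 2 => C.bas ((p.1 : ℤ), p.2))

/-- sections of `O(n)` on the chart `y ≠ 0`, divided by `x^n` -/
noncomputable def Y (C : QRing k t R) (n : ℤ) : Submodule k R :=
  Submodule.span k (Set.range fun p : ℕ × Fin 2 =>
    C.bas (n - 2 * ((p.2 : ℕ) : ℤ) - (p.1 : ℤ), p.2))

/-- global sections of `O(n)`, divided by `x^n` -/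
noncomputable def B (C : QRing k t R) (n : ℤ) : Submodule k R := C.X ⊓ C.Y n

end QRing

/-- The index hypothesis: every point of the curve in a finite extension has even degree. -/
def IndexT (k : Type) [Field k] (t : k) : Prop :=
  ∀ (L : Type) [Field L] [Algebra k L] [FiniteDimensional k L] (x y z q : L),
    (x ≠ 0 ∨ y ≠ 0 ∨ z ≠ 0) →
    q = y ^ 2 + x * y + algebraMap k L t * x ^ 2 →
    z ^ 2 = q * z + algebraMap k L (t + 1) * q ^ 2 + x ^ 2 * q →
    2 ∣ Module.finrank k L

/-- the residue field `K = k(ρ)`, `ρ^2 = ρ + t + 1`, of the only point `P` with `x = 0` (value of `w / u^2`) -/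
structure QRoot (k : Type) [Field k] (t : k) (K : Type) [Field K] [Algebra k K] where
  ρ : K
  sq : ρ ^ 2 = ρ + algebraMap k K (t + 1)
  basK : Module.Basis (Fin 2) k K
  basK_eq : ∀ i : Fin 2, basK i = ρ ^ (i : ℕ)

/-- the residue field `L = k(r)`, `r^2 = r + t`, of the ramification point `P0 : Q = 0, w = 0` (value of `u`) -/
structure QPt (k : Type) [Field k] (t : k) (L : Type) [Field L] [Algebra k L] where
  r : L
  sq : r ^ 2 = r + algebraMap k L t
  basL : Module.Basis (Fin 2) k L
  basL_eq : ∀ i : Fin 2, basL i = r ^ (i : ℕ)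

end H36.QX
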