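import Pool.Agent.H36.QX.Bim

/-!
# BimK : the bimodule `kap` of the point `x = 0` (matrices over `K`), the column module `K^2`, `V n = K^2 ⊗ P n`
-/

set_option autoImplicit false

open NC
open scoped TensorProduct

namespace H36.QX

open H36.NX
variable {k : Type} [Field k] {t : k} {R : Type} [CommRing R] [Algebra k R]
  {K : Type} [Field K] [Algebra k K] {I J L : Type}

/-- matrices over `K`, with zero differential, even -/
def kSD (k K : Type) [Field k] [Field K] [Algebra k K] (I J : Type) : SD k where
  V := Matrix I J K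
  D := 0
  P := LinearMap.id
  DD _ := rfl
  PP _ := rfl
  DP v := by simp

theorem kSD_D (I J : Type) (v : (kSD k K I J).V) : (kSD k K I J).D v = 0 := rfl
theorem kSD_P (I J : Type) (v : (kSD k K I J).V) : (kSD k K I J).P v = v := rfl
theorem kSD_E (I J : Type) (v : (kSD k K I J).V) : (kSD k K I J).E v = v := by
  rw [SD.E_apply, kSD_P, add_sub_cancel_right]

/-- product of matrices over `K`, on the bundled objects -/
noncomputable def kMul (k K : Type) [Field k] [Field K] [Algebra k K] (I J L : Type) [Fintype J] :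
    (kSD k K I J).V →ₗ[k] (kSD k K J L).V →ₗ[k] (kSD k K I L).V :=
  matMul k K I J L

theorem kMul_assoc (I J L M : Type) [Fintype J] [Fintype L] (a : (kSD k K I J).V)
    (b : (kSD k K J L).V) (c : (kSD k K L M).V) :
    kMul k K I L M (kMul k K I J L a b) c = kMul k K I J M a (kMul k K J L M b c) :=
  matMul_assoc' a b c

/-- the value at the point `x = 0` of an element of `A` -/
noncomputable def aVal (C : QRing k t R) (E : QRoot k t K) :
    (AA C).V →ₗ[k] (kSD k K (Fin 2) (Fin 2)).V :=
  (val C E wt wt).comp (av C)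

theorem aVal_mul (C : QRing k t R) (E : QRoot k t K) (a b : (AA C).V) :
    aVal C E (a * b) = kMul k K (Fin 2) (Fin 2) (Fin 2) (aVal C E a) (aVal C E b) :=
  val_mul C E wt wt wt (av_mem C a) (av_mem C b)

theorem aVal_P (C : QRing k t R) (E : QRoot k t K) (a : (AA C).V) :
    aVal C E ((AA C).P a) = aVal C E a := by
  change val C E wt wt (av C ((AA C).P a)) = _
  rw [av_P, val_P]
  rfl

theorem aVal_D (C : QRing k t R) (E : QRoot k t K) (a : (AA C).V) :
    aVal C E ((AA C).D a) = 0 := by
  change val C E wt wt (av C ((AA C).D a)) = _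
  rw [av_D, val_D]
  rfl

theorem kMul_aVal_one (C : QRing k t R) (E : QRoot k t K) (c : (kSD k K (Fin 2) J).V) :
    kMul k K (Fin 2) (Fin 2) J (aVal C E 1) c = c := by
  have h : aVal C E 1 = (1 : Matrix (Fin 2) (Fin 2) K) := val_one C E wt
  rw [h]
  exact Matrix.one_mul (M := (c : Matrix (Fin 2) J K))

theorem kMul_one_aVal (C : QRing k t R) (E : QRoot k t K) (c : (kSD k K I (Fin 2)).V) :
    kMul k K I (Fin 2) (Fin 2) c (aVal C E 1) = c := by
  have h : aVal C E 1 = (1 : Matrix (Fin 2) (Fin 2) K) := val_one C E wt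
  rw [h]
  exact Matrix.mul_one (M := (c : Matrix I (Fin 2) K))

/-- the left action of `A` on matrices over `K`, through the value at the point -/
noncomputable def kLA (C : QRing k t R) (E : QRoot k t K) (J : Type) :
    LA (AA C) (kSD k K (Fin 2) J) where
  act := (kMul k K (Fin 2) (Fin 2) J).comp (aVal C E)
  mul_act a b y := by
    rw [LinearMap.comp_apply, aVal_mul, kMul_assoc]
    rfl
  P_act a y := by
    rw [kSD_P, kSD_P, sub_self, map_zero, add_zero, LinearMap.comp_apply, LinearMap.comp_apply,
      aVal_P]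
  D_act a y := by
    rw [kSD_D, kSD_D, map_zero, add_zero, LinearMap.comp_apply, aVal_D, map_zero]
    rfl

/-- the right action of `A` on matrices over `K`, through the value at the point -/
noncomputable def kRA (C : QRing k t R) (E : QRoot k t K) (I : Type) :
    RA (AA C) (kSD k K I (Fin 2)) where
  act := (kMul k K I (Fin 2) (Fin 2)).compl₂ (aVal C E)
  act_mul x a b := by
    rw [LinearMap.compl₂_apply, LinearMap.compl₂_apply, LinearMap.compl₂_apply, aVal_mul,
      kMul_assoc]
  P_act x a := by
    rw [kSD_P, kSD_P, sub_self, map_zero, LinearMap.zero_apply, add_zero, LinearMap.compl₂_apply,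
      LinearMap.compl₂_apply, aVal_P]
  D_act x a := by
    rw [kSD_D, kSD_D, map_zero, LinearMap.zero_apply, zero_add, LinearMap.compl₂_apply, aVal_D,
      map_zero]

/-- the bimodule of the point -/
noncomputable def kap (C : QRing k t R) (E : QRoot k t K) : BMod (AA C) (AA C) where
  N := kSD k K (Fin 2) (Fin 2)
  b :=
    { l := kLA C E (Fin 2)
      r := kRA C E (Fin 2)
      lr := fun a x b => by
        change kMul k K (Fin 2) (Fin 2) (Fin 2) (kMul k K (Fin 2) (Fin 2) (Fin 2) (aVal C E a) x)
            (aVal C E b) = kMul k K (Fin 2) (Fin 2) (Fin 2) (aVal C E a)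
              (kMul k K (Fin 2) (Fin 2) (Fin 2) x (aVal C E b))
        rw [kMul_assoc] }
  one_l := fun y => kMul_aVal_one C E y
  r_one := fun y => kMul_one_aVal C E y

/-- the bimodule `V n = K^2 ⊗ P n` -/
noncomputable def Vb (C : QRing k t R) (E : QRoot k t K) (n : ℤ) : BMod (AA C) (AA C) where
  N := (kSD k K (Fin 2) Unit).tens (Pr C n)
  b := Bi.tensLR (kLA C E Unit) (qRA C (fun _ : Unit => (0 : ℤ)) n)
  one_l := fun v => by
    refine tens_ext (f := ((kLA C E Unit).tensL (Pr C n)).act 1)
      (g := LinearMap.id) (fun x y => ?_) v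
    rw [LA.tensL_act]
    change kMul k K (Fin 2) (Fin 2) Unit (aVal C E 1) x ⊗ₜ[k] y = x ⊗ₜ[k] y
    rw [kMul_aVal_one]
  r_one := fun v => by
    refine tens_ext (f := ((qRA C (fun _ : Unit => (0 : ℤ)) n).tensR (kSD k K (Fin 2) Unit)).act.flip 1)
      (g := LinearMap.id) (fun x y => ?_) v
    change ((qRA C (fun _ : Unit => (0 : ℤ)) n).tensR (kSD k K (Fin 2) Unit)).act (x ⊗ₜ[k] y) 1 = _
    rw [RA.tensR_act, qRA_one]
    rfl

end H36.QX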