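import Pool.Agent.H36.QX.Mods
import Pool.Agent.H36.QX.QD
import Pool.Agent.H36.NX.TensPi

/-!
# KW : the bimodules `K m n = L m ⊗ P n`, the map `phi : K m n → K (m+1) (n+1)` and the cup product
`psi : K m n → W (m+n)`; components (step S4)

WARNING: never let Lean unify `(qSD C α β).V` with different weights (it may run forever); use `q_ext`, `qv_*`.
-/

set_option autoImplicit false

open NC
open scoped TensorProduct

namespace H36.QX

open H36.NX
variable {k : Type} [Field k] {t : k} {R : Type} [CommRing R] [Algebra k R]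
  {C : QRing k t R} {D : Type} [CommRing D] [Algebra k D] {I J L M : Type}

/-- the complex `QD α β` -/
noncomputable def dSD (W : DblRing k C D) (α : I → ℤ) (β : J → ℤ) : SD k where
  V := QD W α β
  D := (cD k (Matrix I J D)).restrict (fun a ha => cD_mem_QD W α β a ha)
  P := (cP k (Matrix I J D)).restrict (fun a ha => cP_mem_QD W α β a ha)
  DD v := Subtype.ext ((cSD k (Matrix I J D)).DD v.1)
  PP v := Subtype.ext ((cSD k (Matrix I J D)).PP v.1)
  DP v := Subtype.ext ((cSD k (Matrix I J D)).DP v.1)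

/-- the underlying Čech matrix -/
noncomputable def dv (W : DblRing k C D) (α : I → ℤ) (β : J → ℤ) :
    (dSD W α β).V →ₗ[k] (Pc → Matrix I J D) where
  toFun f := Subtype.val (p := fun x => x ∈ QD W α β) f
  map_add' _ _ := rfl
  map_smul' _ _ := rfl

/-- constructor -/
def dmk (W : DblRing k C D) (α : I → ℤ) (β : J → ℤ) (f : Pc → Matrix I J D)
    (hf : f ∈ QD W α β) : (dSD W α β).V :=
  Subtype.mk (p := fun x => x ∈ QD W α β) f hf

@[simp] theorem dv_dmk (W : DblRing k C D) (α : I → ℤ) (β : J → ℤ) (f : Pc → Matrix I J D)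
    (hf : f ∈ QD W α β) : dv W α β (dmk W α β f hf) = f := rfl

theorem dv_mem (W : DblRing k C D) {α : I → ℤ} {β : J → ℤ} (f : (dSD W α β).V) :
    dv W α β f ∈ QD W α β :=
  Subtype.property (p := fun x => x ∈ QD W α β) f

theorem d_ext (W : DblRing k C D) {α : I → ℤ} {β : J → ℤ} {f g : (dSD W α β).V}
    (h : dv W α β f = dv W α β g) : f = g :=
  Subtype.ext (p := fun x => x ∈ QD W α β) h

@[simp] theorem dv_D (W : DblRing k C D) {α : I → ℤ} {β : J → ℤ} (f : (dSD W α β).V) :
    dv W α β ((dSD W α β).D f) = cD k _ (dv W α β f) := rfl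

@[simp] theorem dv_P (W : DblRing k C D) {α : I → ℤ} {β : J → ℤ} (f : (dSD W α β).V) :
    dv W α β ((dSD W α β).P f) = cP k _ (dv W α β f) := rfl

/-- `K m n = L m ⊗ P n`, entries in `O(m - i) ⊠ O(j + n)` -/
abbrev KK (C : QRing k t R) (m n : ℤ) : Type := (Lc C m).V ⊗[k] (Pr C n).V

/-- `x ⊗ y ↦ x ⊗ u y - u x ⊗ y` -/
noncomputable def phi (C : QRing k t R) (m n : ℤ) : KK C m n →ₗ[k] KK C (m + 1) (n + 1) :=
  TensorProduct.map (lIn C m) (rU C n) - TensorProduct.map (lU C m) (rIn C n)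

/-- the product `M.map l * N.map r` -/
noncomputable def lrMul (W : DblRing k C D) (I J L : Type) [Fintype J] :
    Matrix I J R →ₗ[k] Matrix J L R →ₗ[k] Matrix I L D :=
  LinearMap.mk₂ k (fun M N => M.map W.l * N.map W.r)
    (fun M M' N => by
      have : (M + M').map W.l = M.map W.l + M'.map W.l := by ext; simp
      rw [this, Matrix.add_mul])
    (fun c M N => by
      have : (c • M).map W.l = c • M.map W.l := by ext; simp
      rw [this, Matrix.smul_mul])
    (fun M N N' => by
      have : (N + N').map W.r = N.map W.r + N'.map W.r := by ext; simp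
      rw [this, Matrix.mul_add])
    (fun c M N => by
      have : (c • N).map W.r = c • N.map W.r := by ext; simp
      rw [this, Matrix.mul_smul])

@[simp] theorem lrMul_apply (W : DblRing k C D) [Fintype J] (M : Matrix I J R)
    (N : Matrix J L R) : lrMul W I J L M N = M.map W.l * N.map W.r := rfl

theorem lrMul_mem (W : DblRing k C D) (m n : ℤ) (f : Pc → Matrix (Fin 2) Unit R)
    (hf : f ∈ QQ C wt (fun _ : Unit => m)) (g : Pc → Matrix Unit (Fin 2) R)
    (hg : g ∈ QQ C (fun _ : Unit => (0 : ℤ)) (wtn n)) :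
    cMul k (lrMul W (Fin 2) Unit (Fin 2)) f g ∈ QD W wt (wtn (m + n)) := by
  intro s i j
  cases s with
  | X =>
    change (lrMul W (Fin 2) Unit (Fin 2) (f Pc.X) (g Pc.X)) i j ∈ W.X
    rw [lrMul_apply, Matrix.mul_apply]
    refine Submodule.sum_mem _ (fun l _ => ?_)
    exact W.mul_mem_X (W.l_mem_X (hf Pc.X i l)) (W.r_mem_X (hg Pc.X l j))
  | Y =>
    change (lrMul W (Fin 2) Unit (Fin 2) (f Pc.Y) (g Pc.Y)) i j ∈ W.Y (wtn (m + n) j - wt i)
    rw [lrMul_apply, Matrix.mul_apply]
    refine Submodule.sum_mem _ (fun l _ => ?_)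
    have h := W.mul_mem_Y (W.l_mem_Y (hf Pc.Y i l)) (W.r_mem_Y (hg Pc.Y l j))
    rwa [show m - wt i + (wtn n j - 0) = wtn (m + n) j - wt i by unfold wtn; ring] at h
  | R => exact Submodule.mem_top

/-- the cup product on pairs -/
noncomputable def psi₀ (W : DblRing k C D) (m n : ℤ) :
    (Lc C m).V →ₗ[k] (Pr C n).V →ₗ[k] (dSD W wt (wtn (m + n))).V :=
  LinearMap.mk₂ k (fun f g => dmk W wt (wtn (m + n))
      (cMul k (lrMul W (Fin 2) Unit (Fin 2)) (qv C wt (fun _ : Unit => m) f)
        (qv C (fun _ : Unit => (0 : ℤ)) (wtn n) g))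
      (lrMul_mem W m n _ (qv_mem C f) _ (qv_mem C g)))
    (fun f f' g => d_ext W (by
      change cMul k (lrMul W (Fin 2) Unit (Fin 2)) (qv C wt (fun _ : Unit => m) (f + f'))
          (qv C (fun _ : Unit => (0 : ℤ)) (wtn n) g)
        = cMul k (lrMul W (Fin 2) Unit (Fin 2)) (qv C wt (fun _ : Unit => m) f)
          (qv C (fun _ : Unit => (0 : ℤ)) (wtn n) g)
        + cMul k (lrMul W (Fin 2) Unit (Fin 2)) (qv C wt (fun _ : Unit => m) f')
          (qv C (fun _ : Unit => (0 : ℤ)) (wtn n) g)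
      rw [map_add, map_add, LinearMap.add_apply]))
    (fun c f g => d_ext W (by
      change cMul k (lrMul W (Fin 2) Unit (Fin 2)) (qv C wt (fun _ : Unit => m) (c • f))
          (qv C (fun _ : Unit => (0 : ℤ)) (wtn n) g)
        = c • cMul k (lrMul W (Fin 2) Unit (Fin 2)) (qv C wt (fun _ : Unit => m) f)
          (qv C (fun _ : Unit => (0 : ℤ)) (wtn n) g)
      rw [map_smul, map_smul, LinearMap.smul_apply]))
    (fun f g g' => d_ext W (by
      change cMul k (lrMul W (Fin 2) Unit (Fin 2)) (qv C wt (fun _ : Unit => m) f)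
          (qv C (fun _ : Unit => (0 : ℤ)) (wtn n) (g + g'))
        = cMul k (lrMul W (Fin 2) Unit (Fin 2)) (qv C wt (fun _ : Unit => m) f)
          (qv C (fun _ : Unit => (0 : ℤ)) (wtn n) g)
        + cMul k (lrMul W (Fin 2) Unit (Fin 2)) (qv C wt (fun _ : Unit => m) f)
          (qv C (fun _ : Unit => (0 : ℤ)) (wtn n) g')
      rw [map_add, map_add]))
    (fun c f g => d_ext W (by
      change cMul k (lrMul W (Fin 2) Unit (Fin 2)) (qv C wt (fun _ : Unit => m) f)
          (qv C (fun _ : Unit => (0 : ℤ)) (wtn n) (c • g))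
        = c • cMul k (lrMul W (Fin 2) Unit (Fin 2)) (qv C wt (fun _ : Unit => m) f)
          (qv C (fun _ : Unit => (0 : ℤ)) (wtn n) g)
      rw [map_smul, map_smul]))

/-- the cup product -/
noncomputable def psi (W : DblRing k C D) (m n : ℤ) :
    KK C m n →ₗ[k] (dSD W wt (wtn (m + n))).V :=
  TensorProduct.lift (psi₀ W m n)

theorem dv_psi_tmul (W : DblRing k C D) (m n : ℤ) (f : (Lc C m).V) (g : (Pr C n).V) :
    dv W wt (wtn (m + n)) (psi W m n (f ⊗ₜ[k] g))
      = cMul k (lrMul W (Fin 2) Unit (Fin 2)) (qv C wt (fun _ : Unit => m) f)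
          (qv C (fun _ : Unit => (0 : ℤ)) (wtn n) g) := by
  unfold psi
  rw [TensorProduct.lift.tmul]
  rfl

/-- entry of a column -/
noncomputable def lEnt (C : QRing k t R) (m : ℤ) (s : Pc) (i : Fin 2) : (Lc C m).V →ₗ[k] R where
  toFun f := qv C wt (fun _ : Unit => m) f s i ()
  map_add' _ _ := rfl
  map_smul' _ _ := rfl

/-- entry of a row -/
noncomputable def pEnt (C : QRing k t R) (n : ℤ) (s : Pc) (j : Fin 2) : (Pr C n).V →ₗ[k] R where
  toFun f := qv C (fun _ : Unit => (0 : ℤ)) (wtn n) f s () j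
  map_add' _ _ := rfl
  map_smul' _ _ := rfl

/-- the component `(s, i), (s', j)` -/
noncomputable def kcomp (C : QRing k t R) (m n : ℤ) (s : Pc) (i : Fin 2) (s' : Pc) (j : Fin 2) :
    KK C m n →ₗ[k] R ⊗[k] R :=
  TensorProduct.map (lEnt C m s i) (pEnt C n s' j)

/-- all entries of a column -/
private noncomputable def kwE (C : QRing k t R) (m : ℤ) : (Lc C m).V →ₗ[k] (Pc × Fin 2 → R) :=
  LinearMap.pi (fun a => lEnt C m a.1 a.2)

/-- all entries of a row -/
private noncomputable def kwE' (C : QRing k t R) (n : ℤ) : (Pr C n).V →ₗ[k] (Pc × Fin 2 → R) :=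
  LinearMap.pi (fun a => pEnt C n a.1 a.2)

private theorem kw_tcomp (C : QRing k t R) (m n : ℤ) (s : Pc) (i : Fin 2) (s' : Pc)
    (j : Fin 2) : tcomp (kwE C m) (kwE' C n) (s, i) (s', j) = kcomp C m n s i s' j := rfl

private theorem kwE_inj (C : QRing k t R) (m : ℤ) : Function.Injective (kwE C m) := by
  intro f g h
  apply q_ext C
  funext s
  ext i u
  exact congrFun h (s, i)

private theorem kwE'_inj (C : QRing k t R) (n : ℤ) : Function.Injective (kwE' C n) := by
  intro f g h
  apply q_ext C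
  funext s
  ext u j
  exact congrFun h (s, j)

theorem kcomp_injective (C : QRing k t R) (m n : ℤ) (z : KK C m n)
    (h : ∀ s i s' j, kcomp C m n s i s' j z = 0) : z = 0 := by
  refine tcomp_injective (kwE C m) (kwE' C n) (kwE_inj C m) (kwE'_inj C n) z ?_
  rintro ⟨s, i⟩ ⟨s', j⟩
  exact h s i s' j

theorem kcomp_mem (C : QRing k t R) (m n : ℤ) (z : KK C m n) (s : Pc) (i : Fin 2) (s' : Pc)
    (j : Fin 2) : kcomp C m n s i s' j z ∈ TT (C.pc s (m - wt i)) (C.pc s' (wtn n j)) := by
  refine tcomp_mem (kwE C m) (kwE' C n) (fun a => C.pc a.1 (m - wt a.2))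
    (fun b => C.pc b.1 (wtn n b.2)) ?_ ?_ z (s, i) (s', j)
  · intro p a
    exact qv_mem C p a.1 a.2 ()
  · intro p b
    have h := qv_mem C p b.1 () b.2
    rw [sub_zero] at h
    exact h

theorem kcomp_surjective (C : QRing k t R) (m n : ℤ)
    (F : Pc → Fin 2 → Pc → Fin 2 → R ⊗[k] R)
    (hF : ∀ s i s' j, F s i s' j ∈ TT (C.pc s (m - wt i)) (C.pc s' (wtn n j))) :
    ∃ z : KK C m n, ∀ s i s' j, kcomp C m n s i s' j z = F s i s' j := by
  have h1 : ∀ f : Pc × Fin 2 → R, (∀ a, f a ∈ C.pc a.1 (m - wt a.2)) → ∃ p, kwE C m p = f := by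
    intro f hf
    refine ⟨qmk C wt (fun _ : Unit => m) (fun s i _ => f (s, i)) (fun s i _ => hf (s, i)), ?_⟩
    funext a
    rfl
  have h2 : ∀ f : Pc × Fin 2 → R, (∀ b, f b ∈ C.pc b.1 (wtn n b.2)) → ∃ p, kwE' C n p = f := by
    intro f hf
    refine ⟨qmk C (fun _ : Unit => (0 : ℤ)) (wtn n) (fun s _ j => f (s, j))
      (fun s _ j => by rw [sub_zero]; exact hf (s, j)), ?_⟩
    funext a
    rfl
  obtain ⟨z, hz⟩ := tcomp_surjective (kwE C m) (kwE' C n) (fun a => C.pc a.1 (m - wt a.2))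
    (fun b => C.pc b.1 (wtn n b.2)) h1 h2 (fun a b => F a.1 a.2 b.1 b.2)
    (fun a b => hF a.1 a.2 b.1 b.2)
  exact ⟨z, fun s i s' j => hz (s, i) (s', j)⟩

theorem kcomp_phi (C : QRing k t R) (m n : ℤ) (z : KK C m n) (s : Pc) (i : Fin 2) (s' : Pc)
    (j : Fin 2) :
    kcomp C (m + 1) (n + 1) s i s' j (phi C m n z) = C.kz * kcomp C m n s i s' j z := by
  induction z using TensorProduct.induction_on with
  | zero => rw [map_zero, map_zero, map_zero, mul_zero]
  | tmul f g =>
    have h1 : lEnt C (m + 1) s i (lIn C m f) = lEnt C m s i f := rfl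
    have h2 : pEnt C (n + 1) s' j (rIn C n g) = pEnt C n s' j g := rfl
    have h3 : lEnt C (m + 1) s i (lU C m f) = (C.u : R) * lEnt C m s i f := rfl
    have h4 : pEnt C (n + 1) s' j (rU C n g) = (C.u : R) * pEnt C n s' j g := rfl
    unfold kcomp phi
    rw [LinearMap.sub_apply, map_sub, TensorProduct.map_tmul, TensorProduct.map_tmul,
      TensorProduct.map_tmul, TensorProduct.map_tmul, TensorProduct.map_tmul, h1, h2, h3, h4,
      QRing.kz, sub_mul, Algebra.TensorProduct.tmul_mul_tmul,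
      Algebra.TensorProduct.tmul_mul_tmul, one_mul, one_mul]
  | add x y hx hy => rw [map_add, map_add, map_add, hx, hy, mul_add]

theorem phi_injective (C : QRing k t R) (m n : ℤ) : Function.Injective (phi C m n) := by
  rw [injective_iff_map_eq_zero]
  intro z hz
  refine kcomp_injective C m n z fun s i s' j => ?_
  refine kz_mul_injective C _ ?_
  rw [← kcomp_phi, hz, map_zero]

private theorem kw_mul (W : DblRing k C D) (M : Matrix (Fin 2) Unit R) (N : Matrix Unit (Fin 2) R)
    (i j : Fin 2) : (M.map W.l * N.map W.r) i j = W.mu (M i () ⊗ₜ[k] N () j) := by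
  rw [Matrix.mul_apply, mu_tmul]
  simp

theorem psi_X (W : DblRing k C D) (m n : ℤ) (z : KK C m n) (i j : Fin 2) :
    dv W wt (wtn (m + n)) (psi W m n z) Pc.X i j = W.mu (kcomp C m n Pc.X i Pc.X j z) := by
  induction z using TensorProduct.induction_on with
  | zero => simp only [map_zero]; rfl
  | tmul f g =>
    rw [dv_psi_tmul, cMul_X, lrMul_apply, kw_mul]
    rfl
  | add x y hx hy => simp only [map_add, Pi.add_apply, Matrix.add_apply, hx, hy]

theorem psi_Y (W : DblRing k C D) (m n : ℤ) (z : KK C m n) (i j : Fin 2) :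
    dv W wt (wtn (m + n)) (psi W m n z) Pc.Y i j = W.mu (kcomp C m n Pc.Y i Pc.Y j z) := by
  induction z using TensorProduct.induction_on with
  | zero => simp only [map_zero]; rfl
  | tmul f g =>
    rw [dv_psi_tmul, cMul_Y, lrMul_apply, kw_mul]
    rfl
  | add x y hx hy => simp only [map_add, Pi.add_apply, Matrix.add_apply, hx, hy]

theorem psi_R (W : DblRing k C D) (m n : ℤ) (z : KK C m n) (i j : Fin 2) :
    dv W wt (wtn (m + n)) (psi W m n z) Pc.R i j = W.mu (kcomp C m n Pc.X i Pc.R j z)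
      + W.mu (kcomp C m n Pc.R i Pc.Y j z) := by
  induction z using TensorProduct.induction_on with
  | zero => simp only [map_zero, add_zero]; rfl
  | tmul f g =>
    rw [dv_psi_tmul, cMul_R, lrMul_apply, lrMul_apply, Matrix.add_apply, kw_mul, kw_mul]
    rfl
  | add x y hx hy =>
    simp only [map_add, Pi.add_apply, Matrix.add_apply, hx, hy]
    abel

end H36.QX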