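import Pool.Agent.H36.NX.GrSD
import Pool.Agent.H36.QX.HilbP
import Pool.Agent.H36.NX.ChiK

/-!
# ChiH : Euler characteristics in large degree vanish in `k` (characteristic 2)
-/

set_option autoImplicit false

open NC MvPolynomial

namespace H36.QX

open H36.NX

variable {k : Type} [Field k] {t : k}

/-- `hilbP` for the homology of `X`, an `S`-module by `OpS.mod`, with `P = cohP`; then `chi_eq_sub` -/
theorem chi_eventually (hI : IndexT k t) [CharP k 2] {X : SD k} {Y : ℕ → SD k} (G : GrSD X Y)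
    (o : OpS (MvPolynomial (Fin 3) k) X) (hfg : o.FG)
    (hdeg : ∀ (i : Fin 3) (n : ℕ) (v : (Y n).V), ∃ w : (Y (n + w3 i)).V,
      o.op (MvPolynomial.X i) ((G.i n).f v) = (G.i (n + w3 i)).f w)
    (hcub : ∀ v, o.op (crv t) v = 0) :
    ∃ n0, ∀ n, n0 ≤ n → SD.chi (Y n) = 0 := by
  let _ : Module (MvPolynomial (Fin 3) k) X.Coh := o.mod
  have hs : ∀ (s : MvPolynomial (Fin 3) k) (c : X.Coh), s • c = SD.Coh.map (o.hom s) c :=
    fun s c => rfl
  have _ : IsScalarTower k (MvPolynomial (Fin 3) k) X.Coh := ⟨fun a s c => by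
    have h : o.cohOp (a • s) = a • o.cohOp s := map_smul _ _ _
    exact congrArg (fun f : Module.End k X.Coh => f c) h⟩
  have _ : Module.Finite (MvPolynomial (Fin 3) k) X.Coh := hfg
  have hsm : ∀ (s : MvPolynomial (Fin 3) k) {x : X.V} (hx : X.D x = 0), s • SD.Coh.mk x hx =
      SD.Coh.mk (o.op s x) (by rw [← o.D, hx, map_zero]) := fun s x hx => rfl
  obtain ⟨hfin, n0, hn0⟩ := hilbP k t hI X.Coh G.gr G.internal
    (by
      rintro i n _ ⟨y, rfl⟩
      obtain ⟨v, hv, rfl⟩ := SD.Coh.exists_mk y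
      obtain ⟨w, hw⟩ := hdeg i n v
      have hw1 : w = (G.p (n + w3 i)).f (o.op (MvPolynomial.X i) ((G.i n).f v)) := by
        rw [hw, G.pi]
      have hD : X.D (o.op (MvPolynomial.X i) ((G.i n).f v)) = 0 := by
        rw [← o.D, ← (G.i n).D, hv, map_zero, map_zero]
      have hw2 : (Y (n + w3 i)).D w = 0 := by
        rw [hw1, ← (G.p (n + w3 i)).D, hD, map_zero]
      refine ⟨SD.Coh.mk w hw2, ?_⟩
      rw [SD.Coh.map_mk, SD.Coh.map_mk, hsm]
      exact SD.Coh.mk_congr _ _ hw.symm)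
    (by
      intro m
      obtain ⟨v, hv, rfl⟩ := SD.Coh.exists_mk m
      rw [hsm, ← SD.Coh.mk_zero]
      exact SD.Coh.mk_congr _ _ (hcub v))
    (SD.cohP X)
    (by
      intro c
      obtain ⟨x, hx, rfl⟩ := SD.Coh.exists_mk c
      rw [SD.cohP_mk, SD.cohP_mk]
      exact SD.Coh.mk_congr _ _ (X.PP x))
    (by
      intro s c
      rw [hs, hs, SD.Coh.map_cohP])
    (by
      rintro n _ ⟨y, rfl⟩
      exact ⟨_, SD.Coh.map_cohP _ _⟩)
  refine ⟨n0, fun n hn => ?_⟩
  obtain ⟨h1, h2⟩ := hn0 n hn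
  rw [G.finrank_range] at h1
  rw [G.finrank_ker] at h2
  have hfd : FiniteDimensional k (Y n).Coh := by
    have hf : FiniteDimensional k (LinearMap.range (SD.Coh.map (G.i n))) := hfin n
    exact FiniteDimensional.of_injective (LinearMap.rangeRestrict (SD.Coh.map (G.i n)))
      (fun a b hab => G.map_injective n (congrArg Subtype.val hab))
  rw [chi_eq_sub (SD.coh_finite_iff.1 hfd), (CharP.cast_eq_zero_iff k 2 _).2 h1,
    (CharP.cast_eq_zero_iff k 2 _).2 h2, sub_zero]

end H36.QX
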