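import Pool.Agent.H36.QX.Dbl
import Pool.Agent.H36.QX.LiftD

/-!
# DblEx : the ring `D` exists
-/

set_option autoImplicit false

namespace H36.QX

open H36.NX
open Polynomial

/-- `AdjoinRoot` of `W^2 - Q W - ((t + 1) Q^2 + Q)` over `R` -/
theorem exists_dblRing (k : Type) [Field k] {t : k} {R : Type} [CommRing R] [Algebra k R]
    (C : QRing k t R) :
    ∃ (D : Type) (_ : CommRing D) (_ : Algebra k D), Nonempty (DblRing k C D) := by
  classical
  have hnt : Nontrivial R := by
    refine ⟨⟨0, 1, fun h01 => ?_⟩⟩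
    have h1 : C.bas (0, 0) = 0 := by
      have : C.bas (0, 0) * 1 = C.bas (0, 0) * 0 := by
        rw [h01]
      simpa using this
    exact C.bas.ne_zero (0, 0) h1
  let c : R := algebraMap k R (t + 1) * C.Q ^ 2 + C.Q
  let g : R[X] := Polynomial.C C.Q * X + Polynomial.C c
  have hg : g.degree < ((2 : ℕ) : WithBot ℕ) := by
    refine lt_of_le_of_lt (degree_linear_le (a := C.Q) (b := c)) ?_
    exact_mod_cast (by omega : 1 < 2)
  let f : R[X] := X ^ 2 - g
  have hf : f.Monic := monic_X_pow_sub (n := 2) (p := g) (by exact_mod_cast hg)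
  have hfd : f.natDegree = 2 := by
    have h1 : f.degree = ((2 : ℕ) : WithBot ℕ) := by
      have h2 := degree_sub_eq_left_of_degree_lt (p := (X : R[X]) ^ 2) (q := g) (by
        rw [degree_X_pow]; exact hg)
      change (X ^ 2 - g).degree = ((2 : ℕ) : WithBot ℕ)
      rw [h2, degree_X_pow]
    exact natDegree_eq_of_degree_eq_some h1
  let D := AdjoinRoot f
  have htow : IsScalarTower k R D := inferInstance
  let l : R →ₐ[k] D := IsScalarTower.toAlgHom k R D
  have hl : ∀ x, l x = AdjoinRoot.of f x := fun x => rfl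
  have hrt : LRel t ((Units.map (l : R →* D) C.u : Dˣ) : D) (AdjoinRoot.root f) := by
    have h1 := AdjoinRoot.eval₂_root f
    have h2 : (AdjoinRoot.root f) ^ 2 = AdjoinRoot.of f C.Q * AdjoinRoot.root f
        + AdjoinRoot.of f c := by
      have h4 : (X ^ 2 - (Polynomial.C C.Q * X + Polynomial.C c)).eval₂
          (AdjoinRoot.of f) (AdjoinRoot.root f) = 0 := h1
      rw [eval₂_sub, eval₂_add, eval₂_mul, eval₂_C, eval₂_C, eval₂_X_pow, eval₂_X] at h4
      exact sub_eq_zero.1 h4
    unfold LRel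
    rw [h2]
    have h5 : ∀ y : k, algebraMap k D y = AdjoinRoot.of f (algebraMap k R y) := fun y => rfl
    have h6 : ((Units.map (l : R →* D) C.u : Dˣ) : D) = AdjoinRoot.of f (C.u : R) := rfl
    rw [h5, h5, h6]
    simp only [c, C.Q_eq, map_add, map_mul, map_pow]
    ring
  obtain ⟨r, hr⟩ := exists_lift C (Units.map (l : R →* D) C.u) (AdjoinRoot.root f) hrt
  have hru : ∀ m : ℤ, r ((C.u ^ m : Rˣ) : R) = l ((C.u ^ m : Rˣ) : R) := by
    intro m
    have h1 := hr m 0
    rw [pow_zero, mul_one, pow_zero, mul_one, ← map_zpow] at h1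
    exact h1
  have hrw : ∀ j : ℕ, r (C.w ^ j) = AdjoinRoot.root f ^ j := by
    intro j
    have h1 := hr 0 j
    rw [zpow_zero, zpow_zero, Units.val_one, one_mul, Units.val_one, one_mul] at h1
    exact h1
  have hev : f.eval₂ ((AlgHom.id k R : R →ₐ[k] R) : R →+* R) C.w = 0 := by
    change (X ^ 2 - (Polynomial.C C.Q * X + Polynomial.C c)).eval₂ _ C.w = 0
    rw [eval₂_sub, eval₂_add, eval₂_mul, eval₂_C, eval₂_C, eval₂_X_pow, eval₂_X, C.rel']
    simp only [c, AlgHom.coe_toRingHom, AlgHom.coe_id, id_eq]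
    ring
  let pr : D →ₐ[k] R := AdjoinRoot.liftAlgHom f (AlgHom.id k R) C.w hev
  have prl : ∀ x : R, pr (l x) = x := by
    intro x
    rw [hl]
    exact AdjoinRoot.liftAlgHom_of f (AlgHom.id k R) C.w hev x
  have prroot : pr (AdjoinRoot.root f) = C.w :=
    AdjoinRoot.liftAlgHom_root f (AlgHom.id k R) C.w hev
  have prr : ∀ x : R, pr (r x) = x := by
    have h1 : (pr.comp r).toLinearMap = LinearMap.id := by
      refine C.bas.ext fun p => ?_
      obtain ⟨m, a⟩ := p
      rw [AlgHom.toLinearMap_apply, AlgHom.comp_apply, C.bas_eq, map_mul, hru, hrw, map_mul, prl,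
        map_pow, prroot]
      rfl
    intro x
    exact LinearMap.congr_fun h1 x
  let B : Module.Basis (Fin 2) R D :=
    (AdjoinRoot.powerBasis' hf).basis.reindex (finCongr hfd)
  have hB : ∀ b : Fin 2, B b = AdjoinRoot.root f ^ (b : ℕ) := by
    intro b
    rw [Module.Basis.reindex_apply, PowerBasis.basis_eq_pow]
    rfl
  let bas : Module.Basis (ℤ × Fin 2 × Fin 2) k D :=
    (C.bas.smulTower B).reindex (Equiv.prodAssoc ℤ (Fin 2) (Fin 2))
  refine ⟨D, inferInstance, inferInstance, ⟨{
    l := l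
    r := r
    lr := ?_
    pr := pr
    pr_l := prl
    pr_r := prr
    bas := bas
    bas_eq := ?_ }⟩⟩
  · have h1 := hru 1
    rw [zpow_one] at h1
    exact h1.symm
  · intro m a b
    rw [hrw, Module.Basis.reindex_apply]
    change (C.bas.smulTower B) ((m, a), b) = _
    rw [Module.Basis.smulTower_apply, hB, Algebra.smul_def]
    rfl

end H36.QX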