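import Pool.Agent.H36.QX.Lift
import Mathlib.Algebra.DualNumber

/-!
# Der : the derivation `D` of the coordinate ring with `D u = Q`, `D w = w + 1` (characteristic two)

`D` is dual to the invariant differential. It maps the chart `x ≠ 0` to itself, and `f ↦ D f + n (u + 1) f` maps
the sections `Y n` of `O(n)` to themselves.
-/

set_option autoImplicit false

namespace H36.QX

open H36.NX

namespace QRing

variable {k : Type} [Field k] [CharP k 2] {t : k} {R : Type} [CommRing R] [Algebra k R]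

theorem radd (k : Type) [Field k] [CharP k 2] {S : Type} [CommRing S] [Algebra k S] (x : S) :
    x + x = 0 := by
  rw [← two_mul, show (2 : S) = algebraMap k S 2 by rw [map_ofNat],
    show (2 : k) = 0 from CharTwo.two_eq_zero, map_zero, zero_mul]

theorem rneg (k : Type) [Field k] [CharP k 2] {S : Type} [CommRing S] [Algebra k S] (x : S) :
    -x = x := neg_eq_of_add_eq_zero_left (radd k x)

theorem rtwo (k : Type) [Field k] [CharP k 2] {S : Type} [CommRing S] [Algebra k S] :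
    (2 : S) = 0 := by
  have h := radd k (1 : S)
  rwa [one_add_one_eq_two] at h

theorem rsub (k : Type) [Field k] [CharP k 2] {S : Type} [CommRing S] [Algebra k S] (x y : S) :
    x - y = x + y := by rw [sub_eq_add_neg, rneg k]

/-- the unit `u + ε Q` -/
noncomputable def derU (C : QRing k t R) : (DualNumber R)ˣ where
  val := (TrivSqZeroExt.inl (C.u : R) + TrivSqZeroExt.inr C.Q : DualNumber R)
  inv := (TrivSqZeroExt.inl ((C.u⁻¹ : Rˣ) : R)
    + TrivSqZeroExt.inr (((C.u⁻¹ : Rˣ) : R) * ((C.u⁻¹ : Rˣ) : R) * C.Q) : DualNumber R)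
  val_inv := by
    ext
    · simp
    · simp only [TrivSqZeroExt.snd_mul, TrivSqZeroExt.fst_add, TrivSqZeroExt.fst_inl,
        TrivSqZeroExt.fst_inr, TrivSqZeroExt.snd_add, TrivSqZeroExt.snd_inl,
        TrivSqZeroExt.snd_inr, TrivSqZeroExt.snd_one, add_zero, zero_add, smul_eq_mul,
        MulOpposite.smul_eq_mul_unop, MulOpposite.unop_op]
      have h := C.u.mul_inv
      linear_combination (((C.u⁻¹ : Rˣ) : R) * C.Q) * h + radd k (((C.u⁻¹ : Rˣ) : R) * C.Q)
  inv_val := by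
    ext
    · simp
    · simp only [TrivSqZeroExt.snd_mul, TrivSqZeroExt.fst_add, TrivSqZeroExt.fst_inl,
        TrivSqZeroExt.fst_inr, TrivSqZeroExt.snd_add, TrivSqZeroExt.snd_inl,
        TrivSqZeroExt.snd_inr, TrivSqZeroExt.snd_one, add_zero, zero_add, smul_eq_mul,
        MulOpposite.smul_eq_mul_unop, MulOpposite.unop_op]
      have h := C.u.mul_inv
      linear_combination (((C.u⁻¹ : Rˣ) : R) * C.Q) * h + radd k (((C.u⁻¹ : Rˣ) : R) * C.Q)

/-- `w + ε (w + 1)` -/
noncomputable def derW (C : QRing k t R) : DualNumber R :=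
  TrivSqZeroExt.inl C.w + TrivSqZeroExt.inr (C.w + 1)

theorem derEqn (C : QRing k t R) : Eqn t (C.derU : DualNumber R) C.derW := by
  unfold Eqn derU derW
  have e1 : ∀ c : k, algebraMap k (DualNumber R) c = TrivSqZeroExt.inl (algebraMap k R c) :=
    fun c => rfl
  rw [e1, e1]
  ext
  · simp only [TrivSqZeroExt.fst_mul, TrivSqZeroExt.fst_add, TrivSqZeroExt.fst_inl,
      TrivSqZeroExt.fst_inr, TrivSqZeroExt.fst_pow, add_zero]
    exact C.rel
  · simp only [TrivSqZeroExt.snd_mul, TrivSqZeroExt.fst_add, TrivSqZeroExt.fst_inl,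
      TrivSqZeroExt.fst_inr, TrivSqZeroExt.snd_add, TrivSqZeroExt.snd_inl, pow_two,
      TrivSqZeroExt.fst_mul,
      TrivSqZeroExt.snd_inr, add_zero, zero_add, smul_eq_mul,
      MulOpposite.smul_eq_mul_unop, MulOpposite.unop_op]
    rw [← pow_two, ← C.Q_eq]
    have h2 := rtwo k (S := R)
    linear_combination (C.w * (C.w + 1) - C.u * C.Q * C.w
      - algebraMap k R (t + 1) * C.Q * (2 * C.u * C.Q + C.Q)
      - (C.Q * (C.w + 1)) - C.u * C.Q) * h2

/-- `f ↦ f + ε D f` -/
noncomputable def derH (C : QRing k t R) : R →ₐ[k] DualNumber R := C.lift C.derU C.derW C.derEqn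

theorem derH_u (C : QRing k t R) : C.derH (C.u : R) =
    (TrivSqZeroExt.inl (C.u : R) + TrivSqZeroExt.inr C.Q : DualNumber R) :=
  C.lift_u _ _ _

theorem derH_w (C : QRing k t R) : C.derH C.w =
    (TrivSqZeroExt.inl C.w + TrivSqZeroExt.inr (C.w + 1) : DualNumber R) :=
  C.lift_w _ _ _

theorem derH_fst (C : QRing k t R) (x : R) : (C.derH x).fst = x := by
  have h : (TrivSqZeroExt.fstHom k R R).comp C.derH = AlgHom.id k R := by
    refine C.hom_ext ?_ ?_
    · change (C.derH (C.u : R)).fst = (C.u : R)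
      rw [derH_u]; simp
    · change (C.derH C.w).fst = C.w
      rw [derH_w]; simp
  exact congrArg (fun f : R →ₐ[k] R => f x) h

/-- the derivation with `D u = Q` and `D w = w + 1` -/
noncomputable def der (C : QRing k t R) : R →ₗ[k] R where
  toFun x := (C.derH x).snd
  map_add' x y := by rw [map_add, TrivSqZeroExt.snd_add]
  map_smul' c x := by rw [map_smul, TrivSqZeroExt.snd_smul]; rfl

variable (C : QRing k t R)

theorem der_apply (x : R) : C.der x = (C.derH x).snd := rfl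

theorem der_mul (x y : R) : C.der (x * y) = C.der x * y + x * C.der y := by
  rw [der_apply, map_mul, TrivSqZeroExt.snd_mul, derH_fst, derH_fst, der_apply, der_apply,
    smul_eq_mul, MulOpposite.smul_eq_mul_unop, MulOpposite.unop_op, add_comm]

@[simp] theorem der_u : C.der (C.u : R) = C.Q := by
  rw [der_apply, derH_u]; simp

@[simp] theorem der_w : C.der C.w = C.w + 1 := by
  rw [der_apply, derH_w]; simp

@[simp] theorem der_one : C.der 1 = 0 := by
  rw [der_apply, map_one]; simp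

@[simp] theorem der_algebraMap (c : k) : C.der (algebraMap k R c) = 0 := by
  rw [Algebra.algebraMap_eq_smul_one, map_smul, der_one, smul_zero]

theorem der_sq (x : R) : C.der (x * x) = 0 := by
  rw [der_mul, mul_comm, radd k]

theorem der_sq' (x : R) : C.der (x ^ 2) = 0 := by
  rw [pow_two, der_sq]

@[simp] theorem der_Q : C.der C.Q = C.Q := by
  conv_lhs => rw [C.Q_eq]
  rw [map_add, map_add, der_sq', der_u, der_algebraMap, zero_add, add_zero]

/-- `D` is linear over the elements of derivative zero -/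
theorem der_mul_left {x : R} (hx : C.der x = 0) (y : R) : C.der (x * y) = x * C.der y := by
  rw [der_mul, hx, zero_mul, zero_add]

theorem der_uinv : C.der ((C.u⁻¹ : Rˣ) : R) = ((C.u⁻¹ : Rˣ) : R) * ((C.u⁻¹ : Rˣ) : R) * C.Q := by
  have h1 : C.der ((C.u : R) * ((C.u⁻¹ : Rˣ) : R)) = 0 := by rw [C.u.mul_inv, der_one]
  rw [der_mul, der_u] at h1
  have h2 := C.u.mul_inv
  have h3 := rtwo k (S := R)
  linear_combination ((C.u⁻¹ : Rˣ) : R) * h1 - C.der ((C.u⁻¹ : Rˣ) : R) * h2
    - ((C.u⁻¹ : Rˣ) : R) * ((C.u⁻¹ : Rˣ) : R) * C.Q * h3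

theorem der_upow_nat (m : ℕ) (v : Rˣ) (g : R) (h : C.der (v : R) = (v : R) * g) :
    C.der ((v : R) ^ m) = (m : R) * ((v : R) ^ m * g) := by
  induction m with
  | zero => simp
  | succ m ih =>
    rw [pow_succ, der_mul, ih, h]
    push_cast
    ring

/-- `D (u^m) = m u^m (u⁻¹ Q)` -/
theorem der_upow (m : ℤ) : C.der ((C.u ^ m : Rˣ) : R) =
    (m : R) * (((C.u ^ m : Rˣ) : R) * (((C.u⁻¹ : Rˣ) : R) * C.Q)) := by
  obtain ⟨n, rfl | rfl⟩ := Int.eq_nat_or_neg m
  · rw [zpow_natCast, Units.val_pow_eq_pow_val, C.der_upow_nat n C.u (((C.u⁻¹ : Rˣ) : R) * C.Q)]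
    · push_cast; ring
    · rw [der_u, ← mul_assoc, C.u.mul_inv, one_mul]
  · rw [zpow_neg, ← inv_zpow, zpow_natCast, Units.val_pow_eq_pow_val,
      C.der_upow_nat n C.u⁻¹ (((C.u⁻¹ : Rˣ) : R) * C.Q)]
    · push_cast
      have h := rneg k ((n : R) * (((C.u⁻¹ : Rˣ) : R) ^ n * (((C.u⁻¹ : Rˣ) : R) * C.Q)))
      rw [neg_mul, h]
    · rw [der_uinv]; ring

theorem der_bas0 (m : ℤ) : C.der (C.bas (m, 0)) =
    (m : k) • (C.bas (m + 1, 0) + C.bas (m, 0) + t • C.bas (m - 1, 0)) := by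
  have h := Mul_Q C (m - 1) 1
  rw [mul_one, mul_one, mul_one, show m - 1 + ((2 : ℕ) : ℤ) = m + 1 by push_cast; ring,
    show m - 1 + ((1 : ℕ) : ℤ) = m by push_cast; ring, mul_one] at h
  rw [Mul_bas0, Mul_bas0, Mul_bas0, der_upow, ← h, zpow_sub_one, Units.val_mul, Algebra.smul_def,
    map_intCast]
  ring

theorem der_bas1 (m : ℤ) : C.der (C.bas (m, 1)) =
    (m : k) • (C.bas (m + 1, 1) + C.bas (m, 1) + t • C.bas (m - 1, 1))
      + C.bas (m, 1) + C.bas (m, 0) := by
  have h := Mul_Q C (m - 1) C.w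
  rw [show m - 1 + ((2 : ℕ) : ℤ) = m + 1 by push_cast; ring,
    show m - 1 + ((1 : ℕ) : ℤ) = m by push_cast; ring] at h
  rw [Mul_bas1, Mul_bas1, Mul_bas1, Mul_bas0, der_mul, der_upow, der_w, ← h, zpow_sub_one,
    Units.val_mul, Algebra.smul_def, map_intCast]
  ring

/-- the derivation on the sections of `O(n)`: `f ↦ D f + n (u + 1) f` -/
noncomputable def nab (n : ℤ) : R →ₗ[k] R :=
  C.der + (n : k) • LinearMap.mulLeft k ((C.u : R) + 1)

theorem nab_apply (n : ℤ) (f : R) : C.nab n f = C.der f + (n : k) • (((C.u : R) + 1) * f) := rfl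

theorem nab_mul (m n : ℤ) (f g : R) :
    C.nab (m + n) (f * g) = C.nab m f * g + f * C.nab n g := by
  simp only [nab_apply, der_mul, Algebra.smul_def, Int.cast_add, map_add]
  ring

theorem nab_bas0 (n m : ℤ) : C.nab n (C.bas (m, 0)) =
    ((m + n : ℤ) : k) • C.bas (m + 1, 0) + ((m + n : ℤ) : k) • C.bas (m, 0)
      + ((m : k) * t) • C.bas (m - 1, 0) := by
  have h : (C.u : R) * C.bas (m, 0) = C.bas (m + 1, 0) := by
    rw [Mul_bas0, Mul_bas0, zpow_add_one, Units.val_mul, mul_comm]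
  rw [nab_apply, der_bas0, add_mul, one_mul, h]
  push_cast
  module

theorem nab_bas1 (n m : ℤ) : C.nab n (C.bas (m, 1)) =
    ((m + n : ℤ) : k) • C.bas (m + 1, 1) + ((m + n + 1 : ℤ) : k) • C.bas (m, 1)
      + ((m : k) * t) • C.bas (m - 1, 1) + C.bas (m, 0) := by
  have h : (C.u : R) * C.bas (m, 1) = C.bas (m + 1, 1) := by
    rw [Mul_bas1, Mul_bas1, zpow_add_one, Units.val_mul]
    ring
  rw [nab_apply, der_bas1, add_mul, one_mul, h]
  push_cast
  module

theorem nab_mem_X (n : ℤ) {f : R} (hf : f ∈ C.X) : C.nab n f ∈ C.X := by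
  have h : C.X ≤ C.X.comap (C.nab n) := by
    conv_lhs => rw [Mul_X_eq]
    rw [Submodule.span_le]
    rintro _ ⟨⟨m, a⟩, hm, rfl⟩
    have hm' : 0 ≤ m := hm
    have h3 : ∀ b : Fin 2, ((m : k) * t) • C.bas (m - 1, b) ∈ C.X := by
      intro b
      by_cases h0 : m = 0
      · rw [h0, Int.cast_zero, zero_mul, zero_smul]
        exact C.X.zero_mem
      · exact C.X.smul_mem _ (bas_mem_X C _ _ (by omega))
    change C.nab n (C.bas (m, a)) ∈ C.X
    fin_cases a
    · change C.nab n (C.bas (m, 0)) ∈ C.X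
      rw [nab_bas0]
      exact C.X.add_mem (C.X.add_mem (C.X.smul_mem _ (bas_mem_X C _ _ (by omega)))
        (C.X.smul_mem _ (bas_mem_X C _ _ hm'))) (h3 0)
    · change C.nab n (C.bas (m, 1)) ∈ C.X
      rw [nab_bas1]
      exact C.X.add_mem (C.X.add_mem (C.X.add_mem (C.X.smul_mem _ (bas_mem_X C _ _ (by omega)))
        (C.X.smul_mem _ (bas_mem_X C _ _ hm'))) (h3 1)) (bas_mem_X C _ _ hm')
  exact h hf

theorem nab_mem_Y (n : ℤ) {f : R} (hf : f ∈ C.Y n) : C.nab n f ∈ C.Y n := by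
  have h : C.Y n ≤ (C.Y n).comap (C.nab n) := by
    conv_lhs => rw [Mul_Y_eq]
    rw [Submodule.span_le]
    rintro _ ⟨⟨m, a⟩, hm, rfl⟩
    have hm' : m + 2 * ((a : ℕ) : ℤ) ≤ n := hm
    have h1 : ∀ b : Fin 2, m + 2 * ((b : ℕ) : ℤ) ≤ n →
        ((m + n : ℤ) : k) • C.bas (m + 1, b) ∈ C.Y n := by
      intro b hb
      by_cases h0 : m + 2 * ((b : ℕ) : ℤ) = n
      · have h4 : ((m + n : ℤ) : k) = 0 := by
          rw [show m + n = 2 * (m + ((b : ℕ) : ℤ)) by omega, Int.cast_mul, Int.cast_ofNat,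
            show (2 : k) = 0 from CharTwo.two_eq_zero, zero_mul]
        rw [h4, zero_smul]
        exact (C.Y n).zero_mem
      · exact (C.Y n).smul_mem _ (bas_mem_Y C _ _ _ (by omega))
    change C.nab n (C.bas (m, a)) ∈ C.Y n
    fin_cases a
    · have hm0 : m ≤ n := by simpa using hm'
      change C.nab n (C.bas (m, 0)) ∈ C.Y n
      rw [nab_bas0]
      exact (C.Y n).add_mem ((C.Y n).add_mem (h1 0 (by simpa using hm0))
        ((C.Y n).smul_mem _ (bas_mem_Y C _ _ _ (by simpa using hm0))))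
        ((C.Y n).smul_mem _ (bas_mem_Y C _ _ _ (by simp; omega)))
    · have hm0 : m + 2 ≤ n := by simpa using hm'
      change C.nab n (C.bas (m, 1)) ∈ C.Y n
      rw [nab_bas1]
      exact (C.Y n).add_mem ((C.Y n).add_mem ((C.Y n).add_mem (h1 1 (by simpa using hm0))
        ((C.Y n).smul_mem _ (bas_mem_Y C _ _ _ (by simpa using hm0))))
        ((C.Y n).smul_mem _ (bas_mem_Y C _ _ _ (by simp; omega))))
        (bas_mem_Y C _ _ _ (by simp; omega))
  exact h hf

theorem der_mem_X {f : R} (hf : f ∈ C.X) : C.der f ∈ C.X := by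
  have h := C.nab_mem_X 0 hf
  rwa [nab_apply, Int.cast_zero, zero_smul, add_zero] at h

theorem der_mem_Y_zero {f : R} (hf : f ∈ C.Y 0) : C.der f ∈ C.Y 0 := by
  have h := C.nab_mem_Y 0 hf
  rwa [nab_apply, Int.cast_zero, zero_smul, add_zero] at h

theorem nab_u : C.nab 1 (C.u : R) = algebraMap k R t := by
  rw [nab_apply, der_u, Int.cast_one, one_smul, C.Q_eq]
  have h2 := rtwo k (S := R)
  linear_combination ((C.u : R) ^ 2 + (C.u : R)) * h2

end QRing

end H36.QX
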