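import Pool.Agent.H94.NC.HPnz
import Pool.Agent.H94.NC.CorQI

/-!
# EHP : the class of an idempotent in `HP₀` and its images under two homomorphisms
-/

set_option autoImplicit false

open scoped TensorProduct

noncomputable section

namespace NC

open Wd

variable {k : Type} [Field k]

/-- **Criterion for `HP₀(A) ≠ 0`** with a class on which two homomorphisms agree. -/
theorem HP_idem {A B : ZDGA k} (i j : ZHom A B) {S : Type} [AddCommGroup S] [Module k S]
    (τ : A.V →ₗ[k] S) (h : TrF A.toDGA τ) (e : A.V) (he : e ∈ A.gr 0) (hee : A.mul e e = e)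
    (hD : A.D e = 0) (hτ : τ e ≠ 0) (hij : i.f e = j.f e) :
    ∃ x : A.HP 0, x ≠ 0 ∧ i.HP 0 x = j.HP 0 x := by
  let φ := idemHom A e he hee hD
  have hE : ∀ a : (trivZ k).V, (trivZ k).P a = a := fun _ => rfl
  have h' : TrF (trivZ k).toDGA (τ ∘ₗ φ.f) := by
    refine ⟨fun a => ?_, fun a => ?_, fun a b _ _ => ?_, fun a b ha _ => ?_⟩
    · rw [LinearMap.comp_apply, φ.D, h.D]
    · rw [hE]
    · have h1 : ∀ a b : k, (trivZ k).mul a b = (trivZ k).mul b a := fun a b => mul_comm a b
      rw [h1 a b]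
    · have h1 : a = 0 := by
        have h2 : (trivZ k).P a = (if true then 0 else a) := ha
        rw [hE] at h2
        simpa using h2
      rw [h1]
      simp
  obtain ⟨x, hx⟩ := HP_triv isTriv_triv (τ ∘ₗ φ.f) h'
  refine ⟨φ.HP 0 x, ?_, ?_⟩
  · intro h0
    apply hτ
    have h1 : tH A τ h 0 (φ.HP 0 x) = tH (trivZ k) (τ ∘ₗ φ.f) h' 0 x := by
      obtain ⟨c, hc, rfl⟩ := (trivZ k).cyc.cls_surj x
      rw [tH_cls]
      change tw (A := A.toDGA) τ (wm (A := (trivZ k).toSD) (B := A.toSD) φ.f (c 0))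
        = tw (A := (trivZ k).toDGA) (τ ∘ₗ φ.f) (c 0)
      generalize c 0 = w
      induction w using Wd.induction with
      | hadd a b ha hb => rw [map_add, map_add, ha, hb, map_add]
      | hnil a => simp
      | hsnoc w _ a => simp
    rw [h0, map_zero, hx] at h1
    have h2 : φ.f (trivZ k).one = e := by
      change (1 : k) • e = e
      rw [one_smul]
    rw [LinearMap.comp_apply, h2] at h1
    exact h1.symm
  · obtain ⟨c, hc, rfl⟩ := (trivZ k).cyc.cls_surj x
    have hf : ∀ a : (trivZ k).V, i.f (φ.f a) = j.f (φ.f a) := by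
      intro a
      have h1 : φ.f a = (show k from a) • e := rfl
      rw [h1, map_smul, map_smul, hij]
    have hw : ∀ w : Wd k (trivZ k).V (trivZ k).V,
        wm (A := A.toSD) (B := B.toSD) i.f (wm (A := (trivZ k).toSD) (B := A.toSD) φ.f w)
          = wm (A := A.toSD) (B := B.toSD) j.f
            (wm (A := (trivZ k).toSD) (B := A.toSD) φ.f w) := by
      intro w
      induction w using Wd.induction with
      | hadd a b ha hb => simp only [map_add, ha, hb]
      | hnil a => rw [wm_nil, wm_nil, wm_nil, hf]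
      | hsnoc w hw a => rw [wm_snoc, wm_snoc, wm_snoc, hw, hf]
    have h1 : i.cyc.fm (φ.cyc.fm c) = j.cyc.fm (φ.cyc.fm c) := by
      funext p
      exact hw (c p)
    change B.cyc.cls (i.cyc.fm (φ.cyc.fm c)) _ = B.cyc.cls (j.cyc.fm (φ.cyc.fm c)) _
    congr 1

end NC
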