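import Pool.Agent.H36.QX.Rz

/-!
# Emb : homomorphisms of Čech algebras defined by a homomorphism of rings and an injection of the objects
-/

set_option autoImplicit false
set_option linter.unusedSectionVars false

open NC

noncomputable section

namespace H36.QX

open H36.NX

variable {k : Type} [Field k] {S S' : Type} [CommRing S] [Algebra k S] [CommRing S'] [Algebra k S']
  {I I' : Type} [Fintype I] [DecidableEq I] [Fintype I'] [DecidableEq I']

/-- the selection matrix of a map `e` -/
def selM (S' : Type) [CommRing S'] (e : I → I') : Matrix I' I S' :=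
  Matrix.of fun p i => if e i = p then 1 else 0

/-- the embedding of matrices -/
def embM (e : I → I') (φ : S →ₐ[k] S') : Matrix I I S →ₗ[k] Matrix I' I' S' where
  toFun M := selM S' e * M.map φ * (selM S' e).transpose
  map_add' M N := by
    rw [show (M + N).map φ = M.map φ + N.map φ from Matrix.ext fun i j => map_add φ _ _,
      Matrix.mul_add, Matrix.add_mul]
  map_smul' c M := by
    rw [show (c • M).map φ = c • M.map φ from Matrix.ext fun i j => map_smul φ c _,
      Matrix.mul_smul, Matrix.smul_mul, RingHom.id_apply]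

theorem embM_def (e : I → I') (φ : S →ₐ[k] S') (M : Matrix I I S) :
    embM e φ M = selM S' e * M.map φ * (selM S' e).transpose := rfl

theorem selM_mul_apply (e : I → I') {J : Type} (M : Matrix I J S') (p : I') (j : J) :
    (selM S' e * M) p j = ∑ i, if e i = p then M i j else 0 := by
  rw [Matrix.mul_apply]
  refine Finset.sum_congr rfl fun i _ => ?_
  simp only [selM, Matrix.of_apply, ite_mul, one_mul, zero_mul]

theorem embM_apply' (e : I → I') (φ : S →ₐ[k] S') (M : Matrix I I S) (p q : I') :
    embM e φ M p q = ∑ j, ∑ i, if e i = p ∧ e j = q then φ (M i j) else 0 := by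
  rw [embM_def, Matrix.mul_apply]
  refine Finset.sum_congr rfl fun j _ => ?_
  rw [selM_mul_apply, Finset.sum_mul]
  refine Finset.sum_congr rfl fun i _ => ?_
  simp only [selM, Matrix.transpose_apply, Matrix.of_apply, Matrix.map_apply]
  by_cases h1 : e i = p <;> by_cases h2 : e j = q <;> simp [h1, h2]

theorem embM_apply {e : I → I'} (he : Function.Injective e) (φ : S →ₐ[k] S') (M : Matrix I I S)
    (i j : I) : embM e φ M (e i) (e j) = φ (M i j) := by
  rw [embM_apply', Finset.sum_eq_single j, Finset.sum_eq_single i]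
  · simp
  · intro b _ hb
    rw [if_neg]
    rintro ⟨h, _⟩
    exact hb (he h)
  · intro h; exact absurd (Finset.mem_univ _) h
  · intro b _ hb
    refine Finset.sum_eq_zero fun a _ => ?_
    rw [if_neg]
    rintro ⟨_, h⟩
    exact hb (he h)
  · intro h; exact absurd (Finset.mem_univ _) h

theorem embM_apply_zero (e : I → I') (φ : S →ₐ[k] S') (M : Matrix I I S) (p q : I')
    (h : ∀ i j, ¬ (e i = p ∧ e j = q)) : embM e φ M p q = 0 := by
  rw [embM_apply']
  refine Finset.sum_eq_zero fun j _ => Finset.sum_eq_zero fun i _ => ?_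
  rw [if_neg (h i j)]

theorem selM_selM {e : I → I'} (he : Function.Injective e) :
    (selM S' e).transpose * selM S' e = 1 := by
  ext i j
  rw [Matrix.mul_apply, Finset.sum_eq_single (e i)]
  · simp only [selM, Matrix.transpose_apply, Matrix.of_apply, if_pos, one_mul]
    rw [Matrix.one_apply]
    by_cases h : i = j
    · subst h; simp
    · rw [if_neg h, if_neg fun h' => h (he h').symm]
  · intro p _ hp
    simp only [selM, Matrix.transpose_apply, Matrix.of_apply]
    rw [if_neg (Ne.symm hp), zero_mul]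
  · intro h; exact absurd (Finset.mem_univ _) h

theorem embM_mul {e : I → I'} (he : Function.Injective e) (φ : S →ₐ[k] S') (M N : Matrix I I S) :
    embM e φ (M * N) = embM e φ M * embM e φ N := by
  have h1 : (M * N).map φ = M.map φ * N.map φ := by
    ext i j
    simp only [Matrix.map_apply, Matrix.mul_apply, map_sum, map_mul]
  rw [embM_def, embM_def, embM_def, h1]
  calc selM S' e * (M.map φ * N.map φ) * (selM S' e).transpose
      = selM S' e * M.map φ * (1 : Matrix I I S') * N.map φ * (selM S' e).transpose := by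
        rw [Matrix.mul_one]; simp only [Matrix.mul_assoc]
    _ = _ := by rw [← selM_selM (S' := S') he]; simp only [Matrix.mul_assoc]

theorem embM_trace {e : I → I'} (he : Function.Injective e) (φ : S →ₐ[k] S') (M : Matrix I I S) :
    (embM e φ M).trace = φ M.trace := by
  rw [embM_def, Matrix.trace_mul_comm, ← Matrix.mul_assoc, selM_selM he, Matrix.one_mul]
  simp only [Matrix.trace, Matrix.diag_apply, Matrix.map_apply, map_sum]

/-- the embedding of Čech matrices -/
def embP (e : I → I') (φ : S →ₐ[k] S') : (Pc → Matrix I I S) →ₗ[k] (Pc → Matrix I' I' S') where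
  toFun f := fun s => embM e φ (f s)
  map_add' f g := by funext s; simp
  map_smul' r f := by funext s; simp

@[simp] theorem embP_apply (e : I → I') (φ : S →ₐ[k] S') (f : Pc → Matrix I I S) (s : Pc) :
    embP e φ f s = embM e φ (f s) := rfl

theorem embP_D (e : I → I') (φ : S →ₐ[k] S') (f : Pc → Matrix I I S) :
    embP e φ (cD k _ f) = cD k _ (embP e φ f) := by
  funext s
  cases s
  · change embM e φ 0 = 0
    rw [map_zero]
  · change embM e φ 0 = 0
    rw [map_zero]
  · change embM e φ (f Pc.Y - f Pc.X) = embM e φ (f Pc.Y) - embM e φ (f Pc.X)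
    rw [map_sub]

theorem embP_P (e : I → I') (φ : S →ₐ[k] S') (f : Pc → Matrix I I S) :
    embP e φ (cP k _ f) = cP k _ (embP e φ f) := by
  funext s
  cases s
  · rfl
  · rfl
  · change embM e φ 0 = 0
    rw [map_zero]

theorem embP_mul {e : I → I'} (he : Function.Injective e) (φ : S →ₐ[k] S')
    (f g : Pc → Matrix I I S) : embP e φ (cMul k (LinearMap.mul k _) f g) =
      cMul k (LinearMap.mul k _) (embP e φ f) (embP e φ g) := by
  funext s
  cases s
  · exact embM_mul he φ _ _
  · exact embM_mul he φ _ _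
  · change embM e φ (f Pc.X * g Pc.R + f Pc.R * g Pc.Y)
      = embM e φ (f Pc.X) * embM e φ (g Pc.R) + embM e φ (f Pc.R) * embM e φ (g Pc.Y)
    rw [map_add, embM_mul he, embM_mul he]

/-- the condition that `(e, φ)` maps sections to sections -/
def EmbOK (P : PSy k S) (α : I → ℤ) (P' : PSy k S') (α' : I' → ℤ) (e : I → I')
    (φ : S →ₐ[k] S') : Prop :=
  ∀ (s : Pc) (i j : I) (x : S), x ∈ P.pc s (α j - α i) → φ x ∈ P'.pc s (α' (e j) - α' (e i))

theorem embP_mem {P : PSy k S} {α : I → ℤ} {P' : PSy k S'} {α' : I' → ℤ} {e : I → I'}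
    {φ : S →ₐ[k] S'} (h : EmbOK P α P' α' e φ) (f : Pc → Matrix I I S) (hf : f ∈ P.mats α) :
    embP e φ f ∈ P'.mats α' := by
  intro s p q
  rw [embP_apply, embM_apply']
  refine Submodule.sum_mem _ fun j _ => Submodule.sum_mem _ fun i _ => ?_
  split
  · next h1 =>
    obtain ⟨rfl, rfl⟩ := h1
    exact h s i j _ (hf s i j)
  · exact Submodule.zero_mem _

/-- the homomorphism as a linear map -/
def embF {P : PSy k S} {α : I → ℤ} {P' : PSy k S'} {α' : I' → ℤ} {A B : DGA k} (z : Rz A P α)
    (z' : Rz B P' α') {e : I → I'} {φ : S →ₐ[k] S'}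
    (h : EmbOK P α P' α' e φ) : A.V →ₗ[k] B.V where
  toFun a := z'.el (embP e φ (z.v a)) (embP_mem h _ (z.mem a))
  map_add' a b := z'.inj (by
    rw [Rz.v_el, map_add z.v a b, map_add, map_add, Rz.v_el, Rz.v_el])
  map_smul' r a := z'.inj (by
    rw [RingHom.id_apply, Rz.v_el, map_smul z.v r a, map_smul, map_smul, Rz.v_el])

theorem v_embF {P : PSy k S} {α : I → ℤ} {P' : PSy k S'} {α' : I' → ℤ} {A B : DGA k}
    (z : Rz A P α) (z' : Rz B P' α') {e : I → I'} {φ : S →ₐ[k] S'}
    (h : EmbOK P α P' α' e φ) (a : A.V) : z'.v (embF z z' h a) = embP e φ (z.v a) :=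
  z'.v_el _ (embP_mem h _ (z.mem a))

/-- the homomorphism of dg algebras -/
def embH {P : PSy k S} {α : I → ℤ} {P' : PSy k S'} {α' : I' → ℤ} {A B : DGA k} (z : Rz A P α)
    (z' : Rz B P' α') {e : I → I'} (he : Function.Injective e) {φ : S →ₐ[k] S'}
    (h : EmbOK P α P' α' e φ) : DGA.NHom A B where
  f := embF z z' h
  D a := z'.inj (by rw [z'.D, v_embF, v_embF, z.D, embP_D])
  P a := z'.inj (by rw [z'.P, v_embF, v_embF, z.P, embP_P])
  mul a b := z'.inj (by rw [z'.mul, v_embF, v_embF, v_embF, z.mul, embP_mul he])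

section

variable {P : PSy k S} {α : I → ℤ} {P' : PSy k S'} {α' : I' → ℤ} {A B : DGA k} (z : Rz A P α)
    (z' : Rz B P' α') {e : I → I'} (he : Function.Injective e) {φ : S →ₐ[k] S'}
    (h : EmbOK P α P' α' e φ)

theorem v_embH (a : A.V) : z'.v ((embH z z' he h).f a) = embP e φ (z.v a) :=
  z'.v_el _ (embP_mem h _ (z.mem a))

/-- the case of a homomorphism compatible with the connections -/
theorem dr_embH [CharP k 2] (c : Cn P) (c' : Cn P') (hα : ∀ i j, α' (e j) - α' (e i) = α j - α i)
    (hD : ∀ x, c'.D (φ x) = φ (c.D x)) (hg : φ c.g = c'.g) (a : A.V) :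
    (z'.dr c').f ((embH z z' he h).f a) = (embH z z' he h).f ((z.dr c).f a) := by
  apply z'.inj
  rw [Rz.v_dr, v_embH, v_embH, Rz.v_dr]
  funext s
  rw [Cn.onPc_apply, embP_apply, embP_apply, Cn.onPc_apply]
  ext p q
  rw [Cn.onMat_apply]
  by_cases hpq : ∃ i j, e i = p ∧ e j = q
  · obtain ⟨i, j, rfl, rfl⟩ := hpq
    rw [embM_apply he, embM_apply he, Cn.onMat_apply, hα, map_add, map_smul, map_mul, hD, hg]
  · have h0 : ∀ i j, ¬ (e i = p ∧ e j = q) := fun i j hh => hpq ⟨i, j, hh⟩
    rw [embM_apply_zero e φ _ p q h0, embM_apply_zero e φ _ p q h0, map_zero, mul_zero, smul_zero,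
      add_zero]

/-- the case of a homomorphism killed by the connection of the target -/
theorem dr_embH_zero [CharP k 2] (c' : Cn P')
    (hα : ∀ i j, ((α' (e j) - α' (e i) : ℤ) : k) = 0) (hD : ∀ x, c'.D (φ x) = 0) (a : A.V) :
    (z'.dr c').f ((embH z z' he h).f a) = 0 := by
  apply z'.inj
  rw [Rz.v_dr, v_embH, map_zero]
  funext s
  rw [Cn.onPc_apply, embP_apply]
  ext p q
  rw [Cn.onMat_apply]
  by_cases hpq : ∃ i j, e i = p ∧ e j = q
  · obtain ⟨i, j, rfl, rfl⟩ := hpq
    rw [embM_apply he, hα, hD, zero_smul, add_zero]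
    rfl
  · have h0 : ∀ i j, ¬ (e i = p ∧ e j = q) := fun i j hh => hpq ⟨i, j, hh⟩
    rw [embM_apply_zero e φ _ p q h0, map_zero, mul_zero, smul_zero, add_zero]
    rfl

end

end H36.QX
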