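import Pool.Agent.H16.NC.Tens
import Pool.Agent.H36.QX.Alg

/-!
# Ev : vector spaces and algebras in even degree, rows and columns
-/

set_option autoImplicit false

open NC
open scoped TensorProduct

noncomputable section

namespace H36.QX

open H36.NX
variable {k : Type} [Field k]

/-- a vector space in even degree, with zero differential -/
abbrev evSD (k : Type) [Field k] (V : Type) [AddCommGroup V] [Module k V] : SD k where
  V := V
  D := 0
  P := LinearMap.id
  DD := fun _ => rfl
  PP := fun _ => rfl
  DP := fun _ => by simp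

theorem evSD_E (V : Type) [AddCommGroup V] [Module k V] (v : V) : (evSD k V).E v = v := by
  change v + v - v = v
  abel

theorem ev_P_aux {U V W : Type} [AddCommGroup U] [Module k U] [AddCommGroup V] [Module k V]
    [AddCommGroup W] [Module k W] (m : U →ₗ[k] V →ₗ[k] W) (a : U) (b : V) :
    m a b = m a b + m (a - a) (b - b) := by
  rw [sub_self, map_zero, LinearMap.zero_apply, add_zero]

theorem ev_D_aux {U V W : Type} [AddCommGroup U] [Module k U] [AddCommGroup V] [Module k V]
    [AddCommGroup W] [Module k W] (m : U →ₗ[k] V →ₗ[k] W) (a : U) (b : V) :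
    (0 : W) = m 0 b + m a 0 := by
  rw [map_zero, map_zero, LinearMap.zero_apply, add_zero]

/-- an algebra in even degree -/
abbrev evDGA (k : Type) [Field k] (S : Type) [Ring S] [Algebra k S] : DGA k where
  toSD := evSD k S
  mul := LinearMap.mul k S
  one := (1 : S)
  one_mul' := fun a => one_mul (M := S) a
  mul_one' := fun a => mul_one (M := S) a
  mul_assoc' := fun a b c => mul_assoc (G := S) a b c
  P_one := rfl
  P_mul := fun a b => ev_P_aux (LinearMap.mul k S) a b
  D_mul := fun _ b => ev_D_aux (LinearMap.mul k S) _ b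

/-- the algebra of 2 x 2 matrices -/
abbrev M2 (k : Type) [Field k] (B : Type) [CommRing B] [Algebra k B] : DGA k :=
  evDGA k (Matrix (Fin 2) (Fin 2) B)

/-- columns and rows as vector space -/
abbrev V2 (k : Type) [Field k] (B : Type) [CommRing B] [Algebra k B] : SD k := evSD k (Fin 2 → B)

/-- matrix times column -/
def colAct (k : Type) [Field k] (B : Type) [CommRing B] [Algebra k B] :
    Matrix (Fin 2) (Fin 2) B →ₗ[k] (Fin 2 → B) →ₗ[k] (Fin 2 → B) :=
  LinearMap.mk₂ k (fun (M : Matrix (Fin 2) (Fin 2) B) (v : Fin 2 → B) => M.mulVec v)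
    (fun _ _ _ => Matrix.add_mulVec _ _ _) (fun _ _ _ => Matrix.smul_mulVec _ _ _)
    (fun _ _ _ => Matrix.mulVec_add _ _ _) (fun _ _ _ => Matrix.mulVec_smul _ _ _)

@[simp] theorem colAct_apply (B : Type) [CommRing B] [Algebra k B] (M : Matrix (Fin 2) (Fin 2) B)
    (v : Fin 2 → B) : colAct k B M v = M.mulVec v := rfl

/-- row times matrix -/
def rowAct (k : Type) [Field k] (B : Type) [CommRing B] [Algebra k B] :
    (Fin 2 → B) →ₗ[k] Matrix (Fin 2) (Fin 2) B →ₗ[k] (Fin 2 → B) :=
  LinearMap.mk₂ k (fun (v : Fin 2 → B) (M : Matrix (Fin 2) (Fin 2) B) => Matrix.vecMul v M)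
    (fun _ _ _ => Matrix.add_vecMul _ _ _) (fun _ _ _ => Matrix.smul_vecMul _ _ _)
    (fun _ _ _ => Matrix.vecMul_add _ _ _) (fun _ _ _ => Matrix.vecMul_smul _ _ _)

@[simp] theorem rowAct_apply (B : Type) [CommRing B] [Algebra k B] (M : Matrix (Fin 2) (Fin 2) B)
    (v : Fin 2 → B) : rowAct k B v M = Matrix.vecMul v M := rfl

/-- columns as left module -/
def colLA (k : Type) [Field k] (B : Type) [CommRing B] [Algebra k B] : LA (M2 k B) (V2 k B) where
  act := colAct k B
  mul_act := fun a b y => (Matrix.mulVec_mulVec (y : Fin 2 → B) a b).symm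
  P_act := fun a y => ev_P_aux (colAct k B) a y
  D_act := fun _ y => ev_D_aux (colAct k B) _ y

/-- rows as right module -/
def rowRA (k : Type) [Field k] (B : Type) [CommRing B] [Algebra k B] : RA (M2 k B) (V2 k B) where
  act := rowAct k B
  act_mul := fun y a b => Matrix.vecMul_vecMul (y : Fin 2 → B) a b
  P_act := fun a y => ev_P_aux (rowAct k B) a y
  D_act := fun _ y => ev_D_aux (rowAct k B) _ y

end H36.QX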