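import Pool.Agent.H36.QX.Acts
import Pool.Agent.H16.NC.HC

/-!
# Tau : two functionals on `HC (fBi T)` which vanish on boundaries
-/

set_option autoImplicit false

open NC

noncomputable section

namespace H36.QX

open H36.NX
section abs

variable {k : Type} [Field k] {R : DGA k} {N : SD k} {B F : Type} [Ring B] [Algebra k B]
  [AddCommGroup F] [Module k F]

/-- data for the two functionals (abstract version of the values on the chart `x ≠ 0`) -/
structure TauData (b : Bi R R N) (tr : B →ₗ[k] F) where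
  g : N.V →ₗ[k] B
  χ : R.V →ₗ[k] B
  δ : R.V →ₗ[k] B
  tr_comm : ∀ x y, tr (x * y) = tr (y * x)
  gl : ∀ a n, g (b.l.act a n) = χ a * g n
  gr : ∀ n a, g (b.r.act n a) = g n * χ a
  gD : ∀ n, g (N.D n) = 0
  gP : ∀ n, g (N.P n) = g n
  χP : ∀ a, χ (R.P a) = χ a
  χmul : ∀ a c, χ (a * c) = χ a * χ c
  δP : ∀ a, δ (R.P a) = δ a
  δD : ∀ a, δ (R.D a) = 0
  δmul : ∀ a c, δ (a * c) = χ a * δ c + δ a * χ c

namespace TauData

variable {b : Bi R R N} {tr : B →ₗ[k] F} (d : TauData b tr)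

/-- the value of the head on words of length zero -/
def gX : Wd k N.V R.V →ₗ[k] B := Wd.recW d.g 0 0

@[simp] theorem gX_nil (n : N.V) : d.gX (Wd.nil n) = d.g n := by simp [gX]
@[simp] theorem gX_snoc (w : Wd k N.V R.V) (r : R.V) : d.gX (Wd.snoc w r) = 0 := by simp [gX]

theorem gE (n : N.V) : d.g (N.E n) = d.g n := by
  rw [SD.E_apply, map_sub, map_add, d.gP]; abel

theorem χE (a : R.V) : d.χ (R.E a) = d.χ a := by
  rw [SD.E_apply, map_sub, map_add, d.χP]; abel

theorem δE (a : R.V) : d.δ (R.E a) = d.δ a := by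
  rw [SD.E_apply, map_sub, map_add, d.δP]; abel

@[simp] theorem gX_EW (w : Wd k N.V R.V) : d.gX (EW N R.toSD w) = d.gX w := by
  induction w using Wd.induction with
  | hadd u v hu hv => simp only [map_add, hu, hv]
  | hnil n => rw [EW_nil, gX_nil, gX_nil, d.gE]
  | hsnoc w _ r => rw [EW_snoc, map_neg, gX_snoc, gX_snoc, neg_zero]

theorem gX_hd (a : R.V) (w : Wd k N.V R.V) : d.gX (hd R b.l a w) = d.χ a * d.gX w := by
  induction w using Wd.induction with
  | hadd u v hu hv => simp only [map_add, hu, hv, mul_add]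
  | hnil n => rw [hd_nil, gX_nil, gX_nil, d.gl]
  | hsnoc w _ r => rw [hd_snoc, gX_snoc, gX_snoc, mul_zero]

theorem gX_tl (w : Wd k N.V R.V) (a : R.V) : d.gX (tl R b.r.act w a) = d.gX w * d.χ a := by
  induction w using Wd.induction with
  | hadd u v hu hv => simp only [map_add, LinearMap.add_apply, hu, hv, add_mul]
  | hnil n => rw [tl_nil, gX_nil, gX_nil, d.gr]
  | hsnoc w _ r => rw [tl_snoc, gX_snoc, gX_snoc, zero_mul]

/-- the trace of the head -/
def tau0 : Wd k N.V R.V →ₗ[k] F := tr ∘ₗ d.gX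

theorem tau0_D (w : Wd k N.V R.V) : d.tau0 (hcD b w) = 0 := by
  unfold tau0
  rw [LinearMap.comp_apply]
  induction w using Wd.induction with
  | hadd u v hu hv => simp only [map_add, hu, hv, add_zero]
  | hnil n => rw [hcD_nil, gX_nil, d.gD, map_zero]
  | hsnoc w _ r =>
    rw [hcD_snoc, map_sub d.gX, map_sub d.gX, map_add d.gX, map_sub d.gX, gX_snoc, gX_snoc,
      gX_tl, gX_hd, gX_hd, gX_EW, map_sub d.χ, d.χP, sub_self, sub_self, zero_mul, zero_add,
      sub_zero, map_sub, d.tr_comm, sub_self]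

/-- auxiliary bilinear map -/
def S1 : Wd k N.V R.V →ₗ[k] R.V →ₗ[k] F :=
  ((LinearMap.mul k B).compl₁₂ d.gX d.δ).compr₂ tr

@[simp] theorem S1_apply (w : Wd k N.V R.V) (a : R.V) : d.S1 w a = tr (d.gX w * d.δ a) := rfl

/-- the second functional -/
def tau1 : Wd k N.V R.V →ₗ[k] F := Wd.recW 0 d.S1 0

@[simp] theorem tau1_nil (n : N.V) : d.tau1 (Wd.nil n) = 0 := by simp [tau1]
@[simp] theorem tau1_snoc (w : Wd k N.V R.V) (a : R.V) :
    d.tau1 (Wd.snoc w a) = tr (d.gX w * d.δ a) := by simp [tau1]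

theorem gX_Db_nil (n : N.V) : d.gX (Db b.r (Wd.nil n)) = 0 := by
  rw [Db_nil, gX_nil, d.gD]

theorem gX_Db_snoc (w : Wd k N.V R.V) (a : R.V) :
    d.gX (Db b.r (Wd.snoc w a)) = d.gX w * d.χ a := by
  rw [Db_snoc, map_add, map_sub, gX_snoc, gX_snoc, gX_tl, gX_EW, sub_self, zero_add]

theorem tau1_snoc_D (w : Wd k N.V R.V) (a : R.V) :
    d.tau1 (hcD b (Wd.snoc w a)) = 0 := by
  rw [hcD_snoc, map_sub, map_sub, map_add, map_sub, tau1_snoc, tau1_snoc, d.δD, mul_zero,
    map_zero, sub_zero]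
  induction w using Wd.induction with
  | hadd u v hu hv =>
    have h : ∀ x y z t x' y' z' t' : F, x + y - z - t = 0 → x' + y' - z' - t' = 0 →
        (x + x') + (y + y') - (z + z') - (t + t') = 0 := by
      intro x y z t x' y' z' t' h h'
      have h2 : (x + x') + (y + y') - (z + z') - (t + t')
        = (x + y - z - t) + (x' + y' - z' - t') := by abel
      rw [h2, h, h', add_zero]
    simp only [map_add, LinearMap.add_apply, add_mul]
    exact h _ _ _ _ _ _ _ _ hu hv
  | hnil n =>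
    rw [gX_Db_nil, zero_mul, map_zero, EW_nil, tl_nil, tau1_nil, hd_nil, tau1_nil, hd_nil,
      tau1_nil]
    simp
  | hsnoc w _ r =>
    rw [gX_Db_snoc, EW_snoc, map_neg, LinearMap.neg_apply, tl_snoc, map_neg, tau1_snoc, gX_EW,
      map_neg, hd_snoc, map_neg, tau1_snoc, gX_hd, gX_EW, hd_snoc, tau1_snoc, gX_hd,
      map_sub d.χ, d.χP, sub_self, zero_mul, zero_mul, map_zero, d.δmul, d.δE, d.χE, mul_add,
      map_add, mul_assoc, mul_assoc, d.tr_comm (d.χ a), mul_assoc]
    abel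

theorem tau1_D (w : Wd k N.V R.V) : d.tau1 (hcD b w) = 0 := by
  induction w using Wd.induction with
  | hadd u v hu hv => simp only [map_add, hu, hv, add_zero]
  | hnil n => rw [hcD_nil, tau1_nil]
  | hsnoc w _ r => exact d.tau1_snoc_D w r

end TauData

end abs

variable {k : Type} [Field k] {t : k} {R : Type} [CommRing R] [Algebra k R]
  {F : Type} [Field F] [Algebra k F] {C : QRing k t R} {j : R →ₐ[k] F}

/-- the data for `fBi T` and a derivation -/
def tauF (T : PS C j) (der : R →ₗ[k] R)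
    (hder : ∀ a b, der (a * b) = a * der b + der a * b) :
    TauData (fBi T) (Matrix.traceLinearMap (Fin 2) k F) where
  g := (LinearMap.proj Pc.X) ∘ₗ (fv T wt wt)
  χ := j.toLinearMap.mapMatrix ∘ₗ (LinearMap.proj Pc.X) ∘ₗ (qv C wt wt)
  δ := (j.toLinearMap ∘ₗ der).mapMatrix ∘ₗ (LinearMap.proj Pc.X) ∘ₗ (qv C wt wt)
  tr_comm x y := Matrix.trace_mul_comm x y
  gl a n := by
    change fv T wt wt ((fLA T wt).act a n) Pc.X = _
    rw [fv_fLA]
    rfl
  gr n a := by
    change fv T wt wt ((fRA T wt).act n a) Pc.X = _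
    rw [fv_fRA]
    rfl
  gD n := by
    change fv T wt wt ((fSD T wt wt).D n) Pc.X = _
    rw [fv_D]
    rfl
  gP n := by
    change fv T wt wt ((fSD T wt wt).P n) Pc.X = _
    rw [fv_P]
    rfl
  χP a := rfl
  χmul a c := by
    change (qv C wt wt (qMul C wt wt wt a c) Pc.X).map j = _
    rw [qv_qMul, cMul_X, matMul_apply, map_mul_j]
    rfl
  δP a := rfl
  δD a := by
    change (qv C wt wt ((qSD C wt wt).D a) Pc.X).map (fun r => j (der r)) = _
    rw [qv_D, cD_X]
    ext i l
    simp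
  δmul a c := by
    change (qv C wt wt (qMul C wt wt wt a c) Pc.X).map (fun r => j (der r))
      = (qv C wt wt a Pc.X).map j * (qv C wt wt c Pc.X).map (fun r => j (der r))
        + (qv C wt wt a Pc.X).map (fun r => j (der r)) * (qv C wt wt c Pc.X).map j
    rw [qv_qMul, cMul_X, matMul_apply]
    ext i l
    simp only [Matrix.map_apply, Matrix.mul_apply, map_sum, hder, map_add, map_mul,
      Matrix.add_apply, Finset.sum_add_distrib]

/-- the trace of the head (component on the chart `x ≠ 0`), zero on words of positive length -/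
theorem exists_tau0 (T : PS C j) : ∃ τ : (HC (fBi T)).V →ₗ[k] F,
    (∀ x, τ ((HC (fBi T)).D x) = 0) ∧
    ∀ f : (fSD T wt wt).V, τ (Wd.nil f) = (fv T wt wt f Pc.X).trace := by
  refine ⟨(tauF T 0 (by simp)).tau0, (tauF T 0 (by simp)).tau0_D, fun f => ?_⟩
  change Matrix.traceLinearMap (Fin 2) k F ((tauF T 0 (by simp)).gX (Wd.nil f)) = _
  rw [TauData.gX_nil]
  rfl

/-- `nil f ⊗ a ↦ trace (f ∂a)` (components on the chart `x ≠ 0`), zero on words of length different from 1 -/
theorem exists_tau1 (T : PS C j) (der : R →ₗ[k] R)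
    (hder : ∀ a b, der (a * b) = a * der b + der a * b) :
    ∃ τ : (HC (fBi T)).V →ₗ[k] F,
      (∀ x, τ ((HC (fBi T)).D x) = 0) ∧
      ∀ (f : (fSD T wt wt).V) (a : (AA C).V), τ (Wd.snoc (Wd.nil f) a)
        = (fv T wt wt f Pc.X * (qv C wt wt a Pc.X).map (fun r => j (der r))).trace := by
  refine ⟨(tauF T der hder).tau1, (tauF T der hder).tau1_D, fun f a => ?_⟩
  rw [TauData.tau1_snoc, TauData.gX_nil]
  rfl

end H36.QX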