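import Pool.Agent.H36.QX.HPz
import Pool.Agent.H36.QX.Tau

/-!
# EvA : the class of the idempotent in Hochschild homology is not zero
-/

set_option autoImplicit false

open NC

noncomputable section

namespace H36.QX

open H36.NX
variable {k : Type} [Field k] {t : k} {R : Type} [CommRing R] [Algebra k R]

/-- the component on the chart `x ≠ 0` -/
def avX (C : QRing k t R) : (AA C).V →ₗ[k] Matrix (Fin 2) (Fin 2) R where
  toFun a := av C a Pc.X
  map_add' a b := by rw [map_add, Pi.add_apply]
  map_smul' c a := by rw [map_smul, Pi.smul_apply, RingHom.id_apply]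

theorem avX_apply (C : QRing k t R) (a : (AA C).V) : avX C a = av C a Pc.X := rfl

theorem avX_mul (C : QRing k t R) (a b : (AA C).V) : avX C (a * b) = avX C a * avX C b := by
  rw [avX_apply, avX_apply, avX_apply, av_mul, cMul_X, matMul_apply]

theorem avX_D (C : QRing k t R) (a : (AA C).V) : avX C ((AA C).D a) = 0 := by
  rw [avX_apply, av_D, cD_X]

theorem avX_P (C : QRing k t R) (a : (AA C).V) : avX C ((AA C).P a) = avX C a := by
  rw [avX_apply, avX_apply, av_P, cP_X]

/-- the trace of the head on the chart `x ≠ 0` as a functional on Hochschild chains of `A` -/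
def tauData (C : QRing k t R) :
    TauData (AA C).diag (Matrix.traceLinearMap (Fin 2) k R) where
  g := avX C
  χ := avX C
  δ := 0
  tr_comm x y := Matrix.trace_mul_comm x y
  gl a n := avX_mul C a n
  gr n a := avX_mul C n a
  gD := avX_D C
  gP := avX_P C
  χP := avX_P C
  χmul := avX_mul C
  δP _ := rfl
  δD _ := rfl
  δmul _ _ := by
    rw [LinearMap.zero_apply, LinearMap.zero_apply, LinearMap.zero_apply, mul_zero, zero_mul,
      add_zero]

/-- the idempotent as an element of `AA C` -/
def eV (C : QRing k t R) : (AA C).V := amk C (e00 R) (e00_mem C)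

theorem eV_eq (C : QRing k t R) : eV C = eA C := rfl

theorem eV_D (C : QRing k t R) : (AA C).D (eV C) = 0 := eA_D C

theorem eV_P (C : QRing k t R) : (AA C).P (eV C) = eV C := by
  refine a_ext C ?_
  rw [av_P]
  funext s
  cases s with
  | X => rfl
  | Y => rfl
  | R => rfl

/-- the class of the idempotent in Hochschild homology -/
def nilE (C : QRing k t R) : (HC (AA C).diag).V := Wd.nil (eV C)

theorem nilE_D (C : QRing k t R) : (HC (AA C).diag).D (nilE C) = 0 := by
  change hcD (AA C).diag (Wd.nil (eV C)) = 0
  rw [hcD_nil, eV_D, map_zero]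

theorem nilE_P (C : QRing k t R) : (HC (AA C).diag).P (nilE C) = nilE C := by
  change PW (AA C).toSD (AA C).toSD (Wd.nil (eV C)) = Wd.nil (eV C)
  rw [PW_nil, eV_P]

theorem tau0_nilE (C : QRing k t R) : (tauData C).tau0 (Wd.nil (eV C)) = 1 := by
  unfold TauData.tau0
  rw [LinearMap.comp_apply, TauData.gX_nil]
  exact tauA_eA C

theorem nilE_ne (C : QRing k t R) [Nontrivial R] :
    ¬ ∃ y, (HC (AA C).diag).D y = nilE C := by
  rintro ⟨y, hy⟩
  have h := (tauData C).tau0_D y
  have h1 : hcD (AA C).diag y = Wd.nil (eV C) := hy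
  rw [h1, tau0_nilE] at h
  exact one_ne_zero h

end H36.QX
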