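import Pool.Agent.H16.NC.Act

/-!
# EvLine : a map on the even homology with values in a line

`i, h : X → Y`, `i` a quasi-isomorphism, the even homology of `X` spanned by two classes, `e` an even cycle which is
not a boundary, `θ'` a functional on `Y` which vanishes on boundaries and on the image of `h`, `θ = θ' i` vanishes at
`e` and not at some even cycle. Then `h x` is homologous to a multiple of `i e` for every even cycle `x`.
-/

set_option autoImplicit false

namespace NC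

namespace SD

variable {k : Type} [Field k] {X Y : SD k}

theorem P_D'' (X : SD k) (y : X.V) : X.P (X.D y) = X.D (y - X.P y) := by
  rw [map_sub, X.DP, sub_sub_cancel]

/-- the even part of a homologous pair -/
theorem Hml.P {x y : X.V} (h : X.Hml x y) : X.Hml (X.P x) (X.P y) := by
  obtain ⟨z, hz⟩ := h
  exact ⟨z - X.P z, by rw [← P_D'', hz, map_sub]⟩

theorem Hml.trans' {x y z : X.V} (h : X.Hml x y) (h' : X.Hml y z) : X.Hml x z := by
  obtain ⟨a, ha⟩ := h
  obtain ⟨b, hb⟩ := h'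
  exact ⟨a + b, by rw [map_add, ha, hb, sub_add_sub_cancel]⟩

theorem Hml.symm' {x y : X.V} (h : X.Hml x y) : X.Hml y x := by
  obtain ⟨a, ha⟩ := h
  exact ⟨-a, by rw [map_neg, ha, neg_sub]⟩

theorem Hml.smul' {x y : X.V} (c : k) (h : X.Hml x y) : X.Hml (c • x) (c • y) := by
  obtain ⟨a, ha⟩ := h
  exact ⟨c • a, by rw [map_smul, ha, smul_sub]⟩

theorem Hml.map' {x y : X.V} (f : SD.Hom X Y) (h : X.Hml x y) : Y.Hml (f.f x) (f.f y) := by
  obtain ⟨a, ha⟩ := h
  exact ⟨f.f a, by rw [← f.D, ha, map_sub]⟩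

/-- the kernel of a nonzero functional on a homology spanned by two classes is a line -/
theorem ev_ker (θ : X.V →ₗ[k] k) (hθ : ∀ y, θ (X.D y) = 0) (a b e ζ : X.V)
    (hab : ∀ x, X.P x = x → X.D x = 0 → ∃ c d : k, X.Hml x (c • a + d • b))
    (he : X.D e = 0) (hPe : X.P e = e) (hne : ¬ ∃ y, X.D y = e) (hθe : θ e = 0)
    (hζ : X.D ζ = 0) (hPζ : X.P ζ = ζ) (hθζ : θ ζ ≠ 0) (x : X.V) (hPx : X.P x = x)
    (hx : X.D x = 0) (hθx : θ x = 0) : ∃ c : k, X.Hml x (c • e) := by
  have hval : ∀ x y : X.V, X.Hml x y → θ x = θ y := by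
    rintro x y ⟨z, hz⟩
    have h1 := hθ z
    rw [hz, map_sub, sub_eq_zero] at h1
    exact h1
  have hker : ∀ x, X.P x = x → X.D x = 0 → θ x = 0 →
      ∃ c : k, X.Hml x (c • (θ b • a - θ a • b)) := by
    intro x hPx hx hθx
    obtain ⟨c, d, hcd⟩ := hab x hPx hx
    have h1 := hval _ _ hcd
    rw [hθx, map_add, map_smul, map_smul, smul_eq_mul, smul_eq_mul] at h1
    obtain ⟨c1, d1, h2⟩ := hab ζ hPζ hζ
    have h3 := hval _ _ h2
    rw [map_add, map_smul, map_smul, smul_eq_mul, smul_eq_mul] at h3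
    by_cases hb : θ b = 0
    · have ha : θ a ≠ 0 := by
        intro ha
        rw [ha, hb, mul_zero, mul_zero, add_zero] at h3
        exact hθζ h3
      rw [hb, mul_zero, add_zero] at h1
      have hc : c = 0 := by
        rcases mul_eq_zero.1 h1.symm with h | h
        · exact h
        · exact absurd h ha
      refine ⟨-(θ a)⁻¹ * d, ?_⟩
      have e1 : (-(θ a)⁻¹ * d) • (θ b • a - θ a • b) = c • a + d • b := by
        simp only [hb, hc, zero_smul]
        rw [zero_sub, zero_add, smul_neg, smul_smul, ← neg_smul]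
        congr 1
        field_simp
      rw [e1]
      exact hcd
    · refine ⟨(θ b)⁻¹ * c, ?_⟩
      have hd : d = -(c * θ a) * (θ b)⁻¹ := by
        field_simp
        linear_combination -h1
      have e1 : ((θ b)⁻¹ * c) • (θ b • a - θ a • b) = c • a + d • b := by
        rw [hd, smul_sub, smul_smul, smul_smul, sub_eq_add_neg, ← neg_smul]
        congr 1
        · congr 1
          field_simp
        · congr 1
          ring
      rw [e1]
      exact hcd
  obtain ⟨c, hc⟩ := hker e hPe he hθe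
  obtain ⟨d, hd⟩ := hker x hPx hx hθx
  have hc0 : c ≠ 0 := by
    rintro rfl
    rw [zero_smul] at hc
    obtain ⟨z, hz⟩ := hc
    exact hne ⟨z, by rw [hz, sub_zero]⟩
  refine ⟨d * c⁻¹, hd.trans' ?_⟩
  have h1 := Hml.smul' (d * c⁻¹) hc.symm'
  rw [smul_smul, mul_assoc, inv_mul_cancel₀ hc0, mul_one] at h1
  exact h1

/-- a map on the even homology with values in the line of `i e` -/
theorem ev_line (i h : SD.Hom X Y) (hi : i.QI) (θ : X.V →ₗ[k] k) (θ' : Y.V →ₗ[k] k)
    (hθ' : ∀ y, θ' (Y.D y) = 0) (hθi : ∀ x, θ' (i.f x) = θ x) (hθh : ∀ x, θ' (h.f x) = 0)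
    (a b e ζ : X.V)
    (hab : ∀ x, X.P x = x → X.D x = 0 → ∃ c d : k, X.Hml x (c • a + d • b))
    (he : X.D e = 0) (hPe : X.P e = e) (hne : ¬ ∃ y, X.D y = e) (hθe : θ e = 0)
    (hζ : X.D ζ = 0) (hPζ : X.P ζ = ζ) (hθζ : θ ζ ≠ 0) (x : X.V) (hPx : X.P x = x)
    (hx : X.D x = 0) : ∃ c : k, Y.Hml (h.f x) (c • i.f e) := by
  have hθ : ∀ y, θ (X.D y) = 0 := fun y => by rw [← hθi, i.D, hθ']
  obtain ⟨x', z, hx', hz⟩ := hi.surj (h.f x) (by rw [← h.D, hx, map_zero])
  have h1 : Y.Hml (h.f x) (i.f x') := ⟨z, by rw [hz, add_sub_cancel_left]⟩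
  have h2 := h1.P
  rw [← h.P, ← i.P, hPx] at h2
  have h3 : θ (X.P x') = 0 := by
    obtain ⟨w, hw⟩ := h2
    have h4 := hθ' w
    rw [hw, map_sub, hθh, hθi, zero_sub, neg_eq_zero] at h4
    exact h4
  obtain ⟨c, hc⟩ := ev_ker θ hθ a b e ζ hab he hPe hne hθe hζ hPζ hθζ (X.P x') (X.PP x')
    (by rw [X.DP, hx', map_zero, sub_zero]) h3
  refine ⟨c, h2.trans' ?_⟩
  have h5 := hc.map' i
  rw [map_smul] at h5
  exact h5

end SD

end NC
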