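import Pool.Agent.H36.QX.Base

/-!
# Exist : the ring of the curve exists

`AdjoinRoot` of the monic polynomial `W^2 - Q W - ((t + 1) Q^2 + Q)` over `LaurentPolynomial k` (`k[T;T⁻¹]`),
`Q = T^2 + T + t`.
-/

set_option autoImplicit false

namespace H36.QX

open H36.NX
open Polynomial LaurentPolynomial

/-- the Laurent polynomial `Q` -/
private noncomputable def exQ {k : Type} [Field k] (t : k) : LaurentPolynomial k :=
  T 1 ^ 2 + T 1 + LaurentPolynomial.C t

/-- the equation of the curve over the Laurent polynomials -/
private noncomputable def exF {k : Type} [Field k] (t : k) : (LaurentPolynomial k)[X] :=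
  X ^ 2 + (Polynomial.C (-(exQ t)) * X +
    Polynomial.C (-(LaurentPolynomial.C (t + 1) * exQ t ^ 2 + exQ t)))

private theorem exF_deg {k : Type} [Field k] (t : k) :
    (Polynomial.C (-(exQ t)) * X +
    Polynomial.C (-(LaurentPolynomial.C (t + 1) * exQ t ^ 2 + exQ t)) :
      (LaurentPolynomial k)[X]).degree < ((2 : ℕ) : WithBot ℕ) := by
  refine lt_of_le_of_lt (Polynomial.degree_linear_le) ?_
  exact_mod_cast (by omega : 1 < 2)

private theorem exF_monic {k : Type} [Field k] (t : k) : (exF t).Monic := by
  unfold exF
  exact Polynomial.monic_X_pow_add (exF_deg t)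

private theorem exF_natDegree {k : Type} [Field k] (t : k) : (exF t).natDegree = 2 := by
  unfold exF
  exact Polynomial.natDegree_eq_of_degree_eq_some
    (by rw [Polynomial.degree_add_eq_left_of_degree_lt (by
          rw [Polynomial.degree_X_pow]; exact exF_deg t), Polynomial.degree_X_pow])

private theorem exF_aeval {k : Type} [Field k] (t : k) {S : Type} [CommRing S]
    [Algebra (LaurentPolynomial k) S] (r : S) :
    Polynomial.aeval r (exF t) = r ^ 2 -
      (algebraMap (LaurentPolynomial k) S (exQ t) * r +
        algebraMap (LaurentPolynomial k) S (LaurentPolynomial.C (t + 1)) *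
          algebraMap (LaurentPolynomial k) S (exQ t) ^ 2 +
        algebraMap (LaurentPolynomial k) S (exQ t)) := by
  unfold exF
  simp only [map_add, map_neg, map_mul, Polynomial.aeval_C, Polynomial.aeval_X, map_pow]
  ring

theorem exists_qRing (k : Type) [Field k] (t : k) :
    ∃ (R : Type) (_ : CommRing R) (_ : Algebra k R), Nonempty (QRing k t R) := by
  classical
  have hF := exF_monic t
  let A := LaurentPolynomial k
  let R := AdjoinRoot (exF t)
  let pb := AdjoinRoot.powerBasis' hF
  have hdim : pb.dim = 2 := by
    show (exF t).natDegree = 2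
    exact exF_natDegree t
  let bA : Module.Basis ℤ k A := AddMonoidAlgebra.basis ℤ k
  let bR : Module.Basis (Fin 2) A R := pb.basis.reindex (finCongr hdim)
  let uA : Aˣ := ⟨T 1, T (-1), by rw [← T_add]; simp, by rw [← T_add]; simp⟩
  have huA : ∀ m : ℤ, ((uA ^ m : Aˣ) : A) = T m := by
    intro m
    induction m using Int.induction_on with
    | zero => simp
    | succ n ih => rw [zpow_add_one, Units.val_mul, ih, T_add]
    | pred n ih =>
      rw [zpow_sub_one, Units.val_mul, ih, show (-(n : ℤ) - 1) = -(n : ℤ) + (-1) by ring, T_add]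
      rfl
  have hbA : ∀ m : ℤ, bA m = T m := by
    intro m
    show AddMonoidAlgebra.basis ℤ k m = T m
    rw [AddMonoidAlgebra.basis_apply]
    rfl
  refine ⟨R, inferInstance, inferInstance, ⟨{
    u := Units.map (algebraMap A R : A →* R) uA
    w := AdjoinRoot.root (exF t)
    bas := bA.smulTower bR
    bas_eq := ?_
    rel := ?_ }⟩⟩
  · intro m a
    rw [Module.Basis.smulTower_apply, hbA, Algebra.smul_def, ← huA m, ← map_zpow, Units.coe_map]
    congr 1
    simp [bR, pb]
  · have h2 : Polynomial.aeval (AdjoinRoot.root (exF t)) (exF t) = 0 := by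
      rw [AdjoinRoot.aeval_eq, AdjoinRoot.mk_self]
    have hC : ∀ c : k, algebraMap A R (LaurentPolynomial.C c) = algebraMap k R c := by
      intro c
      rw [IsScalarTower.algebraMap_apply k A R, LaurentPolynomial.algebraMap_apply]
      rfl
    have hu : ((Units.map (algebraMap A R : A →* R) uA : Rˣ) : R) = algebraMap A R (T 1) := rfl
    have hQ : algebraMap A R (exQ t) = algebraMap A R (T 1) ^ 2 + algebraMap A R (T 1)
        + algebraMap k R t := by
      rw [← hC]
      unfold exQ
      rw [map_add, map_add, map_pow]
    rw [hu, ← hQ, ← hC]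
    rw [exF_aeval] at h2
    exact sub_eq_zero.mp h2

end H36.QX
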