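import Pool.Agent.H36.QX.Base

/-!
# LeadK : the residue fields `K = k(ρ)`, `ρ^2 = ρ + t + 1`, of the point `x = 0` and `L = k(r)`,
`r^2 = r + t`, of the ramification point
-/

set_option autoImplicit false

namespace H36.QX

open Polynomial

/-- a quadratic extension generated by a root of `X^2 - X - s` if this has no root in `k` -/
theorem exists_as_root (k : Type) [Field k] (s : k) (hne : ∀ b : k, b ^ 2 ≠ b + s) :
    ∃ (K : Type) (_ : Field K) (_ : Algebra k K) (ρ : K) (bas : Module.Basis (Fin 2) k K),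
      ρ ^ 2 = ρ + algebraMap k K s ∧ ∀ i : Fin 2, bas i = ρ ^ (i : ℕ) := by
  classical
  have hdeg : (X ^ 2 - X - C s : k[X]).natDegree = 2 := by
    compute_degree!
  have hnz : (X ^ 2 - X - C s : k[X]) ≠ 0 := by
    intro h
    rw [h, natDegree_zero] at hdeg
    exact absurd hdeg (by norm_num)
  have hirr : Irreducible (X ^ 2 - X - C s : k[X]) := by
    refine (irreducible_iff_roots_eq_zero_of_degree_le_three (by rw [hdeg]) (by rw [hdeg]; norm_num)).2 ?_
    refine Multiset.eq_zero_of_forall_notMem fun b hb => ?_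
    have h := (mem_roots hnz).1 hb
    rw [IsRoot.def, eval_sub, eval_sub, eval_pow, eval_X, eval_C] at h
    exact hne b (by linear_combination h)
  have : Fact (Irreducible (X ^ 2 - X - C s : k[X])) := ⟨hirr⟩
  have hdim : (AdjoinRoot.powerBasis hnz).dim = 2 := by
    rw [AdjoinRoot.powerBasis_dim]
    exact hdeg
  refine ⟨AdjoinRoot (X ^ 2 - X - C s : k[X]), inferInstance, inferInstance,
    AdjoinRoot.root _, (AdjoinRoot.powerBasis hnz).basis.reindex (finCongr hdim), ?_, ?_⟩
  · have h := AdjoinRoot.eval₂_root (X ^ 2 - X - C s : k[X])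
    rw [eval₂_sub, eval₂_sub, eval₂_pow, eval₂_X, eval₂_C] at h
    have h' : AdjoinRoot.root (X ^ 2 - X - C s : k[X]) ^ 2 - AdjoinRoot.root (X ^ 2 - X - C s : k[X])
      - algebraMap k _ s = 0 := h
    linear_combination h'
  · intro i
    rw [Module.Basis.reindex_apply, PowerBasis.basis_eq_pow, AdjoinRoot.powerBasis_gen]
    rfl

/-- the point `(0 : 1 : ρ)` would have degree one; hence `X^2 - X - (t + 1)` is irreducible -/
theorem exists_qRoot (k : Type) [Field k] (t : k) (hI : IndexT k t) :
    ∃ (K : Type) (_ : Field K) (_ : Algebra k K), Nonempty (QRoot k t K) := by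
  have hne : ∀ b : k, b ^ 2 ≠ b + (t + 1) := by
    intro b hb
    have h := hI k (0 : k) (1 : k) b (1 : k) (Or.inr (Or.inl one_ne_zero)) (by ring) (by
      simp only [Algebra.algebraMap_self, RingHom.id_apply]
      rw [hb]
      ring)
    rw [Module.finrank_self] at h
    have := Nat.le_of_dvd one_pos h
    omega
  obtain ⟨K, iK, jK, ρ, bas, h1, h2⟩ := exists_as_root k (t + 1) hne
  exact ⟨K, iK, jK, ⟨⟨ρ, h1, bas, h2⟩⟩⟩

/-- the point `(1 : r : 0)` would have degree one; hence `X^2 - X - t` is irreducible -/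
theorem exists_qPt (k : Type) [Field k] [CharP k 2] (t : k) (hI : IndexT k t) :
    ∃ (L : Type) (_ : Field L) (_ : Algebra k L), Nonempty (QPt k t L) := by
  have hne : ∀ b : k, b ^ 2 ≠ b + t := by
    intro b hb
    have h2 : (2 : k) = 0 := CharTwo.two_eq_zero
    have h := hI k (1 : k) b (0 : k) (0 : k) (Or.inl one_ne_zero) (by
      simp only [Algebra.algebraMap_self, RingHom.id_apply]
      rw [hb]
      linear_combination (-(b + t)) * h2) (by ring)
    rw [Module.finrank_self] at h
    have := Nat.le_of_dvd one_pos h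
    omega
  obtain ⟨K, iK, jK, ρ, bas, h1, h2⟩ := exists_as_root k t hne
  exact ⟨K, iK, jK, ⟨⟨ρ, h1, bas, h2⟩⟩⟩

end H36.QX
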