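import Pool.Agent.H36.QX.Base

/-!
# IdxNe : the index hypothesis excludes `t = 0`, `t = 1` and `t^2 + t + 1 = 0`
-/

set_option autoImplicit false

namespace H36.QX

variable {k : Type} [Field k] {t : k}

/-- the curve has no point over `k` -/
theorem IndexT.no_pt (hI : IndexT k t) (x y z q : k) (hne : x ≠ 0 ∨ y ≠ 0 ∨ z ≠ 0)
    (hq : q = y ^ 2 + x * y + t * x ^ 2) (hz : z ^ 2 = q * z + (t + 1) * q ^ 2 + x ^ 2 * q) :
    False := by
  have h := hI k x y z q hne (by rw [Algebra.algebraMap_self, RingHom.id_apply]; exact hq)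
    (by rw [Algebra.algebraMap_self, RingHom.id_apply]; exact hz)
  rw [Module.finrank_self] at h
  omega

theorem IndexT.t_ne_zero (hI : IndexT k t) : t ≠ 0 := by
  rintro rfl
  exact hI.no_pt 1 0 0 0 (Or.inl one_ne_zero) (by ring) (by ring)

theorem IndexT.t_add_one_ne_zero (hI : IndexT k t) : t + 1 ≠ 0 := by
  intro h
  exact hI.no_pt 0 1 0 1 (Or.inr (Or.inl one_ne_zero)) (by ring) (by rw [h]; ring)

theorem IndexT.t_sq_ne_zero [CharP k 2] (hI : IndexT k t) : t ^ 2 + t + 1 ≠ 0 := by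
  intro h
  have h2 : (2 : k) = 0 := CharTwo.two_eq_zero
  refine hI.no_pt 1 t t (t ^ 2) (Or.inl one_ne_zero) (by linear_combination (-t) * h2) ?_
  linear_combination (-t ^ 3) * h

end H36.QX
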