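import Pool.Agent.H36.QX.P0s
import Pool.Agent.H36.QX.SmK
import Pool.Agent.H36.QX.Dom
import Pool.Agent.H36.NX.Push
import Pool.Agent.H15.NC.TensQ

/-!
# SmP0 : the cokernel of the multiplication by `Q` on `Q n` is perfect
-/

set_option autoImplicit false

open NC
open scoped TensorProduct

namespace H36.QX

open H36.NX

variable {k : Type} [Field k] {t : k} {R : Type} [CommRing R] [Algebra k R]
  {K : Type} [Field K] [Algebra k K]

/-- the product of a left and of a right module -/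
noncomputable def tB {A B : DGA k} {X Y : SD k} (a : LA A X) (ha : ∀ x, a.act 1 x = x)
    (b : RA B Y) (hb : ∀ y, b.act y 1 = y) : BMod A B where
  N := X.tens Y
  b := Bi.tensLR a b
  one_l := fun v => by
    refine tens_ext (f := (a.tensL Y).act 1) (g := LinearMap.id) (fun x y => ?_) v
    rw [LA.tensL_act, ha]
    rfl
  r_one := fun v => by
    refine tens_ext (f := (b.tensR X).act.flip 1) (g := LinearMap.id) (fun x y => ?_) v
    change (b.tensR X).act (x ⊗ₜ[k] y) 1 = _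
    rw [RA.tensR_act, hb]
    rfl

/-- the product of two maps -/
noncomputable def tBf {A B : DGA k} {X Y X' Y' : SD k} {a : LA A X} {ha : ∀ x, a.act 1 x = x}
    {b : RA B Y} {hb : ∀ y, b.act y 1 = y} {a' : LA A X'} {ha' : ∀ x, a'.act 1 x = x}
    {b' : RA B Y'} {hb' : ∀ y, b'.act y 1 = y} (f : SD.Hom X X') (g : SD.Hom Y Y')
    (hf : a.IsHom a' f) (hg : b.IsHom b' g) : BMod.Hom (tB a ha b hb) (tB a' ha' b' hb') where
  toHom := f.tens g
  isHom := isHom_tens f g hf hg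

section

variable (C : QRing k t R)

/-- `L m ⊗ P n` -/
private noncomputable abbrev tK (m n : ℤ) : BMod (AA C) (AA C) :=
  tB (qLA C (fun _ : Unit => m)) (qLA_one C _) (qRA C (fun _ : Unit => (0 : ℤ)) n)
    (qRA_one C _ n)

private theorem tK_PF (E : QRoot k t K) (m n : ℤ) : PF (AA C) (tK C m n) := PF_K C E m n

/-- `L m ⊗ (Čech row over R / w)` -/
private noncomputable abbrev tC (m : ℤ) : BMod (AA C) (AA C) :=
  tB (qLA C (fun _ : Unit => m)) (qLA_one C _) (cVR C (Vw C) Unit) (cVR_one C)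

/-- `L m ⊗ (row over R / w)` -/
private noncomputable abbrev tX (m : ℤ) : BMod (AA C) (AA C) :=
  tB (qLA C (fun _ : Unit => m)) (qLA_one C _) (xVR C (Vw C) Unit) (xVR_one C)

/-- `(Čech column over R / w) ⊗ (row over R / w)` -/
private noncomputable abbrev tCX : BMod (AA C) (AA C) :=
  tB (cVL C (Vw C) Unit) (cVL_one C) (xVR C (Vw C) Unit) (xVR_one C)

/-- `(column over R / w) ⊗ (row over R / w)` -/
noncomputable abbrev tXX : BMod (AA C) (AA C) :=
  tB (xVL C (Vw C) Unit) (xVL_one C) (xVR C (Vw C) Unit) (xVR_one C)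

private theorem w_inj (E : QRoot k t K) (z : R) (h : C.w * z = 0) : z = 0 := by
  have hd := C.isDomain E
  refine (mul_eq_zero.1 h).resolve_left fun h0 => ?_
  have h1 := C.bas.linearIndependent.ne_zero (0, (1 : Fin 2))
  refine h1 ?_
  rw [C.bas_eq, zpow_zero, Units.val_one, one_mul]
  change C.w ^ 1 = 0
  rw [pow_one, h0]

private theorem Q_inj (E : QRoot k t K) (z : R) (h : C.Q * z = 0) : z = 0 := by
  have hd := C.isDomain E
  refine (mul_eq_zero.1 h).resolve_left fun h0 => ?_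
  have h1 := C.rel'
  rw [h0] at h1
  have h2 : C.w ^ 2 = 0 := by rw [h1]; ring
  have h3 : C.w * 1 = 0 := by
    rw [mul_one]
    exact pow_eq_zero_iff (two_ne_zero) |>.1 h2
  exact one_ne_zero (w_inj C E 1 h3)

private theorem tC_PF (E : QRoot k t K) (h0 : t ≠ 0) (h1 : t + 1 ≠ 0) (h2 : t ^ 2 + t + 1 ≠ 0)
    (m : ℤ) : PF (AA C) (tC C m) := by
  have hs := ses_tensL (ses_reg C (reg_w C h0 h1 h2) (w_inj C E) (pr_eq2' 0)
    (qWH C (pr_eq2' 0)) (fun v => qv_qW C (pr_eq2' 0) v)) (Lc C m)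
  let f : BMod.Hom (tK C m 0) (tK C m (0 + 2)) :=
    tBf (SD.Hom.id (Lc C m)) (qWH C (pr_eq2' 0)) (fun _ _ => rfl) (qWH_right C (pr_eq2' 0))
  let g : BMod.Hom (tK C m (0 + 2)) (tC C m) :=
    tBf (SD.Hom.id (Lc C m)) (evH C (fun _ : Unit => (0 : ℤ)) (wtn (0 + 2)) (qt R C.w))
      (fun _ _ => rfl) (evH_right C (fun _ : Unit => (0 : ℤ)) (0 + 2) (qt R C.w))
  exact PF.ses1 f g hs (tK_PF C E m 0) (tK_PF C E m (0 + 2))

private theorem tX_PF (E : QRoot k t K) (h0 : t ≠ 0) (h1 : t + 1 ≠ 0) (h2 : t ^ 2 + t + 1 ≠ 0)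
    (m : ℤ) : PF (AA C) (tX C m) := by
  let f : BMod.Hom (tC C m) (tX C m) :=
    tBf (SD.Hom.id (Lc C m)) (cX k (Matrix Unit (Fin 2) (Vw C))) (fun _ _ => rfl) (cX_right C)
  exact PF.qi f ((cX_qi (Matrix Unit (Fin 2) (Vw C))).tensR (Lc C m)) (tC_PF C E h0 h1 h2 m)

private theorem tCX_PF (E : QRoot k t K) (h0 : t ≠ 0) (h1 : t + 1 ≠ 0) (h2 : t ^ 2 + t + 1 ≠ 0) :
    PF (AA C) (tCX C) := by
  have hs := ses_tensR (ses_reg C (reg_w C h0 h1 h2) (w_inj C E) (lc_eq2' 0)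
    (qWH C (lc_eq2' 0)) (fun v => qv_qW C (lc_eq2' 0) v)) (xSD k (Matrix Unit (Fin 2) (Vw C)))
  let f : BMod.Hom (tX C 0) (tX C (0 + 2)) :=
    tBf (qWH C (lc_eq2' 0)) (SD.Hom.id _) (qWH_left C (lc_eq2' 0)) (fun _ _ => rfl)
  let g : BMod.Hom (tX C (0 + 2)) (tCX C) :=
    tBf (evH C wt (fun _ : Unit => (0 : ℤ) + 2) (qt R C.w)) (SD.Hom.id _)
      (evH_left C (fun _ : Unit => (0 : ℤ) + 2) (qt R C.w)) (fun _ _ => rfl)
  exact PF.ses1 f g hs (tX_PF C E h0 h1 h2 0) (tX_PF C E h0 h1 h2 (0 + 2))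

theorem tXX_PF (E : QRoot k t K) (h0 : t ≠ 0) (h1 : t + 1 ≠ 0) (h2 : t ^ 2 + t + 1 ≠ 0) :
    PF (AA C) (tXX C) := by
  let f : BMod.Hom (tCX C) (tXX C) :=
    tBf (cX k (Matrix (Fin 2) Unit (Vw C))) (SD.Hom.id _) (cX_left C) (fun _ _ => rfl)
  exact PF.qi f ((cX_qi (Matrix (Fin 2) Unit (Vw C))).tensL _) (tCX_PF C E h0 h1 h2)

/-! ### the point `P0` -/

private theorem tXX_D (v : CR C) : (tXX C).N.D v = 0 := by
  refine tens_ext (f := SD.tD (xSD k (Matrix (Fin 2) Unit (Vw C)))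
    (xSD k (Matrix Unit (Fin 2) (Vw C)))) (g := 0) (fun x y => ?_) v
  rw [SD.tD_tmul, xSD_D, xSD_D, TensorProduct.zero_tmul, TensorProduct.tmul_zero, add_zero]
  rfl

private theorem tXX_P (v : CR C) : (tXX C).N.P v = v := by
  refine tens_ext (f := SD.tP (xSD k (Matrix (Fin 2) Unit (Vw C)))
    (xSD k (Matrix Unit (Fin 2) (Vw C)))) (g := LinearMap.id) (fun x y => ?_) v
  rw [SD.tP_tmul, xSD_P, xSD_P, sub_self, TensorProduct.zero_tmul, add_zero]
  rfl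

/-- the section -/
noncomputable def sSB [CharP k 2] : BMod.Hom (xVb C (V0 C)) (tXX C) where
  f := sS C
  D v := by
    have h := tXX_D C (sS C v)
    have h' : sS C (0 : Matrix (Fin 2) (Fin 2) (V0 C)) = 0 := map_zero _
    exact h'.trans h.symm
  P v := (tXX_P C (sS C v)).symm
  isHom := ⟨fun a v => (sS_left C (ax C a) v).symm, fun v a => (sS_right C (ax C a) v).symm⟩

/-- the retraction -/
noncomputable def sPB : BMod.Hom (tXX C) (xVb C (V0 C)) where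
  f := sP C
  D v := by
    have h := tXX_D C v
    have h' : sP C ((tXX C).N.D v) = sP C 0 := congrArg (sP C) h
    exact h'.trans (map_zero _)
  P v := congrArg (sP C) (tXX_P C v)
  isHom := ⟨fun a v => sP_left C (ax C a) v, fun v a => sP_right C (ax C a) v⟩

theorem PF_x0 (E : QRoot k t K) [CharP k 2] (h0 : t ≠ 0) (h1 : t + 1 ≠ 0)
    (h2 : t ^ 2 + t + 1 ≠ 0) : PF (AA C) (xVb C (V0 C)) :=
  PF.ret (sSB C) (sPB C) (fun x => sP_sS C x) (tXX_PF C E h0 h1 h2)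

theorem PF_c0 (E : QRoot k t K) [CharP k 2] (h0 : t ≠ 0) (h1 : t + 1 ≠ 0)
    (h2 : t ^ 2 + t + 1 ≠ 0) : PF (AA C) (cVb C (V0 C)) :=
  PF.qi' (cXb C (V0 C)) (cX_qi _) (PF_x0 C E h0 h1 h2)

theorem PF_cQ (E : QRoot k t K) [CharP k 2] (h0 : t ≠ 0) (h1 : t + 1 ≠ 0)
    (h2 : t ^ 2 + t + 1 ≠ 0) : PF (AA C) (cVb C (VQ C)) :=
  PF.ses2 (cMapB C (wQ C)) (cMapB C (pQ C))
    (cMapB_ses C (wQ C) (pQ C) (wQ_injective C (Q_inj C E)) (wQ_exact C) (pQ_surjective C))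
    (PF_c0 C E h0 h1 h2) (PF_c0 C E h0 h1 h2)

end

/-- **the cokernel of the multiplication by `Q` is perfect** -/
theorem PF_coker_qq (C : QRing k t R) (E : QRoot k t K) (h0 : t ≠ 0) (h1 : t + 1 ≠ 0)
    (h2 : t ^ 2 + t + 1 ≠ 0) [CharP k 2] (n : ℤ) : PF (AA C) (BMod.coker (qq C n)) :=
  PF_coker_of_ses (qq C n) (evB C (n + 2) (qt R C.Q))
    (ses_reg C (reg_Q C h0) (Q_inj C E) (q_eq2' n) (qQH C (q_eq2' n))
      (fun v => qv_qQ C (q_eq2' n) v)) (PF_cQ C E h0 h1 h2)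

end H36.QX
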