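import Pool.Agent.H36.QX.SmQ
import Pool.Agent.H36.QX.SmP0
import Pool.Agent.H36.QX.IdxNe

/-!
# Smooth : the diagonal bimodule is perfect
-/

set_option autoImplicit false

open NC

namespace H36.QX

open H36.NX
variable {k : Type} [Field k] {t : k} {R : Type} [CommRing R] [Algebra k R]
  {C : QRing k t R} {K : Type} [Field K] [Algebra k K] {D : Type} [CommRing D] [Algebra k D]

/-- **smoothness** (super version) -/
theorem PF_diag (W : DblRing k C D) (E : QRoot k t K) [CharP k 2] (hI : IndexT k t) :
    PF (AA C) (BMod.diag (AA C)) :=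
  PF_diag_of W E (PF_coker_qq C E hI.t_ne_zero hI.t_add_one_ne_zero hI.t_sq_ne_zero (-2))

end H36.QX
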