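import Pool.Agent.H36.QX.ChiZ
import Pool.Agent.H36.NX.RPB
import Pool.Agent.H36.NX.FH
import Pool.Agent.H36.NX.HPd
import Pool.Agent.H36.QX.HPz
import Pool.Agent.H36.QX.Proper
import Pool.Agent.H36.QX.Smooth
import Pool.Agent.H36.QX.DblEx
import Pool.Agent.H36.QX.Exist
import Pool.Agent.H36.QX.Dom
import Pool.Agent.H36.QX.LeadK

/-!
# ExA : the properties of the dg algebra of the example in characteristic two
-/

set_option autoImplicit false

open NC

namespace H36.QX

variable {k : Type} [Field k] {t : k} {R : Type} [CommRing R] [Algebra k R]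

/-- `A` has finite dimensional cohomology -/
theorem finH_A (C : QRing k t R) : (AA C).toSD.FinH := SD.coh_finite_iff.1 (proper_AA C)

/-- the diagonal bimodule is perfect (existence form) -/
theorem PF_A (C : QRing k t R) [CharP k 2] (hI : IndexT k t) :
    PF (AA C) (BMod.diag (AA C)) := by
  obtain ⟨K, _, _, ⟨E⟩⟩ := exists_qRoot k t hI
  obtain ⟨D, _, _, ⟨W⟩⟩ := exists_dblRing k C
  exact PF_diag W E hI

/-- the Hochschild homology of `A` is finite dimensional -/
theorem finH_HC_A (C : QRing k t R) [CharP k 2] (hI : IndexT k t) :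
    (HC (AA C).diag).FinH :=
  finH_HC_of_PF (finH_A C) (PF_A C hI)

theorem fin_HT_A (C : QRing k t R) [CharP k 2] (hI : IndexT k t) :
    FiniteDimensional k (AAz C).cyc.HT := fin_HT (AAz C) (finH_HC_A C hI)

/-- the Euler characteristic of Hochschild homology with coefficients in a perfect bimodule
vanishes -/
theorem chi_A (C : QRing k t R) [CharP k 2] (hI : IndexT k t) (X : BMod (AA C) (AA C))
    (hX : PF (AA C) X) : SD.chi (HC X.b) = 0 := by
  obtain ⟨K, _, _, ⟨E⟩⟩ := exists_qRoot k t hI
  exact chi_HC_zero C E hI hX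

/-- the ring is a domain -/
theorem isDomain_R (C : QRing k t R) (hI : IndexT k t) : IsDomain R := by
  obtain ⟨K, _, _, ⟨E⟩⟩ := exists_qRoot k t hI
  exact C.isDomain E

end H36.QX
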