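import Pool.Agent.H36.QX.ThtP
import Pool.Agent.H36.QX.SLocQ
import Pool.Agent.H36.QX.EvLine
import Pool.Agent.H36.QX.EvA
import Pool.Agent.H36.QX.Proper
import Pool.Agent.H94.NC.CorQI

/-!
# ExP : the `ℤ`-graded version of `A⁺`, the homomorphisms of graded dg algebras `izA`, `hzA`, properness of `A⁺`, and
the line spanned by the class of the idempotent
-/

set_option autoImplicit false
set_option linter.unusedSectionVars false

open NC

noncomputable section

namespace H36.QX

open H36.NX

/-! ### the grading -/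

section grading

variable {k : Type} [Field k] {S : Type} [CommRing S] [Algebra k S]
  {I : Type} [Fintype I] [DecidableEq I]

/-- the grading of a dg algebra concentrated in the degrees `0` and `1`, by the projection `P` -/
def grP (A : DGA k) (i : ℤ) : Submodule k A.V :=
  if i = 0 then LinearMap.ker (A.P - LinearMap.id)
  else if i = 1 then LinearMap.ker A.P else ⊥

variable (A : DGA k)

theorem mem_grP_zero (a : A.V) : a ∈ grP A 0 ↔ A.P a = a := by
  unfold grP
  rw [if_pos rfl, LinearMap.mem_ker, LinearMap.sub_apply, LinearMap.id_apply, sub_eq_zero]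

theorem mem_grP_one (a : A.V) : a ∈ grP A 1 ↔ A.P a = 0 := by
  unfold grP
  rw [if_neg one_ne_zero, if_pos rfl, LinearMap.mem_ker]

theorem grP_other {i : ℤ} (h0 : i ≠ 0) (h1 : i ≠ 1) : grP A i = ⊥ := by
  unfold grP
  rw [if_neg h0, if_neg h1]

theorem grP_cases {i : ℤ} {a : A.V} (h : a ∈ grP A i) :
    (i = 0 ∧ a ∈ grP A 0) ∨ (i = 1 ∧ a ∈ grP A 1) ∨ a = 0 := by
  by_cases h0 : i = 0
  · subst h0; exact Or.inl ⟨rfl, h⟩
  · by_cases h1 : i = 1
    · subst h1; exact Or.inr (Or.inl ⟨rfl, h⟩)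
    · rw [grP_other A h0 h1, Submodule.mem_bot] at h
      exact Or.inr (Or.inr h)

/-- the projection on the component of degree `i` -/
def piP (i : ℤ) : A.V →ₗ[k] A.V :=
  if i = 0 then A.P else if i = 1 then LinearMap.id - A.P else 0

theorem piP_mem (i j : ℤ) {a : A.V} (h : a ∈ grP A j) : piP A i a = if j = i then a else 0 := by
  by_cases hj0 : j = 0
  · subst hj0
    rw [mem_grP_zero] at h
    unfold piP
    by_cases hi0 : i = 0
    · rw [if_pos hi0, if_pos hi0.symm, h]
    · rw [if_neg hi0, if_neg (show ¬ (0 : ℤ) = i from fun e => hi0 e.symm)]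
      by_cases hi1 : i = 1
      · rw [if_pos hi1, LinearMap.sub_apply, LinearMap.id_apply, h, sub_self]
      · rw [if_neg hi1]; rfl
  · by_cases hj1 : j = 1
    · subst hj1
      rw [mem_grP_one] at h
      unfold piP
      by_cases hi0 : i = 0
      · rw [if_pos hi0, if_neg (by omega), h]
      · rw [if_neg hi0]
        by_cases hi1 : i = 1
        · rw [if_pos hi1, if_pos hi1.symm, LinearMap.sub_apply, LinearMap.id_apply, h, sub_zero]
        · rw [if_neg hi1, if_neg (show ¬ (1 : ℤ) = i from fun e => hi1 e.symm)]; rfl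
    · rw [grP_other A hj0 hj1, Submodule.mem_bot] at h
      subst h
      rw [map_zero, ite_self]

theorem grP_internal : DirectSum.IsInternal (grP A) := by
  have key : ∀ (x : DirectSum ℤ fun i => grP A i) (i : ℤ),
      piP A i (DirectSum.coeAddMonoidHom (grP A) x) = (x i : A.V) := by
    intro x i
    induction x using DirectSum.induction_on with
    | zero => rw [map_zero, map_zero]; rfl
    | of j y =>
      rw [DirectSum.coeAddMonoidHom_of, piP_mem A i j y.2]
      by_cases h : j = i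
      · subst h
        rw [if_pos rfl, DirectSum.of_eq_same]
      · rw [if_neg h, DirectSum.of_eq_of_ne _ _ _ (fun e => h e.symm)]
        rfl
    | add x y hx hy =>
      rw [map_add, map_add, hx, hy]
      rfl
  constructor
  · intro x y h
    refine DFinsupp.ext fun i => Subtype.ext ?_
    rw [← key x i, ← key y i, h]
  · intro v
    have h0 : A.P v ∈ grP A 0 := (mem_grP_zero A _).2 (A.PP v)
    have h1 : v - A.P v ∈ grP A 1 := by
      rw [mem_grP_one, map_sub, A.PP v, sub_self]
    refine ⟨DirectSum.of (fun i => grP A i) 0 ⟨_, h0⟩ + DirectSum.of (fun i => grP A i) 1 ⟨_, h1⟩,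
      ?_⟩
    rw [map_add, DirectSum.coeAddMonoidHom_of, DirectSum.coeAddMonoidHom_of]
    exact add_sub_cancel _ _

variable {A} {P : PSy k S} {α : I → ℤ} (z : Rz A P α)

namespace Rz

theorem mem_zero_iff (a : A.V) : a ∈ grP A 0 ↔ z.v a Pc.R = 0 := by
  rw [mem_grP_zero]
  constructor
  · intro h
    rw [← h, z.P, cP_R]
  · intro h
    refine z.inj ?_
    rw [z.P]
    funext s
    cases s
    · rw [cP_X]
    · rw [cP_Y]
    · rw [cP_R, h]

theorem mem_one_iff (a : A.V) : a ∈ grP A 1 ↔ z.v a Pc.X = 0 ∧ z.v a Pc.Y = 0 := by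
  rw [mem_grP_one]
  constructor
  · intro h
    have h1 : cP k _ (z.v a) = 0 := by rw [← z.P, h, map_zero]
    exact ⟨by rw [← cP_X (k := k) (f := z.v a), h1]; rfl,
      by rw [← cP_Y (k := k) (f := z.v a), h1]; rfl⟩
  · rintro ⟨h1, h2⟩
    refine z.inj ?_
    rw [z.P, map_zero]
    funext s
    cases s
    · rw [cP_X, h1]; rfl
    · rw [cP_Y, h2]; rfl
    · rw [cP_R]; rfl

/-- the `ℤ`-graded dg algebra -/
def toZ : ZDGA k where
  toDGA := A
  gr := grP A
  internal := grP_internal A
  P_gr := by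
    intro i v hv
    rcases grP_cases A hv with ⟨rfl, h⟩ | ⟨rfl, h⟩ | rfl
    · rw [if_pos Even.zero]
      exact (mem_grP_zero A v).1 h
    · rw [if_neg (by decide)]
      exact (mem_grP_one A v).1 h
    · rw [map_zero, ite_self]
  D_gr := by
    intro i v hv
    rcases grP_cases A hv with ⟨rfl, h⟩ | ⟨rfl, h⟩ | rfl
    · change A.D v ∈ grP A 1
      rw [z.mem_one_iff, z.D]
      exact ⟨rfl, rfl⟩
    · have h2 : A.D v = 0 := by
        rw [z.mem_one_iff] at h
        refine z.inj ?_
        rw [z.D, map_zero]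
        funext s
        cases s
        · rw [cD_X]; rfl
        · rw [cD_Y]; rfl
        · rw [cD_R, h.1, h.2, sub_self]; rfl
      rw [h2]
      exact Submodule.zero_mem _
    · rw [map_zero]
      exact Submodule.zero_mem _
  mul_gr := by
    intro i j a ha b hb
    change a * b ∈ grP A (i + j)
    rcases grP_cases A ha with ⟨rfl, h⟩ | ⟨rfl, h⟩ | rfl
    · rcases grP_cases A hb with ⟨rfl, h'⟩ | ⟨rfl, h'⟩ | rfl
      · rw [add_zero]
        rw [z.mem_zero_iff] at h h' ⊢
        rw [z.mul, cMul_R, h, h', map_zero, map_zero, LinearMap.zero_apply, add_zero]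
      · rw [zero_add]
        rw [z.mem_zero_iff] at h
        rw [z.mem_one_iff] at h' ⊢
        rw [z.mul, cMul_X, cMul_Y, h'.1, h'.2, map_zero, map_zero]
        exact ⟨rfl, rfl⟩
      · rw [mul_zero]
        exact Submodule.zero_mem _
    · rcases grP_cases A hb with ⟨rfl, h'⟩ | ⟨rfl, h'⟩ | rfl
      · rw [add_zero]
        rw [z.mem_one_iff] at h ⊢
        rw [z.mul, cMul_X, cMul_Y, h.1, h.2, map_zero, LinearMap.zero_apply,
          LinearMap.zero_apply]
        exact ⟨rfl, rfl⟩
      · have h2 : a * b = 0 := by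
          rw [z.mem_one_iff] at h h'
          refine z.inj ?_
          rw [z.mul, map_zero]
          funext s
          cases s
          · rw [cMul_X, h.1, map_zero, LinearMap.zero_apply]; rfl
          · rw [cMul_Y, h.2, map_zero, LinearMap.zero_apply]; rfl
          · rw [cMul_R, h.1, h'.2, map_zero, map_zero, LinearMap.zero_apply, add_zero]; rfl
        rw [h2]
        exact Submodule.zero_mem _
      · rw [mul_zero]
        exact Submodule.zero_mem _
    · rw [zero_mul]
      exact Submodule.zero_mem _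
  one_gr := by
    change (1 : A.V) ∈ grP A 0
    rw [mem_grP_zero]
    exact A.P_one

end Rz

/-- a homomorphism preserves the gradings -/
theorem NHom_grP {A B : DGA k} (g : DGA.NHom A B) (i : ℤ) (a : A.V) (h : a ∈ grP A i) :
    g.f a ∈ grP B i := by
  rcases grP_cases A h with ⟨rfl, h⟩ | ⟨rfl, h⟩ | rfl
  · rw [mem_grP_zero] at h ⊢
    rw [← g.P, h]
  · rw [mem_grP_one] at h ⊢
    rw [← g.P, h, map_zero]
  · rw [map_zero]
    exact Submodule.zero_mem _

end grading

/-! ### the example -/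

variable {k : Type} [Field k] {t : k} {R : Type} [CommRing R] [Algebra k R]
  {C : QRing k t R} {S : Type} [CommRing S] [Algebra k S] (L : SRing C S)

/-- the `ℤ`-graded dg algebra `A⁺` -/
def APz : ZDGA k := (rzP L).toZ

theorem APz_toDGA : (APz L).toDGA = AP L := rfl

theorem agr_eq (C : QRing k t R) : agr C = grP (AA C) := rfl

/-- the inclusion as a homomorphism of graded dg algebras -/
def izA : ZHom (AAz C) (APz L) where
  f := (iA L).f
  mul := (iA L).mul
  D := (iA L).D
  gr := fun i a h => NHom_grP (iA L) i a h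

theorem izA_nh : (izA L).nh = iA L := rfl

theorem izA_inj (a : (AA C).V) (h : (iA L).f a = 0) : a = 0 := by
  refine a_ext C ?_
  have h1 := congrArg (rzP L).v h
  rw [v_iA, map_zero] at h1
  rw [map_zero]
  funext s
  ext i j
  have h2 := congrFun (congrFun (congrFun h1 s) (Fin.castSucc i)) (Fin.castSucc j)
  rw [embP_apply, embM_apply (Fin.castSucc_injective 2)] at h2
  exact L.inj (h2.trans (map_zero L.ι).symm)

section two

variable [CharP k 2]

/-- the homomorphism `h` of graded dg algebras -/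
def hzA : ZHom (AAz C) (APz L) where
  f := (hA L).f
  mul := (hA L).mul
  D := (hA L).D
  gr := fun i a h => NHom_grP (hA L) i a h

theorem hzA_nh : (hzA L).nh = hA L := rfl

theorem embM_single_zero {S : Type} [CommRing S] [Algebra k S] {e : Fin 2 → Fin 3}
    (he : Function.Injective e) (h0 : e 0 = 0) (φ : R →ₐ[k] S) :
    embM e φ (Matrix.single 0 0 (1 : R)) = Matrix.single 0 0 1 := by
  ext p q
  by_cases hpq : ∃ i j, e i = p ∧ e j = q
  · obtain ⟨i, j, rfl, rfl⟩ := hpq
    rw [embM_apply he, Matrix.single_apply, Matrix.single_apply]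
    by_cases h : 0 = i ∧ 0 = j
    · obtain ⟨rfl, rfl⟩ := h
      rw [if_pos ⟨rfl, rfl⟩, if_pos ⟨h0.symm, h0.symm⟩, map_one]
    · rw [if_neg h, if_neg, map_zero]
      rintro ⟨h1, h2⟩
      exact h ⟨he (h0.trans h1), he (h0.trans h2)⟩
  · have h1 : ∀ i j, ¬ (e i = p ∧ e j = q) := fun i j hh => hpq ⟨i, j, hh⟩
    rw [embM_apply_zero e φ _ p q h1, Matrix.single_apply, if_neg]
    rintro ⟨rfl, rfl⟩
    exact h1 0 0 ⟨h0, h0⟩

/-- the two homomorphisms agree on the idempotent -/
theorem iA_eV : (iA L).f (eV C) = (hA L).f (eV C) := by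
  apply (rzP L).inj
  rw [v_iA, v_hA]
  funext s
  rw [embP_apply, embP_apply]
  cases s with
  | X =>
    change embM Fin.castSucc L.ι (Matrix.single 0 0 (1 : R))
      = embM e02 L.h (Matrix.single 0 0 (1 : R))
    rw [embM_single_zero (Fin.castSucc_injective 2) rfl, embM_single_zero e02_injective rfl]
  | Y =>
    change embM Fin.castSucc L.ι (Matrix.single 0 0 (1 : R))
      = embM e02 L.h (Matrix.single 0 0 (1 : R))
    rw [embM_single_zero (Fin.castSucc_injective 2) rfl, embM_single_zero e02_injective rfl]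
  | R =>
    change embM Fin.castSucc L.ι (0 : Matrix (Fin 2) (Fin 2) R)
      = embM e02 L.h (0 : Matrix (Fin 2) (Fin 2) R)
    rw [map_zero, map_zero]

/-- **(E6)** the map `h` on the even Hochschild homology takes values in the line of the idempotent -/
theorem hA_line (hi : (hcA (iA L)).QI) [Nontrivial R] (ρ : SRes L) (ht : t ≠ 0)
    (hh : ∃ a b : (HC (AA C).diag).V, (HC (AA C).diag).D a = 0 ∧
      (HC (AA C).diag).D b = 0 ∧ (HC (AA C).diag).P a = a ∧ (HC (AA C).diag).P b = b ∧
      ∀ x, (HC (AA C).diag).P x = x → (HC (AA C).diag).D x = 0 →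
        ∃ c d : k, (HC (AA C).diag).Hml x (c • a + d • b))
    (x : (HC (AA C).diag).V) (hP : (HC (AA C).diag).P x = x) (hD : (HC (AA C).diag).D x = 0) :
    ∃ c : k, (HC (AP L).diag).Hml ((hcA (hA L)).f x) (c • (hcA (iA L)).f (nilE C)) := by
  obtain ⟨a, b, -, -, -, -, hab⟩ := hh
  exact SD.ev_line (hcA (iA L)) (hcA (hA L)) hi (thA C) (thP ρ) (thP_hcD ρ) (thP_iA ρ) (thP_hA ρ)
    a b (nilE C) (zeta C) hab (nilE_D C) (nilE_P C) (nilE_ne C) (thA_nil C _) (zeta_D C)
    (zeta_P C) (by rw [thA_zeta]; exact ht) x hP hD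

end two

/-! ### properness of `A⁺` -/

/-- a finite dimensional complement of `L.X ⊔ L.Y n` -/
theorem ExP_exists_W {K : Type} [Field K] [Algebra k K] (E : QRoot k t K) (n : ℤ) :
    ∃ W : Submodule k S, FiniteDimensional k W ∧
      ∀ c : S, ∃ p ∈ L.X, ∃ q ∈ L.Y n, ∃ w ∈ W, c = p + q + w := by
  obtain ⟨W, hW, h⟩ := Proper_exists_W C n
  refine ⟨W.map L.ι.toLinearMap, inferInstance, fun c => ?_⟩
  obtain ⟨r, hr⟩ := L.exists_sub_mem_Y E n c
  obtain ⟨p, hp, q, hq, w, hw, rfl⟩ := h r
  refine ⟨L.ι p, ⟨p, hp, rfl⟩, L.ι q + (c - L.ι (p + q + w)),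
    (L.Y n).add_mem (L.ι_mem_Y hq) hr, L.ι w, ⟨w, hw, rfl⟩, ?_⟩
  rw [map_add, map_add]
  abel

theorem finite_inf {K : Type} [Field K] [Algebra k K] (E : QRoot k t K) (n : ℤ) :
    FiniteDimensional k ((L.X ⊓ L.Y n : Submodule k S)) := by
  have h1 : L.X ⊓ L.Y n = (C.B n).map L.ι.toLinearMap := by
    ext x
    constructor
    · rintro ⟨hx, hy⟩
      obtain ⟨r, hr, rfl⟩ := L.exists_of_mem_inf E n hx hy
      exact ⟨r, hr, rfl⟩
    · rintro ⟨r, hr, rfl⟩
      exact ⟨⟨r, hr.1, rfl⟩, L.ι_mem_Y hr.2⟩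
  rw [h1]
  have := C.finite_B n
  infer_instance

theorem ExP_phi_mem (W : ℤ → Submodule k S)
    (x : (∀ (i j : Fin 3), (L.X ⊓ L.Y (wtp j - wtp i) : Submodule k S)) ×
      (∀ (i j : Fin 3), W (wtp j - wtp i))) :
    Proper_f (fun i j => (x.1 i j : S)) (fun i j => (x.1 i j : S)) (fun i j => (x.2 i j : S))
      ∈ L.psy.mats wtp := by
  intro s i j
  cases s with
  | X => exact (x.1 i j).2.1
  | Y => exact (x.1 i j).2.2
  | R => exact Submodule.mem_top

/-- the Čech matrix `(a, a, c)` -/
def ExP_phi (W : ℤ → Submodule k S) :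
    ((∀ (i j : Fin 3), (L.X ⊓ L.Y (wtp j - wtp i) : Submodule k S)) ×
      (∀ (i j : Fin 3), W (wtp j - wtp i))) →ₗ[k] (AP L).V where
  toFun x := (rzP L).el _ (ExP_phi_mem L W x)
  map_add' x y := (rzP L).inj (by
    rw [map_add, Rz.v_el, Rz.v_el, Rz.v_el]
    funext s; cases s <;> rfl)
  map_smul' c x := (rzP L).inj (by
    rw [RingHom.id_apply, map_smul, Rz.v_el, Rz.v_el]
    funext s; cases s <;> rfl)

theorem v_ExP_phi (W : ℤ → Submodule k S)
    (x : (∀ (i j : Fin 3), (L.X ⊓ L.Y (wtp j - wtp i) : Submodule k S)) ×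
      (∀ (i j : Fin 3), W (wtp j - wtp i))) :
    (rzP L).v (ExP_phi L W x) = Proper_f (fun i j => (x.1 i j : S)) (fun i j => (x.1 i j : S))
      (fun i j => (x.2 i j : S)) := (rzP L).v_el _ (ExP_phi_mem L W x)

/-- `A⁺` has finite dimensional cohomology -/
theorem finH_P {K : Type} [Field K] [Algebra k K] (E : QRoot k t K) : (AP L).toSD.FinH := by
  choose W hWf hW using ExP_exists_W L E
  have hB := finite_inf L E
  have hF : FiniteDimensional k (LinearMap.range (ExP_phi L W)) := by
    have h1 : FiniteDimensional k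
        ((∀ (i j : Fin 3), (L.X ⊓ L.Y (wtp j - wtp i) : Submodule k S)) ×
          (∀ (i j : Fin 3), W (wtp j - wtp i))) := by
      have h2 : FiniteDimensional k
          (∀ (i j : Fin 3), (L.X ⊓ L.Y (wtp j - wtp i) : Submodule k S)) := inferInstance
      have h3 : FiniteDimensional k (∀ (i j : Fin 3), W (wtp j - wtp i)) := inferInstance
      exact inferInstance
    exact LinearMap.finiteDimensional_range _
  refine SD.FinH.of_subspace (LinearMap.range (ExP_phi L W)) hF fun x hx => ?_
  have hx1 : cD k _ ((rzP L).v x) = 0 := by rw [← (rzP L).D, hx, map_zero]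
  have hxm := (rzP L).mem x
  have hxe : (rzP L).v x Pc.Y = (rzP L).v x Pc.X := by
    have h := congrFun hx1 Pc.R
    rw [cD_R] at h
    exact sub_eq_zero.1 h
  have hxX : ∀ i j, (rzP L).v x Pc.X i j ∈ (L.X ⊓ L.Y (wtp j - wtp i) : Submodule k S) := by
    intro i j
    refine Submodule.mem_inf.2 ⟨hxm Pc.X i j, ?_⟩
    rw [← hxe]
    exact hxm Pc.Y i j
  choose p hp q hq w hw hc using fun (i j : Fin 3) => hW (wtp j - wtp i) ((rzP L).v x Pc.R i j)
  refine ⟨ExP_phi L W (fun i j => ⟨_, hxX i j⟩, fun i j => ⟨w i j, hw i j⟩), ⟨_, rfl⟩, ?_⟩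
  have hmem : Proper_f (fun i j => - p i j) (fun i j => q i j) (0 : Matrix (Fin 3) (Fin 3) S)
      ∈ L.psy.mats wtp := by
    intro s i j
    cases s with
    | X => exact Submodule.neg_mem _ (hp i j)
    | Y => exact hq i j
    | R => exact Submodule.mem_top
  refine ⟨(rzP L).el _ hmem, ?_⟩
  apply (rzP L).inj
  have h1 : (rzP L).v ((AP L).D ((rzP L).el _ hmem)) = cD k _ (Proper_f (fun i j => - p i j)
      (fun i j => q i j) (0 : Matrix (Fin 3) (Fin 3) S)) := by
    rw [(rzP L).D, Rz.v_el]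
  refine h1.trans ?_
  rw [map_sub, v_ExP_phi]
  funext s
  cases s with
  | X =>
    rw [cD_X]
    ext i j
    exact (sub_self _).symm
  | Y =>
    rw [cD_Y]
    ext i j
    change (0 : S) = (rzP L).v x Pc.Y i j - (rzP L).v x Pc.X i j
    rw [hxe, sub_self]
  | R =>
    rw [cD_R]
    ext i j
    change q i j - - p i j = (rzP L).v x Pc.R i j - w i j
    rw [hc i j]
    abel

theorem proper_P {K : Type} [Field K] [Algebra k K] (E : QRoot k t K) :
    FiniteDimensional k (APz L).toSD.Coh := SD.coh_finite_iff.2 (finH_P L E)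

end H36.QX
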