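import Pool.Agent.H94.NT.ExT
import Pool.Agent.H16.QE.CnQ
import Pool.Agent.H16.QE.PFTh
import Pool.Agent.H15.QX.HHev
import Pool.Agent.H36.QX.ExA
import Pool.Agent.H36.QX.EvA
import Pool.Agent.H36.QX.EHP
import Pool.Agent.H36.QX.ExP

/-!
# Ex2 : the example in characteristic two
-/

set_option autoImplicit false

open NC

noncomputable section

namespace H36.QX

open H36.NX

variable {k : Type} [Field k] {t : k} {R : Type} [CommRing R] [Algebra k R]
  {C : QRing k t R} {S : Type} [CommRing S] [Algebra k S]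
  {K : Type} [Field K] [Algebra k K]

/-- the example, from the perfectness of the right module `Θ` -/
theorem exT_of [CharP k 2] (E : QRoot k t K) (hI : IndexT k t) (L : SRing C S) (ρ : SRes L)
    (hR : PF (AA C) (BMod.tR (Th L).b.r (Th L).r_one)) :
    Nonempty (ExT (AAz C) (APz L) (izA L) (hzA L)) := by
  have hdom : IsDomain R := isDomain_R C hI
  obtain ⟨e, he, hie⟩ := HP_idem (izA L) (hzA L) (tauA C) (trF_tauA C) (eA C) (eA_gr C)
    (eA_mul C) (eA_D C) (by rw [tauA_eA]; exact one_ne_zero) (iA_eV L)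
  have hqi := hcA_iA_QI L E
  exact ⟨{
    pf := PF_A C hI
    finA := proper_AA C
    finB := finH_P L E
    qi := hqi
    Θ := Th L
    cn := cnC (hA L) (iA L)
    finΘ := cnB_finH _ _ (finH_P L E)
    pfR := hR
    Θ0 := Th0 L
    cn0 := cnC (iA L) (iA L)
    q := qTh L
    hq := qTh_QI L E
    chi := chi_A C hI
    e0 := eA C
    he0 := eA_gr C
    De0 := eA_D C
    ev := fun x hP hD => hA_line L hqi ρ hI.t_ne_zero
      (hh_even_two C hI.t_ne_zero hI.t_add_one_ne_zero) x hP hD
    e := e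
    ene := he
    ie := hie }⟩

/-- **the example in characteristic two** -/
theorem exists_exT (k : Type) [Field k] [CharP k 2] (t : k) (hI : IndexT k t) :
    ∃ (A B : ZDGA k) (i h : ZHom A B), Nonempty (ExT A B i h) := by
  obtain ⟨R, _, _, ⟨C⟩⟩ := exists_qRing k t
  obtain ⟨K, _, _, ⟨E⟩⟩ := exists_qRoot k t hI
  obtain ⟨S, _, _, ⟨L⟩⟩ := exists_sRing C E
  obtain ⟨ρ⟩ := exists_sRes L E
  exact ⟨AAz C, APz L, izA L, hzA L, exT_of E hI L ρ (PF_tR_Th L E)⟩

end H36.QX
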