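import Pool.Agent.H36.QX.ExP
import Pool.Agent.H16.QE.CornQI
import Pool.Agent.H94.NC.HPnz
import Pool.Agent.H15.QX.HHev

/-!
# ExQ : `i : A → A⁺` is a quasi-isomorphism on Hochschild complexes; a class of `HP₀(A)` on which `i` and `h` agree
-/

set_option autoImplicit false
set_option linter.unusedSectionVars false

open NC

noncomputable section

namespace NC

variable {k : Type} [Field k]

/-- a class of `HP₀(A)` which is not zero and on which two homomorphisms agree which agree on an idempotent -/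
theorem exists_HP_idem (A B : ZDGA k) (i h : ZHom A B) {S : Type} [AddCommGroup S] [Module k S]
    (τ : A.V →ₗ[k] S) (hT : TrF A.toDGA τ) (e : A.V) (he : e ∈ A.gr 0) (hee : A.mul e e = e)
    (hD : A.D e = 0) (hτ : τ e ≠ 0) (hih : i.f e = h.f e) :
    ∃ x : A.HP 0, x ≠ 0 ∧ i.HP 0 x = h.HP 0 x := by
  let φ := idemHom A e he hee hD
  have hE : ∀ a : (trivZ k).V, (trivZ k).P a = a := fun _ => rfl
  have h' : TrF (trivZ k).toDGA (τ ∘ₗ φ.f) := by
    refine ⟨fun a => ?_, fun a => ?_, fun a b _ _ => ?_, fun a b ha _ => ?_⟩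
    · rw [LinearMap.comp_apply, φ.D, hT.D]
    · rw [hE]
    · have h1 : ∀ a b : k, (trivZ k).mul a b = (trivZ k).mul b a := fun a b => mul_comm a b
      rw [h1 a b]
    · have h1 : a = 0 := by
        have h2 : (trivZ k).P a = (if true then 0 else a) := ha
        rw [hE] at h2
        simpa using h2
      rw [h1]
      simp
  obtain ⟨x, hx⟩ := HP_triv isTriv_triv (τ ∘ₗ φ.f) h'
  refine ⟨φ.HP 0 x, ?_, ?_⟩
  · intro h0
    apply hτ
    have h1 : tH A τ hT 0 (φ.HP 0 x) = tH (trivZ k) (τ ∘ₗ φ.f) h' 0 x := by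
      obtain ⟨c, hc, rfl⟩ := (trivZ k).cyc.cls_surj x
      rw [tH_cls]
      change tw (A := A.toDGA) τ (Wd.wm (A := (trivZ k).toSD) (B := A.toSD) φ.f (c 0))
        = tw (A := (trivZ k).toDGA) (τ ∘ₗ φ.f) (c 0)
      generalize c 0 = w
      induction w using Wd.induction with
      | hadd a b ha hb => rw [map_add, map_add, ha, hb, map_add]
      | hnil a => simp
      | hsnoc w _ a => simp
    rw [h0, map_zero, hx] at h1
    have h2 : φ.f (trivZ k).one = e := by
      change (1 : k) • e = e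
      rw [one_smul]
    rw [LinearMap.comp_apply, h2] at h1
    exact h1.symm
  · obtain ⟨c, hc, rfl⟩ := (trivZ k).cyc.cls_surj x
    have key : ∀ a : (trivZ k).V, i.f (φ.f a) = h.f (φ.f a) := by
      intro a
      change i.f (a • e) = h.f (a • e)
      rw [map_smul, map_smul, hih]
    have hw : ∀ w : Wd k (trivZ k).V (trivZ k).V,
        Wd.wm (A := A.toSD) (B := B.toSD) i.f (Wd.wm (A := (trivZ k).toSD) (B := A.toSD) φ.f w)
        = Wd.wm (A := A.toSD) (B := B.toSD) h.f
          (Wd.wm (A := (trivZ k).toSD) (B := A.toSD) φ.f w) := by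
      intro w
      induction w using Wd.induction with
      | hadd a b ha hb => simp only [map_add, ha, hb]
      | hnil a => rw [Wd.wm_nil, Wd.wm_nil, Wd.wm_nil, key]
      | hsnoc w hw a => rw [Wd.wm_snoc, Wd.wm_snoc, Wd.wm_snoc, hw, key]
    change i.HP 0 (φ.cyc.H Set.univ 0 _) = h.HP 0 (φ.cyc.H Set.univ 0 _)
    rw [CycMod.Hom.H_cls]
    change i.cyc.H Set.univ 0 _ = h.cyc.H Set.univ 0 _
    rw [CycMod.Hom.H_cls, CycMod.Hom.H_cls]
    congr 1
    funext p
    exact hw (c p)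

end NC

namespace H36.QX

open H36.NX

variable {k : Type} [Field k] {t : k} {R : Type} [CommRing R] [Algebra k R]
  {K : Type} [Field K] [Algebra k K]
  {C : QRing k t R} {S : Type} [CommRing S] [Algebra k S] (L : SRing C S)

/-- the pieces of `S` extend the pieces of `R` -/
theorem SRing.pext (E : QRoot k t K) : PExt C.psy L.psy L.ι where
  inj := L.inj
  X _ _ := Iff.rfl
  Y n r := ⟨fun h => L.of_ι_mem_Y E h, fun h => L.ι_mem_Y h⟩
  YR n x := by
    obtain ⟨r, hr⟩ := L.exists_sub_mem_Y E n x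
    exact ⟨r, _, hr, (add_sub_cancel _ _).symm⟩

/-- the two sections `x`, `y` -/
def SRing.pun : PUn L.psy where
  u := L.ι (C.u : R)
  ui := L.ι ((C.u⁻¹ : Rˣ) : R)
  ui_u := by rw [← map_mul, Units.inv_mul, map_one]
  oneX _ := L.one_mem_X
  uX := ⟨_, C.u_mem_X, rfl⟩
  oneY := L.Y_mono (by norm_num) L.one_mem_Y
  uY := L.ι_mem_Y (by simpa using C.upow_mem_Y (le_refl (1 : ℤ)))
  uiY := L.ι_mem_Y (by simpa using C.upow_mem_Y (le_refl (-1 : ℤ)))

/-- the field `qi` -/
theorem iA_QI (E : QRoot k t K) : (hcA (iA L)).QI :=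
  hcA_emb_QI (L.pext E) L.pun (rzA C) (rzP L) (embOK_ι L) rfl rfl rfl rfl rfl

theorem izA_QI (E : QRoot k t K) : (hcA (izA L).nh).QI := iA_QI L E

variable [CharP k 2]

/-- the fields `e`, `ene`, `ie` -/
theorem exists_HP_class [Nontrivial R] :
    ∃ e : (AAz C).HP 0, e ≠ 0 ∧ (izA L).HP 0 e = (hzA L).HP 0 e :=
  exists_HP_idem (AAz C) (APz L) (izA L) (hzA L) (tauA C) (trF_tauA C) (eA C) (eA_gr C) (eA_mul C)
    (eA_D C) (by rw [tauA_eA]; exact one_ne_zero) (iA_eV L)

/-- the field `ev` -/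
theorem ev_field [IsDomain R] (E : QRoot k t K) (ht : t ≠ 0) (ht1 : t + 1 ≠ 0)
    (x : (HC (AAz C).toDGA.diag).V) (hP : (HC (AAz C).toDGA.diag).P x = x)
    (hD : (HC (AAz C).toDGA.diag).D x = 0) :
    ∃ c : k, (HC (APz L).toDGA.diag).Hml ((hcA (hzA L).nh).f x)
      (c • (hcA (izA L).nh).f (Wd.nil (eA C))) := by
  obtain ⟨ρ⟩ := exists_sRes L E
  exact hA_line L (iA_QI L E) ρ ht (hh_even_two C ht ht1) x hP hD

/-- the field `finB` -/
theorem finB_field (E : QRoot k t K) : (APz L).toDGA.toSD.FinH := finH_P L E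

end H36.QX
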