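import Pool.Agent.H36.QX.EvC
import Pool.Agent.H36.NX.Coker
import Pool.Agent.H15.QX.Sep

/-!
# SepM : the bimodule `M_2(B)` is a retract of the cokernel of `c ⊗ 1 - 1 ⊗ c` on `columns ⊗ rows`
-/

set_option autoImplicit false

open NC
open scoped TensorProduct

noncomputable section

namespace H36.QX

open H36.NX
variable {k : Type} [Field k] {B : Type} [CommRing B] [Algebra k B]

private theorem SepM_D (U V : Type) [AddCommGroup U] [Module k U] [AddCommGroup V] [Module k V]
    (v : U ⊗[k] V) : ((evSD k U).tens (evSD k V)).D v = 0 := by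
  refine tens_ext (f := SD.tD (evSD k U) (evSD k V)) (g := 0) (fun x y => ?_) v
  change (0 : U) ⊗ₜ[k] y + (evSD k U).E x ⊗ₜ[k] (0 : V) = 0
  rw [TensorProduct.zero_tmul, TensorProduct.tmul_zero, add_zero]

private theorem SepM_P (U V : Type) [AddCommGroup U] [Module k U] [AddCommGroup V] [Module k V]
    (v : U ⊗[k] V) : ((evSD k U).tens (evSD k V)).P v = v := by
  refine tens_ext (f := SD.tP (evSD k U) (evSD k V)) (g := LinearMap.id) (fun x y => ?_) v
  change x ⊗ₜ[k] y + (x - x) ⊗ₜ[k] (y - y) = x ⊗ₜ[k] y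
  rw [sub_self, TensorProduct.zero_tmul, add_zero]

/-- the bimodule `columns ⊗ rows` over the 2 x 2 matrices -/
def mPQ (k : Type) [Field k] (B : Type) [CommRing B] [Algebra k B] : BMod (M2 k B) (M2 k B) where
  N := (evSD k (Matrix (Fin 2) Unit B)).tens (evSD k (Matrix Unit (Fin 2) B))
  b := Bi.tensLR (mLA k B Unit) (mRA k B Unit)
  one_l := by
    intro v
    refine tens_ext (f := ((mLA k B Unit).tensL (evSD k (Matrix Unit (Fin 2) B))).act 1)
      (g := LinearMap.id) (fun x y => ?_) v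
    rw [LA.tensL_act]
    exact congrArg (· ⊗ₜ y) (Matrix.one_mul (x : Matrix (Fin 2) Unit B))
  r_one := by
    intro v
    refine tens_ext (f := ((mRA k B Unit).tensR (evSD k (Matrix (Fin 2) Unit B))).act.flip 1)
      (g := LinearMap.id) (fun x y => ?_) v
    change ((mRA k B Unit).tensR (evSD k (Matrix (Fin 2) Unit B))).act (x ⊗ₜ y) 1 = _
    rw [RA.tensR_act]
    exact congrArg (x ⊗ₜ ·) (Matrix.mul_one (y : Matrix Unit (Fin 2) B))

private theorem SepM_l (a : Matrix (Fin 2) (Fin 2) B) (x : Matrix (Fin 2) Unit B)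
    (y : Matrix Unit (Fin 2) B) :
    (mPQ k B).b.l.act a (x ⊗ₜ[k] y) = (a * x) ⊗ₜ[k] y := rfl

private theorem SepM_r (a : Matrix (Fin 2) (Fin 2) B) (x : Matrix (Fin 2) Unit B)
    (y : Matrix Unit (Fin 2) B) :
    (mPQ k B).b.r.act (x ⊗ₜ[k] y) a = x ⊗ₜ[k] (y * a) := rfl

/-- multiplication by `c` on matrices -/
def mc (k : Type) [Field k] {B : Type} [CommRing B] [Algebra k B] (c : B) (I J : Type) :
    Matrix I J B →ₗ[k] Matrix I J B where
  toFun M := c • M
  map_add' M N := smul_add c M N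
  map_smul' a M := smul_comm c a M

@[simp] theorem mc_apply (c : B) (I J : Type) (M : Matrix I J B) : mc k c I J M = c • M := rfl

/-- `c ⊗ 1 - 1 ⊗ c` -/
def dlt (k : Type) [Field k] {B : Type} [CommRing B] [Algebra k B] (c : B) :
    BMod.Hom (mPQ k B) (mPQ k B) where
  f := TensorProduct.map (mc k c (Fin 2) Unit) LinearMap.id
    - TensorProduct.map LinearMap.id (mc k c Unit (Fin 2))
  D := by
    intro v
    have h1 : (mPQ k B).N.D v = 0 := SepM_D _ _ v
    rw [h1, map_zero]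
    exact (SepM_D _ _ _).symm
  P := by
    intro v
    have h1 : (mPQ k B).N.P v = v := SepM_P _ _ v
    rw [h1]
    exact (SepM_P _ _ _).symm
  isHom := by
    refine ⟨fun a v => ?_, fun v a => ?_⟩
    · refine tens_ext
        (f := (TensorProduct.map (mc k c (Fin 2) Unit) LinearMap.id
          - TensorProduct.map LinearMap.id (mc k c Unit (Fin 2))) ∘ₗ (mPQ k B).b.l.act a)
        (g := (mPQ k B).b.l.act a ∘ₗ (TensorProduct.map (mc k c (Fin 2) Unit) LinearMap.id
          - TensorProduct.map LinearMap.id (mc k c Unit (Fin 2)))) (fun x y => ?_) v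
      change (c • ((a : Matrix (Fin 2) (Fin 2) B) * x)) ⊗ₜ[k] y
          - ((a : Matrix (Fin 2) (Fin 2) B) * x) ⊗ₜ[k] (c • y)
        = (mPQ k B).b.l.act a ((c • x) ⊗ₜ[k] y - x ⊗ₜ[k] (c • y))
      refine Eq.trans ?_ (map_sub ((mPQ k B).b.l.act a) _ _).symm
      change _ = ((a : Matrix (Fin 2) (Fin 2) B) * (c • x)) ⊗ₜ[k] y
          - ((a : Matrix (Fin 2) (Fin 2) B) * x) ⊗ₜ[k] (c • y)
      rw [Matrix.mul_smul]
    · refine tens_ext
        (f := (TensorProduct.map (mc k c (Fin 2) Unit) LinearMap.id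
          - TensorProduct.map LinearMap.id (mc k c Unit (Fin 2))) ∘ₗ (mPQ k B).b.r.act.flip a)
        (g := (mPQ k B).b.r.act.flip a ∘ₗ (TensorProduct.map (mc k c (Fin 2) Unit) LinearMap.id
          - TensorProduct.map LinearMap.id (mc k c Unit (Fin 2)))) (fun x y => ?_) v
      change (c • x) ⊗ₜ[k] (y * (a : Matrix (Fin 2) (Fin 2) B))
          - x ⊗ₜ[k] (c • (y * (a : Matrix (Fin 2) (Fin 2) B)))
        = (mPQ k B).b.r.act.flip a ((c • x) ⊗ₜ[k] y - x ⊗ₜ[k] (c • y))
      refine Eq.trans ?_ (map_sub ((mPQ k B).b.r.act.flip a) _ _).symm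
      change _ = (c • x) ⊗ₜ[k] (y * (a : Matrix (Fin 2) (Fin 2) B))
          - x ⊗ₜ[k] ((c • y) * (a : Matrix (Fin 2) (Fin 2) B))
      rw [Matrix.smul_mul]

@[simp] theorem dlt_tmul (c : B) (p : Matrix (Fin 2) Unit B) (q : Matrix Unit (Fin 2) B) :
    (dlt k c).f (p ⊗ₜ q) = (c • p) ⊗ₜ q - p ⊗ₜ (c • q) := rfl

/-- `p ⊗ q ↦ p q` -/
def muM (k : Type) [Field k] (B : Type) [CommRing B] [Algebra k B] :
    BMod.Hom (mPQ k B) (BMod.diag (M2 k B)) where
  f := TensorProduct.lift (matMul k B (Fin 2) Unit (Fin 2))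
  D := by
    intro v
    have h1 : (mPQ k B).N.D v = 0 := SepM_D _ _ v
    exact (congrArg (TensorProduct.lift (matMul k B (Fin 2) Unit (Fin 2))) h1).trans
      (map_zero (TensorProduct.lift (matMul k B (Fin 2) Unit (Fin 2))))
  P := by
    intro v
    have h1 : (mPQ k B).N.P v = v := SepM_P _ _ v
    exact congrArg (TensorProduct.lift (matMul k B (Fin 2) Unit (Fin 2))) h1
  isHom := by
    refine ⟨fun a v => ?_, fun v a => ?_⟩
    · exact tens_ext
        (f := (TensorProduct.lift (matMul k B (Fin 2) Unit (Fin 2))) ∘ₗ (mPQ k B).b.l.act a)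
        (g := (BMod.diag (M2 k B)).b.l.act a ∘ₗ
          (TensorProduct.lift (matMul k B (Fin 2) Unit (Fin 2))))
        (fun x y => Matrix.mul_assoc (a : Matrix (Fin 2) (Fin 2) B) x y) v
    · exact tens_ext
        (f := (TensorProduct.lift (matMul k B (Fin 2) Unit (Fin 2))) ∘ₗ (mPQ k B).b.r.act.flip a)
        (g := (BMod.diag (M2 k B)).b.r.act.flip a ∘ₗ
          (TensorProduct.lift (matMul k B (Fin 2) Unit (Fin 2))))
        (fun x y => (Matrix.mul_assoc x y (a : Matrix (Fin 2) (Fin 2) B)).symm) v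

@[simp] theorem muM_tmul (p : Matrix (Fin 2) Unit B) (q : Matrix Unit (Fin 2) B) :
    (muM k B).f (p ⊗ₜ q) = p * q := rfl

theorem muM_dlt (c : B) (x : (mPQ k B).N.V) : (muM k B).f ((dlt k c).f x) = 0 := by
  refine tens_ext (f := (muM k B).f ∘ₗ (dlt k c).f) (g := 0) (fun p q => ?_) x
  change (muM k B).f ((c • p) ⊗ₜ[k] q - p ⊗ₜ[k] (c • q)) = 0
  refine (map_sub (muM k B).f _ _).trans ?_
  change (c • (p : Matrix (Fin 2) Unit B)) * (q : Matrix Unit (Fin 2) B) - p * (c • q) = 0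
  rw [Matrix.smul_mul, Matrix.mul_smul, sub_self]

/-- a column with one nonzero entry -/
private def SepM_col (k : Type) [Field k] (B : Type) [CommRing B] [Algebra k B] (i : Fin 2) :
    B →ₗ[k] Matrix (Fin 2) Unit B where
  toFun b := Matrix.of (fun i' _ => if i' = i then b else 0)
  map_add' b b' := by
    ext i' l
    simp only [Matrix.of_apply, Matrix.add_apply]
    split_ifs <;> simp
  map_smul' a b := by
    ext i' l
    simp only [Matrix.of_apply, Matrix.smul_apply, RingHom.id_apply]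
    split_ifs <;> simp

/-- a row with one nonzero entry -/
private def SepM_row (k : Type) [Field k] (B : Type) [CommRing B] [Algebra k B] (j : Fin 2) :
    B →ₗ[k] Matrix Unit (Fin 2) B where
  toFun b := Matrix.of (fun _ j' => if j' = j then b else 0)
  map_add' b b' := by
    ext l j'
    simp only [Matrix.of_apply, Matrix.add_apply]
    split_ifs <;> simp
  map_smul' a b := by
    ext l j'
    simp only [Matrix.of_apply, Matrix.smul_apply, RingHom.id_apply]
    split_ifs <;> simp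

private theorem SepM_col_apply (i : Fin 2) (b : B) (i' : Fin 2) (l : Unit) :
    SepM_col k B i b i' l = if i' = i then b else 0 := rfl

private theorem SepM_row_apply (j : Fin 2) (b : B) (l : Unit) (j' : Fin 2) :
    SepM_row k B j b l j' = if j' = j then b else 0 := rfl

/-- an entry of a column -/
private def SepM_ce (k : Type) [Field k] (B : Type) [CommRing B] [Algebra k B] (i : Fin 2) :
    Matrix (Fin 2) Unit B →ₗ[k] B where
  toFun M := M i ()
  map_add' _ _ := rfl
  map_smul' _ _ := rfl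

/-- an entry of a row -/
private def SepM_re (k : Type) [Field k] (B : Type) [CommRing B] [Algebra k B] (j : Fin 2) :
    Matrix Unit (Fin 2) B →ₗ[k] B where
  toFun M := M () j
  map_add' _ _ := rfl
  map_smul' _ _ := rfl

private theorem SepM_col_sum (p : Matrix (Fin 2) Unit B) :
    ∑ i, SepM_col k B i (SepM_ce k B i p) = p := by
  ext i' l
  rw [Matrix.sum_apply]
  simp only [SepM_col_apply, Finset.sum_ite_eq, Finset.mem_univ, if_true]
  rfl

private theorem SepM_row_sum (q : Matrix Unit (Fin 2) B) :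
    ∑ j, SepM_row k B j (SepM_re k B j q) = q := by
  ext l j'
  rw [Matrix.sum_apply]
  simp only [SepM_row_apply, Finset.sum_ite_eq, Finset.mem_univ, if_true]
  rfl

/-- the embedding of `B ⊗ B` at the place `i j` -/
private def SepM_F (k : Type) [Field k] (B : Type) [CommRing B] [Algebra k B] (i j : Fin 2) :
    B ⊗[k] B →ₗ[k] Matrix (Fin 2) Unit B ⊗[k] Matrix Unit (Fin 2) B :=
  TensorProduct.map (SepM_col k B i) (SepM_row k B j)

/-- the component of `columns ⊗ rows` at the place `i j` -/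
private def SepM_G (k : Type) [Field k] (B : Type) [CommRing B] [Algebra k B] (i j : Fin 2) :
    Matrix (Fin 2) Unit B ⊗[k] Matrix Unit (Fin 2) B →ₗ[k] B ⊗[k] B :=
  TensorProduct.map (SepM_ce k B i) (SepM_re k B j)

private theorem SepM_rec (v : Matrix (Fin 2) Unit B ⊗[k] Matrix Unit (Fin 2) B) :
    ∑ i, ∑ j, SepM_F k B i j (SepM_G k B i j v) = v := by
  have h := tens_ext (k := k) (f := ∑ i, ∑ j, SepM_F k B i j ∘ₗ SepM_G k B i j)
    (g := LinearMap.id) (fun p q => ?_) v
  · simpa [LinearMap.sum_apply] using h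
  · simp only [LinearMap.sum_apply, LinearMap.comp_apply, SepM_F, SepM_G,
      TensorProduct.map_tmul, LinearMap.id_apply]
    conv_rhs => rw [← SepM_col_sum (k := k) p, ← SepM_row_sum (k := k) q]
    rw [TensorProduct.sum_tmul]
    refine Finset.sum_congr rfl fun i _ => ?_
    rw [TensorProduct.tmul_sum]

private theorem SepM_G_dlt (c : B) (i j : Fin 2)
    (v : Matrix (Fin 2) Unit B ⊗[k] Matrix Unit (Fin 2) B) :
    SepM_G k B i j ((dlt k c).f v)
      = (c ⊗ₜ[k] (1 : B) - (1 : B) ⊗ₜ[k] c) * SepM_G k B i j v := by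
  refine tens_ext (f := SepM_G k B i j ∘ₗ (dlt k c).f)
    (g := LinearMap.mulLeft k (c ⊗ₜ[k] (1 : B) - (1 : B) ⊗ₜ[k] c) ∘ₗ SepM_G k B i j)
    (fun p q => ?_) v
  change SepM_G k B i j ((c • p) ⊗ₜ[k] q - p ⊗ₜ[k] (c • q))
    = (c ⊗ₜ[k] (1 : B) - (1 : B) ⊗ₜ[k] c) * ((p i ()) ⊗ₜ[k] (q () j))
  rw [map_sub, sub_mul, Algebra.TensorProduct.tmul_mul_tmul, Algebra.TensorProduct.tmul_mul_tmul,
    one_mul, one_mul]
  rfl

private theorem SepM_F_dlt (c : B) (i j : Fin 2) (z : B ⊗[k] B) :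
    (dlt k c).f (SepM_F k B i j z)
      = SepM_F k B i j ((c ⊗ₜ[k] (1 : B) - (1 : B) ⊗ₜ[k] c) * z) := by
  refine tens_ext (f := (dlt k c).f ∘ₗ SepM_F k B i j)
    (g := SepM_F k B i j ∘ₗ LinearMap.mulLeft k (c ⊗ₜ[k] (1 : B) - (1 : B) ⊗ₜ[k] c))
    (fun x y => ?_) z
  change (c • SepM_col k B i x) ⊗ₜ[k] SepM_row k B j y
      - SepM_col k B i x ⊗ₜ[k] (c • SepM_row k B j y)
    = SepM_F k B i j ((c ⊗ₜ[k] (1 : B) - (1 : B) ⊗ₜ[k] c) * (x ⊗ₜ[k] y))
  rw [sub_mul, Algebra.TensorProduct.tmul_mul_tmul, Algebra.TensorProduct.tmul_mul_tmul,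
    one_mul, one_mul, map_sub]
  have e1 : c • SepM_col k B i x = SepM_col k B i (c * x) := by
    ext i' l
    rw [Matrix.smul_apply, SepM_col_apply, SepM_col_apply]
    split_ifs <;> simp
  have e2 : c • SepM_row k B j y = SepM_row k B j (c * y) := by
    ext l j'
    rw [Matrix.smul_apply, SepM_row_apply, SepM_row_apply]
    split_ifs <;> simp
  rw [e1, e2]
  rfl

/-- the components in `B ⊗ B` reduce this to `SepOver.inj` -/
theorem dlt_injective (c : B) (h : SepOver k B c) : Function.Injective (dlt k c).f := by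
  have key : ∀ v : Matrix (Fin 2) Unit B ⊗[k] Matrix Unit (Fin 2) B,
      (dlt k c).f v = 0 → v = 0 := by
    intro v hv
    have h0 : ∀ i j, SepM_G k B i j v = 0 := by
      intro i j
      refine h.inj _ ?_
      rw [← SepM_G_dlt, hv]
      exact map_zero _
    rw [← SepM_rec v]
    refine Finset.sum_eq_zero fun i _ => Finset.sum_eq_zero fun j _ => ?_
    rw [h0, map_zero]
  intro x y hxy
  have h1 : (dlt k c).f (x - y) = 0 := by rw [map_sub, hxy, sub_self]
  exact sub_eq_zero.1 (key _ h1)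

private theorem SepM_act_F (a : Matrix (Fin 2) (Fin 2) B) (j j' : Fin 2) (z : B ⊗[k] B) :
    (mPQ k B).b.l.act a (SepM_F k B j j' z)
      = ∑ i, SepM_F k B i j' ((a i j ⊗ₜ[k] (1 : B)) * z) := by
  have h := tens_ext (k := k) (f := (mPQ k B).b.l.act a ∘ₗ SepM_F k B j j')
    (g := ∑ i, SepM_F k B i j' ∘ₗ LinearMap.mulLeft k (a i j ⊗ₜ[k] (1 : B)))
    (fun x y => ?_) z
  · refine h.trans ?_
    rw [LinearMap.sum_apply]
    rfl
  · rw [LinearMap.sum_apply]
    change (a * SepM_col k B j x) ⊗ₜ[k] SepM_row k B j' y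
      = ∑ i, SepM_F k B i j' ((a i j ⊗ₜ[k] (1 : B)) * (x ⊗ₜ[k] y))
    have e1 : ∀ i, SepM_F k B i j' ((a i j ⊗ₜ[k] (1 : B)) * (x ⊗ₜ[k] y))
        = SepM_col k B i (a i j * x) ⊗ₜ[k] SepM_row k B j' y := by
      intro i
      rw [Algebra.TensorProduct.tmul_mul_tmul, one_mul]
      rfl
    rw [Finset.sum_congr rfl fun i _ => e1 i, ← TensorProduct.sum_tmul]
    congr 1
    ext i' l
    rw [Matrix.sum_apply, Matrix.mul_apply]
    simp only [SepM_col_apply, Finset.sum_ite_eq, Finset.mem_univ, if_true, mul_ite, mul_zero,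
      Finset.sum_ite_eq']

private theorem SepM_ract_F (a : Matrix (Fin 2) (Fin 2) B) (i i' : Fin 2) (z : B ⊗[k] B) :
    (mPQ k B).b.r.act (SepM_F k B i i' z) a
      = ∑ j, SepM_F k B i j (((1 : B) ⊗ₜ[k] a i' j) * z) := by
  have h := tens_ext (k := k) (f := (mPQ k B).b.r.act.flip a ∘ₗ SepM_F k B i i')
    (g := ∑ j, SepM_F k B i j ∘ₗ LinearMap.mulLeft k ((1 : B) ⊗ₜ[k] a i' j))
    (fun x y => ?_) z
  · refine h.trans ?_
    rw [LinearMap.sum_apply]
    rfl
  · rw [LinearMap.sum_apply]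
    change SepM_col k B i x ⊗ₜ[k] (SepM_row k B i' y * a)
      = ∑ j, SepM_F k B i j (((1 : B) ⊗ₜ[k] a i' j) * (x ⊗ₜ[k] y))
    have e1 : ∀ j, SepM_F k B i j (((1 : B) ⊗ₜ[k] a i' j) * (x ⊗ₜ[k] y))
        = SepM_col k B i x ⊗ₜ[k] SepM_row k B j (a i' j * y) := by
      intro j
      rw [Algebra.TensorProduct.tmul_mul_tmul, one_mul]
      rfl
    rw [Finset.sum_congr rfl fun j _ => e1 j, ← TensorProduct.tmul_sum]
    congr 1
    ext l j'
    rw [Matrix.sum_apply, Matrix.mul_apply]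
    simp only [SepM_row_apply, Finset.sum_ite_eq, Finset.mem_univ, if_true, ite_mul, zero_mul,
      Finset.sum_ite_eq']
    exact mul_comm _ _

private theorem SepM_ss {G : Type} [AddCommGroup G] (X Y : Fin 2 → Fin 2 → G) :
    ∑ i, ∑ j, (X i j - Y i j) = ∑ i, ∑ j, X i j - ∑ i, ∑ j, Y i j := by
  rw [← Finset.sum_sub_distrib]
  exact Finset.sum_congr rfl fun i _ => Finset.sum_sub_distrib _ _

private theorem SepM_one : ∑ i : Fin 2, Matrix.single i i (1 : B) = 1 := by
  ext i j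
  rw [Matrix.sum_apply, Matrix.one_apply, Fin.sum_univ_two]
  fin_cases i <;> fin_cases j <;> simp [Matrix.single_apply]

private theorem SepM_mu_F (i : Fin 2) (z : B ⊗[k] B) :
    (muM k B).f (SepM_F k B i i z)
      = Matrix.single i i (Algebra.TensorProduct.lmul' (S := B) k z) := by
  have h := tens_ext (k := k) (Z := Matrix (Fin 2) (Fin 2) B)
    (f := (muM k B).f ∘ₗ SepM_F k B i i)
    (g := Matrix.singleLinearMap k i i ∘ₗ
      (Algebra.TensorProduct.lmul' (S := B) k).toLinearMap) (fun x y => ?_) z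
  · exact h
  · change SepM_col k B i x * SepM_row k B i y
      = Matrix.single i i (Algebra.TensorProduct.lmul' (S := B) k (x ⊗ₜ[k] y))
    rw [Algebra.TensorProduct.lmul'_apply_tmul]
    ext i' j'
    rw [Matrix.mul_apply, Matrix.single_apply]
    simp only [Finset.univ_unique, Finset.sum_singleton, SepM_col_apply, SepM_row_apply]
    by_cases h1 : i' = i
    · by_cases h2 : j' = i
      · rw [if_pos h1, if_pos h2, if_pos ⟨h1.symm, h2.symm⟩]
      · rw [if_neg h2, mul_zero, if_neg (fun h => h2 h.2.symm)]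
    · rw [if_neg h1, zero_mul, if_neg (fun h => h1 h.1.symm)]

/-- the separability idempotent gives a bimodule section -/
theorem exists_section (c : B) (h : SepOver k B c) :
    ∃ s : BMod.Hom (BMod.diag (M2 k B)) (BMod.coker (dlt k c)),
      ∀ x, (BMod.cokerDesc (dlt k c) (muM k B) (muM_dlt c)).f (s.f x) = x := by
  obtain ⟨e, he1, he2⟩ := h.idem
  choose z hz using he2
  let w : (mPQ k B).N.V := ∑ i, SepM_F k B i i e
  have hw : ∀ a : Matrix (Fin 2) (Fin 2) B, ∃ y : (mPQ k B).N.V,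
      (dlt k c).f y = (mPQ k B).b.l.act a w - (mPQ k B).b.r.act w a := by
    intro a
    refine ⟨∑ i, ∑ j, SepM_F k B i j (z (a i j)), ?_⟩
    have e1 : (mPQ k B).b.l.act a w
        = ∑ i, ∑ j, SepM_F k B i j ((a i j ⊗ₜ[k] (1 : B)) * e) := by
      have e3 : (mPQ k B).b.l.act a w = ∑ j, (mPQ k B).b.l.act a (SepM_F k B j j e) :=
        map_sum _ _ _
      rw [e3, Finset.sum_congr rfl fun j _ => SepM_act_F a j j e]
      exact Finset.sum_comm
    have e2 : (mPQ k B).b.r.act w a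
        = ∑ i, ∑ j, SepM_F k B i j (((1 : B) ⊗ₜ[k] a i j) * e) := by
      have e3 : (mPQ k B).b.r.act.flip a w = ∑ i, (mPQ k B).b.r.act.flip a (SepM_F k B i i e) :=
        map_sum _ _ _
      change (mPQ k B).b.r.act.flip a w = _
      rw [e3]
      exact Finset.sum_congr rfl fun i _ => SepM_ract_F a i i e
    have e5 : ∀ i j, (dlt k c).f (SepM_F k B i j (z (a i j)))
        = SepM_F k B i j ((a i j ⊗ₜ[k] (1 : B)) * e)
          - SepM_F k B i j (((1 : B) ⊗ₜ[k] a i j) * e) := by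
      intro i j
      rw [SepM_F_dlt, ← hz, sub_mul]
      exact map_sub (SepM_F k B i j) _ _
    have e4 : (dlt k c).f (∑ i, ∑ j, SepM_F k B i j (z (a i j)))
        = ∑ i, ∑ j, (dlt k c).f (SepM_F k B i j (z (a i j))) :=
      (map_sum (dlt k c).f _ _).trans
        (Finset.sum_congr rfl fun i _ => map_sum (dlt k c).f _ _)
    rw [e1, e2]
    refine e4.trans ((Finset.sum_congr rfl fun i _ =>
      Finset.sum_congr rfl fun j _ => e5 i j).trans ?_)
    exact SepM_ss (fun i j => SepM_F k B i j ((a i j ⊗ₜ[k] (1 : B)) * e))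
      (fun i j => SepM_F k B i j (((1 : B) ⊗ₜ[k] a i j) * e))
  have hmu : (muM k B).f w = (1 : Matrix (Fin 2) (Fin 2) B) := by
    have e3 : (muM k B).f w = ∑ i, (muM k B).f (SepM_F k B i i e) := map_sum _ _ _
    rw [e3, Finset.sum_congr rfl fun i _ => SepM_mu_F i e, he1]
    exact SepM_one
  let s0 : Matrix (Fin 2) (Fin 2) B →ₗ[k] (mPQ k B).N.V := (mPQ k B).b.l.act.flip w
  refine ⟨{ f := (BMod.cokerπ (dlt k c)).f ∘ₗ s0
            D := fun v => ?_
            P := fun v => ?_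
            isHom := ⟨fun a v => ?_, fun v a => ?_⟩ }, fun v => ?_⟩
  · have h3 : (mPQ k B).N.D (s0 v) = 0 := SepM_D _ _ _
    have h4 : (BMod.cokerπ (dlt k c)).f ((mPQ k B).N.D (s0 v)) = 0 :=
      (congrArg (BMod.cokerπ (dlt k c)).f h3).trans (map_zero _)
    exact (map_zero ((BMod.cokerπ (dlt k c)).f ∘ₗ s0)).trans h4.symm
  · have h3 : (mPQ k B).N.P (s0 v) = s0 v := SepM_P _ _ _
    exact (congrArg (BMod.cokerπ (dlt k c)).f h3).symm
  · have h0 : (mPQ k B).b.l.act ((M2 k B).mul a v) w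
        = (mPQ k B).b.l.act a ((mPQ k B).b.l.act v w) := (mPQ k B).b.l.mul_act a v w
    exact (congrArg (BMod.cokerπ (dlt k c)).f h0).trans
      ((BMod.cokerπ (dlt k c)).isHom.l a ((mPQ k B).b.l.act v w))
  · have h1 := (BMod.cokerπ (dlt k c)).isHom.r ((mPQ k B).b.l.act v w) a
    have h0 : (mPQ k B).b.l.act ((M2 k B).mul v a) w
        = (mPQ k B).b.l.act v ((mPQ k B).b.l.act a w) := (mPQ k B).b.l.mul_act v a w
    have h2 : (mPQ k B).b.r.act ((mPQ k B).b.l.act v w) a
        = (mPQ k B).b.l.act v ((mPQ k B).b.r.act w a) := (mPQ k B).b.lr v w a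
    obtain ⟨y, hy⟩ := hw a
    have h5 : (dlt k c).f ((mPQ k B).b.l.act v y) = (mPQ k B).b.l.act v ((mPQ k B).b.l.act a w)
        - (mPQ k B).b.l.act v ((mPQ k B).b.r.act w a) := by
      have h6 := (dlt k c).isHom.l v y
      rw [h6, hy]
      exact map_sub _ _ _
    have h4 : (BMod.cokerπ (dlt k c)).f ((mPQ k B).b.l.act v ((mPQ k B).b.l.act a w)
        - (mPQ k B).b.l.act v ((mPQ k B).b.r.act w a)) = 0 :=
      (BMod.cokerπ_eq_zero (dlt k c) _).2 ⟨_, h5⟩
    have h3 := sub_eq_zero.1 ((map_sub (BMod.cokerπ (dlt k c)).f _ _).symm.trans h4)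
    exact (congrArg (BMod.cokerπ (dlt k c)).f h0).trans
      (h3.trans ((congrArg (BMod.cokerπ (dlt k c)).f h2.symm).trans h1))
  · change (muM k B).f ((mPQ k B).b.l.act v w) = v
    have h1 := (muM k B).isHom.l v w
    rw [h1, hmu]
    exact Matrix.mul_one (v : Matrix (Fin 2) (Fin 2) B)

end H36.QX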