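import Pool.Agent.H36.QX.FU
import Pool.Agent.H36.QX.Tau

/-!
# FUt : the functional `n [a] ↦ trace (n ∂a)` on the odd cycles of `HC (NC_U)`
-/

set_option autoImplicit false

open NC
open scoped TensorProduct

noncomputable section

namespace H36.QX

open H36.NX

section abs

variable {k : Type} [Field k] {R : DGA k} {N N' : SD k} {B F : Type} [Ring B] [Algebra k B]
  [AddCommGroup F] [Module k F] {b : Bi R R N} {tr : B →ₗ[k] F}

/-- transgression of the functional `tau1` -/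
theorem TauData.transgress (d : TauData b tr) (b' : Bi R R N') (φ : N'.V →ₗ[k] N.V)
    (Φ : Wd k N'.V R.V →ₗ[k] Wd k N.V R.V) (h0 : ∀ n, Φ (Wd.nil n) = Wd.nil (φ n))
    (h1 : ∀ w r, Φ (Wd.snoc w r) = Wd.snoc (Φ w) r) (m : N'.V →ₗ[k] F)
    (M : Wd k N'.V R.V →ₗ[k] F) (hM : ∀ n, M (Wd.nil n) = m n)
    (hs : ∀ w r, M (Wd.snoc w r) = 0)
    (hD : ∀ n, m (N'.D n) = 0) (hE : ∀ n, N'.E n = n)
    (hm : ∀ n r, m (b'.r.act n r) - m (b'.l.act r n) = - tr (d.g (φ n) * d.δ r))
    (x : Wd k N'.V R.V) :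
    d.tau1 (Φ x) = - M (hcD b' x) := by
  induction x using Wd.induction with
  | hadd u v hu hv => rw [map_add, map_add, hu, hv, map_add, map_add, neg_add]
  | hnil n => rw [h0, TauData.tau1_nil, hcD_nil, hM, hD, neg_zero]
  | hsnoc w ih r =>
    clear ih
    rw [h1, TauData.tau1_snoc, hcD_snoc, map_sub, map_sub, map_add, map_sub, hs, hs, sub_zero,
      zero_add]
    induction w using Wd.induction with
    | hadd u v hu hv =>
      simp only [map_add, LinearMap.add_apply, add_mul] at hu hv ⊢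
      rw [hu, hv]
      abel
    | hnil n =>
      have e1 : (b'.l.act (R.P r) + b'.l.act (r - R.P r)) n = b'.l.act r n := by
        rw [← map_add, add_sub_cancel]
      rw [h0, TauData.gX_nil, EW_nil, hE, tl_nil, hd_nil, hd_nil, hM, hM, hM, sub_sub, ← map_add,
        ← LinearMap.add_apply, e1, hm, neg_neg]
    | hsnoc w _ s =>
      rw [h1, TauData.gX_snoc, zero_mul, map_zero, EW_snoc, map_neg, LinearMap.neg_apply, tl_snoc,
        map_neg, map_neg, hd_snoc, hd_snoc, map_neg, hs, hs, hs]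
      simp

end abs

variable {k : Type} [Field k] {t : k} {R : Type} [CommRing R] [Algebra k R]
  {F : Type} [Field F] [Algebra k F] {C : QRing k t R} {j : R →ₐ[k] F} (U : Cht C j)

/-! ### the functional on odd cycles -/

section functional

variable (dF : F →ₗ[k] F) (hdF : ∀ a b, dF (a * b) = a * dF b + dF a * b)

/-- the inclusion of the chart ring -/
private def vl : U.B →ₗ[k] F := U.B.val.toLinearMap

/-- the data of the functional `n [a] ↦ trace (n ∂a)` on `HC (M_2 B)` -/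
def tauNd : TauData (nBi U) (Matrix.traceLinearMap (Fin 2) k F) where
  g := (vl U).mapMatrix
  χ := (vl U).mapMatrix ∘ₗ (evA U).f
  δ := (dF ∘ₗ vl U).mapMatrix ∘ₗ (evA U).f
  tr_comm x y := Matrix.trace_mul_comm x y
  gl a n := by
    change (((evA U).f a : Matrix (Fin 2) (Fin 2) U.B) * n).map (vl U)
      = ((evA U).f a : Matrix (Fin 2) (Fin 2) U.B).map (vl U) * n.map (vl U)
    exact Matrix.map_mul (f := U.B.val.toRingHom)
  gr n a := by
    change (n * ((evA U).f a : Matrix (Fin 2) (Fin 2) U.B)).map (vl U)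
      = n.map (vl U) * ((evA U).f a : Matrix (Fin 2) (Fin 2) U.B).map (vl U)
    exact Matrix.map_mul (f := U.B.val.toRingHom)
  gD n := map_zero _
  gP n := rfl
  χP a := by
    change (vl U).mapMatrix ((evA U).f ((AA C).P a)) = (vl U).mapMatrix ((evA U).f a)
    rw [(evA U).P]
    rfl
  χmul a c := by
    change (vl U).mapMatrix ((evA U).f (a * c)) = _
    rw [(evA U).mul]
    exact Matrix.map_mul (f := U.B.val.toRingHom)
  δP a := by
    change (dF ∘ₗ vl U).mapMatrix ((evA U).f ((AA C).P a)) = (dF ∘ₗ vl U).mapMatrix ((evA U).f a)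
    rw [(evA U).P]
    rfl
  δD a := by
    change (dF ∘ₗ vl U).mapMatrix ((evA U).f ((AA C).D a)) = 0
    rw [(evA U).D]
    exact map_zero _
  δmul a c := by
    change (dF ∘ₗ vl U).mapMatrix ((evA U).f (a * c)) = _
    rw [(evA U).mul]
    change (((evA U).f a : Matrix (Fin 2) (Fin 2) U.B)
        * ((evA U).f c : Matrix (Fin 2) (Fin 2) U.B)).map (fun x => dF (x : F))
      = ((evA U).f a : Matrix (Fin 2) (Fin 2) U.B).map (fun x => (x : F))
          * ((evA U).f c : Matrix (Fin 2) (Fin 2) U.B).map (fun x => dF (x : F))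
        + ((evA U).f a : Matrix (Fin 2) (Fin 2) U.B).map (fun x => dF (x : F))
          * ((evA U).f c : Matrix (Fin 2) (Fin 2) U.B).map (fun x => (x : F))
    generalize ((evA U).f a : Matrix (Fin 2) (Fin 2) U.B) = X
    generalize ((evA U).f c : Matrix (Fin 2) (Fin 2) U.B) = Y
    ext i l
    simp only [Matrix.map_apply, Matrix.mul_apply, Matrix.add_apply, Fin.sum_univ_two]
    change dF ((X i 0 : F) * (Y 0 l : F) + (X i 1 : F) * (Y 1 l : F)) = _
    rw [map_add, hdF, hdF]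
    ring

/-- the functional on odd cycles, chart `U` -/
def tauU : (HC (fBi U.T)).V →ₗ[k] F := (tauNd U dF hdF).tau1 ∘ₗ (FUeH U).f

/-- `p ⊗ q ↦ q ∂p` -/
private def m0 : (Matrix (Fin 2) Unit U.B ⊗[k] Matrix Unit (Fin 2) U.B) →ₗ[k] F :=
  TensorProduct.lift (LinearMap.mk₂ k
    (fun p q => (q () 0 : F) * dF (p 0 () : F) + (q () 1 : F) * dF (p 1 () : F))
    (fun p p' q => by
      change (q () 0 : F) * dF ((p 0 () : F) + (p' 0 () : F))
        + (q () 1 : F) * dF ((p 1 () : F) + (p' 1 () : F)) = _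
      rw [map_add, map_add]
      ring)
    (fun c p q => by
      change (q () 0 : F) * dF (c • (p 0 () : F)) + (q () 1 : F) * dF (c • (p 1 () : F)) = _
      rw [map_smul, map_smul, mul_smul_comm, mul_smul_comm, smul_add])
    (fun p q q' => by
      change ((q () 0 : F) + (q' () 0 : F)) * dF (p 0 () : F)
        + ((q () 1 : F) + (q' () 1 : F)) * dF (p 1 () : F) = _
      ring)
    (fun c p q => by
      change (c • (q () 0 : F)) * dF (p 0 () : F) + (c • (q () 1 : F)) * dF (p 1 () : F) = _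
      rw [smul_mul_assoc, smul_mul_assoc, smul_add]))

private theorem m0_tmul (p : Matrix (Fin 2) Unit U.B) (q : Matrix Unit (Fin 2) U.B) :
    m0 U dF (p ⊗ₜ q) = (q () 0 : F) * dF (p 0 () : F) + (q () 1 : F) * dF (p 1 () : F) := rfl

/-- the functional `m0` on words of length zero -/
private def m1 : (HC (bPQ U (colA U Unit))).V →ₗ[k] F := Wd.recW (m0 U dF) 0 0

private theorem m1_nil (z : Matrix (Fin 2) Unit U.B ⊗[k] Matrix Unit (Fin 2) U.B) :
    m1 U dF (Wd.nil z) = m0 U dF z := by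
  unfold m1
  exact Wd.recW_nil _ _ _ _

private theorem m1_snoc (w : (HC (bPQ U (colA U Unit))).V) (r : (AA C).V) :
    m1 U dF (Wd.snoc w r) = 0 := by
  unfold m1
  refine (Wd.recW_snoc _ _ _ _ _).trans ?_
  simp

/-- the value of the functional on the image of `x` is `- m1 (D x)` -/
private theorem tau_rp (x : (HC (bPQ U (colA U Unit))).V) :
    (tauNd U dF hdF).tau1 ((FUrH U).f ((FUpH U).f x))
      = - m1 U dF ((HC (bPQ U (colA U Unit))).D x) := by
  refine TauData.transgress (tauNd U dF hdF) (bPQ U (colA U Unit)) ((muM k U.B).f)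
    ((FUrH U).f ∘ₗ (FUpH U).f) (fun z => rp_nil U z) (fun w r => rp_snoc U w r) (m0 U dF)
    (m1 U dF) (m1_nil U dF) (m1_snoc U dF) (fun z => ?_) (fun z => ?_) (fun z r => ?_) x
  · have h1 : ((PU U).tens (QU U)).D z = 0 := evT_D z
    rw [h1, map_zero]
  · exact evT_E z
  · refine tens_ext (f := m0 U dF ∘ₗ (bPQ U (colA U Unit)).r.act.flip r
        - m0 U dF ∘ₗ (bPQ U (colA U Unit)).l.act r)
      (g := -(Matrix.traceLinearMap (Fin 2) k F ∘ₗ
        (LinearMap.mulRight k ((tauNd U dF hdF).δ r) ∘ₗ (tauNd U dF hdF).g) ∘ₗ (muM k U.B).f))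
      (fun p q => ?_) z
    change m0 U dF ((p : Matrix (Fin 2) Unit U.B) ⊗ₜ[k]
          ((q : Matrix Unit (Fin 2) U.B) * ((evA U).f r : Matrix (Fin 2) (Fin 2) U.B)))
        - m0 U dF ((((evA U).f r : Matrix (Fin 2) (Fin 2) U.B) * (p : Matrix (Fin 2) Unit U.B))
          ⊗ₜ[k] (q : Matrix Unit (Fin 2) U.B))
      = -(Matrix.trace (((p : Matrix (Fin 2) Unit U.B) * (q : Matrix Unit (Fin 2) U.B)).map
          (fun x => (x : F))
        * ((evA U).f r : Matrix (Fin 2) (Fin 2) U.B).map (fun x => dF (x : F))))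
    generalize ((evA U).f r : Matrix (Fin 2) (Fin 2) U.B) = X
    rw [m0_tmul, m0_tmul]
    simp only [Matrix.trace, Matrix.diag_apply, Matrix.mul_apply, Matrix.map_apply,
      Fin.sum_univ_two, Finset.univ_unique, Finset.sum_singleton]
    change ((q () 0 : F) * (X 0 0 : F) + (q () 1 : F) * (X 1 0 : F)) * dF (p 0 () : F)
      + ((q () 0 : F) * (X 0 1 : F) + (q () 1 : F) * (X 1 1 : F)) * dF (p 1 () : F)
      - ((q () 0 : F) * dF ((X 0 0 : F) * (p 0 () : F) + (X 0 1 : F) * (p 1 () : F))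
        + (q () 1 : F) * dF ((X 1 0 : F) * (p 0 () : F) + (X 1 1 : F) * (p 1 () : F)))
      = -(((p 0 () : F) * (q () 0 : F)) * dF (X 0 0 : F)
          + ((p 0 () : F) * (q () 1 : F)) * dF (X 1 0 : F)
        + (((p 1 () : F) * (q () 0 : F)) * dF (X 0 1 : F)
          + ((p 1 () : F) * (q () 1 : F)) * dF (X 1 1 : F)))
    rw [map_add, map_add, hdF, hdF, hdF, hdF]
    ring

/-- the value of the functional on the odd cycle with parameter `b` -/
theorem tau_zN (b : U.B) : (tauNd U dF hdF).tau1 (FUzN U b) = - (dF U.c * (b : F)) := by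
  have h0 : (FUdH U).f (gP U b) = Wd.nil (((⟨U.c, U.cB⟩ : U.B) •
        (Matrix.single 0 () b : Matrix (Fin 2) Unit U.B)) ⊗ₜ[k]
        (Matrix.single () 0 1 : Matrix Unit (Fin 2) U.B)
      - (Matrix.single 0 () b : Matrix (Fin 2) Unit U.B) ⊗ₜ[k] ((⟨U.c, U.cB⟩ : U.B) •
        (Matrix.single () 0 1 : Matrix Unit (Fin 2) U.B))) := FUdH_nil U _
  have h1 := tau_rp U dF hdF (FUzP U b)
  rw [FUzP_D, h0, m1_nil, map_sub, m0_tmul, m0_tmul] at h1
  refine h1.trans ?_
  simp only [Matrix.smul_apply, Matrix.single_apply]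
  simp only [and_true, true_and, if_true, zero_ne_one, if_false, smul_zero, and_self]
  change -((((1 : U.B) : F) * dF (U.c * (b : F)) + ((0 : U.B) : F) * dF ((0 : U.B) : F))
    - ((U.c * ((1 : U.B) : F)) * dF (b : F) + ((0 : U.B) : F) * dF ((0 : U.B) : F))) = _
  rw [hdF]
  push_cast
  ring

theorem tauU_D (x : (HC (fBi U.T)).V) : tauU U dF hdF ((HC (fBi U.T)).D x) = 0 := by
  change (tauNd U dF hdF).tau1 ((FUeH U).f ((HC (fBi U.T)).D x)) = 0
  rw [(FUeH U).D]
  exact (tauNd U dF hdF).tau1_D _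

private theorem tau_mem_aux (x : (HC (fBi U.T)).V) (hP : (HC (fBi U.T)).P x = 0)
    (hD : (HC (fBi U.T)).D x = 0) : ∃ b : U.B, (HC (nBi U)).Hml ((FUeH U).f x) (FUzN U b) ∧
      tauU U dF hdF x = - (dF U.c * (b : F)) := by
  have e1 : (HC (nBi U)).P ((FUeH U).f x) = 0 := by rw [← (FUeH U).P, hP, map_zero]
  have e2 : (HC (nBi U)).D ((FUeH U).f x) = 0 := by rw [← (FUeH U).D, hD, map_zero]
  obtain ⟨b, w, hw⟩ := hodd_N U _ e1 e2
  refine ⟨b, ⟨w, hw⟩, ?_⟩
  have h1 := congrArg (tauNd U dF hdF).tau1 hw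
  have h2 : (tauNd U dF hdF).tau1 ((HC (nBi U)).D w) = 0 := (tauNd U dF hdF).tau1_D w
  rw [h2, map_sub, tau_zN] at h1
  exact (sub_eq_zero.1 h1.symm)

/-- the values of the functional on odd cycles -/
theorem tau_mem (x : (HC (fBi U.T)).V) (hP : (HC (fBi U.T)).P x = 0)
    (hD : (HC (fBi U.T)).D x = 0) : ∃ b : U.B, tauU U dF hdF x = (b : F) * dF U.c := by
  obtain ⟨b, -, h⟩ := tau_mem_aux U dF hdF x hP hD
  refine ⟨-b, ?_⟩
  rw [h]
  push_cast
  ring

/-- the functional is injective on odd classes -/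
theorem tau_inj (hc : dF U.c ≠ 0) (x : (HC (fBi U.T)).V) (hP : (HC (fBi U.T)).P x = 0)
    (hD : (HC (fBi U.T)).D x = 0) (h : tauU U dF hdF x = 0) :
    ∃ y, (HC (fBi U.T)).D y = x := by
  obtain ⟨b, ⟨w, hw⟩, hb⟩ := tau_mem_aux U dF hdF x hP hD
  have hb0 : b = 0 := by
    rw [h, eq_comm, neg_eq_zero, mul_eq_zero, or_iff_right hc] at hb
    exact Subtype.ext hb
  subst hb0
  obtain ⟨y, hy⟩ := FUzN_zero U
  refine (FUeH_QI U).inj x (w + y) hD ?_
  rw [map_add, hw, hy, sub_add_cancel]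

/-- every multiple of `∂c` is the value of the functional on an odd cycle -/
theorem tau_surj (b : U.B) : ∃ x, (HC (fBi U.T)).P x = 0 ∧ (HC (fBi U.T)).D x = 0 ∧
    tauU U dF hdF x = (b : F) * dF U.c := by
  obtain ⟨x, z, hx, hz⟩ := (FUeH_QI U).surj (FUzN U (-b)) (FUzN_D U _)
  refine ⟨x - (HC (fBi U.T)).P x, by rw [map_sub, SD.PP, sub_self],
    by rw [map_sub, SD.DP, hx, map_zero, sub_zero, sub_zero], ?_⟩
  have h1 : (FUeH U).f (x - (HC (fBi U.T)).P x) = FUzN U (-b) - (HC (nBi U)).D ((HC (nBi U)).P z) := by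
    have h2 : (FUeH U).f x = FUzN U (-b) - (HC (nBi U)).D z := by rw [hz]; abel
    rw [map_sub, (FUeH U).P, h2, map_sub, FUzN_P, SD.DP]
    abel
  change (tauNd U dF hdF).tau1 ((FUeH U).f (x - (HC (fBi U.T)).P x)) = _
  rw [h1, map_sub, tau_zN]
  have h3 : (tauNd U dF hdF).tau1 ((HC (nBi U)).D ((HC (nBi U)).P z)) = 0 :=
    (tauNd U dF hdF).tau1_D _
  rw [h3]
  push_cast
  ring

end functional

end H36.QX
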