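import Pool.Agent.H36.QX.HilbCyc
import Pool.Agent.H36.PX.Hilb

/-!
# Hilb : Hilbert functions of graded modules over the coordinate ring of the curve, weights 1, 1, 2

MP_eadf0f_ag, example half in characteristic two. If every point of the curve has even degree, then the
dimension of the piece of degree `n` of a finitely generated graded module over its homogeneous coordinate
ring is even for all large `n`.
-/

set_option autoImplicit false

namespace H36.QX

open MvPolynomial
open H36.PX (act act_apply act_comm mem_piece finrank_ext)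

/-- the weights of the variables `x, y, z` -/
def w3 : Fin 3 → ℕ := ![1, 1, 2]

@[simp] theorem w3_zero : w3 0 = 1 := rfl
@[simp] theorem w3_one : w3 1 = 1 := rfl
@[simp] theorem w3_two : w3 2 = 2 := rfl

/-- the quadratic form `q = y^2 + x y + t x^2` -/
noncomputable def qf {k : Type} [Field k] (t : k) : MvPolynomial (Fin 3) k :=
  X 1 ^ 2 + X 0 * X 1 + C t * X 0 ^ 2

/-- the equation of the curve, `x, y, z = X 0, X 1, X 2` -/
noncomputable def crv {k : Type} [Field k] (t : k) : MvPolynomial (Fin 3) k :=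
  X 2 ^ 2 - qf t * X 2 - C (t + 1) * qf t ^ 2 - X 0 ^ 2 * qf t

section

variable {k : Type} [Field k] {M : Type} [AddCommGroup M] [Module k M]
  [Module (MvPolynomial (Fin 3) k) M] [IsScalarTower k (MvPolynomial (Fin 3) k) M]

/-- multiplication by the variables and by `q` -/
noncomputable def act4 {k : Type} [Field k] (t : k) (M : Type) [AddCommGroup M] [Module k M]
    [Module (MvPolynomial (Fin 3) k) M] [IsScalarTower k (MvPolynomial (Fin 3) k) M] :
    Fin 4 → Module.End k M :=
  ![act k M 0, act k M 1, act k M 2, Algebra.lsmul k k M (qf t)]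

theorem act4_zero (t : k) : act4 t M 0 = act k M 0 := rfl
theorem act4_one (t : k) : act4 t M 1 = act k M 1 := rfl
theorem act4_two (t : k) : act4 t M 2 = act k M 2 := rfl
theorem act4_three (t : k) : act4 t M 3 = Algebra.lsmul k k M (qf t) := rfl

theorem act4_cast (t : k) (i : Fin 3) : act4 t M i.castSucc = act k M i := by
  fin_cases i <;> rfl

theorem hwt_cast (i : Fin 3) : hwt i.castSucc = w3 i := by
  fin_cases i <;> rfl

/-- every operator of the family is the multiplication by a polynomial -/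
theorem act4_poly (t : k) (i : Fin 4) : ∃ s : MvPolynomial (Fin 3) k, ∀ v : M, act4 t M i v = s • v := by
  fin_cases i
  · exact ⟨X 0, fun v => rfl⟩
  · exact ⟨X 1, fun v => rfl⟩
  · exact ⟨X 2, fun v => rfl⟩
  · exact ⟨qf t, fun v => rfl⟩

theorem act4_comm (t : k) (i j : Fin 4) (v : M) :
    act4 t M i (act4 t M j v) = act4 t M j (act4 t M i v) := by
  obtain ⟨s, hs⟩ := act4_poly (M := M) t i
  obtain ⟨r, hr⟩ := act4_poly (M := M) t j
  rw [hs, hr, hr, hs, smul_smul, smul_smul, mul_comm]

theorem act_rel {t : k} (hf : ∀ m : M, crv t • m = 0) : CRel t (act4 t M) := by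
  have hC : ∀ (c : k) (v : M), c • v = (C c : MvPolynomial (Fin 3) k) • v := by
    intro c v
    rw [← MvPolynomial.algebraMap_eq, algebraMap_smul]
  have e0 : ∀ v : M, act4 t M 0 v = (X 0 : MvPolynomial (Fin 3) k) • v := fun v => rfl
  have e1 : ∀ v : M, act4 t M 1 v = (X 1 : MvPolynomial (Fin 3) k) • v := fun v => rfl
  have e2 : ∀ v : M, act4 t M 2 v = (X 2 : MvPolynomial (Fin 3) k) • v := fun v => rfl
  have e3 : ∀ v : M, act4 t M 3 v = (qf t : MvPolynomial (Fin 3) k) • v := fun v => rfl
  refine ⟨fun v => ?_, fun v => ?_⟩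
  · simp only [e0, e1, e3, hC, smul_smul]
    rw [← add_smul, ← add_smul]
    congr 1
    rw [qf]
    ring
  · have h := hf v
    simp only [e0, e2, e3, hC, smul_smul]
    rw [← sub_eq_zero, ← h, ← add_smul, ← add_smul, ← sub_smul]
    congr 1
    rw [crv]
    ring

/-- the span of a stable family of subspaces is the submodule which it generates -/
theorem mem_span_iff {N : ℕ → Submodule k M}
    (hN : ∀ i n, (N n).map (act k M i) ≤ N (n + w3 i)) {v : M} :
    v ∈ Submodule.span (MvPolynomial (Fin 3) k) (⋃ n, (N n : Set M)) ↔ v ∈ ⨆ n, N n := by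
  have hst : ∀ i, (⨆ n, N n).map (act k M i) ≤ ⨆ n, N n := by
    intro i
    rw [Submodule.map_iSup]
    exact iSup_le fun n => (hN i n).trans (le_iSup N (n + w3 i))
  constructor
  · intro hv
    induction hv using Submodule.span_induction with
    | mem x hx =>
      obtain ⟨n, hn⟩ := Set.mem_iUnion.mp hx
      exact Submodule.mem_iSup_of_mem n hn
    | zero => exact Submodule.zero_mem _
    | add x y _ _ hx hy => exact Submodule.add_mem _ hx hy
    | smul p x _ hx =>
      induction p using MvPolynomial.induction_on generalizing x with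
      | C c =>
        rw [← MvPolynomial.algebraMap_eq, algebraMap_smul]
        exact Submodule.smul_mem _ _ hx
      | add p q hp hq =>
        rw [add_smul]
        exact Submodule.add_mem _ (hp x ‹_› hx) (hq x ‹_› hx)
      | mul_X p i hp =>
        rw [mul_smul]
        exact hp _ (Submodule.smul_mem _ _ ‹_›) (hst i ⟨x, hx, rfl⟩)
  · intro hv
    have h1 : (⨆ n, N n) ≤ (Submodule.span (MvPolynomial (Fin 3) k)
        (⋃ n, (N n : Set M))).restrictScalars k := by
      refine iSup_le fun n x hx => Submodule.subset_span (Set.mem_iUnion.mpr ⟨n, hx⟩)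
    exact h1 hv

omit [Module (MvPolynomial (Fin 3) k) M] [IsScalarTower k (MvPolynomial (Fin 3) k) M] in
/-- the cyclic module in a quotient -/
theorem cyc_quot {Q : Type} [AddCommGroup Q] [Module k Q] (a : Fin 4 → Module.End k M)
    (b : Fin 4 → Module.End k Q) (q : M →ₗ[k] Q) (hq : ∀ i v, q (a i v) = b i (q v)) (m : M)
    (j : ℕ) : (cyc a m j).map q = cyc b (q m) j := by
  have hq' : ∀ i (F : Submodule k M), (F.map (a i)).map q = (F.map q).map (b i) := by
    intro i F
    rw [← Submodule.map_comp, ← Submodule.map_comp]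
    congr 1
    exact LinearMap.ext fun v => hq i v
  refine cyc_ind (P := fun j => (cyc a m j).map q = cyc b (q m) j) ?_ ?_ ?_ j
  · rw [cyc_zero, cyc_zero, Submodule.map_span, Set.image_singleton]
  · intro ih
    rw [cyc_one, cyc_one, Submodule.map_sup, hq', hq', ih]
  · intro j ih ih'
    rw [cyc_add, cyc_add, Submodule.map_sup, Submodule.map_sup, hq', hq', hq', ih, ih']

end

/-- stable families of finite dimensional subspaces of the pieces, of even dimension in large degree -/
def Good (k : Type) [Field k] {M : Type} [AddCommGroup M] [Module k M]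
    [Module (MvPolynomial (Fin 3) k) M] [IsScalarTower k (MvPolynomial (Fin 3) k) M]
    (gr N : ℕ → Submodule k M) : Prop :=
  (∀ n, N n ≤ gr n) ∧ (∀ i n, (N n).map (act k M i) ≤ N (n + w3 i)) ∧
    (∀ n, FiniteDimensional k (N n)) ∧ ∃ n0, ∀ n, n0 ≤ n → 2 ∣ Module.finrank k (N n)

/-- extension of a good family by a cyclic one -/
theorem good_ext {k : Type} [Field k] {t : k} (hI : IndexT k t) {M : Type}
    [AddCommGroup M] [Module k M] [Module (MvPolynomial (Fin 3) k) M]
    [IsScalarTower k (MvPolynomial (Fin 3) k) M]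
    {gr : ℕ → Submodule k M} (hint : DirectSum.IsInternal gr)
    (hdeg : ∀ i n m, m ∈ gr n → (X i : MvPolynomial (Fin 3) k) • m ∈ gr (n + w3 i))
    (hf : ∀ m : M, crv t • m = 0) {N : ℕ → Submodule k M} (hN : Good k gr N)
    {d : ℕ} {m : M} (hm : m ∈ gr d)
    (hcase : (X 0 : MvPolynomial (Fin 3) k) • m ∈ N (d + 1) ∨
      ∀ n, ∀ v ∈ gr n, (X 0 : MvPolynomial (Fin 3) k) • v ∈ N (n + 1) → v ∈ N n) :
    ∃ N', Good k gr N' ∧ (∀ n, N n ≤ N' n) ∧ m ∈ N' d := by
  obtain ⟨hNgr, hNst, hNfin, n0, hn0⟩ := hN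
  set P : Submodule k M := ⨆ n, N n with hP
  have hPs : ∀ (s : MvPolynomial (Fin 3) k) (v : M), v ∈ P → s • v ∈ P := by
    intro s v hv
    rw [hP, ← mem_span_iff hNst] at hv ⊢
    exact Submodule.smul_mem _ _ hv
  have hPst : ∀ i, P.map (act4 t M i) ≤ P := by
    rintro i _ ⟨v, hv, rfl⟩
    obtain ⟨s, hs⟩ := act4_poly (M := M) t i
    rw [hs]
    exact hPs s v hv
  let b : Fin 4 → Module.End k (M ⧸ P) := fun i =>
    Submodule.mapQ P P (act4 t M i) (Submodule.map_le_iff_le_comap.mp (hPst i))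
  have hb : ∀ i v, P.mkQ (act4 t M i v) = b i (P.mkQ v) := fun i v => rfl
  have hbc : ∀ i j v, b i (b j v) = b j (b i v) := by
    intro i j v
    obtain ⟨v, rfl⟩ := P.mkQ_surjective v
    rw [← hb, ← hb, act4_comm, hb, hb]
  have har := act_rel hf
  have hbrel : CRel t b := by
    refine ⟨fun v => ?_, fun v => ?_⟩
    · obtain ⟨v, rfl⟩ := P.mkQ_surjective v
      rw [← hb, ← hb, ← hb, ← hb, ← hb, ← hb, har.1 v, map_add, map_add, map_smul]
    · obtain ⟨v, rfl⟩ := P.mkQ_surjective v
      rw [← hb, ← hb, ← hb, ← hb, ← hb, ← hb, ← hb, har.2 v, map_add, map_add, map_smul]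
  have hcgr : ∀ j, cyc (act4 t M) m j ≤ gr (d + j) := by
    have h1 : ∀ (i : Fin 3) (j : ℕ), cyc (act4 t M) m j ≤ gr (d + j) →
        (cyc (act4 t M) m j).map (act4 t M i.castSucc) ≤ gr (d + (j + w3 i)) := by
      rintro i j h _ ⟨v, hv, rfl⟩
      rw [act4_cast, ← add_assoc]
      exact hdeg i (d + j) v (h hv)
    refine cyc_ind ?_ ?_ ?_
    · rw [cyc_zero, Submodule.span_singleton_le_iff_mem]
      exact hm
    · intro ih
      rw [cyc_one]
      exact sup_le (h1 0 0 ih) (h1 1 0 ih)
    · intro j ih ih'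
      rw [cyc_add]
      exact sup_le (sup_le (h1 0 (j + 1) ih') (h1 1 (j + 1) ih')) (h1 2 j ih)
  have hcyc : ∃ J, ∀ j, J ≤ j → 2 ∣ Module.finrank k (cyc b (P.mkQ m) j) := by
    rcases hcase with h0 | h0
    · refine cyc_A hI hbc hbrel _ ?_
      rw [← hb, Submodule.mkQ_apply, Submodule.Quotient.mk_eq_zero]
      exact Submodule.mem_iSup_of_mem (d + 1) h0
    · refine cyc_B hI hbc hbrel _ ?_
      intro j v hv hv0
      rw [← cyc_quot (act4 t M) b P.mkQ hb m j] at hv
      obtain ⟨w, hw, rfl⟩ := hv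
      rw [← hb, Submodule.mkQ_apply, Submodule.Quotient.mk_eq_zero] at hv0
      have h1 : act k M 0 w ∈ N (d + j + 1) :=
        mem_piece hint hNgr (hdeg 0 (d + j) w (hcgr j hw)) hv0
      rw [Submodule.mkQ_apply, Submodule.Quotient.mk_eq_zero]
      exact Submodule.mem_iSup_of_mem (d + j) (h0 (d + j) w (hcgr j hw) h1)
  obtain ⟨J, hJ⟩ := hcyc
  let E : ℕ → Submodule k M := fun n => if d ≤ n then cyc (act4 t M) m (n - d) else ⊥
  have hE1 : ∀ n, d ≤ n → E n = cyc (act4 t M) m (n - d) := fun n hn => if_pos hn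
  have hE2 : ∀ n, ¬ d ≤ n → E n = ⊥ := fun n hn => if_neg hn
  have hEgr : ∀ n, E n ≤ gr n := by
    intro n
    by_cases hn : d ≤ n
    · rw [hE1 n hn]
      have := hcgr (n - d)
      rwa [show d + (n - d) = n by omega] at this
    · rw [hE2 n hn]
      exact bot_le
  have hEst : ∀ i n, (E n).map (act k M i) ≤ E (n + w3 i) := by
    intro i n
    by_cases hn : d ≤ n
    · rw [hE1 n hn, hE1 (n + w3 i) (by omega), show n + w3 i - d = n - d + w3 i by omega,
        ← act4_cast t, ← hwt_cast]
      exact cyc_map_le har m _ _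
    · rw [hE2 n hn, Submodule.map_bot]
      exact bot_le
  have hEfin : ∀ n, FiniteDimensional k (E n) := by
    intro n
    by_cases hn : d ≤ n
    · rw [hE1 n hn]
      infer_instance
    · rw [hE2 n hn]
      infer_instance
  refine ⟨fun n => N n ⊔ E n, ⟨fun n => sup_le (hNgr n) (hEgr n), fun i n => ?_, fun n => ?_,
    max n0 (d + J), fun n hn => ?_⟩, fun n => le_sup_left, ?_⟩
  · rw [Submodule.map_sup]
    exact sup_le_sup (hNst i n) (hEst i n)
  · have := hNfin n
    have := hEfin n
    infer_instance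
  · have := hNfin n
    have := hEfin n
    rw [finrank_ext (P := P) (le_iSup N n)
      (fun v hv hv' => mem_piece hint hNgr (sup_le (hNgr n) (hEgr n) hv') hv)]
    refine dvd_add (hn0 n (le_of_max_le_left hn)) ?_
    have hdn : d + J ≤ n := le_of_max_le_right hn
    rw [hE1 n (by omega), cyc_quot (act4 t M) b P.mkQ hb]
    exact hJ (n - d) (by omega)
  · refine Submodule.mem_sup_right ?_
    rw [hE1 d le_rfl, Nat.sub_self, cyc_zero]
    exact Submodule.mem_span_singleton_self m

/-- the Hilbert function of a finitely generated graded module over the homogeneous coordinate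
ring of the curve is finite, and even in large degree -/
theorem hilb (k : Type) [Field k] (t : k) (hI : IndexT k t)
    (M : Type)
    [AddCommGroup M] [Module k M] [Module (MvPolynomial (Fin 3) k) M]
    [IsScalarTower k (MvPolynomial (Fin 3) k) M] [Module.Finite (MvPolynomial (Fin 3) k) M]
    (gr : ℕ → Submodule k M) (hint : DirectSum.IsInternal gr)
    (hdeg : ∀ i n m, m ∈ gr n → (X i : MvPolynomial (Fin 3) k) • m ∈ gr (n + w3 i))
    (hf : ∀ m : M, crv t • m = 0) :
    (∀ n, FiniteDimensional k (gr n)) ∧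
      ∃ n0, ∀ n, n0 ≤ n → 2 ∣ Module.finrank k (gr n) := by
  let Φ : (ℕ → Submodule k M) → Submodule (MvPolynomial (Fin 3) k) M := fun N =>
    Submodule.span (MvPolynomial (Fin 3) k) (⋃ n, (N n : Set M))
  have hbot : Good k gr (fun _ => ⊥) := by
    refine ⟨fun n => bot_le, fun i n => by rw [Submodule.map_bot], fun n => inferInstance,
      0, fun n _ => ?_⟩
    rw [finrank_bot]
    exact dvd_zero 2
  have hno : IsNoetherian (MvPolynomial (Fin 3) k) M := inferInstance
  obtain ⟨_, ⟨N, hN, rfl⟩, hmax⟩ := (wellFounded_gt : WellFounded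
    ((· > ·) : Submodule (MvPolynomial (Fin 3) k) M → _ → Prop)).has_min
    {P | ∃ N, Good k gr N ∧ Φ N = P} ⟨Φ _, _, hbot, rfl⟩
  have hall : ∀ n, gr n ≤ N n := by
    by_contra hne
    push Not at hne
    obtain ⟨n1, hn1⟩ := hne
    obtain ⟨d, m, hm, hmN, hcase⟩ : ∃ d m, m ∈ gr d ∧ m ∉ N d ∧
        ((X 0 : MvPolynomial (Fin 3) k) • m ∈ N (d + 1) ∨
          ∀ n, ∀ v ∈ gr n, (X 0 : MvPolynomial (Fin 3) k) • v ∈ N (n + 1) → v ∈ N n) := by
      by_cases hc : ∀ n, ∀ v ∈ gr n, (X 0 : MvPolynomial (Fin 3) k) • v ∈ N (n + 1) → v ∈ N n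
      · obtain ⟨m, hm, hmN⟩ := SetLike.not_le_iff_exists.mp hn1
        exact ⟨n1, m, hm, hmN, Or.inr hc⟩
      · push Not at hc
        obtain ⟨n, v, hv, hv1, hv2⟩ := hc
        exact ⟨n, v, hv, hv2, Or.inl hv1⟩
    obtain ⟨N', hN', hle, hmN'⟩ := good_ext hI hint hdeg hf hN hm hcase
    refine hmax _ ⟨N', hN', rfl⟩ ?_
    refine lt_of_le_of_ne (Submodule.span_mono (Set.iUnion_mono fun n => hle n)) ?_
    intro heq
    have h1 : m ∈ Φ N' := Submodule.subset_span (Set.mem_iUnion.mpr ⟨d, hmN'⟩)
    rw [← heq] at h1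
    exact hmN (mem_piece hint hN.1 hm ((mem_span_iff hN.2.1).mp h1))
  have heq : N = gr := funext fun n => le_antisymm (hN.1 n) (hall n)
  rw [← heq]
  exact ⟨hN.2.2.1, hN.2.2.2⟩

end H36.QX
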