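import Pool.Agent.H36.QX.HilbF
import Pool.Agent.H36.PX.HilbCyc

/-!
# HilbCyc : Hilbert functions of cyclic modules over the coordinate ring of the curve, weights 1, 1, 2

`cyc a m j` is the space of the values at `m` of the forms of degree `j` in the three commuting operators
`a 0, a 1` (of degree 1) and `a 2` (of degree 2) which satisfy the equation of the curve; `a 3` is the
quadratic form `q` in `a 0, a 1`.
-/

set_option autoImplicit false

namespace H36.QX

open H36.PX (finrank_step eventually_const)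

section

variable {k : Type} [Field k] {Q : Type} [AddCommGroup Q] [Module k Q]

/-- the pieces of a cyclic module -/
def cyc (a : Fin 4 → Module.End k Q) (m : Q) : ℕ → Submodule k Q
  | 0 => Submodule.span k {m}
  | 1 => (Submodule.span k {m}).map (a 0) ⊔ (Submodule.span k {m}).map (a 1)
  | j + 2 => (cyc a m (j + 1)).map (a 0) ⊔ (cyc a m (j + 1)).map (a 1) ⊔ (cyc a m j).map (a 2)

theorem cyc_zero (a : Fin 4 → Module.End k Q) (m : Q) : cyc a m 0 = Submodule.span k {m} := by
  rw [cyc]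

theorem cyc_one (a : Fin 4 → Module.End k Q) (m : Q) :
    cyc a m 1 = (cyc a m 0).map (a 0) ⊔ (cyc a m 0).map (a 1) := by
  rw [cyc, cyc]

theorem cyc_add (a : Fin 4 → Module.End k Q) (m : Q) (j : ℕ) :
    cyc a m (j + 2) = (cyc a m (j + 1)).map (a 0) ⊔ (cyc a m (j + 1)).map (a 1)
      ⊔ (cyc a m j).map (a 2) := by
  rw [cyc]

/-- induction in steps -/
theorem cyc_ind {P : ℕ → Prop} (h0 : P 0) (h1 : P 0 → P 1) (h2 : ∀ j, P j → P (j + 1) → P (j + 2)) :
    ∀ j, P j := by
  have h : ∀ j, P j ∧ P (j + 1) := by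
    intro j
    induction j with
    | zero => exact ⟨h0, h1 h0⟩
    | succ j ih => exact ⟨ih.2, h2 j ih.1 ih.2⟩
  exact fun j => (h j).1

instance cyc_finite (a : Fin 4 → Module.End k Q) (m : Q) (j : ℕ) :
    FiniteDimensional k (cyc a m j) := by
  refine cyc_ind (P := fun j => FiniteDimensional k (cyc a m j)) ?_ ?_ ?_ j
  · rw [cyc_zero]
    infer_instance
  · intro h
    rw [cyc_one]
    infer_instance
  · intro j h h'
    rw [cyc_add]
    infer_instance

/-- the equation of the curve for the operators `x, y, z, q` -/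
def CRel (t : k) (a : Fin 4 → Module.End k Q) : Prop :=
  (∀ v, a 3 v = a 1 (a 1 v) + a 0 (a 1 v) + t • a 0 (a 0 v)) ∧
    ∀ v, a 2 (a 2 v) = a 3 (a 2 v) + (t + 1) • a 3 (a 3 v) + a 0 (a 0 (a 3 v))

variable {t : k} {a : Fin 4 → Module.End k Q}

theorem cyc_map01 (m : Q) (j : ℕ) (i : Fin 4) (hi : i = 0 ∨ i = 1) :
    (cyc a m j).map (a i) ≤ cyc a m (j + 1) := by
  rcases j with _ | j
  · rw [cyc_one]
    rcases hi with rfl | rfl
    · exact le_sup_left
    · exact le_sup_right
  · rw [cyc_add]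
    rcases hi with rfl | rfl
    · exact le_sup_left.trans le_sup_left
    · exact le_sup_right.trans le_sup_left

theorem cyc_mem01 {m : Q} {j : ℕ} (i : Fin 4) (hi : i = 0 ∨ i = 1) {v : Q} (hv : v ∈ cyc a m j) :
    a i v ∈ cyc a m (j + 1) := cyc_map01 m j i hi ⟨v, hv, rfl⟩

theorem cyc_mem2 {m : Q} {j : ℕ} {v : Q} (hv : v ∈ cyc a m j) :
    a 2 v ∈ cyc a m (j + 2) := by
  rw [cyc_add]
  exact Submodule.mem_sup_right ⟨v, hv, rfl⟩

theorem cyc_mem3 (hr : CRel t a) {m : Q} {j : ℕ} {v : Q} (hv : v ∈ cyc a m j) :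
    a 3 v ∈ cyc a m (j + 2) := by
  rw [hr.1]
  exact Submodule.add_mem _ (Submodule.add_mem _
    (cyc_mem01 1 (Or.inr rfl) (cyc_mem01 1 (Or.inr rfl) hv))
    (cyc_mem01 0 (Or.inl rfl) (cyc_mem01 1 (Or.inr rfl) hv)))
    (Submodule.smul_mem _ _ (cyc_mem01 0 (Or.inl rfl) (cyc_mem01 0 (Or.inl rfl) hv)))

theorem cyc_map_le (hr : CRel t a) (m : Q) (i : Fin 4) (j : ℕ) :
    (cyc a m j).map (a i) ≤ cyc a m (j + hwt i) := by
  rintro _ ⟨v, hv, rfl⟩
  fin_cases i
  · exact cyc_mem01 0 (Or.inl rfl) hv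
  · exact cyc_mem01 1 (Or.inr rfl) hv
  · exact cyc_mem2 hv
  · exact cyc_mem3 hr hv

theorem map_comm' {a : Fin 4 → Module.End k Q} (hc : ∀ i j v, a i (a j v) = a j (a i v))
    (i j : Fin 4) (F : Submodule k Q) : (F.map (a j)).map (a i) = (F.map (a i)).map (a j) := by
  rw [← Submodule.map_comp, ← Submodule.map_comp]
  congr 1
  exact LinearMap.ext fun v => hc i j v

/-- in degree at least `3` the third operator is not needed -/
theorem cyc_top (hc : ∀ i j v, a i (a j v) = a j (a i v)) (hr : CRel t a) (m : Q)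
    (j : ℕ) (hj : 2 ≤ j) :
    cyc a m (j + 1) = (cyc a m j).map (a 0) ⊔ (cyc a m j).map (a 1) := by
  obtain ⟨j, rfl⟩ : ∃ i, j = i + 2 := ⟨j - 2, by omega⟩
  rw [cyc_add a m (j + 1)]
  refine le_antisymm (sup_le le_rfl ?_) le_sup_left
  have h0 : ∀ F : Submodule k Q, F ≤ cyc a m j → (F.map (a 0)).map (a 2) ≤
      (cyc a m (j + 1 + 1)).map (a 0) ⊔ (cyc a m (j + 1 + 1)).map (a 1) := by
    intro F hF
    rw [map_comm' hc 2 0]
    refine (Submodule.map_mono ?_).trans le_sup_left
    rintro _ ⟨v, hv, rfl⟩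
    exact cyc_mem2 (hF hv)
  have h1 : ∀ F : Submodule k Q, F ≤ cyc a m j → (F.map (a 1)).map (a 2) ≤
      (cyc a m (j + 1 + 1)).map (a 0) ⊔ (cyc a m (j + 1 + 1)).map (a 1) := by
    intro F hF
    rw [map_comm' hc 2 1]
    refine (Submodule.map_mono ?_).trans le_sup_right
    rintro _ ⟨v, hv, rfl⟩
    exact cyc_mem2 (hF hv)
  rcases j with _ | j
  · conv_lhs => rw [zero_add, cyc_one, Submodule.map_sup]
    exact sup_le (h0 _ le_rfl) (h1 _ le_rfl)
  · conv_lhs => rw [cyc_add, Submodule.map_sup, Submodule.map_sup]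
    refine sup_le (sup_le (h0 _ le_rfl) (h1 _ le_rfl)) ?_
    rintro _ ⟨_, ⟨v, hv, rfl⟩, rfl⟩
    have hv3 : a 3 v ∈ cyc a m (j + 2) := cyc_mem3 hr hv
    have hw : a 2 v + (t + 1) • a 3 v ∈ cyc a m (j + 2) :=
      Submodule.add_mem _ (cyc_mem2 hv) (Submodule.smul_mem _ _ hv3)
    have e : a 2 (a 2 v) = a 3 (a 2 v + (t + 1) • a 3 v) + a 0 (a 0 (a 3 v)) := by
      rw [hr.2, map_add, map_smul]
    have e1 : a 3 (a 2 v + (t + 1) • a 3 v) = a 1 (a 1 (a 2 v + (t + 1) • a 3 v))
        + a 0 (a 1 (a 2 v + (t + 1) • a 3 v) + t • a 0 (a 2 v + (t + 1) • a 3 v)) := by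
      rw [hr.1 (a 2 v + (t + 1) • a 3 v), map_add (a 0) (a 1 (a 2 v + (t + 1) • a 3 v)),
        map_smul (a 0) t, add_assoc]
    rw [e, e1]
    refine Submodule.add_mem _ (Submodule.add_mem _ ?_ ?_) ?_
    · exact Submodule.mem_sup_right ⟨_, cyc_mem01 1 (Or.inr rfl) hw, rfl⟩
    · refine Submodule.mem_sup_left ⟨_, Submodule.add_mem _ (cyc_mem01 1 (Or.inr rfl) hw)
        (Submodule.smul_mem _ _ (cyc_mem01 0 (Or.inl rfl) hw)), rfl⟩
    · exact Submodule.mem_sup_left ⟨_, cyc_mem01 0 (Or.inl rfl) hv3, rfl⟩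

/-- the first operator kills the generator -/
theorem cyc_A (hI : IndexT k t) (hc : ∀ i j v, a i (a j v) = a j (a i v))
    (hr : CRel t a) (m : Q) (h0 : a 0 m = 0) :
    ∃ J, ∀ j, J ≤ j → 2 ∣ Module.finrank k (cyc a m j) := by
  have hz : ∀ j, (cyc a m j).map (a 0) = ⊥ := by
    refine cyc_ind ?_ ?_ ?_
    · rw [cyc_zero, Submodule.map_span, Set.image_singleton, h0, Submodule.span_singleton_eq_bot]
    · intro ih
      rw [cyc_one, Submodule.map_sup, map_comm' hc 0 1, ih, Submodule.map_bot, Submodule.map_bot,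
        bot_sup_eq]
    · intro j ih ih'
      rw [cyc_add, Submodule.map_sup, Submodule.map_sup, map_comm' hc 0 1, map_comm' hc 0 2, ih,
        ih', Submodule.map_bot, Submodule.map_bot, Submodule.map_bot]
      simp
  have hy : ∀ j, 2 ≤ j → cyc a m (j + 1) = (cyc a m j).map (a 1) := by
    intro j hj
    rw [cyc_top hc hr m j hj, hz, bot_sup_eq]
  obtain ⟨J, hJ⟩ := eventually_const (fun j => Module.finrank k (cyc a m (j + 2))) (by
    intro j
    rw [show j + 1 + 2 = (j + 2) + 1 by omega, hy _ (by omega)]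
    exact Submodule.finrank_map_le _ _)
  refine ⟨J + 2, fun j hj => ?_⟩
  obtain ⟨i, rfl⟩ : ∃ i, j = J + i + 2 := ⟨j - J - 2, by omega⟩
  refine sub_div hI hc hr.1 hr.2 (fun l => cyc a m (J + i + l + 2)) (fun _ => ⊥) (fun _ => bot_le)
    (fun b l => ?_) (fun b l => by rw [Submodule.map_bot]) 1 rfl
    (fun l => ?_) _ (fun l => ?_)
  · have h := cyc_map_le hr m b (J + i + l + 2)
    rwa [show J + i + l + 2 + hwt b = J + i + (l + hwt b) + 2 by omega] at h
  · rw [show J + i + (l + 1) + 2 = (J + i + l + 2) + 1 by omega, hy _ (by omega)]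
    exact le_sup_left
  · rw [finrank_bot, zero_add]
    exact (hJ (J + i + l) (by omega)).trans (hJ (J + i) (by omega)).symm

/-- arithmetic of the Hilbert function of a double cover of genus one -/
theorem hilb_arith2 (e : ℕ → ℕ) (hmono : ∀ j, e j ≤ e (j + 1)) (h1 : e 1 ≤ 2) (h2 : e 2 ≤ 2 * e 1)
    (hconc : ∀ j, e (j + 3) + e (j + 1) ≤ 2 * e (j + 2)) :
    ∃ J r, 1 ≤ J ∧ (∀ j, J ≤ j → e (j + 1) = e j + r) ∧
      (2 ∣ r → r = 0 ∨ ∀ j, J ≤ j → 2 ∣ e j) := by
  obtain ⟨J, hJ⟩ := eventually_const (fun j => e (j + 2) - e (j + 1)) (by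
    intro j
    have a1 := hconc j
    have a2 := hmono (j + 1)
    have a3 := hmono (j + 2)
    change e (j + 3) - e (j + 2) ≤ e (j + 2) - e (j + 1)
    rw [show j + 1 + 1 = j + 2 by omega] at a2
    rw [show j + 2 + 1 = j + 3 by omega] at a3
    omega)
  obtain ⟨r, hr⟩ : ∃ r, r = e (J + 2) - e (J + 1) := ⟨_, rfl⟩
  have hrj : ∀ j, J + 1 ≤ j → e (j + 1) = e j + r := by
    intro j hj
    have a1 := hJ (j - 1) (by omega)
    have a2 := hmono j
    rw [show j - 1 + 2 = j + 1 by omega, show j - 1 + 1 = j by omega] at a1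
    omega
  refine ⟨J + 1, r, by omega, hrj, fun hdvd => ?_⟩
  rcases Nat.eq_zero_or_pos r with hr0 | hr0
  · exact Or.inl hr0
  right
  have hr2 : 2 ≤ r := Nat.le_of_dvd hr0 hdvd
  -- all increments are at least `r`
  have hlo : ∀ i j, J = j + i → e (j + 1) + r ≤ e (j + 2) := by
    intro i
    induction i with
    | zero =>
      intro j hj
      have := hmono (j + 1)
      rw [show j + 1 + 1 = j + 2 by omega] at this
      rw [show J = j by omega] at hr
      omega
    | succ i ih =>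
      intro j hj
      have a1 := ih (j + 1) (by omega)
      have a2 := hconc j
      rw [show j + 1 + 1 = j + 2 by omega, show j + 1 + 2 = j + 3 by omega] at a1
      omega
  have hlo' : ∀ j, e (j + 1) + r ≤ e (j + 2) := by
    intro j
    rcases le_or_gt J j with h | h
    · have := hrj (j + 1) (by omega)
      rw [show j + 1 + 1 = j + 2 by omega] at this
      omega
    · exact hlo (J - j) j (by omega)
  have hup : ∀ j, e (j + 2) ≤ e (j + 1) + 2 := by
    intro j
    induction j with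
    | zero => simp only [zero_add]; omega
    | succ j ih =>
      have a2 := hconc j
      rw [show j + 1 + 1 = j + 2 by omega, show j + 1 + 2 = j + 3 by omega]
      omega
  have h0' := hlo' 0
  rw [zero_add, zero_add] at h0'
  have he1 : e 1 = 2 := by omega
  have hform : ∀ j, e (j + 1) = 2 * (j + 1) := by
    intro j
    induction j with
    | zero => rw [zero_add, he1]
    | succ j ih =>
      have b1 := hlo' j
      have b2 := hup j
      rw [show j + 1 + 1 = j + 2 by omega]
      omega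
  intro j hj
  obtain ⟨l, rfl⟩ : ∃ l, j = l + 1 := ⟨j - 1, by omega⟩
  rw [hform]
  exact dvd_mul_right 2 _

/-- the first operator is injective on the cyclic module -/
theorem cyc_B (hI : IndexT k t) (hc : ∀ i j v, a i (a j v) = a j (a i v)) (hr : CRel t a) (m : Q)
    (hx : ∀ j, ∀ v ∈ cyc a m j, a 0 v = 0 → v = 0) :
    ∃ J, ∀ j, J ≤ j → 2 ∣ Module.finrank k (cyc a m j) := by
  by_cases hm : m = 0
  · have hz : ∀ j, cyc a m j = ⊥ := by
      refine cyc_ind ?_ ?_ ?_
      · rw [cyc_zero, hm, Submodule.span_singleton_eq_bot]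
      · intro ih
        rw [cyc_one, ih]; simp
      · intro j ih ih'
        rw [cyc_add, ih, ih']; simp
    refine ⟨0, fun j _ => ?_⟩
    rw [hz, finrank_bot]
    exact dvd_zero 2
  set e : ℕ → ℕ := fun j => Module.finrank k (cyc a m j) with he
  have hxr : ∀ j, Module.finrank k ((cyc a m j).map (a 0)) = e j := by
    intro j
    rw [← LinearMap.range_domRestrict]
    refine LinearMap.finrank_range_of_inj ?_
    rw [injective_iff_map_eq_zero]
    intro v hv
    exact Subtype.ext (hx j v v.2 hv)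
  have hmono : ∀ j, e j ≤ e (j + 1) := by
    intro j
    rw [← hxr j]
    exact Submodule.finrank_mono (cyc_map01 m j 0 (Or.inl rfl))
  have h0 : e 0 = 1 := by
    rw [he]
    simp only
    rw [cyc_zero]
    exact finrank_span_singleton hm
  have hcomm : ∀ j, ((cyc a m j).map (a 0)).map (a 1) ≤ (cyc a m (j + 1)).map (a 0) := by
    intro j
    rw [map_comm' hc 1 0]
    exact Submodule.map_mono (cyc_map01 m j 1 (Or.inr rfl))
  have hconc : ∀ j, e (j + 3) + e (j + 1) ≤ 2 * e (j + 2) := by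
    intro j
    have h := finrank_step (a 1) ((cyc a m (j + 1)).map (a 0)) (cyc a m (j + 2))
      ((cyc a m (j + 2)).map (a 0)) (cyc_map01 m (j + 1) 0 (Or.inl rfl)) (hcomm (j + 1))
    rw [← cyc_top hc hr m (j + 2) (by omega), hxr, hxr] at h
    have h' : e (j + 3) + e (j + 1) ≤ e (j + 2) + e (j + 2) := h
    omega
  have h1 : e 1 ≤ 2 := by
    have h := Submodule.finrank_add_le_finrank_add_finrank ((cyc a m 0).map (a 0))
      ((cyc a m 0).map (a 1))
    have h5 := Submodule.finrank_map_le (a 1) (cyc a m 0)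
    have h6 := Submodule.finrank_map_le (a 0) (cyc a m 0)
    have h7 : Module.finrank k (cyc a m 0) = 1 := h0
    have h8 : Module.finrank k (cyc a m 1) =
        Module.finrank k ((cyc a m 0).map (a 0) ⊔ (cyc a m 0).map (a 1) : Submodule k Q) := by
      rw [cyc_one]
    change Module.finrank k (cyc a m 1) ≤ 2
    omega
  have h2 : e 2 ≤ 2 * e 1 := by
    have h := finrank_step (a 1) ((cyc a m 0).map (a 0)) (cyc a m 1)
      ((cyc a m 1).map (a 0) ⊔ (cyc a m 0).map (a 2)) (cyc_map01 m 0 0 (Or.inl rfl))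
      ((hcomm 0).trans le_sup_left)
    have h3 := Submodule.finrank_add_le_finrank_add_finrank ((cyc a m 1).map (a 0))
      ((cyc a m 0).map (a 2))
    have h5 := Submodule.finrank_map_le (a 2) (cyc a m 0)
    have h7 : Module.finrank k (cyc a m 0) = 1 := h0
    have h8 : cyc a m 2 = (cyc a m 1).map (a 0) ⊔ (cyc a m 0).map (a 2)
        ⊔ (cyc a m 1).map (a 1) := by
      rw [cyc_add, zero_add, sup_right_comm]
    rw [← h8, hxr] at h
    rw [hxr] at h3
    have h9 : e 2 + e 0 ≤ Module.finrank k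
      ((cyc a m 1).map (a 0) ⊔ (cyc a m 0).map (a 2) : Submodule k Q) + e 1 := h
    omega
  obtain ⟨J, r, hJ1, hJ, hrr⟩ := hilb_arith2 e hmono h1 h2 hconc
  have hdvd : 2 ∣ r := by
    refine sub_div hI hc hr.1 hr.2 (fun l => cyc a m (J + l + 1))
      (fun l => (cyc a m (J + l)).map (a 0)) (fun l => cyc_map01 m (J + l) 0 (Or.inl rfl))
      (fun b l => ?_)
      (fun b l => ?_) 1 rfl (fun l => ?_) _ (fun l => ?_)
    · have h := cyc_map_le hr m b (J + l + 1)
      rwa [show J + l + 1 + hwt b = J + (l + hwt b) + 1 by omega] at h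
    · rw [map_comm' hc b 0]
      have h := cyc_map_le hr m b (J + l)
      rw [add_assoc] at h
      exact Submodule.map_mono h
    · change cyc a m (J + l + 1 + 1) ≤ (cyc a m (J + l + 1)).map (a 1)
        ⊔ (cyc a m (J + l + 1)).map (a 0)
      rw [cyc_top hc hr m _ (by omega), sup_comm]
    · rw [hxr]
      exact hJ (J + l) (by omega)
  rcases hrr hdvd with hr0 | hr0
  · refine ⟨J, fun j hj => ?_⟩
    have hej : ∀ l, e (j + l) = e j := by
      intro l
      induction l with
      | zero => rfl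
      | succ l ih =>
        have h1 := hJ (j + l) (by omega)
        rw [← add_assoc, h1, hr0, ih, add_zero]
    refine sub_div hI hc hr.1 hr.2 (fun l => cyc a m (j + l)) (fun _ => ⊥) (fun _ => bot_le)
      (fun b l => ?_) (fun b l => by rw [Submodule.map_bot]) 0 rfl
      (fun l => ?_) _ (fun l => ?_)
    · have h := cyc_map_le hr m b (j + l)
      rwa [add_assoc] at h
    · rw [sup_bot_eq]
      refine le_of_eq (Submodule.eq_of_le_of_finrank_eq
        (cyc_map01 m (j + l) 0 (Or.inl rfl)) ?_).symm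
      rw [hxr]
      exact (hej l).trans (hej (l + 1)).symm
    · rw [finrank_bot, zero_add]
      exact hej l
  · exact ⟨J, hr0⟩

end

end H36.QX
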