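import Pool.Agent.H36.QX.Base
import Pool.Agent.H36.PX.HilbF

/-!
# HilbF : the algebra lemma behind the Hilbert function statement, weights 1, 1, 2

If every point of the curve has even degree, then every finite dimensional space with commuting operators
`x, y, z, q` which satisfy the equation of the curve, one of `x, y` being the identity, has even dimension.
-/

set_option autoImplicit false

namespace H36.QX

open H36.PX (hilb_algebra sqm sqm_mk)

/-- the weights of `x, y, z, q` -/
def hwt : Fin 4 → ℕ := ![1, 1, 2, 2]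

@[simp] theorem hwt_zero : hwt 0 = 1 := rfl
@[simp] theorem hwt_one : hwt 1 = 1 := rfl
@[simp] theorem hwt_two : hwt 2 = 2 := rfl
@[simp] theorem hwt_three : hwt 3 = 2 := rfl

open scoped IsMulCommutative in
/-- commuting operators on a curve all of whose points have even degree -/
theorem hilb_operators {k : Type} [Field k] {t : k} (hI : IndexT k t)
    {V : Type} [AddCommGroup V] [Module k V] [FiniteDimensional k V]
    (ξ : Fin 4 → Module.End k V) (hc : ∀ i j, ξ i * ξ j = ξ j * ξ i)
    (σ : Fin 4) (hw : hwt σ = 1) (hσ : ξ σ = 1)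
    (hq : ξ 3 = ξ 1 ^ 2 + ξ 0 * ξ 1 + t • ξ 0 ^ 2)
    (hrel : ξ 2 ^ 2 = ξ 3 * ξ 2 + (t + 1) • ξ 3 ^ 2 + ξ 0 ^ 2 * ξ 3) :
    2 ∣ Module.finrank k V := by
  have hcomm : ∀ a ∈ Set.range ξ, ∀ b ∈ Set.range ξ, a * b = b * a := by
    rintro _ ⟨i, rfl⟩ _ ⟨j, rfl⟩
    exact hc i j
  have hmc : IsMulCommutative (Algebra.adjoin k (Set.range ξ)) :=
    Algebra.isMulCommutative_adjoin k hcomm
  set A := Algebra.adjoin k (Set.range ξ) with hAdef
  have hmem : ∀ i, ξ i ∈ A := fun i => Algebra.subset_adjoin ⟨i, rfl⟩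
  let a : Fin 4 → A := fun i => ⟨ξ i, hmem i⟩
  have haσ : a σ = 1 := Subtype.ext hσ
  have haq : a 3 = a 1 ^ 2 + a 0 * a 1 + t • a 0 ^ 2 := Subtype.ext hq
  have harel : a 2 ^ 2 = a 3 * a 2 + (t + 1) • a 3 ^ 2 + a 0 ^ 2 * a 3 := Subtype.ext hrel
  refine hilb_algebra (k := k) (A := A) ?_ (Module.finrank k V) V le_rfl
  intro I hImax hfin
  let _ : Field (A ⧸ I) := Ideal.Quotient.field I
  let q : A →ₐ[k] (A ⧸ I) := Ideal.Quotient.mkₐ k I
  have hq1 : q (a 3) = q (a 1) ^ 2 + q (a 0) * q (a 1)
      + algebraMap k (A ⧸ I) t * q (a 0) ^ 2 := by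
    have := congrArg q haq
    simp only [map_add, map_mul, map_pow, Algebra.smul_def, AlgHom.commutes] at this
    exact this
  have hq2 : q (a 2) ^ 2 = q (a 3) * q (a 2) + algebraMap k (A ⧸ I) (t + 1) * q (a 3) ^ 2
      + q (a 0) ^ 2 * q (a 3) := by
    have := congrArg q harel
    simp only [map_add, map_mul, map_pow, Algebra.smul_def, AlgHom.commutes] at this
    rw [this, map_add]
  have hne : q (a 0) ≠ 0 ∨ q (a 1) ≠ 0 ∨ q (a 2) ≠ 0 := by
    have h1 : q (a σ) ≠ 0 := by
      rw [haσ, map_one]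
      exact one_ne_zero
    fin_cases σ
    · exact Or.inl h1
    · exact Or.inr (Or.inl h1)
    · exact absurd hw (by decide)
    · exact absurd hw (by decide)
  exact hI (A ⧸ I) (q (a 0)) (q (a 1)) (q (a 2)) (q (a 3)) hne hq1 hq2

section

variable {k : Type} [Field k] {Q : Type} [AddCommGroup Q] [Module k Q]

/-- words of operators -/
def wd (a : Fin 4 → Module.End k Q) (l : List (Fin 4)) : Module.End k Q := (l.map a).prod

/-- the weight of a word -/
def wl (l : List (Fin 4)) : ℕ := (l.map hwt).sum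

theorem wd_nil (a : Fin 4 → Module.End k Q) : wd a [] = 1 := rfl
theorem wd_cons (a : Fin 4 → Module.End k Q) (i : Fin 4) (l : List (Fin 4)) :
    wd a (i :: l) = a i * wd a l := rfl
theorem wl_nil : wl [] = 0 := rfl
theorem wl_cons (i : Fin 4) (l : List (Fin 4)) : wl (i :: l) = hwt i + wl l := rfl

theorem pow_map_le {a : Module.End k Q} {F : ℕ → Submodule k Q}
    (hF : ∀ j, (F j).map a ≤ F (j + 1)) (n j : ℕ) :
    (F j).map (a ^ n) ≤ F (j + n) := by
  induction n with
  | zero =>
    rintro _ ⟨x, hx, rfl⟩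
    exact hx
  | succ n ih =>
    rintro _ ⟨x, hx, rfl⟩
    rw [pow_succ']
    exact hF _ ⟨_, ih ⟨x, hx, rfl⟩, rfl⟩

/-- subquotients on which one of the operators of weight one is bijective -/
theorem sub_div {t : k} (hI : IndexT k t) {a : Fin 4 → Module.End k Q}
    (hc : ∀ i j v, a i (a j v) = a j (a i v))
    (hq : ∀ v, a 3 v = a 1 (a 1 v) + a 0 (a 1 v) + t • a 0 (a 0 v))
    (hrel : ∀ v, a 2 (a 2 v) = a 3 (a 2 v) + (t + 1) • a 3 (a 3 v) + a 0 (a 0 (a 3 v)))
    (F G : ℕ → Submodule k Q) [hfin : ∀ j, FiniteDimensional k (F j)] (hGF : ∀ j, G j ≤ F j)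
    (hF : ∀ i j, (F j).map (a i) ≤ F (j + hwt i)) (hG : ∀ i j, (G j).map (a i) ≤ G (j + hwt i))
    (σ : Fin 4) (hw : hwt σ = 1) (hs : ∀ j, F (j + 1) ≤ (F j).map (a σ) ⊔ G (j + 1)) (r : ℕ)
    (hr : ∀ j, Module.finrank k (F j) = Module.finrank k (G j) + r) : 2 ∣ r := by
  have hFσ : ∀ j, (F j).map (a σ) ≤ F (j + 1) := fun j => hw ▸ hF σ j
  have hGσ : ∀ j, (G j).map (a σ) ≤ G (j + 1) := fun j => hw ▸ hG σ j
  have hF0 : ∀ i, (F 0).map (a i) ≤ F (hwt i) := fun i => by
    have := hF i 0
    rwa [zero_add] at this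
  have hG0 : ∀ i, (G 0).map (a i) ≤ G (hwt i) := fun i => by
    have := hG i 0
    rwa [zero_add] at this
  have hFp : ∀ n, (F 0).map (a σ ^ n) ≤ F n := fun n => by
    have := pow_map_le hFσ n 0
    rwa [zero_add] at this
  have hGp : ∀ n, (G 0).map (a σ ^ n) ≤ G n := fun n => by
    have := pow_map_le hGσ n 0
    rwa [zero_add] at this
  have hrank : ∀ j, Module.finrank k (F j ⧸ (G j).submoduleOf (F j)) = r := by
    intro j
    have h1 := Submodule.finrank_quotient_add_finrank ((G j).submoduleOf (F j))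
    have h2 : Module.finrank k ((G j).submoduleOf (F j)) = Module.finrank k (G j) :=
      (Submodule.submoduleOfEquivOfLe (hGF j)).finrank_eq
    have h3 := hr j
    omega
  have hsurj : ∀ j, Function.Surjective (sqm (a σ) (hFσ j) (hGσ j)) := by
    intro j y
    obtain ⟨y, rfl⟩ := Submodule.Quotient.mk_surjective _ y
    obtain ⟨_, ⟨x, hx, rfl⟩, g, hg, hxy⟩ := Submodule.mem_sup.mp (hs j y.2)
    refine ⟨Submodule.Quotient.mk ⟨x, hx⟩, ?_⟩
    rw [sqm_mk, Submodule.Quotient.eq]
    change (a σ x - (y : Q)) ∈ G (j + 1)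
    rw [← hxy, sub_add_cancel_left]
    exact (G (j + 1)).neg_mem hg
  have hinj : ∀ j, Function.Injective (sqm (a σ) (hFσ j) (hGσ j)) := fun j =>
    (LinearMap.injective_iff_surjective_of_finrank_eq_finrank
      ((hrank j).trans (hrank (j + 1)).symm)).mpr (hsurj j)
  let V := F 0 ⧸ (G 0).submoduleOf (F 0)
  -- powers of `a σ`
  let P : ∀ n, V →ₗ[k] (F n ⧸ (G n).submoduleOf (F n)) := fun n =>
    sqm (a σ ^ n) (F' := F n) (G' := G n) (hFp n) (hGp n)
  have hPinj : ∀ n, Function.Injective (P n) := by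
    intro n
    induction n with
    | zero =>
      intro x y hxy
      obtain ⟨x, rfl⟩ := Submodule.Quotient.mk_surjective _ x
      obtain ⟨y, rfl⟩ := Submodule.Quotient.mk_surjective _ y
      exact hxy
    | succ n ih =>
      intro x y hxy
      apply ih
      apply hinj n
      obtain ⟨x, rfl⟩ := Submodule.Quotient.mk_surjective _ x
      obtain ⟨y, rfl⟩ := Submodule.Quotient.mk_surjective _ y
      have h1 : ∀ x : F 0, sqm (a σ) (hFσ n) (hGσ n) (P n (Submodule.Quotient.mk x)) =
          P (n + 1) (Submodule.Quotient.mk x) := by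
        intro x
        refine congrArg _ (Subtype.ext ?_)
        change a σ ((a σ ^ n) x) = (a σ ^ (n + 1)) x
        rw [pow_succ']
        rfl
      rw [h1, h1, hxy]
  have hPbij : ∀ n, Function.Bijective (P n) := fun n =>
    ⟨hPinj n, (LinearMap.injective_iff_surjective_of_finrank_eq_finrank
      ((hrank 0).trans (hrank n).symm)).mp (hPinj n)⟩
  let e : ∀ n, V ≃ₗ[k] (F n ⧸ (G n).submoduleOf (F n)) := fun n =>
    LinearEquiv.ofBijective (P n) (hPbij n)
  let ξ : Fin 4 → Module.End k V := fun i =>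
    ((e (hwt i)).symm : (F (hwt i) ⧸ (G (hwt i)).submoduleOf (F (hwt i))) →ₗ[k] V) ∘ₗ
      sqm (a i) (hF0 i) (hG0 i)
  have key : ∀ i v, P (hwt i) (ξ i v) = sqm (a i) (hF0 i) (hG0 i) v :=
    fun i v => (e (hwt i)).apply_symm_apply (sqm (a i) (hF0 i) (hG0 i) v)
  have hcw : ∀ (i : Fin 4) (n : ℕ) (v : Q), (a σ ^ n) (a i v) = a i ((a σ ^ n) v) := by
    intro i n v
    induction n with
    | zero => rfl
    | succ n ih =>
      rw [pow_succ']
      change a σ ((a σ ^ n) (a i v)) = a i (a σ ((a σ ^ n) v))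
      rw [ih, hc]
  have hW : ∀ (l : List (Fin 4)) (v w : F 0) (n : ℕ), wl l = n →
      wd ξ l (Submodule.Quotient.mk v) = Submodule.Quotient.mk w →
      (a σ ^ n) w - wd a l v ∈ G n := by
    intro l
    induction l with
    | nil =>
      rintro v w n rfl h
      have h1 : (Submodule.Quotient.mk v : V) = Submodule.Quotient.mk w := h
      rw [Submodule.Quotient.eq] at h1
      have h2 : (v - w : Q) ∈ G 0 := h1
      have h3 := (G 0).neg_mem h2
      rw [neg_sub] at h3
      exact h3
    | cons i l ih =>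
      rintro v w n rfl h
      obtain ⟨w', hw'⟩ := Submodule.Quotient.mk_surjective _ (wd ξ l (Submodule.Quotient.mk v))
      have h1 := ih v w' (wl l) rfl hw'.symm
      have h2 : ξ i (Submodule.Quotient.mk w') = (Submodule.Quotient.mk w : V) := by
        rw [hw']; exact h
      have h3 := key i (Submodule.Quotient.mk w')
      rw [h2] at h3
      have h3' : (Submodule.Quotient.mk (⟨(a σ ^ (hwt i)) w, hFp (hwt i) ⟨w, w.2, rfl⟩⟩ : F (hwt i)) :
          F (hwt i) ⧸ (G (hwt i)).submoduleOf (F (hwt i))) =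
          Submodule.Quotient.mk ⟨a i w', hF0 i ⟨w', w'.2, rfl⟩⟩ := h3
      rw [Submodule.Quotient.eq] at h3'
      have h4 : ((a σ ^ (hwt i)) w - a i w' : Q) ∈ G (hwt i) := h3'
      have h5 : (a σ ^ (wl l)) ((a σ ^ (hwt i)) w - a i w') ∈ G (hwt i + wl l) :=
        pow_map_le hGσ (wl l) (hwt i) ⟨_, h4, rfl⟩
      have h6 : a i ((a σ ^ (wl l)) w' - wd a l v) ∈ G (wl l + hwt i) := hG i _ ⟨_, h1, rfl⟩
      rw [map_sub, hcw i, add_comm (hwt i)] at h5
      rw [map_sub] at h6
      have h7 := (G (wl l + hwt i)).add_mem h5 h6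
      have h8 : (a σ ^ (wl l + hwt i)) w - a i (wd a l v) =
          (a σ ^ (wl l)) ((a σ ^ (hwt i)) w) - a i ((a σ ^ (wl l)) w') +
          (a i ((a σ ^ (wl l)) w') - a i (wd a l v)) := by
        rw [pow_add]
        change (a σ ^ (wl l)) ((a σ ^ (hwt i)) w) - _ = _
        abel
      rw [wl_cons, add_comm (hwt i)]
      change (a σ ^ (wl l + hwt i)) w - a i (wd a l v) ∈ G (wl l + hwt i)
      rw [h8]
      exact h7
  -- linear relations between words of the same weight
  have hL1 : ∀ (L : List (k × List (Fin 4))) (n : ℕ) (v w : F 0), (∀ x ∈ L, wl x.2 = n) →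
      (L.map fun x => x.1 • wd ξ x.2 (Submodule.Quotient.mk v : V)).sum
        = Submodule.Quotient.mk w →
      (a σ ^ n) w - (L.map fun x => x.1 • wd a x.2 (v : Q)).sum ∈ G n := by
    intro L
    induction L with
    | nil =>
      intro n v w _ h
      have h1 : (0 : V) = Submodule.Quotient.mk w := h
      have h2 : w ∈ (G 0).submoduleOf (F 0) := (Submodule.Quotient.mk_eq_zero _).1 h1.symm
      have h3 : (w : Q) ∈ G 0 := h2
      rw [List.map_nil, List.sum_nil, sub_zero]
      exact hGp n ⟨_, h3, rfl⟩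
    | cons y L ih =>
      intro n v w hx h
      obtain ⟨w1, hw1⟩ := Submodule.Quotient.mk_surjective _ (wd ξ y.2 (Submodule.Quotient.mk v))
      obtain ⟨w2, hw2⟩ := Submodule.Quotient.mk_surjective _
        (L.map fun x => x.1 • wd ξ x.2 (Submodule.Quotient.mk v : V)).sum
      have h1 := hW y.2 v w1 n (hx y List.mem_cons_self) hw1.symm
      have h2 := ih n v w2 (fun x hxL => hx x (List.mem_cons_of_mem _ hxL)) hw2.symm
      rw [List.map_cons, List.sum_cons, ← hw1, ← hw2] at h
      have h3 : (Submodule.Quotient.mk (y.1 • w1 + w2) : V) = Submodule.Quotient.mk w := h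
      rw [Submodule.Quotient.eq] at h3
      have h4 : (y.1 • (w1 : Q) + w2 - w : Q) ∈ G 0 := h3
      have h5 : (a σ ^ n) (y.1 • (w1 : Q) + w2 - w) ∈ G n := hGp n ⟨_, h4, rfl⟩
      rw [map_sub, map_add, map_smul] at h5
      have h6 := (G n).sub_mem ((G n).add_mem ((G n).smul_mem y.1 h1) h2) h5
      rw [List.map_cons, List.sum_cons]
      convert h6 using 1
      rw [smul_sub]
      abel
  have hL : ∀ (L : List (k × List (Fin 4))) (n : ℕ), (∀ x ∈ L, wl x.2 = n) →
      (∀ v : Q, (L.map fun x => x.1 • wd a x.2 v).sum = 0) →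
      ∀ v : V, (L.map fun x => x.1 • wd ξ x.2 v).sum = 0 := by
    intro L n hx hz v
    obtain ⟨v, rfl⟩ := Submodule.Quotient.mk_surjective _ v
    obtain ⟨w, hw'⟩ := Submodule.Quotient.mk_surjective _
      (L.map fun x => x.1 • wd ξ x.2 (Submodule.Quotient.mk v : V)).sum
    have h1 := hL1 L n v w hx hw'.symm
    rw [hz, sub_zero] at h1
    rw [← hw']
    apply hPinj n
    rw [map_zero]
    change (Submodule.Quotient.mk (⟨(a σ ^ n) w, _⟩ : F n) : F n ⧸ (G n).submoduleOf (F n)) = 0
    rw [Submodule.Quotient.mk_eq_zero]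
    exact h1
  have hfd : FiniteDimensional k V := inferInstance
  rw [← hrank 0]
  refine hilb_operators hI ξ ?_ σ hw ?_ ?_ ?_
  · intro i j
    refine LinearMap.ext fun v => ?_
    have h := hL [(1, [i, j]), (-1, [j, i])] (hwt i + hwt j) (by
      intro x hx
      simp only [List.mem_cons, List.not_mem_nil, or_false] at hx
      rcases hx with rfl | rfl
      · simp [wl]
      · simp [wl, add_comm]) (fun v => by
        simp only [List.map_cons, List.map_nil, List.sum_cons, List.sum_nil, add_zero, wd,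
          List.prod_cons, List.prod_nil, mul_one, Module.End.mul_apply, one_smul, neg_smul]
        rw [hc i j, add_neg_cancel]) v
    simp only [List.map_cons, List.map_nil, List.sum_cons, List.sum_nil, add_zero, wd,
      List.prod_cons, List.prod_nil, mul_one, Module.End.mul_apply, one_smul, neg_smul] at h
    exact add_neg_eq_zero.1 h
  · refine LinearMap.ext fun v => ?_
    apply hPinj (hwt σ)
    rw [key]
    obtain ⟨v, rfl⟩ := Submodule.Quotient.mk_surjective _ v
    refine congrArg _ (Subtype.ext ?_)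
    change a σ v = (a σ ^ (hwt σ)) v
    rw [hw, pow_one]
  · refine LinearMap.ext fun v => ?_
    have h := hL [(1, [3]), (-1, [1, 1]), (-1, [0, 1]), (-t, [0, 0])] 2 (by
      intro x hx
      simp only [List.mem_cons, List.not_mem_nil, or_false] at hx
      rcases hx with rfl | rfl | rfl | rfl <;> rfl) (fun v => by
        simp only [List.map_cons, List.map_nil, List.sum_cons, List.sum_nil, add_zero, wd,
          List.prod_cons, List.prod_nil, mul_one, Module.End.mul_apply, one_smul, neg_smul]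
        rw [hq]
        abel) v
    simp only [List.map_cons, List.map_nil, List.sum_cons, List.sum_nil, add_zero, wd,
      List.prod_cons, List.prod_nil, mul_one, Module.End.mul_apply, one_smul, neg_smul] at h
    rw [pow_two, pow_two]
    simp only [LinearMap.add_apply, LinearMap.smul_apply, Module.End.mul_apply]
    rw [← sub_eq_zero, ← h]
    abel
  · refine LinearMap.ext fun v => ?_
    have h := hL [(1, [2, 2]), (-1, [3, 2]), (-(t + 1), [3, 3]), (-1, [0, 0, 3])] 4 (by
      intro x hx
      simp only [List.mem_cons, List.not_mem_nil, or_false] at hx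
      rcases hx with rfl | rfl | rfl | rfl <;> rfl) (fun v => by
        simp only [List.map_cons, List.map_nil, List.sum_cons, List.sum_nil, add_zero, wd,
          List.prod_cons, List.prod_nil, mul_one, Module.End.mul_apply, one_smul, neg_smul]
        rw [hrel]
        abel) v
    simp only [List.map_cons, List.map_nil, List.sum_cons, List.sum_nil, add_zero, wd,
      List.prod_cons, List.prod_nil, mul_one, Module.End.mul_apply, one_smul, neg_smul] at h
    rw [pow_two, pow_two, pow_two]
    simp only [LinearMap.add_apply, LinearMap.smul_apply, Module.End.mul_apply]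
    rw [← sub_eq_zero, ← h]
    abel

end

end H36.QX
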