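import Pool.Agent.H36.QX.Base

/-!
# IdxT : the index hypothesis over every field of characteristic two with a discrete valuation

If `k` has characteristic two and is the fraction field of a Dedekind domain which is not a field, there is
`t` in `k` (the inverse of a uniformizer) such that every point of the curve
`z^2 = q z + (t+1) q^2 + x^2 q`, `q = y^2 + x y + t x^2`, in a finite extension of `k` has even degree.
-/

set_option autoImplicit false

namespace H36.QX

open WithZero Module IsDedekindDomain Polynomial

/-- an Artin-Schreier expression with constant term of odd positive pole order has a pole -/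
theorem one_lt_val_as {L : Type} [Field L] (v : Valuation L ℤᵐ⁰) (s : L) (e : ℤ)
    (hs : v s = exp e) (he : ¬ (2 : ℤ) ∣ e) (he0 : 0 < e) (a : L) :
    1 < v (a ^ 2 + a + s) := by
  have hs1 : 1 < v s := by rw [hs, ← exp_zero, exp_lt_exp]; exact he0
  rcases le_or_gt (v a) 1 with ha | ha
  · have h1 : v (a ^ 2 + a) ≤ 1 := by
      refine (Valuation.map_add v _ _).trans (max_le ?_ ha)
      rw [map_pow]
      exact pow_le_one₀ zero_le ha
    have h2 : v (a ^ 2 + a) < v s := lt_of_le_of_lt h1 hs1
    rw [Valuation.map_add_eq_of_lt_right v h2]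
    exact hs1
  · have ha2 : v a < v (a ^ 2) := by
      rw [map_pow, pow_two]
      exact lt_mul_of_one_lt_left (lt_trans zero_lt_one ha) ha
    have hne : v (a ^ 2) ≠ v s := by
      intro h
      rw [map_pow, hs] at h
      have ha0 : v a ≠ 0 := (lt_trans zero_lt_one ha).ne'
      obtain ⟨α, hα⟩ : ∃ α : ℤ, v a = exp α := ⟨log (v a), (exp_log ha0).symm⟩
      rw [hα, ← exp_nsmul] at h
      have h2 := exp_injective h
      simp only [nsmul_eq_mul, Nat.cast_ofNat] at h2
      exact he ⟨α, h2.symm⟩
    rcases lt_or_gt_of_ne hne with h | h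
    · have h2 : v (a ^ 2 + a) < v s := by
        refine lt_of_le_of_lt (Valuation.map_add v _ _) (max_lt h (lt_trans ha2 h))
      rw [Valuation.map_add_eq_of_lt_right v h2]
      exact hs1
    · have h2 : v (a + s) < v (a ^ 2) :=
        lt_of_le_of_lt (Valuation.map_add v _ _) (max_lt ha2 h)
      rw [add_assoc, Valuation.map_add_eq_of_lt_left v h2]
      exact lt_trans ha ha2

theorem indexT_val_contra {L : Type} [Field L] [CharP L 2]
    (v : Valuation L ℤᵐ⁰) (t : L) (e : ℤ)
    (ht : v t = exp e) (he : ¬ (2 : ℤ) ∣ e) (he0 : 0 < e) (x y z q : L)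
    (hne : x ≠ 0 ∨ y ≠ 0 ∨ z ≠ 0)
    (hq : q = y ^ 2 + x * y + t * x ^ 2)
    (hrel : z ^ 2 = q * z + (t + 1) * q ^ 2 + x ^ 2 * q) : False := by
  have ht1 : 1 < v t := by rw [ht, ← exp_zero, exp_lt_exp]; exact he0
  have ht' : v (t + 1) = exp e := by
    rw [Valuation.map_add_eq_of_lt_left v (by rw [map_one]; exact ht1), ht]
  have hA := one_lt_val_as v t e ht he he0
  have hB := one_lt_val_as v (t + 1) e ht' he he0
  have h2 : (2 : L) = 0 := CharTwo.two_eq_zero
  by_cases hx : x = 0
  · subst hx
    have hq' : q = y ^ 2 := by rw [hq]; ring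
    by_cases hy : y = 0
    · subst hy
      have hz : z ^ 2 = 0 := by rw [hrel, hq']; ring
      have hz0 : z = 0 := by simpa using hz
      rcases hne with h | h | h
      · exact h rfl
      · exact h rfl
      · exact h hz0
    · have h := hB (z / y ^ 2)
      have h0 : (z / y ^ 2) ^ 2 + z / y ^ 2 + (t + 1) = 0 := by
        have hy2 : y ^ 2 ≠ 0 := pow_ne_zero _ hy
        rw [hq'] at hrel
        field_simp
        linear_combination hrel + (y ^ 2 * z + (t + 1) * y ^ 4) * h2
      rw [h0, map_zero] at h
      exact absurd h (not_lt.2 zero_le)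
  · have h := hA (y / x)
    have hQ : (y / x) ^ 2 + y / x + t = q / x ^ 2 := by
      rw [hq]
      field_simp
    rw [hQ] at h
    have hq0 : q ≠ 0 := by
      intro h0
      rw [h0, zero_div, map_zero] at h
      exact absurd h (not_lt.2 zero_le)
    have h' := hB (z / q)
    have hprod : ((z / q) ^ 2 + z / q + (t + 1)) * (q / x ^ 2) = 1 := by
      field_simp
      linear_combination hrel + (q * z + (t + 1) * q ^ 2) * h2
    have h3 : v (((z / q) ^ 2 + z / q + (t + 1)) * (q / x ^ 2)) = 1 := by rw [hprod, map_one]
    rw [map_mul] at h3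
    have h4 : 1 < v ((z / q) ^ 2 + z / q + (t + 1)) * v (q / x ^ 2) := one_lt_mul'' h' h
    exact absurd h3 h4.ne'

theorem indexT_separable {K L : Type} [Field K] [CharP K 2] [Field L]
    [Algebra K L] [FiniteDimensional K L] (hL : ¬ 2 ∣ finrank K L) :
    Algebra.IsSeparable K L := by
  have : Fact (Nat.Prime 2) := ⟨Nat.prime_two⟩
  refine ⟨fun α => ?_⟩
  have hint : IsIntegral K α := IsIntegral.of_finite K α
  rcases separable_or 2 (minpoly.irreducible hint) with h | ⟨_, g, _, hg⟩
  · exact h
  · exfalso
    apply hL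
    have h1 : (minpoly K α).natDegree ∣ finrank K L := minpoly.degree_dvd hint
    refine dvd_trans ?_ h1
    rw [← hg, natDegree_expand]
    exact dvd_mul_left _ _

set_option linter.deprecated false in
/-- the index hypothesis for the fraction field of a Dedekind domain -/
theorem indexT_of_dedekind {A k : Type} [CommRing A]
    [IsDedekindDomain A] [Field k] [Algebra A k] [IsFractionRing A k] [CharP k 2]
    (𝔭 : HeightOneSpectrum A) (t : A) (ht : 𝔭.intValuation t = exp (-1 : ℤ)) :
    IndexT k (algebraMap A k t)⁻¹ := by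
  intro L _ _ _ x y z q hne hq hrel
  by_contra h3
  have hsep : Algebra.IsSeparable k L := indexT_separable h3
  have hchL : CharP L 2 := charP_of_injective_algebraMap (algebraMap k L).injective 2
  let : Algebra A L := ((algebraMap k L).comp (algebraMap A k)).toAlgebra
  have : IsScalarTower A k L := IsScalarTower.of_algebraMap_eq fun _ => rfl
  let S := integralClosure A L
  have : IsFractionRing S L :=
    integralClosure.isFractionRing_of_finite_extension k L
  have : Module.Finite A S := IsIntegralClosure.finite A k L S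
  have : IsDedekindDomain S := integralClosure.isDedekindDomain A k L
  have hinj : Function.Injective (algebraMap A S) := by
    have h1 : Function.Injective (algebraMap A L) :=
      (algebraMap k L).injective.comp (IsFractionRing.injective A k)
    exact Function.Injective.of_comp (f := algebraMap S L) h1
  have htf : Module.IsTorsionFree A S := Module.isTorsionFree_iff_algebraMap_injective.2 hinj
  have hp0 : 𝔭.asIdeal ≠ ⊥ := 𝔭.ne_bot
  have hpmax : 𝔭.asIdeal.IsMaximal := 𝔭.isMaximal
  have hsum := Ideal.sum_ramification_inertia S k L hp0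
  obtain ⟨P, hP, hPe⟩ : ∃ P ∈ IsDedekindDomain.primesOverFinset 𝔭.asIdeal S,
      ¬ 2 ∣ Ideal.ramificationIdx' 𝔭.asIdeal P := by
    by_contra hcon
    push Not at hcon
    apply h3
    rw [← hsum]
    exact Finset.dvd_sum fun P hP => Dvd.dvd.mul_right (hcon P hP) _
  obtain ⟨hPp, hPl⟩ := (IsDedekindDomain.mem_primesOverFinset_iff hp0 _).1 hP
  have hPbot : P ≠ ⊥ := by
    rintro rfl
    apply hp0
    have h1 := hPl.over
    rw [h1]
    refine (Ideal.comap_bot_of_injective _ ?_)
    exact hinj
  let w : HeightOneSpectrum S := ⟨P, hPp, hPbot⟩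
  have hw : w.asIdeal.LiesOver 𝔭.asIdeal := hPl
  have hvt : w.valuation L (algebraMap k L (algebraMap A k t)⁻¹)
      = exp (((Ideal.ramificationIdx' 𝔭.asIdeal P : ℕ) : ℤ)) := by
    have h0 : w.valuation L (algebraMap k L (algebraMap A k t))
        = exp (-((Ideal.ramificationIdx' 𝔭.asIdeal P : ℕ) : ℤ)) := by
      rw [← HeightOneSpectrum.valuation_liesOver (A := A) (K := k) L 𝔭 w,
        HeightOneSpectrum.valuation_of_algebraMap, ht, ← exp_nsmul]
      congr 1
      simp [w]
    rw [map_inv₀, map_inv₀, h0, ← exp_neg, neg_neg]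
  have hn0 : (0 : ℤ) < (Ideal.ramificationIdx' 𝔭.asIdeal P : ℕ) := by
    rcases Nat.eq_zero_or_pos (Ideal.ramificationIdx' 𝔭.asIdeal P) with h | h
    · exact absurd (h ▸ dvd_zero 2) hPe
    · exact_mod_cast h
  exact indexT_val_contra (w.valuation L)
    (algebraMap k L (algebraMap A k t)⁻¹) _ hvt
    (by intro h; apply hPe; exact_mod_cast h) hn0 x y z q hne hq
    (by rw [hrel, map_add, map_one])

/-- every field of characteristic two which is the fraction field of a Dedekind domain that is
not a field (for example of a discrete valuation ring) carries such a curve of index two -/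
theorem exists_indexT (A k : Type) [CommRing A]
    [IsDedekindDomain A] (hA : ¬ IsField A) [Field k] [Algebra A k] [IsFractionRing A k]
    [CharP k 2] : ∃ t : k, t ≠ 0 ∧ IndexT k t := by
  obtain ⟨m, hm⟩ := Ideal.exists_maximal A
  have hbot : m ≠ ⊥ := Ring.ne_bot_of_isMaximal_of_not_isField hm hA
  let 𝔭 : HeightOneSpectrum A := ⟨m, hm.isPrime, hbot⟩
  obtain ⟨t, ht⟩ := 𝔭.intValuation_exists_uniformizer
  refine ⟨(algebraMap A k t)⁻¹, ?_, indexT_of_dedekind 𝔭 t ht⟩
  intro h
  have h1 : algebraMap A k t = 0 := inv_eq_zero.1 h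
  have h0 : t = 0 := (IsFractionRing.injective A k) (h1.trans (map_zero _).symm)
  rw [h0, map_zero] at ht
  exact exp_ne_zero ht.symm

end H36.QX
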