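import Pool.Agent.H36.QX.Mul

/-!
# Lead : the value at the point `x = 0`

`K` is the residue field `k(ρ)` of the only point `P` of the curve with `x = 0`. The value at `P` of a section `r`
of `O(n)` over the chart `y ≠ 0` (divided by `x^n`) is `∑ a, (coefficient of u^(n - 2 a) w^a) ρ^a`.
-/

set_option autoImplicit false

namespace H36.QX

open H36.NX
namespace QRing

variable {k : Type} [Field k] {t : k} {R : Type} [CommRing R] [Algebra k R]
variable {K : Type} [Field K] [Algebra k K]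

/-- the leading coefficient of degree `n`, the value at the point `x = 0` -/
noncomputable def lead (C : QRing k t R) (E : QRoot k t K) (n : ℤ) : R →ₗ[k] K :=
  ∑ a : Fin 2, (LinearMap.toSpanSingleton k K (E.ρ ^ (a : ℕ))).comp
    ((Finsupp.lapply (n - 2 * ((a : ℕ) : ℤ), a) : (ℤ × Fin 2 →₀ k) →ₗ[k] k).comp
      (C.bas.repr : R →ₗ[k] (ℤ × Fin 2 →₀ k)))

theorem lead_apply (C : QRing k t R) (E : QRoot k t K) (n : ℤ) (r : R) :
    C.lead E n r = ∑ a : Fin 2, C.bas.repr r (n - 2 * ((a : ℕ) : ℤ), a) • E.ρ ^ (a : ℕ) := by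
  simp only [lead, LinearMap.sum_apply, LinearMap.comp_apply, LinearMap.toSpanSingleton_apply,
    Finsupp.lapply_apply, LinearEquiv.coe_coe]

theorem lead_bas (C : QRing k t R) (E : QRoot k t K) (n m : ℤ) (a : Fin 2) :
    C.lead E n (C.bas (m, a)) = if m + 2 * ((a : ℕ) : ℤ) = n then E.ρ ^ (a : ℕ) else 0 := by
  rw [lead_apply, Finset.sum_eq_single a]
  · rw [Module.Basis.repr_self, Finsupp.single_apply]
    by_cases h : m + 2 * ((a : ℕ) : ℤ) = n
    · rw [if_pos (by rw [← h, add_sub_cancel_right]), if_pos h, one_smul]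
    · rw [if_neg (by
        intro he
        apply h
        have := congrArg Prod.fst he
        simp only at this
        omega), if_neg h, zero_smul]
  · intro b _ hb
    rw [Module.Basis.repr_self, Finsupp.single_apply, if_neg (by
      intro he
      exact hb (congrArg Prod.snd he).symm), zero_smul]
  · intro h
    exact absurd (Finset.mem_univ a) h

/-- the products of powers: `u^i w^j`, `j < 2` -/
theorem upow_mul_wpow (C : QRing k t R) (i : ℤ) (a : Fin 2) :
    ((C.u ^ i : Rˣ) : R) * C.w ^ (a : ℕ) = C.bas (i, a) := (C.bas_eq i a).symm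

theorem lead_upow_wpow (C : QRing k t R) (E : QRoot k t K) (n i : ℤ) (j : ℕ) (hj : j < 2) :
    C.lead E n (((C.u ^ i : Rˣ) : R) * C.w ^ j) = if i + 2 * (j : ℤ) = n then E.ρ ^ j else 0 := by
  have := C.lead_bas E n i ⟨j, hj⟩
  rw [C.bas_eq] at this
  exact this

theorem lead_Q_aux (C : QRing k t R) (E : QRoot k t K) (n i : ℤ) (x : R) :
    C.lead E n (((C.u ^ i : Rˣ) : R) * (C.Q * x)) =
      C.lead E n (((C.u ^ (i + 2) : Rˣ) : R) * x) + C.lead E n (((C.u ^ (i + 1) : Rˣ) : R) * x)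
        + t • C.lead E n (((C.u ^ i : Rˣ) : R) * x) := by
  rw [Mul_Q, map_add, map_add, map_smul]
  rfl

theorem lead_upow_wpow' (C : QRing k t R) (E : QRoot k t K) (n i : ℤ) (j : ℕ)
    (h : i + 2 * (j : ℤ) ≤ n) :
    C.lead E n (((C.u ^ i : Rˣ) : R) * C.w ^ j) = if i + 2 * (j : ℤ) = n then E.ρ ^ j else 0 := by
  induction j using Nat.strong_induction_on generalizing i with
  | _ j ih =>
    by_cases hj : j < 2
    · exact lead_upow_wpow C E n i j hj
    · obtain ⟨l, rfl⟩ := Nat.exists_eq_add_of_le (not_lt.1 hj)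
      push_cast at h
      have e0 : ∀ i' : ℤ, i' + 2 * (l : ℤ) ≤ n → C.lead E n (((C.u ^ i' : Rˣ) : R) * C.w ^ l) =
          if i' + 2 * (l : ℤ) = n then E.ρ ^ l else 0 := fun i' h' => ih l (by omega) i' h'
      have e1 : ∀ i' : ℤ, i' + 2 * ((l + 1 : ℕ) : ℤ) ≤ n →
          C.lead E n (((C.u ^ i' : Rˣ) : R) * C.w ^ (l + 1)) =
          if i' + 2 * ((l + 1 : ℕ) : ℤ) = n then E.ρ ^ (l + 1) else 0 :=
        fun i' h' => ih (l + 1) (by omega) i' h'
      have eQ : ∀ i' : ℤ, i' + 2 + 2 * (l : ℤ) ≤ n →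
          C.lead E n (((C.u ^ i' : Rˣ) : R) * (C.Q * C.w ^ l)) =
          if i' + 2 + 2 * (l : ℤ) = n then E.ρ ^ l else 0 := by
        intro i' h'
        rw [lead_Q_aux, e0 _ h', e0 _ (by omega), e0 _ (by omega),
          if_neg (show ¬ (i' + 1 + 2 * (l : ℤ) = n) by omega),
          if_neg (show ¬ (i' + 2 * (l : ℤ) = n) by omega), smul_zero, add_zero, add_zero]
      rw [Mul_wp, map_add, map_add, map_smul, lead_Q_aux, lead_Q_aux,
        e1 _ (by push_cast; omega), e1 _ (by push_cast; omega), e1 _ (by push_cast; omega),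
        eQ _ (by omega), eQ _ (by omega), eQ _ (by omega)]
      rw [if_neg (show ¬ (i + 1 + 2 * ((l + 1 : ℕ) : ℤ) = n) by push_cast; omega),
        if_neg (show ¬ (i + 2 * ((l + 1 : ℕ) : ℤ) = n) by push_cast; omega),
        if_neg (show ¬ (i + 1 + 2 + 2 * (l : ℤ) = n) by omega),
        if_neg (show ¬ (i + 2 + 2 * (l : ℤ) = n) by omega)]
      simp only [smul_zero, add_zero]
      by_cases hh : i + 2 + 2 + 2 * (l : ℤ) = n
      · rw [if_pos hh, if_pos (show i + 2 + 2 * ((l + 1 : ℕ) : ℤ) = n by push_cast; omega),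
          if_pos (show i + 2 * ((2 + l : ℕ) : ℤ) = n by push_cast; omega), pow_add E.ρ 2 l, E.sq,
          Algebra.smul_def, pow_succ]
        ring
      · rw [if_neg hh, if_neg (show ¬ (i + 2 + 2 * ((l + 1 : ℕ) : ℤ) = n) by push_cast; omega),
          if_neg (show ¬ (i + 2 * ((2 + l : ℕ) : ℤ) = n) by push_cast; omega), smul_zero, add_zero]

theorem lead_one (C : QRing k t R) (E : QRoot k t K) : C.lead E 0 1 = 1 := by
  have h := lead_upow_wpow C E 0 0 0 (by norm_num)
  simpa using h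

theorem lead_u (C : QRing k t R) (E : QRoot k t K) : C.lead E 1 (C.u : R) = 1 := by
  have h := lead_upow_wpow C E 1 1 0 (by norm_num)
  simpa using h

theorem lead_w (C : QRing k t R) (E : QRoot k t K) : C.lead E 2 C.w = E.ρ := by
  have h := lead_upow_wpow C E 2 0 1 (by norm_num)
  simpa using h

theorem lead_Q (C : QRing k t R) (E : QRoot k t K) : C.lead E 2 C.Q = 1 := by
  have h := lead_Q_aux C E 2 0 1
  simp only [mul_one, zpow_zero, Units.val_one, one_mul, zero_add] at h
  rw [h]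
  have h2 := lead_upow_wpow C E 2 2 0 (by norm_num)
  have h1 := lead_upow_wpow C E 2 1 0 (by norm_num)
  have h0 := lead_upow_wpow C E 2 0 0 (by norm_num)
  simp only [pow_zero, mul_one, zpow_zero, Units.val_one] at h0 h1 h2
  rw [h0, h1, h2]
  simp

/-- multiplicative: `w^2 = u^2 w + (t + 1) u^4 + ` terms of degree `< 4`, and `ρ^2 = ρ + t + 1` -/
theorem lead_mul (C : QRing k t R) (E : QRoot k t K) {m n : ℤ} {r s : R}
    (hr : r ∈ C.Y m) (hs : s ∈ C.Y n) :
    C.lead E (m + n) (r * s) = C.lead E m r * C.lead E n s := by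
  refine Submodule.span_induction (p := fun r _ =>
    C.lead E (m + n) (r * s) = C.lead E m r * C.lead E n s) ?_ ?_ ?_ ?_ hr
  · rintro _ ⟨⟨p, a⟩, rfl⟩
    refine Submodule.span_induction (p := fun s _ =>
      C.lead E (m + n) (C.bas (m - 2 * ((a : ℕ) : ℤ) - (p : ℤ), a) * s) =
        C.lead E m (C.bas (m - 2 * ((a : ℕ) : ℤ) - (p : ℤ), a)) * C.lead E n s) ?_ ?_ ?_ ?_ hs
    · rintro _ ⟨⟨q, b⟩, rfl⟩
      simp only
      rw [lead_bas, lead_bas, C.bas_eq, C.bas_eq]
      have e : ((C.u ^ (m - 2 * ((a : ℕ) : ℤ) - (p : ℤ)) : Rˣ) : R) * C.w ^ (a : ℕ) *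
          (((C.u ^ (n - 2 * ((b : ℕ) : ℤ) - (q : ℤ)) : Rˣ) : R) * C.w ^ (b : ℕ)) =
          ((C.u ^ ((m - 2 * ((a : ℕ) : ℤ) - (p : ℤ)) + (n - 2 * ((b : ℕ) : ℤ) - (q : ℤ))) : Rˣ) : R) *
            C.w ^ ((a : ℕ) + (b : ℕ)) := by
        rw [zpow_add, Units.val_mul, pow_add]
        ring
      rw [e]
      have ha := a.2
      have hb := b.2
      rw [lead_upow_wpow' C E (m + n) _ ((a : ℕ) + (b : ℕ)) (by push_cast; omega)]
      by_cases h1 : p = 0
      · by_cases h2 : q = 0
        · rw [if_pos (by push_cast; omega), if_pos (by omega), if_pos (by omega), pow_add]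
        · rw [if_neg (by push_cast; omega), if_pos (by omega), if_neg (by omega), mul_zero]
      · rw [if_neg (by push_cast; omega), if_neg (show ¬ (m - 2 * ((a : ℕ) : ℤ) - (p : ℤ) +
          2 * ((a : ℕ) : ℤ) = m) by omega), zero_mul]
    · simp
    · intro x y _ _ hx hy
      rw [mul_add, map_add, map_add, hx, hy, mul_add]
    · intro c x _ hx
      rw [mul_smul_comm, map_smul, map_smul, hx, mul_smul_comm]
  · simp
  · intro x y _ _ hx hy
    rw [add_mul, map_add, map_add, hx, hy, add_mul]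
  · intro c x _ hx
    rw [smul_mul_assoc, map_smul, map_smul, hx, smul_mul_assoc]

theorem lead_eq_zero_iff (C : QRing k t R) (E : QRoot k t K) {n : ℤ} {r : R}
    (hr : r ∈ C.Y n) : C.lead E n r = 0 ↔ r ∈ C.Y (n - 1) := by
  rw [mem_Y_iff, lead_apply]
  have hr' := (C.mem_Y_iff n r).1 hr
  constructor
  · intro h m a hma
    have hli := E.basK.linearIndependent
    rw [Fintype.linearIndependent_iff] at hli
    have h2 : ∀ i : Fin 2, C.bas.repr r (n - 2 * ((i : ℕ) : ℤ), i) = 0 :=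
      hli (fun a => C.bas.repr r (n - 2 * ((a : ℕ) : ℤ), a)) (by
        rw [← h]
        refine Finset.sum_congr rfl fun i _ => ?_
        rw [E.basK_eq])
    rcases lt_or_ge n (m + 2 * ((a : ℕ) : ℤ)) with h3 | h3
    · exact hr' m a h3
    · have : m = n - 2 * ((a : ℕ) : ℤ) := by omega
      rw [this]
      exact h2 a
  · intro h
    refine Finset.sum_eq_zero fun a _ => ?_
    rw [h (n - 2 * ((a : ℕ) : ℤ)) a (by omega), zero_smul]

theorem exists_lead (C : QRing k t R) (E : QRoot k t K) (n : ℤ) (z : K) :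
    ∃ r ∈ C.Y n, C.lead E n r = z := by
  refine ⟨∑ a : Fin 2, E.basK.repr z a • C.bas (n - 2 * ((a : ℕ) : ℤ), a), ?_, ?_⟩
  · refine Submodule.sum_mem _ fun a _ => Submodule.smul_mem _ _ (C.bas_mem_Y n _ a (by omega))
  · rw [map_sum]
    refine Eq.trans ?_ (E.basK.sum_repr z)
    refine Finset.sum_congr rfl fun a _ => ?_
    rw [map_smul, lead_bas, if_pos (by omega), E.basK_eq]

theorem lead_upow_mul (C : QRing k t R) (E : QRoot k t K) (j n : ℤ) (r : R) :
    C.lead E (n + j) (((C.u ^ j : Rˣ) : R) * r) = C.lead E n r := by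
  have h : (C.lead E (n + j)).comp (LinearMap.mulLeft k ((C.u ^ j : Rˣ) : R)) = C.lead E n := by
    refine C.bas.ext fun p => ?_
    obtain ⟨m, a⟩ := p
    rw [LinearMap.comp_apply, LinearMap.mulLeft_apply, lead_bas]
    have e : ((C.u ^ j : Rˣ) : R) * C.bas (m, a) = C.bas (j + m, a) := by
      rw [C.bas_eq, C.bas_eq, zpow_add, Units.val_mul, mul_assoc]
    rw [e, lead_bas]
    by_cases h : m + 2 * ((a : ℕ) : ℤ) = n
    · rw [if_pos h, if_pos (by omega)]
    · rw [if_neg h, if_neg (by omega)]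
  have h2 := congrArg (fun f => f r) h
  simpa using h2

end QRing
end H36.QX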