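import Pool.Agent.H36.QX.Mul

/-!
# Lift : the universal property of the coordinate ring

`C.lift U W hW : R →ₐ[k] B` sends `u` to the unit `U` and `w` to `W`, for every pair which satisfies the
equation of the curve.
-/

set_option autoImplicit false

namespace H36.QX

open H36.NX

namespace QRing

variable {k : Type} [Field k] {t : k} {R : Type} [CommRing R] [Algebra k R]
  {B : Type} [CommRing B] [Algebra k B]

/-- the equation of the curve for the pair `(U, W)` -/
def Eqn (t : k) (U W : B) : Prop :=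
  W ^ 2 = (U ^ 2 + U + algebraMap k B t) * W
    + algebraMap k B (t + 1) * (U ^ 2 + U + algebraMap k B t) ^ 2
    + (U ^ 2 + U + algebraMap k B t)

/-- the underlying linear map -/
noncomputable def liftL (C : QRing k t R) (U : Bˣ) (W : B) : R →ₗ[k] B :=
  C.bas.constr k fun p => ((U ^ p.1 : Bˣ) : B) * W ^ (p.2 : ℕ)

theorem liftL_bas (C : QRing k t R) (U : Bˣ) (W : B) (m : ℤ) (a : Fin 2) :
    C.liftL U W (C.bas (m, a)) = ((U ^ m : Bˣ) : B) * W ^ (a : ℕ) := by
  unfold liftL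
  rw [Module.Basis.constr_basis]

theorem liftL_upow (C : QRing k t R) (U : Bˣ) (W : B) (m : ℤ) :
    C.liftL U W ((C.u ^ m : Rˣ) : R) = ((U ^ m : Bˣ) : B) := by
  rw [← Mul_bas0, liftL_bas]; simp

theorem liftL_upow_w (C : QRing k t R) (U : Bˣ) (W : B) (m : ℤ) :
    C.liftL U W (((C.u ^ m : Rˣ) : R) * C.w) = ((U ^ m : Bˣ) : B) * W := by
  rw [← Mul_bas1, liftL_bas]; simp

private theorem upow_add (U : Bˣ) (m : ℤ) (j : ℕ) :
    ((U ^ (m + (j : ℤ)) : Bˣ) : B) = ((U ^ m : Bˣ) : B) * (U : B) ^ j := by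
  rw [zpow_add, zpow_natCast, Units.val_mul, Units.val_pow_eq_pow_val]

theorem liftL_Q (C : QRing k t R) (U : Bˣ) (W : B) (x : R) (y : B)
    (h : ∀ m : ℤ, C.liftL U W (((C.u ^ m : Rˣ) : R) * x) = ((U ^ m : Bˣ) : B) * y) (m : ℤ) :
    C.liftL U W (((C.u ^ m : Rˣ) : R) * (C.Q * x)) =
      ((U ^ m : Bˣ) : B) * (((U : B) ^ 2 + (U : B) + algebraMap k B t) * y) := by
  rw [Mul_Q, map_add, map_add, map_smul, h, h, h, upow_add, upow_add, Algebra.smul_def]
  ring

theorem liftL_w2 (C : QRing k t R) (U : Bˣ) (W : B) (hW : Eqn t (U : B) W) (m : ℤ) :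
    C.liftL U W (((C.u ^ m : Rˣ) : R) * C.w ^ 2) = ((U ^ m : Bˣ) : B) * W ^ 2 := by
  have h1 : ∀ m : ℤ, C.liftL U W (((C.u ^ m : Rˣ) : R) * C.w) = ((U ^ m : Bˣ) : B) * W :=
    C.liftL_upow_w U W
  have h0 : ∀ m : ℤ, C.liftL U W (((C.u ^ m : Rˣ) : R) * 1) = ((U ^ m : Bˣ) : B) * 1 := by
    intro m
    rw [mul_one, mul_one, liftL_upow]
  have e : ((C.u ^ m : Rˣ) : R) * C.w ^ 2 = ((C.u ^ m : Rˣ) : R) * (C.Q * C.w)
      + (t + 1) • (((C.u ^ m : Rˣ) : R) * (C.Q * (C.Q * 1)))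
      + ((C.u ^ m : Rˣ) : R) * (C.Q * 1) := by
    rw [C.rel']
    simp only [Algebra.smul_def]
    ring
  rw [e, map_add, map_add, map_smul, C.liftL_Q U W _ _ h1, C.liftL_Q U W _ _ (C.liftL_Q U W _ _ h0),
    C.liftL_Q U W _ _ h0, Algebra.smul_def]
  have hW' : W ^ 2 = ((U : B) ^ 2 + (U : B) + algebraMap k B t) * W
    + algebraMap k B (t + 1) * ((U : B) ^ 2 + (U : B) + algebraMap k B t) ^ 2
    + ((U : B) ^ 2 + (U : B) + algebraMap k B t) := hW
  rw [hW']
  ring

theorem liftL_mul (C : QRing k t R) (U : Bˣ) (W : B) (hW : Eqn t (U : B) W) (x y : R) :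
    C.liftL U W (x * y) = C.liftL U W x * C.liftL U W y := by
  have key : ∀ p q : ℤ × Fin 2, C.liftL U W (C.bas p * C.bas q) =
      C.liftL U W (C.bas p) * C.liftL U W (C.bas q) := by
    rintro ⟨m, a⟩ ⟨n, b⟩
    rw [Mul_bas_mul, liftL_bas, liftL_bas]
    have e : ((U ^ m : Bˣ) : B) * W ^ (a : ℕ) * (((U ^ n : Bˣ) : B) * W ^ (b : ℕ)) =
        ((U ^ (m + n) : Bˣ) : B) * W ^ ((a : ℕ) + (b : ℕ)) := by
      rw [zpow_add, Units.val_mul, pow_add]
      ring
    rw [e]
    fin_cases a <;> fin_cases b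
    · simp [liftL_upow]
    · simpa using C.liftL_upow_w U W (m + n)
    · simpa using C.liftL_upow_w U W (m + n)
    · exact C.liftL_w2 U W hW (m + n)
  have h1 : (LinearMap.mul k R).compr₂ (C.liftL U W) =
      (LinearMap.mul k B).compl₁₂ (C.liftL U W) (C.liftL U W) := by
    refine C.bas.ext fun p => C.bas.ext fun q => ?_
    simp only [LinearMap.compr₂_apply, LinearMap.mul_apply', LinearMap.compl₁₂_apply]
    exact key p q
  have h2 := LinearMap.congr_fun (LinearMap.congr_fun h1 x) y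
  simpa only [LinearMap.compr₂_apply, LinearMap.mul_apply', LinearMap.compl₁₂_apply] using h2

theorem liftL_one (C : QRing k t R) (U : Bˣ) (W : B) : C.liftL U W 1 = 1 := by
  have h := C.liftL_upow U W 0
  simpa using h

/-- the homomorphism with `u ↦ U` and `w ↦ W` -/
noncomputable def lift (C : QRing k t R) (U : Bˣ) (W : B) (hW : Eqn t (U : B) W) : R →ₐ[k] B :=
  AlgHom.ofLinearMap (C.liftL U W) (C.liftL_one U W) (C.liftL_mul U W hW)

variable (C : QRing k t R) (U : Bˣ) (W : B) (hW : Eqn t (U : B) W)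

theorem lift_apply (x : R) : C.lift U W hW x = C.liftL U W x := rfl

theorem lift_upow (m : ℤ) : C.lift U W hW ((C.u ^ m : Rˣ) : R) = ((U ^ m : Bˣ) : B) :=
  C.liftL_upow U W m

@[simp] theorem lift_u : C.lift U W hW (C.u : R) = (U : B) := by
  have h := C.lift_upow U W hW 1
  simpa using h

@[simp] theorem lift_w : C.lift U W hW C.w = W := by
  have h := C.liftL_upow_w U W 0
  rw [zpow_zero, Units.val_one, one_mul, zpow_zero, Units.val_one, one_mul] at h
  exact h

theorem lift_Q : C.lift U W hW C.Q = (U : B) ^ 2 + (U : B) + algebraMap k B t := by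
  rw [C.Q_eq, map_add, map_add, map_pow, lift_u, AlgHom.commutes]

/-- two homomorphisms which agree on `u` and `w` are equal -/
theorem hom_ext {f g : R →ₐ[k] B} (hu : f (C.u : R) = g (C.u : R)) (hw : f C.w = g C.w) :
    f = g := by
  have hU : Units.map (f : R →* B) C.u = Units.map (g : R →* B) C.u := Units.ext hu
  have hz : ∀ m : ℤ, f ((C.u ^ m : Rˣ) : R) = g ((C.u ^ m : Rˣ) : R) := by
    intro m
    have h1 : f ((C.u ^ m : Rˣ) : R) = ((Units.map (f : R →* B) (C.u ^ m) : Bˣ) : B) := rfl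
    have h2 : g ((C.u ^ m : Rˣ) : R) = ((Units.map (g : R →* B) (C.u ^ m) : Bˣ) : B) := rfl
    rw [h1, h2, map_zpow, map_zpow, hU]
  have h : f.toLinearMap = g.toLinearMap := by
    refine C.bas.ext fun p => ?_
    obtain ⟨m, a⟩ := p
    change f (C.bas (m, a)) = g (C.bas (m, a))
    rw [C.bas_eq, map_mul, map_mul, map_pow, map_pow, hz, hw]
  exact AlgHom.toLinearMap_injective h

end QRing

end H36.QX
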