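import Pool.Agent.H36.QX.TauE
import Pool.Agent.H15.NX.MV

/-!
# MV : the Mayer-Vietoris sequence `0 → AA C → NC_X × NC_V → NC_W → 0` of bimodules, for two charts `X`, `V` and their
intersection `W`
-/

set_option autoImplicit false

open NC

noncomputable section

namespace H36.QX

open H36.NX
variable {k : Type} [Field k] {t : k} {R : Type} [CommRing R] [Algebra k R]
  {F : Type} [Field F] [Algebra k F] {I J : Type}
  {C : QRing k t R} {j : R →ₐ[k] F}

/-- inclusion of piece systems -/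
def fIncl {T T' : PS C j} (h : ∀ s n, T.S s n ≤ T'.S s n) (α : I → ℤ) (β : J → ℤ) :
    SD.Hom (fSD T α β) (fSD T' α β) where
  f :=
    { toFun := fun f => fmk T' α β (fv T α β f) (fun s i l => h s _ (fv_mem T f s i l))
      map_add' := fun _ _ => rfl
      map_smul' := fun _ _ => rfl }
  D := fun _ => rfl
  P := fun _ => rfl

@[simp] theorem fv_fIncl {T T' : PS C j} (h : ∀ s n, T.S s n ≤ T'.S s n) (α : I → ℤ) (β : J → ℤ)
    (f : (fSD T α β).V) : fv T' α β ((fIncl h α β).f f) = fv T α β f := rfl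

theorem fIncl_isHom {T T' : PS C j} (h : ∀ s n, T.S s n ≤ T'.S s n) :
    (fBi T).IsHom (fBi T') (fIncl h wt wt) :=
  ⟨fun _ _ => rfl, fun _ _ => rfl⟩

theorem jin_isHom (U : Cht C j) : (AA C).diag.IsHom (fBi U.T) (jin U wt wt) := by
  refine ⟨fun a x => ?_, fun x a => ?_⟩
  · refine f_ext U.T ?_
    change (fun s => (cMul k (matMul k R (Fin 2) (Fin 2) (Fin 2)) (qv C wt wt a)
        (qv C wt wt x) s).map j) = cMul k (matL j (Fin 2) (Fin 2) (Fin 2)) (qv C wt wt a)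
          (fun s => (qv C wt wt x s).map j)
    funext s
    cases s with
    | X => rw [cMul_X, cMul_X, matMul_apply, map_mul_j, matL_apply]
    | Y => rw [cMul_Y, cMul_Y, matMul_apply, map_mul_j, matL_apply]
    | R =>
      rw [cMul_R, cMul_R, matMul_apply, matMul_apply, matL_apply, matL_apply,
        Matrix.map_add j (map_add j), map_mul_j, map_mul_j]
  · refine f_ext U.T ?_
    change (fun s => (cMul k (matMul k R (Fin 2) (Fin 2) (Fin 2)) (qv C wt wt x)
        (qv C wt wt a) s).map j) = cMul k (matR j (Fin 2) (Fin 2) (Fin 2))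
          (fun s => (qv C wt wt x s).map j) (qv C wt wt a)
    funext s
    cases s with
    | X => rw [cMul_X, cMul_X, matMul_apply, map_mul_j, matR_apply]
    | Y => rw [cMul_Y, cMul_Y, matMul_apply, map_mul_j, matR_apply]
    | R =>
      rw [cMul_R, cMul_R, matMul_apply, matMul_apply, matR_apply, matR_apply,
        Matrix.map_add j (map_add j), map_mul_j, map_mul_j]

/-- two charts and their intersection -/
structure MVS (C : QRing k t R) (j : R →ₐ[k] F) where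
  X : Cht C j
  V : Cht C j
  W : Cht C j
  leX : ∀ s n, X.T.S s n ≤ W.T.S s n
  leV : ∀ s n, V.T.S s n ≤ W.T.S s n
  inf : ∀ (s : Pc) (n : ℤ) (x : F), x ∈ X.T.S s n → x ∈ V.T.S s n → ∃ r ∈ C.pc s n, j r = x
  sup : ∀ (s : Pc) (n : ℤ) (x : F), x ∈ W.T.S s n →
    ∃ a ∈ X.T.S s n, ∃ b ∈ V.T.S s n, x = a + b
  eX : X.e = Pc.X
  eV : V.e = Pc.Y
  eW : W.e = Pc.X
  gX : X.g = 1
  gV : V.g = j (C.u : R)
  gW : W.g = 1
  cW : W.c = j (C.u : R)
  XW : X.B ≤ W.B
  VW : V.B ≤ W.B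

namespace MVS

variable (M : MVS C j)

/-- `(a, b) ↦ a - b` -/
def mvg : SD.Hom ((fSD M.X.T wt wt).prod (fSD M.V.T wt wt)) (fSD M.W.T wt wt) where
  f := ((fIncl M.leX wt wt).f).coprod (-(fIncl M.leV wt wt).f)
  D := by
    rintro ⟨a, b⟩
    refine f_ext M.W.T ?_
    change cD k _ (fv M.X.T wt wt a) + -(cD k _ (fv M.V.T wt wt b)) =
      cD k _ (fv M.X.T wt wt a + -(fv M.V.T wt wt b))
    rw [map_add, map_neg]
  P := by
    rintro ⟨a, b⟩
    refine f_ext M.W.T ?_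
    change cP k _ (fv M.X.T wt wt a) + -(cP k _ (fv M.V.T wt wt b)) =
      cP k _ (fv M.X.T wt wt a + -(fv M.V.T wt wt b))
    rw [map_add, map_neg]

theorem fv_mvg (a : (fSD M.X.T wt wt).V) (b : (fSD M.V.T wt wt).V) :
    fv M.W.T wt wt (M.mvg.f (a, b)) = fv M.X.T wt wt a + -(fv M.V.T wt wt b) := rfl

theorem mvg_isHom : ((fBi M.X.T).prod (fBi M.V.T)).IsHom (fBi M.W.T) M.mvg := by
  refine ⟨fun r v => ?_, fun v r => ?_⟩
  · obtain ⟨a, b⟩ := v
    refine f_ext M.W.T ?_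
    change cMul k (matL j (Fin 2) (Fin 2) (Fin 2)) (qv C wt wt r) (fv M.X.T wt wt a) +
        -(cMul k (matL j (Fin 2) (Fin 2) (Fin 2)) (qv C wt wt r) (fv M.V.T wt wt b)) =
      cMul k (matL j (Fin 2) (Fin 2) (Fin 2)) (qv C wt wt r)
        (fv M.X.T wt wt a + -(fv M.V.T wt wt b))
    rw [map_add, map_neg]
  · obtain ⟨a, b⟩ := v
    refine f_ext M.W.T ?_
    change cMul k (matR j (Fin 2) (Fin 2) (Fin 2)) (fv M.X.T wt wt a) (qv C wt wt r) +
        -(cMul k (matR j (Fin 2) (Fin 2) (Fin 2)) (fv M.V.T wt wt b) (qv C wt wt r)) =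
      cMul k (matR j (Fin 2) (Fin 2) (Fin 2))
        (fv M.X.T wt wt a + -(fv M.V.T wt wt b)) (qv C wt wt r)
    rw [map_add, map_neg, LinearMap.add_apply, LinearMap.neg_apply]

/-- `f ↦ (f, f)` -/
def mvf : SD.Hom (AA C).toSD ((fSD M.X.T wt wt).prod (fSD M.V.T wt wt)) :=
  SD.Hom.pair (jin M.X wt wt) (jin M.V wt wt)

theorem mvf_isHom : (AA C).diag.IsHom ((fBi M.X.T).prod (fBi M.V.T)) M.mvf :=
  ⟨fun a x => Prod.ext ((jin_isHom M.X).l a x) ((jin_isHom M.V).l a x),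
    fun x a => Prod.ext ((jin_isHom M.X).r x a) ((jin_isHom M.V).r x a)⟩

/-- the sequence is exact on each component -/
theorem mv_SES : SD.SES M.mvf M.mvg where
  inj := by
    intro x hx
    have h1 : (jin M.X wt wt).f x = 0 := congrArg Prod.fst hx
    have h2 : fv M.X.T wt wt ((jin M.X wt wt).f x) = 0 :=
      (congrArg (fv M.X.T wt wt) h1).trans (map_zero (fv M.X.T wt wt))
    refine q_ext C ?_
    refine Eq.trans ?_ (map_zero (qv C wt wt)).symm
    funext s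
    ext i l
    have h3 : j (qv C wt wt x s i l) = 0 := congrFun (congrFun (congrFun h2 s) i) l
    exact M.X.jinj (h3.trans (map_zero j).symm)
  surj := by
    intro x
    have hx := fv_mem M.W.T x
    have hY : ∀ (s : Pc) (i l : Fin 2), ∃ a b : F, a ∈ M.X.T.S s (wt l - wt i) ∧
        b ∈ M.V.T.S s (wt l - wt i) ∧ a + -b = fv M.W.T wt wt x s i l := by
      intro s i l
      obtain ⟨a, ha, b, hb, h⟩ := M.sup s _ _ (hx s i l)
      exact ⟨a, -b, ha, (M.V.T.S s _).neg_mem hb, by rw [neg_neg, ← h]⟩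
    choose a b ha hb hab using hY
    refine ⟨(fmk M.X.T wt wt (fun s => Matrix.of (a s)) (fun s i l => ha s i l),
      fmk M.V.T wt wt (fun s => Matrix.of (b s)) (fun s i l => hb s i l)), ?_⟩
    refine f_ext M.W.T ?_
    rw [fv_mvg, fv_fmk, fv_fmk]
    funext s
    ext i l
    exact hab s i l
  zero := by
    intro x
    refine f_ext M.W.T ?_
    change (fun s => (qv C wt wt x s).map j) + -(fun s => (qv C wt wt x s).map j) = 0
    exact add_neg_cancel _
  exact := by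
    rintro ⟨a, b⟩ hab
    have h1 : fv M.X.T wt wt a + -(fv M.V.T wt wt b) = 0 := by
      have h2 := congrArg (fv M.W.T wt wt) hab
      rw [fv_mvg, map_zero] at h2
      exact h2
    have h2 : fv M.X.T wt wt a = fv M.V.T wt wt b := by
      rw [← sub_eq_add_neg] at h1
      exact sub_eq_zero.1 h1
    have ha := fv_mem M.X.T a
    have hb := fv_mem M.V.T b
    have hr : ∀ (s : Pc) (i l : Fin 2), ∃ r : R, r ∈ C.pc s (wt l - wt i) ∧
        j r = fv M.X.T wt wt a s i l := by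
      intro s i l
      have h3 := hb s i l
      rw [← h2] at h3
      obtain ⟨r, hr, h⟩ := M.inf s _ _ (ha s i l) h3
      exact ⟨r, hr, h⟩
    choose r hr1 hr2 using hr
    refine ⟨qmk C wt wt (fun s => Matrix.of (r s)) (fun s i l => hr1 s i l), ?_⟩
    refine Prod.ext (f_ext M.X.T ?_) (f_ext M.V.T ?_)
    · funext s
      ext i l
      exact hr2 s i l
    · rw [← h2]
      funext s
      ext i l
      exact hr2 s i l

/-! ### comparison of the cycles -/

/-- `HC (NC_X) → HC (NC_W)` -/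
def iXW : SD.Hom (HC (fBi M.X.T)) (HC (fBi M.W.T)) :=
  hcN _ _ (fIncl M.leX wt wt) (fIncl_isHom M.leX)

/-- `HC (NC_V) → HC (NC_W)` -/
def iVW : SD.Hom (HC (fBi M.V.T)) (HC (fBi M.W.T)) :=
  hcN _ _ (fIncl M.leV wt wt) (fIncl_isHom M.leV)

theorem iXW_gU (b : M.X.B) : M.iXW.f (gU M.X b) = gU M.W (⟨b.1, M.XW b.2⟩ : M.W.B) := by
  refine (hcN_nil _ _ _ _ _).trans (congrArg Wd.nil ?_)
  refine f_ext M.W.T ?_
  change cst (Matrix.single 0 0 (M.X.g ^ (wt 0 - wt 0) * (b : F))) =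
    cst (Matrix.single 0 0 (M.W.g ^ (wt 0 - wt 0) * (b : F)))
  rw [sub_self, zpow_zero, zpow_zero]

theorem iVW_gU (b : M.V.B) : M.iVW.f (gU M.V b) = gU M.W (⟨b.1, M.VW b.2⟩ : M.W.B) := by
  refine (hcN_nil _ _ _ _ _).trans (congrArg Wd.nil ?_)
  refine f_ext M.W.T ?_
  change cst (Matrix.single 0 0 (M.V.g ^ (wt 0 - wt 0) * (b : F))) =
    cst (Matrix.single 0 0 (M.W.g ^ (wt 0 - wt 0) * (b : F)))
  rw [sub_self, zpow_zero, zpow_zero]

/-- by `exists_tau0` -/
theorem gU_W_inj (b : M.W.B) (h : ∃ y, (HC (fBi M.W.T)).D y = gU M.W b) : b = 0 := by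
  obtain ⟨τ, h0, h1⟩ := exists_tau0 M.W.T
  obtain ⟨y, hy⟩ := h
  have h2 : τ (gU M.W b) = 0 := by rw [← hy, h0]
  have h3 := (h1 (fc M.W 0 0 b)).symm.trans h2
  have h4 : (Matrix.single (0 : Fin 2) (0 : Fin 2)
      (M.W.g ^ (wt 0 - wt 0) * (b : F))).trace = 0 := h3
  rw [Matrix.trace_single_eq_same, sub_self, zpow_zero, one_mul] at h4
  exact Subtype.ext h4

variable (dF : F →ₗ[k] F) (hdF : ∀ a b, dF (a * b) = a * dF b + dF a * b)

/-- the functional on the intersection -/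
abbrev τW : (HC (fBi M.W.T)).V →ₗ[k] F := tauU M.W dF hdF

private theorem tauE_congr {T : PS C j} {e e' : Pc} (h : e = e') {γ γ' : F} (h' : γ = γ')
    (he : e = Pc.X ∨ e = Pc.Y) (he' : e' = Pc.X ∨ e' = Pc.Y) (hγ : γ ≠ 0) (hγ' : γ' ≠ 0)
    (x : (HC (fBi T)).V) :
    (tauE T e he γ hγ dF hdF).tau1 x = (tauE T e' he' γ' hγ' dF hdF).tau1 x := by
  subst h
  subst h'
  rfl

theorem tau_iXW (x : (HC (fBi M.X.T)).V) : M.τW dF hdF (M.iXW.f x) = tauU M.X dF hdF x := by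
  refine (tauU_eq dF hdF M.W (M.iXW.f x)).trans ?_
  refine Eq.trans ?_ (tauU_eq dF hdF M.X x).symm
  refine (tauE_incl dF hdF M.iXW.f (fIncl M.leX wt wt).f (fun n => hcN_nil _ _ _ _ n)
    (fun w r => hcN_snoc _ _ _ _ w r) (fun n => rfl) M.W.e (che M.W) M.W.g M.W.g0 x).trans ?_
  exact tauE_congr dF hdF (M.eW.trans M.eX.symm) (M.gW.trans M.gX.symm) _ _ _ _ x

theorem hs0 (s : Pc) : (1 : R) ∈ C.pc s 1 := C.one_mem_pc s (by norm_num)

theorem hs1 (s : Pc) : (C.u : R) ∈ C.pc s 1 := C.u_mem_pc s le_rfl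

/-- the explicit odd cycles of `W` -/
def zW (b : M.W.B) : (HC (fBi M.W.T)).V := zU M.W 1 (C.u : R) hs0 hs1 b

theorem zW_P (b : M.W.B) : (HC (fBi M.W.T)).P (M.zW b) = 0 := zU_P M.W _ _ _ _ b

theorem zW_D (b : M.W.B) : (HC (fBi M.W.T)).D (M.zW b) = 0 :=
  zU_D M.W _ _ _ _ (by rw [map_one, M.gW]) (by rw [M.gW, M.cW, one_mul]) b

private theorem cj_single (γ : F) (i l : Fin 2) (x : F) :
    cj k γ (Matrix.single i l x) = Matrix.single i l (γ ^ (-(wt l - wt i)) * x) := by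
  ext a b
  rw [cj_apply, Matrix.single_apply, Matrix.single_apply]
  split_ifs with h
  · obtain ⟨rfl, rfl⟩ := h
    rfl
  · exact mul_zero _

private theorem tauE_zW (e : Pc) (he : e = Pc.X ∨ e = Pc.Y) (γ : F) (hγ : γ ≠ 0) (b : M.W.B) :
    (tauE M.W.T e he γ hγ dF hdF).tau1 (M.zW b) = (b : F) * dF (j (C.u : R)) := by
  have e10 : -(wt 0 - wt 1) = 1 := by simp [wt]
  have e01 : -(wt 1 - wt 0) = -1 := by simp [wt]
  have hce : ∀ {S : Type} [Zero S] (N : S), cst N e = N := by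
    intro S _ N
    rcases he with rfl | rfl <;> rfl
  have hg : ∀ b : M.W.B, (tauE M.W.T e he γ hγ dF hdF).g (fc M.W 1 0 b)
      = Matrix.single 1 0 (γ * (b : F)) := by
    intro b
    change cj k γ (cst (Matrix.single 1 0 (M.W.g ^ (wt 0 - wt 1) * (b : F))) e) = _
    rw [hce, cj_single, M.gW, one_zpow, one_mul, e10, zpow_one]
  have hd : ∀ (r : R) (h : ∀ s : Pc, r ∈ C.pc s 1),
      (tauE M.W.T e he γ hγ dF hdF).δ (secA C r h) = Matrix.single 0 1 (dF (γ⁻¹ * j r)) := by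
    intro r h
    change (cj k γ ((cst (Matrix.single 0 1 r) e).map j)).map dF = _
    rw [hce]
    have h1 : (Matrix.single (0 : Fin 2) (1 : Fin 2) r).map j = Matrix.single 0 1 (j r) :=
      Matrix.map_single (0 : Fin 2) (1 : Fin 2) r j
    rw [h1, cj_single, e01, zpow_neg_one]
    exact Matrix.map_single (0 : Fin 2) (1 : Fin 2) _ dF
  have h0 := zU_apply M.W 1 (C.u : R) hs0 hs1 b
  have h1 : (tauE M.W.T e he γ hγ dF hdF).tau1 (M.zW b)
      = Matrix.trace (Matrix.single (1 : Fin 2) (0 : Fin 2) (γ * (b : F))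
          * Matrix.single 0 1 (dF (γ⁻¹ * j (C.u : R))))
        - Matrix.trace (Matrix.single (1 : Fin 2) (0 : Fin 2) (γ * ((b : F) * M.W.c))
          * Matrix.single 0 1 (dF (γ⁻¹ * j 1))) := by
    refine (congrArg (tauE M.W.T e he γ hγ dF hdF).tau1 h0).trans ?_
    rw [map_sub, TauData.tau1_snoc, TauData.tau1_snoc, TauData.gX_nil, TauData.gX_nil, hg, hg, hd,
      hd]
    rfl
  rw [h1, Matrix.single_mul_single_same, Matrix.single_mul_single_same,
    Matrix.trace_single_eq_same, Matrix.trace_single_eq_same, M.cW, map_one, mul_one, hdF]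
  field_simp
  ring

/-- the functional of `V` and the functional of `W` agree on odd cycles -/
theorem tau_iVW (hu : dF (j (C.u : R)) ≠ 0) (x : (HC (fBi M.V.T)).V)
    (hP : (HC (fBi M.V.T)).P x = 0) (hD : (HC (fBi M.V.T)).D x = 0) :
    M.τW dF hdF (M.iVW.f x) = tauU M.V dF hdF x := by
  have e1 : (HC (fBi M.W.T)).P (M.iVW.f x) = 0 := by rw [← M.iVW.P, hP, map_zero]
  have e2 : (HC (fBi M.W.T)).D (M.iVW.f x) = 0 := by rw [← M.iVW.D, hD, map_zero]
  obtain ⟨b, hb⟩ := tau_mem M.W dF hdF (M.iVW.f x) e1 e2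
  have hz : tauU M.W dF hdF (M.zW b) = (b : F) * dF (j (C.u : R)) :=
    (tauU_eq dF hdF M.W _).trans (M.tauE_zW dF hdF _ _ _ _ b)
  rw [M.cW] at hb
  obtain ⟨w, hw⟩ := tau_inj M.W dF hdF (by rw [M.cW]; exact hu) (M.iVW.f x - M.zW b)
    (by rw [map_sub, e1, zW_P, sub_zero]) (by rw [map_sub, e2, zW_D, sub_zero])
    (by rw [map_sub, hb, hz, sub_self])
  have h3 : (tauE M.W.T Pc.Y (Or.inr rfl) (j (C.u : R)) (M.gV ▸ M.V.g0) dF hdF).tau1
      ((HC (fBi M.W.T)).D w) = 0 := TauData.tau1_D _ w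
  rw [hw, map_sub, tauE_zW, sub_eq_zero] at h3
  rw [hb, ← h3]
  refine (tauE_incl dF hdF M.iVW.f (fIncl M.leV wt wt).f (fun n => hcN_nil _ _ _ _ n)
    (fun w r => hcN_snoc _ _ _ _ w r) (fun n => rfl) Pc.Y (Or.inr rfl) (j (C.u : R)) _ x).trans ?_
  refine Eq.trans ?_ (tauU_eq dF hdF M.V x).symm
  exact tauE_congr dF hdF M.eV.symm M.gV.symm _ _ _ _ x

end MVS

end H36.QX
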