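import Pool.Agent.H36.QX.RVe

/-!
# P0 : the point `P0 : Q = w = 0`

`R / (Q, w)` is a direct factor of `R / w`, through multiplication by `e = (t + 1) Q + 1`; it is separable over `k`,
and `0 → R / (Q, w) → R / Q → R / (Q, w) → 0` (multiplication by `w`, projection) is exact.
-/

set_option autoImplicit false

open NC
open scoped TensorProduct

namespace H36.QX

open H36.NX

variable {k : Type} [Field k] {t : k} {R : Type} [CommRing R] [Algebra k R]

theorem subalg_top (C : QRing k t R) (S : Subalgebra k R) (hu : (C.u : R) ∈ S)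
    (hu' : ((C.u⁻¹ : Rˣ) : R) ∈ S) (hw : C.w ∈ S) (a : R) : a ∈ S := by
  have hz : ∀ m : ℤ, ((C.u ^ m : Rˣ) : R) ∈ S := by
    intro m
    rcases Int.eq_nat_or_neg m with ⟨n, rfl | rfl⟩
    · rw [zpow_natCast, Units.val_pow_eq_pow_val]
      exact S.pow_mem hu n
    · rw [zpow_neg, zpow_natCast, ← inv_pow, Units.val_pow_eq_pow_val]
      exact S.pow_mem hu' n
  have h : a ∈ Submodule.span k (Set.range C.bas) := by
    rw [C.bas.span_eq]
    exact Submodule.mem_top
  have h2 : Submodule.span k (Set.range C.bas) ≤ Subalgebra.toSubmodule S :=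
    Submodule.span_le.2 (by
      rintro _ ⟨⟨m, b⟩, rfl⟩
      rw [C.bas_eq]
      exact S.mul_mem (hz m) (S.pow_mem hw b))
  exact h2 h

/-! ### the quotients -/

/-- the residue ring of the point `P0` -/
abbrev V0 (C : QRing k t R) : Type := R ⧸ Ideal.span {C.Q, C.w}

/-- the zeros of `w` -/
abbrev Vw (C : QRing k t R) : Type := R ⧸ Ideal.span {C.w}

/-- the zeros of `Q` -/
abbrev VQ (C : QRing k t R) : Type := R ⧸ Ideal.span {C.Q}

/-- the projection of `R` on the residue ring -/
noncomputable def q0 (C : QRing k t R) : R →ₗ[R] V0 C := (Ideal.span {C.Q, C.w}).mkQ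

theorem q0_surjective (C : QRing k t R) : Function.Surjective (q0 C) := Submodule.mkQ_surjective _

theorem q0_eq_zero (C : QRing k t R) (r : R) :
    q0 C r = 0 ↔ ∃ a b, a * C.Q + b * C.w = r := by
  change Ideal.Quotient.mk (Ideal.span {C.Q, C.w}) r = 0 ↔ _
  rw [Ideal.Quotient.eq_zero_iff_mem, Ideal.mem_span_pair]

theorem q0_mul (C : QRing k t R) (a b : R) : q0 C (a * b) = q0 C a * q0 C b := rfl

theorem q0_smul (C : QRing k t R) (a : R) (x : V0 C) : a • x = q0 C a * x := by
  obtain ⟨b, rfl⟩ := q0_surjective C x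
  rw [← q0_mul, ← map_smul, smul_eq_mul]

theorem q0_Q (C : QRing k t R) : q0 C C.Q = 0 := (q0_eq_zero C _).2 ⟨1, 0, by ring⟩
theorem q0_w (C : QRing k t R) : q0 C C.w = 0 := (q0_eq_zero C _).2 ⟨0, 1, by ring⟩

/-- `R / w → R / (Q, w)` -/
noncomputable def pw (C : QRing k t R) : Vw C →ₗ[R] V0 C :=
  Submodule.liftQ _ (q0 C) (by
    refine Submodule.span_le.2 ?_
    rintro _ rfl
    exact q0_w C)

theorem pw_qt (C : QRing k t R) (r : R) : pw C (qt R C.w r) = q0 C r := rfl

/-- `R / Q → R / (Q, w)` -/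
noncomputable def pQ (C : QRing k t R) : VQ C →ₗ[R] V0 C :=
  Submodule.liftQ _ (q0 C) (by
    refine Submodule.span_le.2 ?_
    rintro _ rfl
    exact q0_Q C)

theorem pQ_qt (C : QRing k t R) (r : R) : pQ C (qt R C.Q r) = q0 C r := rfl

/-- the idempotent modulo `w` -/
noncomputable def ee (C : QRing k t R) : R := algebraMap k R (t + 1) * C.Q + 1

/-- `R / (Q, w) → R / w`, multiplication by `e` -/
noncomputable def iw (C : QRing k t R) : V0 C →ₗ[R] Vw C :=
  Submodule.liftQ _ (ee C • qt R C.w) (by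
    refine Submodule.span_le.2 ?_
    rintro x (rfl | rfl)
    · change ee C • qt R C.w C.Q = 0
      rw [← map_smul, smul_eq_mul, qt_eq_zero]
      refine ⟨C.w - C.Q, ?_⟩
      have h := C.rel'
      unfold ee
      linear_combination -h
    · change ee C • qt R C.w C.w = 0
      rw [← map_smul, smul_eq_mul, qt_eq_zero]
      exact ⟨ee C, mul_comm _ _⟩)

theorem iw_q0 (C : QRing k t R) (r : R) : iw C (q0 C r) = qt R C.w (ee C * r) := by
  change ee C • qt R C.w r = _
  rw [← map_smul, smul_eq_mul]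

theorem pw_iw (C : QRing k t R) (x : V0 C) : pw C (iw C x) = x := by
  obtain ⟨r, rfl⟩ := q0_surjective C x
  rw [iw_q0, pw_qt]
  have h : q0 C (ee C * r - r) = 0 := (q0_eq_zero C _).2
    ⟨algebraMap k R (t + 1) * r, 0, by unfold ee; ring⟩
  rw [map_sub] at h
  exact sub_eq_zero.1 h

/-- `R / (Q, w) → R / Q`, multiplication by `w` -/
noncomputable def wQ (C : QRing k t R) : V0 C →ₗ[R] VQ C :=
  Submodule.liftQ _ (C.w • qt R C.Q) (by
    refine Submodule.span_le.2 ?_
    rintro x (rfl | rfl)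
    · change C.w • qt R C.Q C.Q = 0
      rw [← map_smul, smul_eq_mul, qt_eq_zero]
      exact ⟨C.w, mul_comm _ _⟩
    · change C.w • qt R C.Q C.w = 0
      rw [← map_smul, smul_eq_mul, qt_eq_zero]
      refine ⟨C.w + algebraMap k R (t + 1) * C.Q + 1, ?_⟩
      have h := C.rel'
      linear_combination h)

theorem wQ_q0 (C : QRing k t R) (r : R) : wQ C (q0 C r) = qt R C.Q (C.w * r) := by
  change C.w • qt R C.Q r = _
  rw [← map_smul, smul_eq_mul]

theorem wQ_injective (C : QRing k t R) (hQ : ∀ z, C.Q * z = 0 → z = 0) :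
    Function.Injective (wQ C) := by
  rw [injective_iff_map_eq_zero]
  intro x hx
  obtain ⟨r, rfl⟩ := q0_surjective C x
  rw [wQ_q0, qt_eq_zero] at hx
  obtain ⟨y, hy⟩ := hx
  have h1 := C.rel'
  have h2 : (C.w + algebraMap k R (t + 1) * C.Q + 1) * r - C.w * y = 0 := by
    refine hQ _ ?_
    linear_combination (-r) * h1 + C.w * hy
  refine (q0_eq_zero C r).2 ⟨- algebraMap k R (t + 1) * r, y - r, ?_⟩
  linear_combination -h2

theorem wQ_exact (C : QRing k t R) : Function.Exact (wQ C) (pQ C) := by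
  intro z
  obtain ⟨r, rfl⟩ := qt_surjective C.Q z
  constructor
  · intro h
    rw [pQ_qt, q0_eq_zero] at h
    obtain ⟨a, b, hab⟩ := h
    refine ⟨q0 C b, ?_⟩
    rw [wQ_q0, ← hab, add_comm, mul_comm a, qt_add_mul, mul_comm]
  · rintro ⟨x, hx⟩
    obtain ⟨a, rfl⟩ := q0_surjective C x
    rw [← hx, wQ_q0, pQ_qt, q0_mul, q0_w, zero_mul]

theorem pQ_surjective (C : QRing k t R) : Function.Surjective (pQ C) := fun x => by
  obtain ⟨r, rfl⟩ := q0_surjective C x
  exact ⟨qt R C.Q r, rfl⟩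

end H36.QX
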