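import Pool.Agent.H36.QX.P0

/-!
# P0s : the bimodule of the point `P0` is a direct factor of a product of a column and of a row

`M_2(R / (Q, w))` is a direct factor of `(R / w)^2 ⊗ (R / w)^2` (columns and rows), by the separability idempotent
`u ⊗ 1 + 1 ⊗ u + 1 ⊗ 1` of `R / (Q, w)` and the idempotent `e` of `R / w`.
-/

set_option autoImplicit false

open NC
open scoped TensorProduct

namespace H36.QX

open H36.NX

variable {k : Type} [Field k] {t : k} {R : Type} [CommRing R] [Algebra k R]

section central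

variable {W₁ W₂ N : Type} [AddCommGroup W₁] [Module k W₁] [Module R W₁] [IsScalarTower k R W₁]
  [AddCommGroup W₂] [Module k W₂] [Module R W₂] [IsScalarTower k R W₂] [AddCommGroup N] [Module k N]

/-- the action of `u ⊗ 1 + 1 ⊗ u + 1 ⊗ 1` -/
private def sPhi (C : QRing k t R) (T : W₁ →ₗ[k] W₂ →ₗ[k] N) (c : W₁) (x : W₂) : N :=
  T ((C.u : R) • c) x + T c ((C.u : R) • x) + T c x

private theorem sTwo [CharP k 2] (x : N) : x + x = 0 := by
  rw [← two_smul k, show (2 : k) = 0 from CharTwo.two_eq_zero, zero_smul]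

private theorem sAlg (c : k) (x : W₁) : algebraMap k R c • x = c • x := algebraMap_smul R c x

private theorem sT1 (T : W₁ →ₗ[k] W₂ →ₗ[k] N) (r : k) (c : W₁) (x : W₂) :
    T (r • c) x = r • T c x := by
  rw [T.map_smul r c, LinearMap.smul_apply]

private theorem sT2 (T : W₁ →ₗ[k] W₂ →ₗ[k] N) (r : k) (c : W₁) (x : W₂) :
    T c (r • x) = r • T c x := (T c).map_smul r x

private theorem sPhi_u (C : QRing k t R) [CharP k 2] (h1 : ∀ c : W₁, C.Q • c = 0)
    (h2 : ∀ c : W₂, C.Q • c = 0) (T : W₁ →ₗ[k] W₂ →ₗ[k] N) (c : W₁) (x : W₂) :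
    sPhi C T ((C.u : R) • c) x = sPhi C T c ((C.u : R) • x) := by
  have e1 : (C.u : R) • (C.u : R) • c = (C.u : R) • c + t • c := by
    have h := h1 c
    rw [C.Q_eq, add_smul, add_smul, sAlg, pow_two, mul_smul] at h
    have h3 := sTwo (k := k) ((C.u : R) • c)
    have h4 := sTwo (k := k) (t • c)
    have h5 : (C.u : R) • (C.u : R) • c = ((C.u : R) • (C.u : R) • c + (C.u : R) • c + t • c)
        + ((C.u : R) • c + t • c) - ((C.u : R) • c + (C.u : R) • c) - (t • c + t • c) := by abel
    rw [h5, h, h3, h4, zero_add, sub_zero, sub_zero]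
  have e2 : (C.u : R) • (C.u : R) • x = (C.u : R) • x + t • x := by
    have h := h2 x
    rw [C.Q_eq, add_smul, add_smul, sAlg, pow_two, mul_smul] at h
    have h3 := sTwo (k := k) ((C.u : R) • x)
    have h4 := sTwo (k := k) (t • x)
    have h5 : (C.u : R) • (C.u : R) • x = ((C.u : R) • (C.u : R) • x + (C.u : R) • x + t • x)
        + ((C.u : R) • x + t • x) - ((C.u : R) • x + (C.u : R) • x) - (t • x + t • x) := by abel
    rw [h5, h, h3, h4, zero_add, sub_zero, sub_zero]
  unfold sPhi
  rw [e1, e2, map_add, LinearMap.add_apply, map_add, sT1, sT2]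
  have h6 := sTwo (k := k) (T ((C.u : R) • c) x)
  have h7 := sTwo (k := k) (T c ((C.u : R) • x))
  have h8 : T ((C.u : R) • c) x + t • T c x + T ((C.u : R) • c) ((C.u : R) • x)
      + T ((C.u : R) • c) x = (T ((C.u : R) • c) x + T ((C.u : R) • c) x)
        + (t • T c x + T ((C.u : R) • c) ((C.u : R) • x)) := by abel
  have h9 : T ((C.u : R) • c) ((C.u : R) • x) + (T c ((C.u : R) • x) + t • T c x)
      + T c ((C.u : R) • x) = (T c ((C.u : R) • x) + T c ((C.u : R) • x))
        + (t • T c x + T ((C.u : R) • c) ((C.u : R) • x)) := by abel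
  rw [h8, h9, h6, h7]

private theorem sPhi_hl (C : QRing k t R) (T : W₁ →ₗ[k] W₂ →ₗ[k] N) (c c' : W₁) (x : W₂) :
    sPhi C T (c + c') x = sPhi C T c x + sPhi C T c' x := by
  unfold sPhi
  rw [smul_add, map_add, map_add, LinearMap.add_apply, LinearMap.add_apply,
    LinearMap.add_apply]
  abel

private theorem sPhi_hr (C : QRing k t R) (T : W₁ →ₗ[k] W₂ →ₗ[k] N) (c : W₁) (x x' : W₂) :
    sPhi C T c (x + x') = sPhi C T c x + sPhi C T c x' := by
  unfold sPhi
  rw [smul_add, map_add, map_add, map_add]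
  abel

private theorem sPhi_hls (C : QRing k t R) (T : W₁ →ₗ[k] W₂ →ₗ[k] N) (r : k) (c : W₁) (x : W₂) :
    sPhi C T (r • c) x = r • sPhi C T c x := by
  unfold sPhi
  rw [smul_comm, sT1, sT1, sT1, smul_add, smul_add]

private theorem sPhi_hrs (C : QRing k t R) (T : W₁ →ₗ[k] W₂ →ₗ[k] N) (r : k) (c : W₁) (x : W₂) :
    sPhi C T c (r • x) = r • sPhi C T c x := by
  unfold sPhi
  rw [smul_comm, sT2, sT2, sT2, smul_add, smul_add]

/-- `sPhi` as a linear map of its first argument -/
private def sPhiL (C : QRing k t R) (T : W₁ →ₗ[k] W₂ →ₗ[k] N) (x : W₂) : W₁ →ₗ[k] N where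
  toFun c := sPhi C T c x
  map_add' c c' := sPhi_hl C T c c' x
  map_smul' r c := sPhi_hls C T r c x

private theorem sPhiL_apply (C : QRing k t R) (T : W₁ →ₗ[k] W₂ →ₗ[k] N) (x : W₂) (c : W₁) :
    sPhiL C T x c = sPhi C T c x := rfl

private theorem sPhi_comm (C : QRing k t R) [CharP k 2] (h1 : ∀ c : W₁, C.Q • c = 0)
    (h1' : ∀ c : W₁, C.w • c = 0) (h2 : ∀ c : W₂, C.Q • c = 0) (h2' : ∀ c : W₂, C.w • c = 0)
    (T : W₁ →ₗ[k] W₂ →ₗ[k] N) (a : R) :
    ∀ (c : W₁) (x : W₂), sPhi C T (a • c) x = sPhi C T c (a • x) := by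
  have hl := sPhi_hl C T
  have hr := sPhi_hr C T
  have hls := sPhi_hls C T
  have hrs := sPhi_hrs C T
  let S : Subalgebra k R :=
    { carrier := {a | ∀ (c : W₁) (x : W₂), sPhi C T (a • c) x = sPhi C T c (a • x)}
      mul_mem' := fun {a b} ha hb c x => by
        rw [mul_smul, ha, hb, ← mul_smul, mul_comm]
      one_mem' := fun c x => by rw [one_smul, one_smul]
      add_mem' := fun {a b} ha hb c x => by
        rw [add_smul, add_smul, hl, hr, ha, hb]
      zero_mem' := fun c x => by
        rw [zero_smul, zero_smul, ← zero_smul k c, hls, zero_smul, ← zero_smul k x, hrs, zero_smul]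
      algebraMap_mem' := fun r c x => by
        rw [algebraMap_smul, algebraMap_smul, hls, hrs] }
  have hu : (C.u : R) ∈ S := sPhi_u C h1 h2 T
  refine subalg_top C S hu ?_ ?_ a
  · intro c x
    have h3 := hu (((C.u⁻¹ : Rˣ) : R) • c) (((C.u⁻¹ : Rˣ) : R) • x)
    rw [smul_smul, smul_smul, Units.mul_inv, one_smul, one_smul] at h3
    exact h3.symm
  · intro c x
    rw [h1', h2', ← zero_smul k c, hls, zero_smul, ← zero_smul k x, hrs, zero_smul]

end central

/-! ### the section -/

/-- the column `j` -/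
def colV (k : Type) [Field k] {V : Type} [AddCommGroup V] [Module k V] (j : Fin 2) :
    Matrix (Fin 2) (Fin 2) V →ₗ[k] Matrix (Fin 2) Unit V where
  toFun M := fun i _ => M i j
  map_add' _ _ := rfl
  map_smul' _ _ := rfl

/-- the row with the entry `x` at the place `j` -/
def rowV (k : Type) [Field k] {V : Type} [AddCommGroup V] [Module k V] (j : Fin 2) :
    V →ₗ[k] Matrix Unit (Fin 2) V where
  toFun x := fun _ l => if l = j then x else 0
  map_add' x y := by
    ext a l
    change (if l = j then x + y else 0) = (if l = j then x else 0) + (if l = j then y else 0)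
    split_ifs
    · rfl
    · rw [add_zero]
  map_smul' c x := by
    ext a l
    change (if l = j then c • x else 0) = c • (if l = j then x else 0)
    split_ifs
    · rfl
    · rw [smul_zero]

theorem rowV_apply {V : Type} [AddCommGroup V] [Module k V] (j l : Fin 2) (x : V) (a : Unit) :
    rowV k j x a l = if l = j then x else 0 := rfl

/-- columns and rows over `R / w` -/
abbrev CR (C : QRing k t R) : Type :=
  Matrix (Fin 2) Unit (Vw C) ⊗[k] Matrix Unit (Fin 2) (Vw C)

private noncomputable def sT (C : QRing k t R) (j : Fin 2) :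
    Matrix (Fin 2) Unit (V0 C) →ₗ[k] V0 C →ₗ[k] CR C :=
  LinearMap.compl₁₂ (TensorProduct.mk k (Matrix (Fin 2) Unit (Vw C)) (Matrix Unit (Fin 2) (Vw C)))
    (mM k (Fin 2) Unit (iw C)) ((rowV k j).comp ((iw C).restrictScalars k))

private theorem sT_apply (C : QRing k t R) (j : Fin 2) (c : Matrix (Fin 2) Unit (V0 C))
    (x : V0 C) : sT C j c x = mM k (Fin 2) Unit (iw C) c ⊗ₜ[k] rowV k j (iw C x) := rfl

/-- the section `M ↦ ∑ j, (M e_j ⊗ e_j) (u ⊗ 1 + 1 ⊗ u + 1 ⊗ 1)` -/
noncomputable def sS (C : QRing k t R) : Matrix (Fin 2) (Fin 2) (V0 C) →ₗ[k] CR C :=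
  ∑ j : Fin 2, (sPhiL C (sT C j) (q0 C 1)).comp (colV k j)

private theorem sS_apply (C : QRing k t R) (M : Matrix (Fin 2) (Fin 2) (V0 C)) :
    sS C M = ∑ j : Fin 2, sPhi C (sT C j) (colV k j M) (q0 C 1) := by
  unfold sS
  rw [LinearMap.sum_apply]
  rfl

theorem mL_smul {V : Type} [AddCommGroup V] [Module k V] [Module R V] [IsScalarTower k R V]
    {I J L : Type} [Fintype J] (r : R) (a : Matrix I J R) (c : Matrix J L V) :
    mL k R V I J L a (r • c) = r • mL k R V I J L a c := by
  ext i l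
  change ∑ j, a i j • (r • c j l) = r • ∑ j, a i j • c j l
  rw [Finset.smul_sum]
  exact Finset.sum_congr rfl fun j _ => smul_comm _ _ _

theorem sS_left (C : QRing k t R) (a : Matrix (Fin 2) (Fin 2) R)
    (M : Matrix (Fin 2) (Fin 2) (V0 C)) :
    TensorProduct.map (mL k R (Vw C) (Fin 2) (Fin 2) Unit a) LinearMap.id (sS C M)
      = sS C (mL k R (V0 C) (Fin 2) (Fin 2) (Fin 2) a M) := by
  have h : ∀ (j : Fin 2) (c : Matrix (Fin 2) Unit (V0 C)) (x : V0 C),
      TensorProduct.map (mL k R (Vw C) (Fin 2) (Fin 2) Unit a) LinearMap.id (sT C j c x)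
        = sT C j (mL k R (V0 C) (Fin 2) (Fin 2) Unit a c) x := by
    intro j c x
    rw [sT_apply, sT_apply, TensorProduct.map_tmul, mM_mL, LinearMap.id_apply]
  rw [sS_apply, sS_apply, map_sum]
  refine Finset.sum_congr rfl fun j _ => ?_
  have e : colV k j (mL k R (V0 C) (Fin 2) (Fin 2) (Fin 2) a M)
      = mL k R (V0 C) (Fin 2) (Fin 2) Unit a (colV k j M) := rfl
  unfold sPhi
  rw [map_add, map_add, h, h, h, e, mL_smul]

private theorem sRow (C : QRing k t R) (a : Matrix (Fin 2) (Fin 2) R) (l : Fin 2) (y : Vw C) :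
    mR k R (Vw C) Unit (Fin 2) (Fin 2) (rowV k l y) a = ∑ j : Fin 2, rowV k j (a l j • y) := by
  ext b j'
  rw [mR_apply, Matrix.sum_apply]
  rw [Finset.sum_eq_single l, Finset.sum_eq_single j']
  · rw [rowV_apply, rowV_apply, if_pos rfl, if_pos rfl]
  · intro j _ hj
    rw [rowV_apply, if_neg hj.symm]
  · intro h
    exact absurd (Finset.mem_univ j') h
  · intro m _ hm
    rw [rowV_apply, if_neg hm, smul_zero]
  · intro h
    exact absurd (Finset.mem_univ l) h

theorem sS_right (C : QRing k t R) [CharP k 2] (a : Matrix (Fin 2) (Fin 2) R)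
    (M : Matrix (Fin 2) (Fin 2) (V0 C)) :
    TensorProduct.map LinearMap.id ((mR k R (Vw C) Unit (Fin 2) (Fin 2)).flip a) (sS C M)
      = sS C (mR k R (V0 C) (Fin 2) (Fin 2) (Fin 2) M a) := by
  have h : ∀ (l : Fin 2) (c : Matrix (Fin 2) Unit (V0 C)) (x : V0 C),
      TensorProduct.map LinearMap.id ((mR k R (Vw C) Unit (Fin 2) (Fin 2)).flip a) (sT C l c x)
        = ∑ j : Fin 2, sT C j c (a l j • x) := by
    intro l c x
    rw [sT_apply, TensorProduct.map_tmul, LinearMap.flip_apply, sRow, TensorProduct.tmul_sum,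
      LinearMap.id_apply]
    refine Finset.sum_congr rfl fun j _ => ?_
    rw [sT_apply, (iw C).map_smul]
  have hP : ∀ (l : Fin 2) (c : Matrix (Fin 2) Unit (V0 C)) (x : V0 C),
      TensorProduct.map LinearMap.id ((mR k R (Vw C) Unit (Fin 2) (Fin 2)).flip a)
        (sPhi C (sT C l) c x) = ∑ j : Fin 2, sPhi C (sT C j) c (a l j • x) := by
    intro l c x
    unfold sPhi
    rw [map_add, map_add, h, h, h, ← Finset.sum_add_distrib, ← Finset.sum_add_distrib]
    refine Finset.sum_congr rfl fun j _ => ?_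
    rw [smul_comm (a l j) (C.u : R) x]
  have h1 : ∀ x : V0 C, C.Q • x = 0 := fun x => by rw [q0_smul, q0_Q, zero_mul]
  have h2 : ∀ x : V0 C, C.w • x = 0 := fun x => by rw [q0_smul, q0_w, zero_mul]
  have h1' : ∀ c : Matrix (Fin 2) Unit (V0 C), C.Q • c = 0 := fun c => by
    ext i j
    exact h1 _
  have h2' : ∀ c : Matrix (Fin 2) Unit (V0 C), C.w • c = 0 := fun c => by
    ext i j
    exact h2 _
  have hc : ∀ j : Fin 2, colV k j (mR k R (V0 C) (Fin 2) (Fin 2) (Fin 2) M a)
      = ∑ l : Fin 2, a l j • colV k l M := by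
    intro j
    ext i b
    rw [Matrix.sum_apply]
    rfl
  rw [sS_apply, sS_apply, map_sum]
  calc ∑ l : Fin 2, TensorProduct.map LinearMap.id
          ((mR k R (Vw C) Unit (Fin 2) (Fin 2)).flip a) (sPhi C (sT C l) (colV k l M) (q0 C 1))
      = ∑ l : Fin 2, ∑ j : Fin 2, sPhi C (sT C j) (colV k l M) (a l j • q0 C 1) :=
        Finset.sum_congr rfl fun l _ => hP l _ _
    _ = ∑ j : Fin 2, ∑ l : Fin 2, sPhi C (sT C j) (colV k l M) (a l j • q0 C 1) :=
        Finset.sum_comm
    _ = ∑ j : Fin 2, sPhi C (sT C j)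
          (colV k j (mR k R (V0 C) (Fin 2) (Fin 2) (Fin 2) M a)) (q0 C 1) := by
        refine Finset.sum_congr rfl fun j _ => ?_
        rw [hc, ← sPhiL_apply, map_sum]
        refine Finset.sum_congr rfl fun l _ => ?_
        rw [sPhiL_apply]
        exact (sPhi_comm C h1' h2' h1 h2 (sT C j) (a l j) _ _).symm

/-! ### the retraction -/

private theorem pw_ks (C : QRing k t R) (c : k) (x : Vw C) : pw C (c • x) = c • pw C x :=
  (pw C).map_smul_of_tower c x

/-- column times row, with values in `R / (Q, w)` -/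
private noncomputable def piL (C : QRing k t R) : Matrix (Fin 2) Unit (Vw C) →ₗ[k]
    Matrix Unit (Fin 2) (Vw C) →ₗ[k] Matrix (Fin 2) (Fin 2) (V0 C) :=
  LinearMap.mk₂ k (fun c r => fun i j => pw C (c i ()) * pw C (r () j))
    (fun c c' r => by
      ext i j
      change pw C (c i () + c' i ()) * pw C (r () j)
        = pw C (c i ()) * pw C (r () j) + pw C (c' i ()) * pw C (r () j)
      rw [map_add, add_mul])
    (fun x c r => by
      ext i j
      change pw C (x • c i ()) * pw C (r () j) = x • (pw C (c i ()) * pw C (r () j))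
      rw [pw_ks, smul_mul_assoc])
    (fun c r r' => by
      ext i j
      change pw C (c i ()) * pw C (r () j + r' () j)
        = pw C (c i ()) * pw C (r () j) + pw C (c i ()) * pw C (r' () j)
      rw [map_add, mul_add])
    (fun x c r => by
      ext i j
      change pw C (c i ()) * pw C (x • r () j) = x • (pw C (c i ()) * pw C (r () j))
      rw [pw_ks, mul_smul_comm])

/-- column times row, with values in `R / (Q, w)` -/
noncomputable def sP (C : QRing k t R) : CR C →ₗ[k] Matrix (Fin 2) (Fin 2) (V0 C) :=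
  TensorProduct.lift (piL C)

theorem sP_tmul (C : QRing k t R) (c : Matrix (Fin 2) Unit (Vw C))
    (r : Matrix Unit (Fin 2) (Vw C)) (i j : Fin 2) :
    sP C (c ⊗ₜ[k] r) i j = pw C (c i ()) * pw C (r () j) := rfl

theorem sP_left (C : QRing k t R) (a : Matrix (Fin 2) (Fin 2) R) (z : CR C) :
    sP C (TensorProduct.map (mL k R (Vw C) (Fin 2) (Fin 2) Unit a) LinearMap.id z)
      = mL k R (V0 C) (Fin 2) (Fin 2) (Fin 2) a (sP C z) := by
  induction z using TensorProduct.induction_on with
  | zero => rw [map_zero, map_zero, map_zero]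
  | tmul c r =>
    rw [TensorProduct.map_tmul]
    ext i j
    rw [sP_tmul, mL_apply, mL_apply, LinearMap.id_apply, map_sum, Finset.sum_mul]
    refine Finset.sum_congr rfl fun l _ => ?_
    rw [sP_tmul, map_smul, smul_mul_assoc]
  | add x y hx hy => rw [map_add, map_add, map_add, map_add, hx, hy]

theorem sP_right (C : QRing k t R) (a : Matrix (Fin 2) (Fin 2) R) (z : CR C) :
    sP C (TensorProduct.map LinearMap.id ((mR k R (Vw C) Unit (Fin 2) (Fin 2)).flip a) z)
      = mR k R (V0 C) (Fin 2) (Fin 2) (Fin 2) (sP C z) a := by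
  induction z using TensorProduct.induction_on with
  | zero => rw [map_zero, map_zero, map_zero, LinearMap.zero_apply]
  | tmul c r =>
    rw [TensorProduct.map_tmul]
    ext i j
    rw [sP_tmul, LinearMap.flip_apply, mR_apply, mR_apply, LinearMap.id_apply, map_sum,
      Finset.mul_sum]
    refine Finset.sum_congr rfl fun l _ => ?_
    rw [sP_tmul, map_smul, mul_smul_comm]
  | add x y hx hy =>
    rw [map_add, map_add, map_add, map_add, LinearMap.add_apply, hx, hy]

theorem sP_sS (C : QRing k t R) [CharP k 2] (M : Matrix (Fin 2) (Fin 2) (V0 C)) :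
    sP C (sS C M) = M := by
  ext i j'
  have h : ∀ (j : Fin 2) (c : Matrix (Fin 2) Unit (V0 C)) (x : V0 C),
      sP C (sT C j c x) i j' = c i () * (if j' = j then x else 0) := by
    intro j c x
    rw [sT_apply, sP_tmul, mM_apply, pw_iw, rowV_apply]
    split_ifs
    · rw [pw_iw]
    · rw [map_zero]
  have hP : ∀ (j : Fin 2) (c : Matrix (Fin 2) Unit (V0 C)) (x : V0 C),
      sP C (sPhi C (sT C j) c x) i j' = c i () * (if j' = j then x else 0) := by
    intro j c x
    unfold sPhi
    rw [map_add, map_add, Matrix.add_apply, Matrix.add_apply, h, h, h]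
    change (C.u : R) • c i () * _ + _ + _ = _
    split_ifs
    · rw [smul_mul_assoc, mul_smul_comm, sTwo (k := k), zero_add]
    · simp only [mul_zero, add_zero]
  rw [sS_apply, map_sum, Matrix.sum_apply, Finset.sum_eq_single j']
  · rw [hP, if_pos rfl]
    exact mul_one (M i j')
  · intro j _ hj
    rw [hP, if_neg hj.symm, mul_zero]
  · intro h
    exact absurd (Finset.mem_univ j') h

end H36.QX
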