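import Pool.Agent.H36.QX.ExP
import Pool.Agent.H36.QX.SLocQ
import Pool.Agent.H16.QE.CornQI

/-!
# PEx : `i : A → A⁺` induces a quasi-isomorphism on Hochschild complexes
-/

set_option autoImplicit false

open NC

noncomputable section

namespace H36.QX

open H36.NX

variable {k : Type} [Field k] {t : k} {R : Type} [CommRing R] [Algebra k R]
  {C : QRing k t R} {S : Type} [CommRing S] [Algebra k S] (L : SRing C S)
  {K : Type} [Field K] [Algebra k K]

/-- the small charts are contained in the large ones with the same cohomology -/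
theorem pExt (E : QRoot k t K) : PExt C.psy L.psy L.ι where
  inj := L.inj
  X _ _ := Iff.rfl
  Y _ _ := ⟨fun h => L.of_ι_mem_Y E h, fun h => L.ι_mem_Y h⟩
  YR n x := by
    obtain ⟨r, hr⟩ := L.exists_sub_mem_Y E n x
    exact ⟨r, _, hr, by rw [add_sub_cancel]⟩

theorem uinv_mem_Y (C : QRing k t R) : ((C.u⁻¹ : Rˣ) : R) ∈ C.Y (-1) := by
  have h : ((C.u⁻¹ : Rˣ) : R) = C.bas (-1, 0) := by
    rw [C.Mul_bas0, zpow_neg_one]
  rw [h, C.mem_Y_iff]
  intro m a hm
  rw [Module.Basis.repr_self, Finsupp.single_apply, if_neg]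
  intro he
  have h1 := congrArg Prod.fst he
  have h2 := congrArg Prod.snd he
  simp only at h1 h2
  subst h1
  subst h2
  norm_num at hm

theorem u_mem_Y (C : QRing k t R) : (C.u : R) ∈ C.Y 1 := by
  have h : (C.u : R) = C.bas (1, 0) := by
    rw [C.Mul_bas0, zpow_one]
  rw [h, C.mem_Y_iff]
  intro m a hm
  rw [Module.Basis.repr_self, Finsupp.single_apply, if_neg]
  intro he
  have h1 := congrArg Prod.fst he
  have h2 := congrArg Prod.snd he
  simp only at h1 h2
  subst h1
  subst h2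
  norm_num at hm

/-- two sections of `O(1)` without common zero -/
def pUn : PUn L.psy where
  u := L.ι (C.u : R)
  ui := L.ι ((C.u⁻¹ : Rˣ) : R)
  ui_u := by rw [← map_mul, Units.inv_mul, map_one]
  oneX _ := ⟨1, C.one_mem_X, map_one L.ι⟩
  uX := ⟨_, C.u_mem_X, rfl⟩
  oneY := by
    have h := L.ι_mem_Y (C.one_mem_Y (n := 1) (by norm_num))
    rwa [map_one] at h
  uY := L.ι_mem_Y (u_mem_Y C)
  uiY := L.ι_mem_Y (uinv_mem_Y C)

/-- **`HC(i)` is a quasi-isomorphism** -/
theorem qi_iA (E : QRoot k t K) : (hcA (iA L)).QI :=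
  hcA_emb_QI (pExt L E) (pUn L) (rzA C) (rzP L) (embOK_ι L) rfl rfl rfl rfl rfl

theorem qi_izA (E : QRoot k t K) : (hcA (izA L).nh).QI := qi_iA L E

end H36.QX
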