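import Pool.Agent.H36.QX.GBim
import Pool.Agent.H36.QX.Coh

/-!
# Qs : the graded bimodule `Qs = ⊕ Q n` (`n ≥ 0`), inside Čech matrices over `R[T]`, and the action of the Rees algebra
`Bh = ⊕ B n T^n ⊂ R[T]`
-/

set_option autoImplicit false

open NC Polynomial

namespace H36.QX

open H36.NX
variable {k : Type} [Field k] {t : k} {R : Type} [CommRing R] [Algebra k R]

/-- entries of `Qs`: the coefficient of `T^n` is in the piece of degree `n + j - i` -/
noncomputable def qsF (C : QRing k t R) (s : Pc) (i j : Fin 2) : Submodule k R[X] where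
  carrier := {p | ∀ n : ℕ, p.coeff n ∈ C.pc s (wtn n j - wt i)}
  add_mem' := fun ha hb n => by rw [coeff_add]; exact Submodule.add_mem _ (ha n) (hb n)
  zero_mem' := fun n => by rw [coeff_zero]; exact Submodule.zero_mem _
  smul_mem' := fun c p hp n => by rw [coeff_smul]; exact Submodule.smul_mem _ c (hp n)

theorem mem_qsF (C : QRing k t R) (s : Pc) (i j : Fin 2) (p : R[X]) :
    p ∈ qsF C s i j ↔ ∀ n : ℕ, p.coeff n ∈ C.pc s (wtn n j - wt i) := Iff.rfl

/-- the data of the bimodule `Qs` -/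
noncomputable def qsG (C : QRing k t R) : GData C R[X] where
  l := CAlgHom
  r := CAlgHom
  F := qsF C
  top i j := by
    ext p
    simp only [mem_qsF, Submodule.mem_top, iff_true]
    exact fun n => Submodule.mem_top
  lmem s i j m a ha x hx n := by
    change (Polynomial.C a * x).coeff n ∈ _
    rw [coeff_C_mul]
    have h := C.pc_mul_mem s ha (hx n)
    rwa [show wt j - wt i + (wtn n m - wt j) = wtn n m - wt i by ring] at h
  rmem s i j m x hx a ha n := by
    change (x * Polynomial.C a).coeff n ∈ _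
    rw [coeff_mul_C]
    have h := C.pc_mul_mem s (hx n) ha
    rwa [show wtn n j - wt i + (wt m - wt j) = wtn n m - wt i by simp only [wtn, wt]; ring] at h

/-- the bimodule `Qs` -/
noncomputable def Qs (C : QRing k t R) : BMod (AA C) (AA C) := (qsG C).bim

private theorem qs_B_mul (C : QRing k t R) {m n : ℤ} {a b : R} (ha : a ∈ C.B m)
    (hb : b ∈ C.B n) : a * b ∈ C.B (m + n) :=
  Submodule.mem_inf.2 ⟨C.mul_mem_X (Submodule.mem_inf.1 ha).1 (Submodule.mem_inf.1 hb).1,
    C.mul_mem_Y (Submodule.mem_inf.1 ha).2 (Submodule.mem_inf.1 hb).2⟩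

private theorem qs_B_zero (C : QRing k t R) : (1 : R) ∈ C.B ((0 : ℕ) : ℤ) :=
  Submodule.mem_inf.2 ⟨C.one_mem_X, C.one_mem_Y (by simp)⟩

private theorem qs_B_pc (C : QRing k t R) (s : Pc) {n : ℤ} {a : R} (ha : a ∈ C.B n) :
    a ∈ C.pc s n := by
  cases s with
  | X => exact (Submodule.mem_inf.1 ha).1
  | Y => exact (Submodule.mem_inf.1 ha).2
  | R => exact Submodule.mem_top

/-- the Rees algebra `⊕ B n T^n` -/
noncomputable def Bh (C : QRing k t R) : Subalgebra k R[X] where
  carrier := {p | ∀ n : ℕ, p.coeff n ∈ C.B n}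
  mul_mem' := by
    intro p q hp hq n
    rw [coeff_mul]
    refine Submodule.sum_mem _ fun x hx => ?_
    have h := qs_B_mul C (hp x.1) (hq x.2)
    rw [Finset.HasAntidiagonal.mem_antidiagonal] at hx
    rwa [← Nat.cast_add, hx] at h
  one_mem' := by
    intro n
    rw [coeff_one]
    split_ifs with h
    · rw [h]
      exact qs_B_zero C
    · exact Submodule.zero_mem _
  add_mem' := fun ha hb n => by rw [coeff_add]; exact Submodule.add_mem _ (ha n) (hb n)
  zero_mem' := fun n => by rw [coeff_zero]; exact Submodule.zero_mem _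
  algebraMap_mem' := by
    intro r n
    rw [Polynomial.algebraMap_apply, coeff_C]
    split_ifs with h
    · rw [h, Algebra.algebraMap_eq_smul_one]
      exact Submodule.smul_mem _ r (qs_B_zero C)
    · exact Submodule.zero_mem _

theorem mem_Bh (C : QRing k t R) (p : R[X]) : p ∈ Bh C ↔ ∀ n : ℕ, p.coeff n ∈ C.B n := Iff.rfl

theorem Bh_mul_qsF (C : QRing k t R) (s : Pc) (i j : Fin 2) (p : R[X]) (hp : p ∈ Bh C)
    (x : R[X]) (hx : x ∈ qsF C s i j) : p * x ∈ qsF C s i j := by
  intro n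
  rw [coeff_mul]
  refine Submodule.sum_mem _ fun y hy => ?_
  have h := C.pc_mul_mem s (qs_B_pc C s (hp y.1)) (hx y.2)
  rw [Finset.HasAntidiagonal.mem_antidiagonal] at hy
  have h2 : ((y.1 : ℕ) : ℤ) + (wtn ((y.2 : ℕ) : ℤ) j - wt i) = wtn ((n : ℕ) : ℤ) j - wt i := by
    rw [← hy]
    simp only [wtn, wt]
    push_cast
    ring
  rwa [h2] at h

private theorem qs_sD {S : Type} [CommRing S] [Algebra k S] (p : S)
    (f : Pc → Matrix (Fin 2) (Fin 2) S) :
    (fun s => p • cD k _ f s) = cD k _ (fun s => p • f s) := by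
  funext s; cases s <;> simp [smul_sub]

private theorem qs_sP {S : Type} [CommRing S] [Algebra k S] (p : S)
    (f : Pc → Matrix (Fin 2) (Fin 2) S) :
    (fun s => p • cP k _ f s) = cP k _ (fun s => p • f s) := by
  funext s; cases s <;> simp

private theorem qs_gl {S : Type} [CommRing S] [Algebra k S] (l : R →ₐ[k] S) (p : S)
    (a : Pc → Matrix (Fin 2) (Fin 2) R) (f : Pc → Matrix (Fin 2) (Fin 2) S) :
    (fun s => p • cMul k (gl l) a f s) = cMul k (gl l) a (fun s => p • f s) := by
  funext s; cases s <;> simp [smul_add]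

private theorem qs_gr {S : Type} [CommRing S] [Algebra k S] (r : R →ₐ[k] S) (p : S)
    (f : Pc → Matrix (Fin 2) (Fin 2) S) (a : Pc → Matrix (Fin 2) (Fin 2) R) :
    (fun s => p • cMul k (gr r) f a s) = cMul k (gr r) (fun s => p • f s) a := by
  funext s; cases s <;> simp [smul_add]

/-- multiplication of all entries by an element of the Rees algebra -/
noncomputable def bhMul (C : QRing k t R) (p : Bh C) :
    (Qs C).N.V →ₗ[k] (Qs C).N.V where
  toFun f := (qsG C).cm (fun s => (p : R[X]) • (qsG C).v f s)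
    (fun s i j => Bh_mul_qsF C s i j p p.2 _ ((qsG C).v_mem f s i j))
  map_add' f g := (qsG C).ext (funext fun s =>
    smul_add (p : R[X]) ((qsG C).v f s) ((qsG C).v g s))
  map_smul' c f := (qsG C).ext (funext fun s =>
    smul_comm (p : R[X]) c ((qsG C).v f s))

theorem v_bhMul (C : QRing k t R) (p : Bh C) (f : (Qs C).N.V) (s : Pc) (i j : Fin 2) :
    (qsG C).v (bhMul C p f) s i j = (p : R[X]) * (qsG C).v f s i j := rfl

private theorem qs_v (C : QRing k t R) (p : Bh C) (f : (Qs C).N.V) :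
    (qsG C).v (bhMul C p f) = fun s => (p : R[X]) • (qsG C).v f s := rfl

/-- multiplication by an element of the Rees algebra is a bimodule map -/
noncomputable def bhH (C : QRing k t R) (p : Bh C) : BMod.Hom (Qs C) (Qs C) where
  f := bhMul C p
  D v := (qsG C).ext (qs_sD (k := k) (p : R[X]) ((qsG C).v v))
  P v := (qsG C).ext (qs_sP (k := k) (p : R[X]) ((qsG C).v v))
  isHom :=
    { l := fun a v => (qsG C).ext (qs_gl (k := k) CAlgHom (p : R[X]) (av C a) ((qsG C).v v))
      r := fun v a => (qsG C).ext (qs_gr (k := k) CAlgHom (p : R[X]) ((qsG C).v v) (av C a)) }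

theorem bhMul_add (C : QRing k t R) (p q : Bh C) (f : (Qs C).N.V) :
    bhMul C (p + q) f = bhMul C p f + bhMul C q f :=
  (qsG C).ext (funext fun s => add_smul (p : R[X]) (q : R[X]) ((qsG C).v f s))

theorem bhMul_mul (C : QRing k t R) (p q : Bh C) (f : (Qs C).N.V) :
    bhMul C (p * q) f = bhMul C p (bhMul C q f) :=
  (qsG C).ext (funext fun s => mul_smul (p : R[X]) (q : R[X]) ((qsG C).v f s))

theorem bhMul_one (C : QRing k t R) (f : (Qs C).N.V) : bhMul C 1 f = f :=
  (qsG C).ext (funext fun s => one_smul R[X] ((qsG C).v f s))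

theorem bhMul_algebraMap (C : QRing k t R) (c : k) (f : (Qs C).N.V) :
    bhMul C (algebraMap k (Bh C) c) f = c • f :=
  (qsG C).ext (funext fun s => algebraMap_smul R[X] c ((qsG C).v f s))

private theorem qs_bx (C : QRing k t R) (d : ℕ) {r : R} (h : r ∈ C.B ((d : ℕ) : ℤ)) :
    (monomial d r : R[X]) ∈ Bh C := by
  intro n
  rw [coeff_monomial]
  split_ifs with h1
  · rw [← h1]
    exact h
  · exact Submodule.zero_mem _

/-- the elements `x`, `y` of degree 1 and `z` of degree 2 of the Rees algebra: `T`, `u T`, `w T^2` -/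
noncomputable def bx (C : QRing k t R) : Fin 3 → Bh C
  | 0 => ⟨monomial 1 1, qs_bx C 1 (Submodule.mem_inf.2 ⟨C.one_mem_X, C.one_mem_Y (by simp)⟩)⟩
  | 1 => ⟨monomial 1 (C.u : R), qs_bx C 1 (Submodule.mem_inf.2 ⟨C.u_mem_X, by
      simpa using C.upow_mem_Y (le_refl (1 : ℤ))⟩)⟩
  | 2 => ⟨monomial 2 C.w, qs_bx C 2 (Submodule.mem_inf.2 ⟨C.w_mem_X, C.w_mem_Y (by simp)⟩)⟩

/-- the equation of the curve: `q = y^2 + x y + t x^2`, `z^2 = q z + (t + 1) q^2 + x^2 q` -/
theorem bx_rel (C : QRing k t R) (q : Bh C)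
    (hq : q = bx C 1 ^ 2 + bx C 0 * bx C 1 + algebraMap k (Bh C) t * bx C 0 ^ 2) :
    bx C 2 ^ 2 - q * bx C 2 - algebraMap k (Bh C) (t + 1) * q ^ 2 - bx C 0 ^ 2 * q = 0 := by
  apply Subtype.ext
  subst hq
  have h0 : ((bx C 0 : Bh C) : R[X]) = X := by
    change monomial 1 (1 : R) = X
    rfl
  have h1 : ((bx C 1 : Bh C) : R[X]) = Polynomial.C (C.u : R) * X := by
    change monomial 1 (C.u : R) = _
    rw [← C_mul_X_eq_monomial]
  have h2 : ((bx C 2 : Bh C) : R[X]) = Polynomial.C C.w * X ^ 2 := by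
    change monomial 2 C.w = _
    rw [← C_mul_X_pow_eq_monomial]
  have ha : ∀ c : k, ((algebraMap k (Bh C) c : Bh C) : R[X]) = Polynomial.C (algebraMap k R c) :=
    fun c => rfl
  have hrel := congrArg Polynomial.C C.rel
  simp only [map_add, map_mul, map_pow] at hrel
  simp only [Subalgebra.coe_sub, Subalgebra.coe_mul, Subalgebra.coe_pow, Subalgebra.coe_add,
    Subalgebra.coe_zero, h0, h1, h2, ha, map_add]
  clear h0 h1 h2 ha
  linear_combination (X : R[X]) ^ 4 * hrel

end H36.QX
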