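import Pool.Agent.H36.QX.Mul

/-!
# Reg : sections `s` of `O(d)` which do not vanish at the points with `x = 0` or `y = 0`

For such a section `X + s R = R`, `X ∩ s R = s X`, `Y n + s R = R`, `Y n ∩ s R = s Y (n - d)`, so that the quotient
of the Čech complex of `O(n)` by the image of `s` is the Čech complex of `R / s R`.
-/

set_option autoImplicit false

namespace H36.QX

open H36.NX

variable {k : Type} [Field k] {t : k} {R : Type} [CommRing R] [Algebra k R]

/-- `s` is a section of `O(d)` which does not vanish at the points with `x = 0` or `y = 0` -/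
structure Reg (C : QRing k t R) (s : R) (d : ℤ) : Prop where
  memX : s ∈ C.X
  memY : s ∈ C.Y d
  chartX : ∃ s' ∈ C.X, ∃ c : k, c ≠ 0 ∧ ∃ p ∈ C.X, s * s' = algebraMap k R c + (C.u : R) * p
  chartY : ∃ e : ℤ, ∃ s' ∈ C.Y e, ∃ c : k, c ≠ 0 ∧ ∃ q ∈ C.Y (d + e - 1),
    s * s' = algebraMap k R c * ((C.u ^ (d + e) : Rˣ) : R) + q

namespace Reg

variable {C : QRing k t R} {s : R} {d : ℤ}

private theorem reg_inv (R : Type) [CommRing R] [Algebra k R] {c : k} (hc : c ≠ 0) :
    algebraMap k R c⁻¹ * algebraMap k R c = 1 := by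
  rw [← map_mul, inv_mul_cancel₀ hc, map_one]

private theorem reg_smul_mem (P : Submodule k R) (c : k) {r : R} (h : r ∈ P) :
    algebraMap k R c * r ∈ P := by
  rw [← Algebra.smul_def]
  exact P.smul_mem c h

private theorem reg_smul_mem_iff (P : Submodule k R) {c : k} (hc : c ≠ 0) {r : R}
    (h : algebraMap k R c * r ∈ P) : r ∈ P := by
  have h1 := reg_smul_mem P c⁻¹ h
  rwa [← mul_assoc, reg_inv R hc, one_mul] at h1

private theorem reg_u (C : QRing k t R) (m n : ℤ) :
    ((C.u ^ m : Rˣ) : R) * ((C.u ^ n : Rˣ) : R) = ((C.u ^ (m + n) : Rˣ) : R) := by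
  rw [← Units.val_mul, ← zpow_add]

private theorem reg_u0 (C : QRing k t R) (m : ℤ) :
    ((C.u ^ (-m) : Rˣ) : R) * ((C.u ^ m : Rˣ) : R) = 1 := by
  rw [reg_u, neg_add_cancel, zpow_zero, Units.val_one]

private theorem reg_Yu {m n : ℤ} {r : R} (h : r ∈ C.Y n) :
    ((C.u ^ m : Rˣ) : R) * r ∈ C.Y (m + n) :=
  C.mul_mem_Y (C.upow_mem_Y le_rfl) h

/-- `X + s R = R` -/
theorem supX (h : Reg C s d) (r : R) : ∃ x ∈ C.X, ∃ z : R, r = x + s * z := by
  obtain ⟨s', hs', c, hc, p, hp, he⟩ := h.chartX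
  have key : ∀ (n : ℕ) (r : R), (C.u : R) ^ n * r ∈ C.X → ∃ x ∈ C.X, ∃ z : R, r = x + s * z := by
    intro n
    induction n with
    | zero =>
      intro r hr
      exact ⟨r, by simpa using hr, 0, by ring⟩
    | succ n ih =>
      intro r hr
      obtain ⟨x, hx, z, hz⟩ := ih ((C.u : R) * p * r) (by
        have h1 := C.mul_mem_X hp hr
        rwa [show p * ((C.u : R) ^ (n + 1) * r) = (C.u : R) ^ n * ((C.u : R) * p * r) by ring] at h1)
      have hi := reg_inv R hc
      refine ⟨algebraMap k R c⁻¹ * (-x), reg_smul_mem _ _ (C.X.neg_mem hx),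
        algebraMap k R c⁻¹ * (s' * r - z), ?_⟩
      linear_combination (-r) * hi - algebraMap k R c⁻¹ * hz - algebraMap k R c⁻¹ * r * he
  obtain ⟨n, hn⟩ := C.exists_upow_mul_mem_X r
  exact key n r hn

/-- `X ∩ s R = s X` -/
theorem infX (h : Reg C s d) {z : R} (hz : s * z ∈ C.X) : z ∈ C.X := by
  obtain ⟨s', hs', c, hc, p, hp, he⟩ := h.chartX
  have key : ∀ (n : ℕ), (C.u : R) ^ n * z ∈ C.X → z ∈ C.X := by
    intro n
    induction n with
    | zero => intro h0; simpa using h0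
    | succ n ih =>
      intro h1
      refine ih (reg_smul_mem_iff C.X hc ?_)
      have e : algebraMap k R c * ((C.u : R) ^ n * z)
          = (C.u : R) ^ n * (s' * (s * z)) - p * ((C.u : R) ^ (n + 1) * z) := by
        linear_combination (-(C.u : R) ^ n * z) * he
      rw [e]
      have hu : ∀ m : ℕ, (C.u : R) ^ m ∈ C.X := by
        intro m
        induction m with
        | zero => rw [pow_zero]; exact C.one_mem_X
        | succ m ihm => rw [pow_succ]; exact C.mul_mem_X ihm C.u_mem_X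
      exact C.X.sub_mem (C.mul_mem_X (hu n) (C.mul_mem_X hs' hz)) (C.mul_mem_X hp h1)
  obtain ⟨n, hn⟩ := C.exists_upow_mul_mem_X z
  exact key n hn

/-- `Y n + s R = R` -/
theorem supY (h : Reg C s d) (n : ℤ) (r : R) : ∃ y ∈ C.Y n, ∃ z : R, r = y + s * z := by
  obtain ⟨e, s', hs', c, hc, q, hq, he⟩ := h.chartY
  have hi := reg_inv R hc
  have hu := reg_u0 C (d + e)
  have key : ∀ (j : ℕ) (r : R), r ∈ C.Y (n + j) → ∃ y ∈ C.Y n, ∃ z : R, r = y + s * z := by
    intro j
    induction j with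
    | zero =>
      intro r hr
      exact ⟨r, by simpa using hr, 0, by ring⟩
    | succ j ih =>
      intro r hr
      obtain ⟨y, hy, z, hz⟩ := ih (((C.u ^ (-(d + e)) : Rˣ) : R) * (q * r)) (by
        have h1 := reg_Yu (C := C) (m := -(d + e)) (C.mul_mem_Y hq hr)
        rwa [show -(d + e) + (d + e - 1 + (n + ((j + 1 : ℕ) : ℤ))) = n + (j : ℤ) by
          push_cast; ring] at h1)
      refine ⟨algebraMap k R c⁻¹ * (-y), reg_smul_mem _ _ ((C.Y n).neg_mem hy),
        algebraMap k R c⁻¹ * (((C.u ^ (-(d + e)) : Rˣ) : R) * (s' * r) - z), ?_⟩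
      linear_combination (-r) * hi - algebraMap k R c⁻¹ * hz
        - algebraMap k R c⁻¹ * ((C.u ^ (-(d + e)) : Rˣ) : R) * r * he
        - algebraMap k R c⁻¹ * algebraMap k R c * r * hu
  obtain ⟨m, hm⟩ := C.exists_mem_Y r
  exact key (m - n).toNat r (C.Y_mono (by omega) hm)

/-- `Y n ∩ s R = s Y (n - d)` -/
theorem infY (h : Reg C s d) {m n : ℤ} (hmn : m + d = n) {z : R} (hz : s * z ∈ C.Y n) :
    z ∈ C.Y m := by
  obtain ⟨e, s', hs', c, hc, q, hq, he⟩ := h.chartY
  have hu := reg_u0 C (d + e)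
  have key : ∀ (j : ℕ), z ∈ C.Y (m + j) → z ∈ C.Y m := by
    intro j
    induction j with
    | zero => intro h0; simpa using h0
    | succ j ih =>
      intro h1
      refine ih (reg_smul_mem_iff (C.Y (m + j)) hc ?_)
      have e1 : algebraMap k R c * z
          = ((C.u ^ (-(d + e)) : Rˣ) : R) * (s' * (s * z))
            - ((C.u ^ (-(d + e)) : Rˣ) : R) * (q * z) := by
        linear_combination (-((C.u ^ (-(d + e)) : Rˣ) : R) * z) * he
          - algebraMap k R c * z * hu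
      rw [e1]
      refine (C.Y _).sub_mem ?_ ?_
      · refine C.Y_mono ?_ (reg_Yu (C := C) (m := -(d + e)) (C.mul_mem_Y hs' hz))
        rw [← hmn]
        omega
      · refine C.Y_mono ?_ (reg_Yu (C := C) (m := -(d + e)) (C.mul_mem_Y hq h1))
        push_cast
        omega
  obtain ⟨n', hn'⟩ := C.exists_mem_Y z
  exact key (n' - m).toNat (C.Y_mono (by omega) hn')

end Reg

/-- `Q` -/
theorem reg_Q (C : QRing k t R) (h0 : t ≠ 0) : Reg C C.Q 2 where
  memX := C.Q_mem_X
  memY := C.Q_mem_Y le_rfl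
  chartX := ⟨1, C.one_mem_X, t, h0, (C.u : R) + 1, C.X.add_mem C.u_mem_X C.one_mem_X, by
    rw [C.Q_eq]; ring⟩
  chartY := ⟨0, 1, C.one_mem_Y le_rfl, 1, one_ne_zero, (C.u : R) + algebraMap k R t, by
    refine (C.Y _).add_mem ?_ ?_
    · have h := C.upow_mem_Y (m := 1) (n := 2 + 0 - 1) (by norm_num)
      rwa [zpow_one] at h
    · rw [Algebra.algebraMap_eq_smul_one]
      exact (C.Y _).smul_mem t (C.one_mem_Y (by norm_num)), by
    have h : ((C.u ^ ((2 : ℤ) + 0) : Rˣ) : R) = (C.u : R) ^ 2 := by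
      rw [add_zero]
      exact Units.val_pow_eq_pow_val C.u 2
    rw [h, C.Q_eq, map_one]
    ring⟩

/-- `w` -/
theorem reg_w (C : QRing k t R) (h0 : t ≠ 0) (h1 : t + 1 ≠ 0) (h2 : t ^ 2 + t + 1 ≠ 0) :
    Reg C C.w 2 where
  memX := C.w_mem_X
  memY := C.w_mem_Y le_rfl
  chartX := by
    have hu := C.u_mem_X
    have ha : ∀ c : k, algebraMap k R c ∈ C.X := fun c => by
      rw [Algebra.algebraMap_eq_smul_one]
      exact C.X.smul_mem c C.one_mem_X
    have hv : (C.u : R) + 1 ∈ C.X := C.X.add_mem hu C.one_mem_X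
    refine ⟨C.w - C.Q, C.X.sub_mem C.w_mem_X C.Q_mem_X, t * (t ^ 2 + t + 1),
      mul_ne_zero h0 h2, algebraMap k R (t + 1) * (algebraMap k R (2 * t) * ((C.u : R) + 1)
        + (C.u : R) * (((C.u : R) + 1) * ((C.u : R) + 1))) + ((C.u : R) + 1), ?_, ?_⟩
    · exact C.X.add_mem (C.mul_mem_X (ha _) (C.X.add_mem (C.mul_mem_X (ha _) hv)
        (C.mul_mem_X hu (C.mul_mem_X hv hv)))) hv
    · have h := C.rel'
      simp only [map_mul, map_add, map_pow, map_one, map_ofNat] at h ⊢
      rw [C.Q_eq] at h ⊢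
      linear_combination h
  chartY := by
    have hu : (C.u : R) ∈ C.Y 1 := by
      have h := C.upow_mem_Y (m := 1) (n := 1) le_rfl
      rwa [zpow_one] at h
    have ha : ∀ c : k, algebraMap k R c ∈ C.Y 0 := fun c => by
      rw [Algebra.algebraMap_eq_smul_one]
      exact (C.Y _).smul_mem c (C.one_mem_Y le_rfl)
    have hv : (C.u : R) + algebraMap k R t ∈ C.Y 1 :=
      (C.Y _).add_mem hu (C.Y_mono (by norm_num) (ha t))
    refine ⟨2, C.w - C.Q, (C.Y _).sub_mem (C.w_mem_Y le_rfl) (C.Q_mem_Y le_rfl), t + 1, h1,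
      algebraMap k R (t + 1) * (algebraMap k R 2 * ((C.u : R) * (C.u : R))
        * ((C.u : R) + algebraMap k R t)
        + ((C.u : R) + algebraMap k R t) * ((C.u : R) + algebraMap k R t)) + C.Q, ?_, ?_⟩
    · refine (C.Y _).add_mem ?_ (C.Q_mem_Y (by norm_num))
      have e1 : algebraMap k R 2 * ((C.u : R) * (C.u : R)) * ((C.u : R) + algebraMap k R t)
          ∈ C.Y 3 := by
        have := C.mul_mem_Y (C.mul_mem_Y (ha 2) (C.mul_mem_Y hu hu)) hv
        exact C.Y_mono (by norm_num) this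
      have e2 : ((C.u : R) + algebraMap k R t) * ((C.u : R) + algebraMap k R t) ∈ C.Y 3 :=
        C.Y_mono (by norm_num) (C.mul_mem_Y hv hv)
      have := C.mul_mem_Y (ha (t + 1)) ((C.Y _).add_mem e1 e2)
      exact C.Y_mono (by norm_num) this
    · have h : ((C.u ^ ((2 : ℤ) + 2) : Rˣ) : R) = (C.u : R) ^ 4 := by
        exact Units.val_pow_eq_pow_val C.u 4
      have hr := C.rel'
      rw [h]
      simp only [map_add, map_one, map_ofNat] at hr ⊢
      rw [C.Q_eq] at hr ⊢
      linear_combination hr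

end H36.QX
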