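import Pool.Agent.H36.QX.Bim
import Pool.Agent.H36.QX.Reg
import Pool.Agent.H36.NX.TensHom
import Pool.Agent.H36.NX.Coker

/-!
# RV : dg modules over `A` defined by a module `V` over the ring `R` of the overlap

`cSD k (Matrix I J V)` is the complex of Čech matrices with entries in `V`, `xSD k (Matrix I J V)` the module of
matrices with zero differential, on which `A` acts through its component on the chart `x ≠ 0`.
-/

set_option autoImplicit false

open NC

namespace H36.QX

open H36.NX

variable {k : Type} [Field k] {t : k} {R : Type} [CommRing R] [Algebra k R]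
variable {V V' V'' : Type} [AddCommGroup V] [Module k V] [Module R V] [IsScalarTower k R V]
  [AddCommGroup V'] [Module k V'] [Module R V'] [IsScalarTower k R V']
  [AddCommGroup V''] [Module k V''] [Module R V''] [IsScalarTower k R V'']
  {I J L M : Type}

/-- the product of a matrix over `R` and of a matrix over `V` -/
noncomputable def mL (k R V : Type) [Field k] [CommRing R] [Algebra k R] [AddCommGroup V]
    [Module k V] [Module R V] [IsScalarTower k R V] (I J L : Type) [Fintype J] :
    Matrix I J R →ₗ[k] Matrix J L V →ₗ[k] Matrix I L V :=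
  LinearMap.mk₂ k (fun a c => fun i l => ∑ j, a i j • c j l)
    (fun a a' c => by
      ext i l
      change ∑ j, (a i j + a' i j) • c j l = ∑ j, a i j • c j l + ∑ j, a' i j • c j l
      rw [← Finset.sum_add_distrib]
      exact Finset.sum_congr rfl fun j _ => add_smul _ _ _)
    (fun x a c => by
      ext i l
      change ∑ j, (x • a i j) • c j l = x • ∑ j, a i j • c j l
      rw [Finset.smul_sum]
      exact Finset.sum_congr rfl fun j _ => smul_assoc _ _ _)
    (fun a c c' => by
      ext i l
      change ∑ j, a i j • (c j l + c' j l) = ∑ j, a i j • c j l + ∑ j, a i j • c' j l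
      rw [← Finset.sum_add_distrib]
      exact Finset.sum_congr rfl fun j _ => smul_add _ _ _)
    (fun x a c => by
      ext i l
      change ∑ j, a i j • (x • c j l) = x • ∑ j, a i j • c j l
      rw [Finset.smul_sum]
      exact Finset.sum_congr rfl fun j _ => smul_comm _ _ _)

/-- the product of a matrix over `V` and of a matrix over `R` -/
noncomputable def mR (k R V : Type) [Field k] [CommRing R] [Algebra k R] [AddCommGroup V]
    [Module k V] [Module R V] [IsScalarTower k R V] (I J L : Type) [Fintype J] :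
    Matrix I J V →ₗ[k] Matrix J L R →ₗ[k] Matrix I L V :=
  LinearMap.mk₂ k (fun c a => fun i l => ∑ j, a j l • c i j)
    (fun c c' a => by
      ext i l
      change ∑ j, a j l • (c i j + c' i j) = ∑ j, a j l • c i j + ∑ j, a j l • c' i j
      rw [← Finset.sum_add_distrib]
      exact Finset.sum_congr rfl fun j _ => smul_add _ _ _)
    (fun x c a => by
      ext i l
      change ∑ j, a j l • (x • c i j) = x • ∑ j, a j l • c i j
      rw [Finset.smul_sum]
      exact Finset.sum_congr rfl fun j _ => smul_comm _ _ _)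
    (fun c a a' => by
      ext i l
      change ∑ j, (a j l + a' j l) • c i j = ∑ j, a j l • c i j + ∑ j, a' j l • c i j
      rw [← Finset.sum_add_distrib]
      exact Finset.sum_congr rfl fun j _ => add_smul _ _ _)
    (fun x c a => by
      ext i l
      change ∑ j, (x • a j l) • c i j = x • ∑ j, a j l • c i j
      rw [Finset.smul_sum]
      exact Finset.sum_congr rfl fun j _ => smul_assoc _ _ _)

theorem mL_apply [Fintype J] (a : Matrix I J R) (c : Matrix J L V) (i : I) (l : L) :
    mL k R V I J L a c i l = ∑ j, a i j • c j l := rfl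

theorem mR_apply [Fintype J] (c : Matrix I J V) (a : Matrix J L R) (i : I) (l : L) :
    mR k R V I J L c a i l = ∑ j, a j l • c i j := rfl

theorem mL_mul [Fintype J] [Fintype L] (a : Matrix I J R) (b : Matrix J L R) (c : Matrix L M V) :
    mL k R V I L M (matMul k R I J L a b) c = mL k R V I J M a (mL k R V J L M b c) := by
  ext i m
  rw [mL_apply, mL_apply, matMul_apply]
  simp only [Matrix.mul_apply, mL_apply, Finset.sum_smul, Finset.smul_sum, mul_smul]
  exact Finset.sum_comm

theorem mR_mul [Fintype J] [Fintype L] (c : Matrix I J V) (a : Matrix J L R) (b : Matrix L M R) :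
    mR k R V I L M (mR k R V I J L c a) b = mR k R V I J M c (matMul k R J L M a b) := by
  ext i m
  rw [mR_apply, mR_apply, matMul_apply]
  simp only [Matrix.mul_apply, mR_apply, Finset.sum_smul, Finset.smul_sum]
  rw [Finset.sum_comm]
  refine Finset.sum_congr rfl fun j _ => Finset.sum_congr rfl fun l _ => ?_
  rw [mul_comm, mul_smul]

theorem mL_mR [Fintype J] [Fintype L] (a : Matrix I J R) (c : Matrix J L V) (b : Matrix L M R) :
    mR k R V I L M (mL k R V I J L a c) b = mL k R V I J M a (mR k R V J L M c b) := by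
  ext i m
  rw [mR_apply, mL_apply]
  simp only [mR_apply, mL_apply, Finset.smul_sum]
  rw [Finset.sum_comm]
  refine Finset.sum_congr rfl fun j _ => Finset.sum_congr rfl fun l _ => ?_
  rw [smul_comm]

theorem mL_one [Fintype I] [DecidableEq I] (c : Matrix I J V) :
    mL k R V I I J (1 : Matrix I I R) c = c := by
  ext i j
  rw [mL_apply, Finset.sum_eq_single i]
  · rw [Matrix.one_apply_eq, one_smul]
  · intro l _ hl
    rw [Matrix.one_apply_ne hl.symm, zero_smul]
  · intro h
    exact absurd (Finset.mem_univ i) h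

theorem mR_one [Fintype J] [DecidableEq J] (c : Matrix I J V) :
    mR k R V I J J c (1 : Matrix J J R) = c := by
  ext i j
  rw [mR_apply, Finset.sum_eq_single j]
  · rw [Matrix.one_apply_eq, one_smul]
  · intro l _ hl
    rw [Matrix.one_apply_ne hl, zero_smul]
  · intro h
    exact absurd (Finset.mem_univ j) h

/-! ### Čech matrices over `V` -/

private theorem rv_lP (C : QRing k t R) {T N : Type} [AddCommGroup T] [Module k T]
    [AddCommGroup N] [Module k N] (m : Matrix (Fin 2) (Fin 2) R →ₗ[k] T →ₗ[k] N) (a : (AA C).V)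
    (y : Pc → T) : cP k N (cMul k m (av C a) y)
      = cMul k m (av C ((AA C).P a)) (cP k T y) + cMul k m (av C (a - (AA C).P a)) (y - cP k T y) := by
  rw [av_sub_P, av_P]
  exact cMul_P k m _ _

private theorem rv_lD (C : QRing k t R) {T N : Type} [AddCommGroup T] [Module k T]
    [AddCommGroup N] [Module k N] (m : Matrix (Fin 2) (Fin 2) R →ₗ[k] T →ₗ[k] N) (a : (AA C).V)
    (y : Pc → T) : cD k N (cMul k m (av C a) y)
      = cMul k m (av C ((AA C).D a)) y + cMul k m (av C ((AA C).E a)) (cD k T y) := by
  rw [av_E, av_D]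
  exact cMul_D k m _ _

private theorem rv_rP (C : QRing k t R) {T N : Type} [AddCommGroup T] [Module k T]
    [AddCommGroup N] [Module k N] (m : T →ₗ[k] Matrix (Fin 2) (Fin 2) R →ₗ[k] N) (x : Pc → T)
    (a : (AA C).V) : cP k N (cMul k m x (av C a))
      = cMul k m (cP k T x) (av C ((AA C).P a)) + cMul k m (x - cP k T x) (av C (a - (AA C).P a)) := by
  rw [av_sub_P, av_P]
  exact cMul_P k m _ _

private theorem rv_rD (C : QRing k t R) {T N : Type} [AddCommGroup T] [Module k T]
    [AddCommGroup N] [Module k N] (m : T →ₗ[k] Matrix (Fin 2) (Fin 2) R →ₗ[k] N) (x : Pc → T)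
    (a : (AA C).V) : cD k N (cMul k m x (av C a))
      = cMul k m (cD k T x) (av C a) + cMul k m (cP k T x + cP k T x - x) (av C ((AA C).D a)) := by
  rw [av_D]
  exact cMul_D k m _ _

/-- the left action of `A` on Čech matrices over `V` -/
noncomputable def cVL (C : QRing k t R) (V : Type) [AddCommGroup V] [Module k V] [Module R V]
    [IsScalarTower k R V] (J : Type) : LA (AA C) (cSD k (Matrix (Fin 2) J V)) where
  act := (cMul k (mL k R V (Fin 2) (Fin 2) J)).comp (av C)
  mul_act a b y := by
    change cMul k (mL k R V (Fin 2) (Fin 2) J) (av C (a * b)) y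
      = cMul k (mL k R V (Fin 2) (Fin 2) J) (av C a)
        (cMul k (mL k R V (Fin 2) (Fin 2) J) (av C b) y)
    rw [av_mul]
    exact cMul_assoc k (matMul k R (Fin 2) (Fin 2) (Fin 2)) (mL k R V (Fin 2) (Fin 2) J)
      (mL k R V (Fin 2) (Fin 2) J) (mL k R V (Fin 2) (Fin 2) J)
      (fun a b c => mL_mul a b c) _ _ _
  P_act a y := rv_lP C (mL k R V (Fin 2) (Fin 2) J) a y
  D_act a y := rv_lD C (mL k R V (Fin 2) (Fin 2) J) a y

/-- the right action of `A` on Čech matrices over `V` -/
noncomputable def cVR (C : QRing k t R) (V : Type) [AddCommGroup V] [Module k V] [Module R V]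
    [IsScalarTower k R V] (I : Type) : RA (AA C) (cSD k (Matrix I (Fin 2) V)) where
  act := (cMul k (mR k R V I (Fin 2) (Fin 2))).compl₂ (av C)
  act_mul x a b := by
    change cMul k (mR k R V I (Fin 2) (Fin 2)) (cMul k (mR k R V I (Fin 2) (Fin 2)) x (av C a))
        (av C b) = cMul k (mR k R V I (Fin 2) (Fin 2)) x (av C (a * b))
    rw [av_mul]
    exact cMul_assoc k (mR k R V I (Fin 2) (Fin 2)) (mR k R V I (Fin 2) (Fin 2))
      (matMul k R (Fin 2) (Fin 2) (Fin 2)) (mR k R V I (Fin 2) (Fin 2))
      (fun a b c => mR_mul a b c) _ _ _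
  P_act x a := rv_rP C (mR k R V I (Fin 2) (Fin 2)) x a
  D_act x a := rv_rD C (mR k R V I (Fin 2) (Fin 2)) x a

theorem cVL_one (C : QRing k t R) (y : Pc → Matrix (Fin 2) J V) : (cVL C V J).act 1 y = y := by
  change cMul k (mL k R V (Fin 2) (Fin 2) J) (av C 1) y = y
  rw [av_one]
  funext s
  cases s with
  | X =>
    rw [cMul_X, cOne_X]
    exact mL_one _
  | Y =>
    rw [cMul_Y, cOne_Y]
    exact mL_one _
  | R =>
    rw [cMul_R, cOne_X, cOne_R, map_zero, LinearMap.zero_apply, add_zero]
    exact mL_one _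

theorem cVR_one (C : QRing k t R) (y : Pc → Matrix I (Fin 2) V) : (cVR C V I).act y 1 = y := by
  change cMul k (mR k R V I (Fin 2) (Fin 2)) y (av C 1) = y
  rw [av_one]
  funext s
  cases s with
  | X =>
    rw [cMul_X, cOne_X]
    exact mR_one _
  | Y =>
    rw [cMul_Y, cOne_Y]
    exact mR_one _
  | R =>
    rw [cMul_R, cOne_R, cOne_Y, map_zero, zero_add]
    exact mR_one _

/-- the bimodule of Čech matrices over `V` -/
noncomputable def cVb (C : QRing k t R) (V : Type) [AddCommGroup V] [Module k V] [Module R V]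
    [IsScalarTower k R V] : BMod (AA C) (AA C) where
  N := cSD k (Matrix (Fin 2) (Fin 2) V)
  b :=
    { l := cVL C V (Fin 2)
      r := cVR C V (Fin 2)
      lr := fun a x b => cMul_assoc k (mL k R V (Fin 2) (Fin 2) (Fin 2))
        (mR k R V (Fin 2) (Fin 2) (Fin 2)) (mR k R V (Fin 2) (Fin 2) (Fin 2))
        (mL k R V (Fin 2) (Fin 2) (Fin 2)) (fun a b c => mL_mR a b c) _ _ _ }
  one_l := fun y => cVL_one C y
  r_one := fun y => cVR_one C y

/-! ### matrices over `V`, with zero differential -/

/-- a module with zero differential, even -/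
def xSD (k S : Type) [Field k] [AddCommGroup S] [Module k S] : SD k where
  V := S
  D := 0
  P := LinearMap.id
  DD _ := rfl
  PP _ := rfl
  DP v := by simp

theorem xSD_D (S : Type) [AddCommGroup S] [Module k S] (v : (xSD k S).V) : (xSD k S).D v = 0 := rfl
theorem xSD_P (S : Type) [AddCommGroup S] [Module k S] (v : (xSD k S).V) : (xSD k S).P v = v := rfl

/-- the component of an element of `A` on the chart `x ≠ 0` -/
noncomputable def ax (C : QRing k t R) : (AA C).V →ₗ[k] Matrix (Fin 2) (Fin 2) R :=
  (LinearMap.proj Pc.X).comp (av C)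

theorem ax_apply (C : QRing k t R) (a : (AA C).V) : ax C a = av C a Pc.X := rfl

theorem ax_mul (C : QRing k t R) (a b : (AA C).V) :
    ax C (a * b) = matMul k R (Fin 2) (Fin 2) (Fin 2) (ax C a) (ax C b) := by
  rw [ax_apply, av_mul]
  rfl

theorem ax_one (C : QRing k t R) : ax C 1 = 1 := by
  rw [ax_apply, av_one]
  rfl

theorem ax_P (C : QRing k t R) (a : (AA C).V) : ax C ((AA C).P a) = ax C a := by
  rw [ax_apply, av_P]
  rfl

theorem ax_D (C : QRing k t R) (a : (AA C).V) : ax C ((AA C).D a) = 0 := by
  rw [ax_apply, av_D]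
  rfl

private theorem rv_xlP (C : QRing k t R) {T N : Type} [AddCommGroup T] [Module k T]
    [AddCommGroup N] [Module k N] (m : Matrix (Fin 2) (Fin 2) R →ₗ[k] T →ₗ[k] N) (a : (AA C).V)
    (y : T) : m (ax C a) y = m (ax C ((AA C).P a)) y + m (ax C (a - (AA C).P a)) (y - y) := by
  rw [sub_self, map_zero, add_zero, ax_P]

private theorem rv_xlD (C : QRing k t R) {T N : Type} [AddCommGroup T] [Module k T]
    [AddCommGroup N] [Module k N] (m : Matrix (Fin 2) (Fin 2) R →ₗ[k] T →ₗ[k] N) (a : (AA C).V)
    (y : T) : (0 : N) = m (ax C ((AA C).D a)) y + m (ax C ((AA C).E a)) 0 := by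
  rw [map_zero, add_zero, ax_D, map_zero, LinearMap.zero_apply]

private theorem rv_xrP (C : QRing k t R) {T N : Type} [AddCommGroup T] [Module k T]
    [AddCommGroup N] [Module k N] (m : T →ₗ[k] Matrix (Fin 2) (Fin 2) R →ₗ[k] N) (x : T)
    (a : (AA C).V) : m x (ax C a) = m x (ax C ((AA C).P a)) + m (x - x) (ax C (a - (AA C).P a)) := by
  rw [sub_self, map_zero, LinearMap.zero_apply, add_zero, ax_P]

private theorem rv_xrD (C : QRing k t R) {T N : Type} [AddCommGroup T] [Module k T]
    [AddCommGroup N] [Module k N] (m : T →ₗ[k] Matrix (Fin 2) (Fin 2) R →ₗ[k] N) (x : T)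
    (a : (AA C).V) : (0 : N) = m 0 (ax C a) + m (x + x - x) (ax C ((AA C).D a)) := by
  rw [map_zero, LinearMap.zero_apply, zero_add, ax_D, map_zero]

/-- the left action of `A` on matrices over `V` -/
noncomputable def xVL (C : QRing k t R) (V : Type) [AddCommGroup V] [Module k V] [Module R V]
    [IsScalarTower k R V] (J : Type) : LA (AA C) (xSD k (Matrix (Fin 2) J V)) where
  act := (mL k R V (Fin 2) (Fin 2) J).comp (ax C)
  mul_act a b y := by
    change mL k R V (Fin 2) (Fin 2) J (ax C (a * b)) y
      = mL k R V (Fin 2) (Fin 2) J (ax C a) (mL k R V (Fin 2) (Fin 2) J (ax C b) y)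
    rw [ax_mul, mL_mul]
  P_act a y := rv_xlP C (mL k R V (Fin 2) (Fin 2) J) a y
  D_act a y := rv_xlD C (mL k R V (Fin 2) (Fin 2) J) a y

/-- the right action of `A` on matrices over `V` -/
noncomputable def xVR (C : QRing k t R) (V : Type) [AddCommGroup V] [Module k V] [Module R V]
    [IsScalarTower k R V] (I : Type) : RA (AA C) (xSD k (Matrix I (Fin 2) V)) where
  act := (mR k R V I (Fin 2) (Fin 2)).compl₂ (ax C)
  act_mul x a b := by
    change mR k R V I (Fin 2) (Fin 2) (mR k R V I (Fin 2) (Fin 2) x (ax C a)) (ax C b)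
      = mR k R V I (Fin 2) (Fin 2) x (ax C (a * b))
    rw [ax_mul, mR_mul]
  P_act x a := rv_xrP C (mR k R V I (Fin 2) (Fin 2)) x a
  D_act x a := rv_xrD C (mR k R V I (Fin 2) (Fin 2)) x a

theorem xVL_one (C : QRing k t R) (y : Matrix (Fin 2) J V) : (xVL C V J).act 1 y = y := by
  change mL k R V (Fin 2) (Fin 2) J (ax C 1) y = y
  rw [ax_one, mL_one]

theorem xVR_one (C : QRing k t R) (y : Matrix I (Fin 2) V) : (xVR C V I).act y 1 = y := by
  change mR k R V I (Fin 2) (Fin 2) y (ax C 1) = y
  rw [ax_one, mR_one]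

/-- the bimodule of matrices over `V`, with zero differential -/
noncomputable def xVb (C : QRing k t R) (V : Type) [AddCommGroup V] [Module k V] [Module R V]
    [IsScalarTower k R V] : BMod (AA C) (AA C) where
  N := xSD k (Matrix (Fin 2) (Fin 2) V)
  b :=
    { l := xVL C V (Fin 2)
      r := xVR C V (Fin 2)
      lr := fun a x b => mL_mR (ax C a) x (ax C b) }
  one_l := fun y => xVL_one C y
  r_one := fun y => xVR_one C y

/-! ### the component on the chart `x ≠ 0` -/

/-- the component on the chart `x ≠ 0` -/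
def cX (k S : Type) [Field k] [AddCommGroup S] [Module k S] : SD.Hom (cSD k S) (xSD k S) where
  f := LinearMap.proj Pc.X
  D _ := rfl
  P _ := rfl

theorem cX_qi (S : Type) [AddCommGroup S] [Module k S] : (cX k S).QI := by
  constructor
  · intro x y hx hxy
    have h1 : x Pc.X = 0 := hxy
    have h2 : x Pc.Y - x Pc.X = 0 := congrFun hx Pc.R
    refine ⟨fun s => match s with
      | Pc.X => 0
      | Pc.Y => x Pc.R
      | Pc.R => 0, ?_⟩
    change cD k S _ = x
    funext s
    cases s with
    | X => rw [cD_X, h1]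
    | Y =>
      rw [cD_Y]
      rw [h1, sub_zero] at h2
      exact h2.symm
    | R =>
      rw [cD_R]
      exact sub_zero _
  · intro y _
    refine ⟨fun s => match s with
      | Pc.X => y
      | Pc.Y => y
      | Pc.R => 0, 0, ?_, ?_⟩
    · change cD k S _ = 0
      funext s
      cases s with
      | X => rfl
      | Y => rfl
      | R =>
        rw [cD_R]
        exact sub_self _
    · rw [map_zero, add_zero]
      rfl

theorem cX_left (C : QRing k t R) : (cVL C V J).IsHom (xVL C V J) (cX k (Matrix (Fin 2) J V)) :=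
  fun _ _ => rfl

theorem cX_right (C : QRing k t R) : (cVR C V I).IsHom (xVR C V I) (cX k (Matrix I (Fin 2) V)) :=
  fun _ _ => rfl

/-- the component on the chart `x ≠ 0`, as a map of bimodules -/
noncomputable def cXb (C : QRing k t R) (V : Type) [AddCommGroup V] [Module k V] [Module R V]
    [IsScalarTower k R V] : BMod.Hom (cVb C V) (xVb C V) where
  toHom := cX k (Matrix (Fin 2) (Fin 2) V)
  isHom := ⟨cX_left C, cX_right C⟩

/-! ### functoriality -/

/-- apply an `R`-linear map to the entries -/
def mM (k : Type) [Field k] {R V V' : Type} [CommRing R] [Algebra k R] [AddCommGroup V]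
    [Module k V] [Module R V] [IsScalarTower k R V] [AddCommGroup V'] [Module k V'] [Module R V']
    [IsScalarTower k R V'] (I J : Type) (φ : V →ₗ[R] V') : Matrix I J V →ₗ[k] Matrix I J V' where
  toFun c := fun i j => φ (c i j)
  map_add' c c' := by
    ext i j
    exact map_add φ _ _
  map_smul' x c := by
    ext i j
    change φ (x • c i j) = x • φ (c i j)
    rw [← algebraMap_smul R x (c i j), map_smul, algebraMap_smul]

theorem mM_apply (φ : V →ₗ[R] V') (c : Matrix I J V) (i : I) (j : J) :
    mM k I J φ c i j = φ (c i j) := rfl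

theorem mM_mL [Fintype J] (φ : V →ₗ[R] V') (a : Matrix I J R) (c : Matrix J L V) :
    mM k I L φ (mL k R V I J L a c) = mL k R V' I J L a (mM k J L φ c) := by
  ext i l
  rw [mM_apply, mL_apply, mL_apply, map_sum]
  exact Finset.sum_congr rfl fun j _ => map_smul φ _ _

theorem mM_mR [Fintype J] (φ : V →ₗ[R] V') (c : Matrix I J V) (a : Matrix J L R) :
    mM k I L φ (mR k R V I J L c a) = mR k R V' I J L (mM k I J φ c) a := by
  ext i l
  rw [mM_apply, mR_apply, mR_apply, map_sum]
  exact Finset.sum_congr rfl fun j _ => map_smul φ _ _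

/-- a linear map applied to the three components -/
def cMapS {S S' : Type} [AddCommGroup S] [Module k S] [AddCommGroup S'] [Module k S']
    (φ : S →ₗ[k] S') : SD.Hom (cSD k S) (cSD k S') where
  f :=
    { toFun := fun f s => φ (f s)
      map_add' := fun f g => funext fun s => map_add φ (f s) (g s)
      map_smul' := fun c f => funext fun s => map_smul φ c (f s) }
  D f := by
    funext s
    cases s with
    | X => exact map_zero φ
    | Y => exact map_zero φ
    | R => exact map_sub φ _ _
  P f := by
    funext s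
    cases s with
    | X => rfl
    | Y => rfl
    | R => exact map_zero φ

theorem cMapS_apply {S S' : Type} [AddCommGroup S] [Module k S] [AddCommGroup S'] [Module k S']
    (φ : S →ₗ[k] S') (f : Pc → S) (s : Pc) : (cMapS φ).f f s = φ (f s) := rfl

theorem cMapS_ses {S S' S'' : Type} [AddCommGroup S] [Module k S] [AddCommGroup S'] [Module k S']
    [AddCommGroup S''] [Module k S''] (φ : S →ₗ[k] S') (ψ : S' →ₗ[k] S'')
    (h1 : Function.Injective φ) (h2 : Function.Exact φ ψ) (h3 : Function.Surjective ψ) :
    SD.SES (cMapS φ) (cMapS ψ) where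
  inj x hx := by
    funext s
    have h4 : φ (x s) = 0 := congrFun hx s
    exact h1 (h4.trans (map_zero φ).symm)
  surj z := by
    choose g hg using h3
    exact ⟨fun s => g (z s), funext fun s => hg _⟩
  zero x := funext fun s => (h2 _).2 ⟨x s, rfl⟩
  exact y hy := by
    choose g hg using fun s => (h2 (y s)).1 (congrFun hy s)
    exact ⟨g, funext fun s => hg s⟩

theorem cMul_cMapS_l {S T N T' N' : Type} [AddCommGroup S] [Module k S] [AddCommGroup T]
    [Module k T] [AddCommGroup N] [Module k N] [AddCommGroup T'] [Module k T'] [AddCommGroup N']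
    [Module k N'] (m : S →ₗ[k] T →ₗ[k] N) (m' : S →ₗ[k] T' →ₗ[k] N') (φ : T →ₗ[k] T')
    (ψ : N →ₗ[k] N') (h : ∀ a b, ψ (m a b) = m' a (φ b)) (x : Pc → S) (y : Pc → T) :
    (cMapS ψ).f (cMul k m x y) = cMul k m' x ((cMapS φ).f y) := by
  funext s
  cases s with
  | X => exact h _ _
  | Y => exact h _ _
  | R =>
    rw [cMapS_apply, cMul_R, cMul_R, map_add, h, h]
    rfl

theorem cMul_cMapS_r {S T N S' N' : Type} [AddCommGroup S] [Module k S] [AddCommGroup T]
    [Module k T] [AddCommGroup N] [Module k N] [AddCommGroup S'] [Module k S'] [AddCommGroup N']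
    [Module k N'] (m : S →ₗ[k] T →ₗ[k] N) (m' : S' →ₗ[k] T →ₗ[k] N') (φ : S →ₗ[k] S')
    (ψ : N →ₗ[k] N') (h : ∀ a b, ψ (m a b) = m' (φ a) b) (x : Pc → S) (y : Pc → T) :
    (cMapS ψ).f (cMul k m x y) = cMul k m' ((cMapS φ).f x) y := by
  funext s
  cases s with
  | X => exact h _ _
  | Y => exact h _ _
  | R =>
    rw [cMapS_apply, cMul_R, cMul_R, map_add, h, h]
    rfl

theorem cMapM_left (C : QRing k t R) (φ : V →ₗ[R] V') :
    (cVL C V J).IsHom (cVL C V' J) (cMapS (mM k (Fin 2) J φ)) := fun _ _ =>
  cMul_cMapS_l _ _ _ _ (fun a b => mM_mL φ a b) _ _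

theorem cMapM_right (C : QRing k t R) (φ : V →ₗ[R] V') :
    (cVR C V I).IsHom (cVR C V' I) (cMapS (mM k I (Fin 2) φ)) := fun _ _ =>
  cMul_cMapS_r _ _ _ _ (fun a b => mM_mR φ a b) _ _

/-- an `R`-linear map, as a map of bimodules of Čech matrices -/
noncomputable def cMapB (C : QRing k t R) (φ : V →ₗ[R] V') : BMod.Hom (cVb C V) (cVb C V') where
  toHom := cMapS (mM k (Fin 2) (Fin 2) φ)
  isHom := ⟨cMapM_left C φ, cMapM_right C φ⟩

theorem mM_injective (φ : V →ₗ[R] V') (h : Function.Injective φ) :
    Function.Injective (mM k I J φ) := fun c c' hc => by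
  ext i j
  exact h (congrFun (congrFun hc i) j)

theorem mM_surjective (φ : V →ₗ[R] V') (h : Function.Surjective φ) :
    Function.Surjective (mM k I J φ) := fun c => by
  choose g hg using h
  exact ⟨fun i j => g (c i j), by
    ext i j
    exact hg _⟩

theorem mM_exact (φ : V →ₗ[R] V') (ψ : V' →ₗ[R] V'') (h : Function.Exact φ ψ) :
    Function.Exact (mM k I J φ) (mM k I J ψ) := fun c => by
  constructor
  · intro hc
    choose g hg using fun i j => (h (c i j)).1 (congrFun (congrFun hc i) j)
    exact ⟨fun i j => g i j, by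
      ext i j
      exact hg i j⟩
  · rintro ⟨g, rfl⟩
    ext i j
    exact (h _).2 ⟨g i j, rfl⟩

theorem cMapB_ses (C : QRing k t R) (φ : V →ₗ[R] V') (ψ : V' →ₗ[R] V'')
    (h1 : Function.Injective φ) (h2 : Function.Exact φ ψ) (h3 : Function.Surjective ψ) :
    SD.SES (cMapB C φ).toHom (cMapB C ψ).toHom :=
  cMapS_ses _ _ (mM_injective φ h1) (mM_exact φ ψ h2) (mM_surjective ψ h3)

end H36.QX
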