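import Pool.Agent.H36.QX.RV
import Pool.Agent.H36.QX.HomsS

/-!
# RVe : the quotient of a complex of sections by the multiples of a section `s` is the Čech complex of `R / s R`
-/

set_option autoImplicit false

open NC

namespace H36.QX

open H36.NX

variable {k : Type} [Field k] {t : k} {R : Type} [CommRing R] [Algebra k R]
variable {V : Type} [AddCommGroup V] [Module k V] [Module R V] [IsScalarTower k R V]
  {I J L M : Type}

/-- an `R`-linear map `R → V` applied to the entries -/
noncomputable def evH (C : QRing k t R) (α : I → ℤ) (β : J → ℤ) (φ : R →ₗ[R] V) :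
    SD.Hom (qSD C α β) (cSD k (Matrix I J V)) where
  f := (cMapS (mM k I J φ)).f.comp (qv C α β)
  D v := by
    change (cMapS (mM k I J φ)).f (qv C α β ((qSD C α β).D v)) = _
    rw [qv_D]
    exact (cMapS (mM k I J φ)).D (qv C α β v)
  P v := by
    change (cMapS (mM k I J φ)).f (qv C α β ((qSD C α β).P v)) = _
    rw [qv_P]
    exact (cMapS (mM k I J φ)).P (qv C α β v)

theorem evH_apply (C : QRing k t R) (α : I → ℤ) (β : J → ℤ) (φ : R →ₗ[R] V)
    (v : (qSD C α β).V) (s : Pc) (i : I) (j : J) :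
    (evH C α β φ).f v s i j = φ (qv C α β v s i j) := rfl

private theorem rve_l [Fintype J] (φ : R →ₗ[R] V) (a : Matrix I J R) (c : Matrix J L R) :
    mM k I L φ (matMul k R I J L a c) = mL k R V I J L a (mM k J L φ c) := by
  ext i l
  rw [mM_apply, mL_apply, matMul_apply, Matrix.mul_apply, map_sum]
  exact Finset.sum_congr rfl fun j _ => map_smul φ _ _

private theorem rve_r [Fintype J] (φ : R →ₗ[R] V) (c : Matrix I J R) (a : Matrix J L R) :
    mM k I L φ (matMul k R I J L c a) = mR k R V I J L (mM k I J φ c) a := by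
  ext i l
  rw [mM_apply, mR_apply, matMul_apply, Matrix.mul_apply, map_sum]
  refine Finset.sum_congr rfl fun j _ => ?_
  rw [mul_comm]
  exact map_smul φ _ _

theorem evH_left (C : QRing k t R) (β : J → ℤ) (φ : R →ₗ[R] V) :
    (qLA C β).IsHom (cVL C V J) (evH C wt β φ) := fun a v => by
  change (cMapS (mM k (Fin 2) J φ)).f (qv C wt β (qMulL C β a v))
    = cMul k (mL k R V (Fin 2) (Fin 2) J) (av C a) ((cMapS (mM k (Fin 2) J φ)).f (qv C wt β v))
  rw [qv_qMulL]
  exact cMul_cMapS_l _ _ _ _ (fun a b => rve_l φ a b) _ _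

theorem evH_right (C : QRing k t R) (α : I → ℤ) (n : ℤ) (φ : R →ₗ[R] V) :
    (qRA C α n).IsHom (cVR C V I) (evH C α (wtn n) φ) := fun v a => by
  change (cMapS (mM k I (Fin 2) φ)).f (qv C α (wtn n) (qMulR C α n v a))
    = cMul k (mR k R V I (Fin 2) (Fin 2)) ((cMapS (mM k I (Fin 2) φ)).f (qv C α (wtn n) v))
      (av C a)
  rw [qv_qMulR]
  exact cMul_cMapS_r _ _ _ _ (fun a b => rve_r φ a b) _ _

/-- an `R`-linear map `R → V`, as a map of bimodules -/
noncomputable def evB (C : QRing k t R) (n : ℤ) (φ : R →ₗ[R] V) : BMod.Hom (Qb C n) (cVb C V) where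
  toHom := evH C wt (wtn n) φ
  isHom := ⟨evH_left C (wtn n) φ, evH_right C wt n φ⟩

/-- the projection of `R` on `R / s R` -/
noncomputable def qt (R : Type) [CommRing R] (s : R) : R →ₗ[R] (R ⧸ Ideal.span {s}) :=
  (Ideal.span {s}).mkQ

theorem qt_surjective (s : R) : Function.Surjective (qt R s) := Submodule.mkQ_surjective _

theorem qt_eq_zero (s r : R) : qt R s r = 0 ↔ ∃ z, r = s * z := by
  change Ideal.Quotient.mk (Ideal.span {s}) r = 0 ↔ _
  rw [Ideal.Quotient.eq_zero_iff_mem, Ideal.mem_span_singleton]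
  exact Iff.rfl

theorem qt_add_mul (s r z : R) : qt R s (r + s * z) = qt R s r := by
  rw [map_add, (qt_eq_zero s (s * z)).2 ⟨z, rfl⟩, add_zero]

/-- **the quotient by the multiples of `s`** -/
theorem ses_reg (C : QRing k t R) {s : R} {d : ℤ} (hr : Reg C s d) (hs : ∀ z, s * z = 0 → z = 0)
    {α α' : I → ℤ} {β β' : J → ℤ} (h : ∀ i j, β j - α i + d = β' j - α' i)
    (g : SD.Hom (qSD C α β) (qSD C α' β'))
    (hg : ∀ v, qv C α' β' (g.f v) = smulR k I J s (qv C α β v)) :
    SD.SES g (evH C α' β' (qt R s)) where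
  inj x hx := by
    have h1 := hg x
    rw [hx, map_zero] at h1
    refine q_ext C ?_
    rw [map_zero]
    funext p
    ext i j
    exact hs _ (congrFun (congrFun (congrFun h1 p) i) j).symm
  surj z := by
    have key : ∀ (p : Pc) (i : I) (j : J), ∃ r ∈ C.pc p (β' j - α' i), qt R s r = z p i j := by
      intro p i j
      obtain ⟨r, hr'⟩ := qt_surjective s (z p i j)
      cases p with
      | X =>
        obtain ⟨x, hx, y, hy⟩ := hr.supX r
        exact ⟨x, hx, by rw [← hr', hy, qt_add_mul]⟩
      | Y =>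
        obtain ⟨x, hx, y, hy⟩ := hr.supY (β' j - α' i) r
        exact ⟨x, hx, by rw [← hr', hy, qt_add_mul]⟩
      | R => exact ⟨r, Submodule.mem_top, hr'⟩
    choose r hr1 hr2 using key
    exact ⟨qmk C α' β' r hr1, by
      funext p
      ext i j
      exact hr2 p i j⟩
  zero x := by
    funext p
    ext i j
    rw [evH_apply, hg]
    exact (qt_eq_zero s _).2 ⟨_, rfl⟩
  exact y hy := by
    have key : ∀ (p : Pc) (i : I) (j : J), ∃ r ∈ C.pc p (β j - α i), qv C α' β' y p i j = s * r := by
      intro p i j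
      have h1 : qt R s (qv C α' β' y p i j) = 0 := congrFun (congrFun (congrFun hy p) i) j
      obtain ⟨r, hr'⟩ := (qt_eq_zero s _).1 h1
      have h2 := qv_mem C y p i j
      refine ⟨r, ?_, hr'⟩
      rw [hr'] at h2
      cases p with
      | X => exact hr.infX h2
      | Y => exact hr.infY (h i j) h2
      | R => exact Submodule.mem_top
    choose r hr1 hr2 using key
    refine ⟨qmk C α β r hr1, q_ext C ?_⟩
    rw [hg]
    funext p
    ext i j
    exact (hr2 p i j).symm

end H36.QX
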