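import Pool.Agent.H36.QX.ThtF
import Pool.Agent.H36.QX.Bim
import Pool.Agent.H36.QX.Der

/-!
# Rz : dg algebras of Čech matrices over a system of pieces, connections and traces

`PSy k S` is a system of pieces in a commutative algebra `S`; `CA P α` the dg algebra of Čech matrices of sections;
`Rz A P α` a realisation of a dg algebra `A` by all such matrices. A connection (`Cn`) gives a derivation `Rz.dr`, a
functional `Res` which kills the functions on the two charts gives Čech components with a trace (`Rz.ct`).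
-/

set_option autoImplicit false
set_option linter.unusedSectionVars false

open NC

noncomputable section

namespace H36.QX

open H36.NX

variable {k : Type} [Field k] {S : Type} [CommRing S] [Algebra k S]

/-- a system of pieces -/
structure PSy (k : Type) [Field k] (S : Type) [CommRing S] [Algebra k S] where
  pc : Pc → ℤ → Submodule k S
  one : ∀ s, (1 : S) ∈ pc s 0
  mul : ∀ (s : Pc) (m n : ℤ) (a b : S), a ∈ pc s m → b ∈ pc s n → a * b ∈ pc s (m + n)
  top : ∀ n, pc Pc.R n = ⊤

variable {I : Type} [Fintype I] [DecidableEq I]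

/-- the Čech matrices of sections -/
def PSy.mats (P : PSy k S) (α : I → ℤ) : Submodule k (Pc → Matrix I I S) where
  carrier := {f | ∀ s i j, f s i j ∈ P.pc s (α j - α i)}
  add_mem' := fun ha hb s i j => (P.pc s _).add_mem (ha s i j) (hb s i j)
  zero_mem' := fun s _ _ => (P.pc s _).zero_mem
  smul_mem' := fun c _ ha s i j => (P.pc s _).smul_mem c (ha s i j)

theorem PSy.mem_mats (P : PSy k S) (α : I → ℤ) (f : Pc → Matrix I I S) :
    f ∈ P.mats α ↔ ∀ s i j, f s i j ∈ P.pc s (α j - α i) := Iff.rfl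

theorem PSy.mem_R (P : PSy k S) (n : ℤ) (x : S) : x ∈ P.pc Pc.R n := by
  rw [P.top]; exact Submodule.mem_top

theorem PSy.mats_one (P : PSy k S) (α : I → ℤ) : cOne (Matrix I I S) ∈ P.mats α := by
  have key : ∀ s i j, (1 : Matrix I I S) i j ∈ P.pc s (α j - α i) := by
    intro s i j
    rw [Matrix.one_apply]
    split
    · next h => subst h; rw [sub_self]; exact P.one s
    · exact Submodule.zero_mem _
  intro s i j
  cases s with
  | X => exact key Pc.X i j
  | Y => exact key Pc.Y i j
  | R => exact P.mem_R _ _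

theorem PSy.mats_mul (P : PSy k S) (α : I → ℤ) (f : Pc → Matrix I I S) (hf : f ∈ P.mats α)
    (g : Pc → Matrix I I S) (hg : g ∈ P.mats α) :
    cMul k (LinearMap.mul k (Matrix I I S)) f g ∈ P.mats α := by
  have key : ∀ s i j, (f s * g s) i j ∈ P.pc s (α j - α i) := by
    intro s i j
    rw [Matrix.mul_apply]
    refine Submodule.sum_mem _ (fun l _ => ?_)
    have h := P.mul s _ _ _ _ (hf s i l) (hg s l j)
    rwa [show α l - α i + (α j - α l) = α j - α i by ring] at h
  intro s i j
  cases s with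
  | X => exact key Pc.X i j
  | Y => exact key Pc.Y i j
  | R => exact P.mem_R _ _

theorem PSy.mats_D (P : PSy k S) (α : I → ℤ) (f : Pc → Matrix I I S) :
    cD k (Matrix I I S) f ∈ P.mats α := by
  intro s i j
  cases s with
  | X => exact (P.pc _ _).zero_mem
  | Y => exact (P.pc _ _).zero_mem
  | R => exact P.mem_R _ _

theorem PSy.mats_P (P : PSy k S) (α : I → ℤ) (f : Pc → Matrix I I S) (hf : f ∈ P.mats α) :
    cP k (Matrix I I S) f ∈ P.mats α := by
  intro s i j
  cases s with
  | X => exact hf Pc.X i j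
  | Y => exact hf Pc.Y i j
  | R => exact P.mem_R _ _

/-- the dg algebra of Čech matrices of sections -/
def CA (P : PSy k S) (α : I → ℤ) : DGA k :=
  subDGA (cech k (Matrix I I S)) (P.mats α) (P.mats_one α) (P.mats_mul α)
    (fun a _ => P.mats_D α a) (P.mats_P α)

/-- a realisation of a dg algebra by Čech matrices -/
structure Rz (A : DGA k) (P : PSy k S) (α : I → ℤ) where
  v : A.V →ₗ[k] (Pc → Matrix I I S)
  inj : Function.Injective v
  mem : ∀ a, v a ∈ P.mats α
  surj : ∀ f ∈ P.mats α, ∃ a, v a = f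
  mul : ∀ a b : A.V, v (a * b) = cMul k (LinearMap.mul k (Matrix I I S)) (v a) (v b)
  D : ∀ a, v (A.D a) = cD k _ (v a)
  P : ∀ a, v (A.P a) = cP k _ (v a)

/-- the realisation of the algebra of Čech matrices -/
def CA.rz (P : PSy k S) (α : I → ℤ) : Rz (CA P α) P α where
  v := (P.mats α).subtype
  inj := Subtype.val_injective
  mem a := a.2
  surj f hf := ⟨⟨f, hf⟩, rfl⟩
  mul _ _ := rfl
  D _ := rfl
  P _ := rfl

namespace Rz

variable {A : DGA k} {P : PSy k S} {α : I → ℤ} (z : Rz A P α)

/-- the element with given matrix -/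
def el (f : Pc → Matrix I I S) (hf : f ∈ P.mats α) : A.V := (z.surj f hf).choose

@[simp] theorem v_el (f : Pc → Matrix I I S) (hf : f ∈ P.mats α) : z.v (z.el f hf) = f :=
  (z.surj f hf).choose_spec

end Rz

/-- a connection -/
structure Cn (P : PSy k S) where
  D : S →ₗ[k] S
  g : S
  mul : ∀ x y, D (x * y) = D x * y + x * D y
  mem : ∀ (s : Pc) (n : ℤ) (f : S), f ∈ P.pc s n → D f + (n : k) • (g * f) ∈ P.pc s n

namespace Cn

variable {P : PSy k S} (c : Cn P) (α : I → ℤ)

/-- the connection on matrices -/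
def onMat : Matrix I I S →ₗ[k] Matrix I I S where
  toFun M := Matrix.of fun i j => c.D (M i j) + ((α j - α i : ℤ) : k) • (c.g * M i j)
  map_add' M N := by
    ext i j
    simp only [Matrix.of_apply, Matrix.add_apply, map_add, mul_add, smul_add]
    abel
  map_smul' r M := by
    ext i j
    simp only [Matrix.of_apply, Matrix.smul_apply, map_smul, mul_smul_comm, RingHom.id_apply,
      smul_add]
    rw [smul_comm]

theorem onMat_apply (M : Matrix I I S) (i j : I) :
    c.onMat α M i j = c.D (M i j) + ((α j - α i : ℤ) : k) • (c.g * M i j) := rfl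

theorem onMat_mul (M N : Matrix I I S) :
    c.onMat α (M * N) = c.onMat α M * N + M * c.onMat α N := by
  ext i j
  rw [Matrix.add_apply, onMat_apply, Matrix.mul_apply, Matrix.mul_apply, Matrix.mul_apply,
    map_sum, Finset.mul_sum, Finset.smul_sum, ← Finset.sum_add_distrib, ← Finset.sum_add_distrib]
  refine Finset.sum_congr rfl fun l _ => ?_
  rw [c.mul, onMat_apply, onMat_apply]
  have e : ((α j - α i : ℤ) : k) = ((α l - α i : ℤ) : k) + ((α j - α l : ℤ) : k) := by
    push_cast; ring
  rw [e]
  simp only [Algebra.smul_def, map_add]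
  ring

/-- the connection on Čech matrices -/
def onPc : (Pc → Matrix I I S) →ₗ[k] (Pc → Matrix I I S) where
  toFun f := fun s => c.onMat α (f s)
  map_add' f g := by funext s; simp
  map_smul' r f := by funext s; simp

@[simp] theorem onPc_apply (f : Pc → Matrix I I S) (s : Pc) :
    c.onPc α f s = c.onMat α (f s) := rfl

theorem onPc_mem {f : Pc → Matrix I I S} (hf : f ∈ P.mats α) : c.onPc α f ∈ P.mats α :=
  fun s i j => c.mem s _ _ (hf s i j)

theorem onPc_D (f : Pc → Matrix I I S) :
    c.onPc α (cD k _ f) = cD k _ (c.onPc α f) := by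
  funext s
  cases s
  · change c.onMat α 0 = 0
    rw [map_zero]
  · change c.onMat α 0 = 0
    rw [map_zero]
  · change c.onMat α (f Pc.Y - f Pc.X) = c.onMat α (f Pc.Y) - c.onMat α (f Pc.X)
    rw [map_sub]

theorem onPc_P (f : Pc → Matrix I I S) :
    c.onPc α (cP k _ f) = cP k _ (c.onPc α f) := by
  funext s
  cases s
  · rfl
  · rfl
  · change c.onMat α 0 = 0
    rw [map_zero]

theorem onPc_mul (f g : Pc → Matrix I I S) :
    c.onPc α (cMul k (LinearMap.mul k _) f g) = cMul k (LinearMap.mul k _) (c.onPc α f) g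
      + cMul k (LinearMap.mul k _) f (c.onPc α g) := by
  funext s
  cases s
  · exact c.onMat_mul α _ _
  · exact c.onMat_mul α _ _
  · change c.onMat α (f Pc.X * g Pc.R + f Pc.R * g Pc.Y)
      = (c.onMat α (f Pc.X) * g Pc.R + c.onMat α (f Pc.R) * g Pc.Y)
        + (f Pc.X * c.onMat α (g Pc.R) + f Pc.R * c.onMat α (g Pc.Y))
    rw [map_add, onMat_mul, onMat_mul]
    abel

end Cn

namespace Rz

variable [CharP k 2] {A : DGA k} {P : PSy k S} {α : I → ℤ} (z : Rz A P α)

/-- the linear map of a connection -/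
def drf (c : Cn P) : A.V →ₗ[k] A.V where
  toFun a := z.el (c.onPc α (z.v a)) (c.onPc_mem α (z.mem a))
  map_add' a b := z.inj (by
    rw [v_el, map_add z.v a b, map_add, map_add, v_el, v_el])
  map_smul' r a := z.inj (by
    rw [RingHom.id_apply, v_el, map_smul z.v r a, map_smul, map_smul, v_el])

@[simp] theorem v_drf (c : Cn P) (a : A.V) : z.v (z.drf c a) = c.onPc α (z.v a) :=
  z.v_el _ (c.onPc_mem α (z.mem a))

/-- the derivation of a connection -/
def dr (c : Cn P) : Dr A where
  f := z.drf c
  D a := z.inj (by rw [v_drf, z.D, z.D, v_drf, c.onPc_D])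
  P a := z.inj (by rw [v_drf, z.P, z.P, v_drf, c.onPc_P])
  mul a b := z.inj (by rw [v_drf, map_add, z.mul, z.mul, z.mul, v_drf, v_drf, c.onPc_mul])

@[simp] theorem v_dr (c : Cn P) (a : A.V) : z.v ((z.dr c).f a) = c.onPc α (z.v a) := z.v_drf c a

/-- the Čech components with the trace defined by a functional -/
def ct (Res : S →ₗ[k] k) (hX : ∀ x ∈ P.pc Pc.X 0, Res x = 0) (hY : ∀ x ∈ P.pc Pc.Y 0, Res x = 0) :
    CT A (Matrix I I S) where
  X := (LinearMap.proj Pc.X) ∘ₗ z.v
  Y := (LinearMap.proj Pc.Y) ∘ₗ z.v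
  R := (LinearMap.proj Pc.R) ∘ₗ z.v
  mulR a b := by
    change z.v (a * b) Pc.R = z.v a Pc.X * z.v b Pc.R + z.v a Pc.R * z.v b Pc.Y
    rw [z.mul]; rfl
  DR a := by
    change z.v (A.D a) Pc.R = z.v a Pc.Y - z.v a Pc.X
    rw [z.D]; rfl
  PR a := by
    change z.v (A.P a) Pc.R = 0
    rw [z.P]; rfl
  tr := Res ∘ₗ Matrix.traceLinearMap I k S
  tr_comm x y := by
    rw [LinearMap.comp_apply, LinearMap.comp_apply, Matrix.traceLinearMap_apply,
      Matrix.traceLinearMap_apply, Matrix.trace_mul_comm]
  tr_zero a := by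
    rw [LinearMap.comp_apply, Matrix.traceLinearMap_apply, Matrix.trace_sub, map_sub]
    have hx : Res (Matrix.trace (z.v a Pc.X)) = 0 := by
      refine hX _ (Submodule.sum_mem _ fun i _ => ?_)
      have h := z.mem a Pc.X i i
      rwa [sub_self] at h
    have hy : Res (Matrix.trace (z.v a Pc.Y)) = 0 := by
      refine hY _ (Submodule.sum_mem _ fun i _ => ?_)
      have h := z.mem a Pc.Y i i
      rwa [sub_self] at h
    change Res (Matrix.trace (z.v a Pc.Y)) - Res (Matrix.trace (z.v a Pc.X)) = 0
    rw [hx, hy, sub_zero]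

end Rz

end H36.QX
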