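import Pool.Agent.H36.QX.Der
import Pool.Agent.H36.QX.Dom

/-!
# SLoc : the ring `S = R[1/(u² + t)]`, its pieces, the map `h : R → S`, the derivation and the functional on `S`
-/

set_option autoImplicit false
set_option linter.unusedSectionVars false

namespace H36.QX

open H36.NX

noncomputable section

variable {k : Type} [Field k] {t : k} {R : Type} [CommRing R] [Algebra k R]
  {K : Type} [Field K] [Algebra k K]

namespace QRing

/-- `τ = u² + t` -/
def tau (C : QRing k t R) : R := (C.u : R) ^ 2 + algebraMap k R t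

variable (C : QRing k t R)

theorem tau_mem_X : C.tau ∈ C.X := by
  have h1 := C.mul_mem_X C.u_mem_X C.u_mem_X
  rw [← pow_two] at h1
  have h2 := C.X.smul_mem t C.one_mem_X
  rw [← Algebra.algebraMap_eq_smul_one] at h2
  exact C.X.add_mem h1 h2

theorem tau_mem_Y : C.tau ∈ C.Y 2 := by
  have h1 := C.upow_mem_Y (le_refl (2 : ℤ))
  have h3 : ((C.u ^ (2 : ℤ) : Rˣ) : R) = (C.u : R) ^ 2 := by
    rw [show (2 : ℤ) = ((2 : ℕ) : ℤ) from rfl, zpow_natCast, Units.val_pow_eq_pow_val]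
  rw [h3] at h1
  have h2 := (C.Y 2).smul_mem t (C.one_mem_Y (show (0 : ℤ) ≤ 2 by norm_num))
  rw [← Algebra.algebraMap_eq_smul_one] at h2
  exact (C.Y 2).add_mem h1 h2

theorem lead_tau (E : QRoot k t K) : C.lead E 2 C.tau = 1 := by
  have h1 := C.lead_mul E (m := 1) (n := 1) (r := (C.u : R)) (s := (C.u : R))
    (by simpa using C.upow_mem_Y (le_refl (1 : ℤ))) (by simpa using C.upow_mem_Y (le_refl (1 : ℤ)))
  rw [lead_u, one_mul, ← pow_two] at h1
  have h2 : C.lead E 2 (algebraMap k R t) = 0 := by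
    have h3 : algebraMap k R t ∈ C.Y 0 := by
      have h4 := (C.Y 0).smul_mem t (C.one_mem_Y (le_refl (0 : ℤ)))
      rwa [← Algebra.algebraMap_eq_smul_one] at h4
    exact (C.lead_eq_zero_iff E (C.Y_mono (by norm_num) h3)).2 (C.Y_mono (by norm_num) h3)
  have h5 : C.lead E 2 ((C.u : R) ^ 2) = 1 := h1
  rw [tau, map_add, h5, h2, add_zero]

theorem tau_pow_mem_X (m : ℕ) : C.tau ^ m ∈ C.X := by
  induction m with
  | zero => rw [pow_zero]; exact C.one_mem_X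
  | succ m ih => rw [pow_succ]; exact C.mul_mem_X ih C.tau_mem_X

theorem tau_pow_mem_Y (m : ℕ) : C.tau ^ m ∈ C.Y (2 * m) := by
  induction m with
  | zero => rw [pow_zero]; exact C.one_mem_Y (by norm_num)
  | succ m ih =>
    rw [pow_succ]
    have h := C.mul_mem_Y ih C.tau_mem_Y
    rwa [show (2 * (m : ℤ) + 2) = 2 * ((m + 1 : ℕ) : ℤ) by push_cast; ring] at h

theorem tau_mul_mem (E : QRoot k t K) {n : ℤ} {r : R} (h : C.tau * r ∈ C.Y (n + 2)) :
    r ∈ C.Y n := by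
  by_cases hr : r = 0
  · rw [hr]; exact (C.Y n).zero_mem
  obtain ⟨d, hd, hd'⟩ := C.exists_degree r hr
  by_contra hc
  have hlt : n < d := by
    by_contra hle
    exact hc (C.Y_mono (not_lt.1 hle) hd)
  have h1 := C.lead_mul E C.tau_mem_Y hd
  rw [lead_tau, one_mul] at h1
  have h2 : C.tau * r ∈ C.Y (2 + d) := C.mul_mem_Y C.tau_mem_Y hd
  have h3 : C.lead E (2 + d) (C.tau * r) = 0 :=
    (C.lead_eq_zero_iff E h2).2 (C.Y_mono (by omega) h)
  rw [h3] at h1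
  exact hd' ((C.lead_eq_zero_iff E hd).1 h1.symm)

theorem tau_pow_mul_mem (E : QRoot k t K) (m : ℕ) {n : ℤ} {r : R}
    (h : C.tau ^ m * r ∈ C.Y (n + 2 * m)) : r ∈ C.Y n := by
  induction m generalizing n with
  | zero => simpa using h
  | succ m ih =>
    refine ih (C.tau_mul_mem E ?_)
    rw [pow_succ'] at h
    rw [← mul_assoc]
    rwa [show n + 2 * ((m + 1 : ℕ) : ℤ) = n + 2 * (m : ℤ) + 2 by push_cast; ring] at h

end QRing

/-- the localisation at `τ = u² + t` -/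
structure SRing (C : QRing k t R) (S : Type) [CommRing S] [Algebra k S] where
  ι : R →ₐ[k] S
  σ : S
  mul_σ : ι C.tau * σ = 1
  inj : Function.Injective ι
  surj : ∀ x : S, ∃ (m : ℕ) (r : R), ι C.tau ^ m * x = ι r

theorem exists_sRing (C : QRing k t R) (E : QRoot k t K) :
    ∃ (S : Type) (_ : CommRing S) (_ : Algebra k S), Nonempty (SRing C S) := by
  have := C.isDomain E
  have h0 : C.tau ≠ 0 := by
    intro h
    have h1 := C.lead_tau E
    rw [h, map_zero] at h1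
    exact zero_ne_one h1
  refine ⟨Localization.Away C.tau, inferInstance, inferInstance, ⟨{
    ι := IsScalarTower.toAlgHom k R (Localization.Away C.tau)
    σ := IsLocalization.Away.invSelf C.tau
    mul_σ := IsLocalization.Away.mul_invSelf C.tau
    inj := ?_
    surj := ?_ }⟩⟩
  · exact IsLocalization.injective (Localization.Away C.tau)
      (powers_le_nonZeroDivisors_of_noZeroDivisors h0)
  · intro x
    obtain ⟨m, r, h⟩ := IsLocalization.Away.surj C.tau x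
    refine ⟨m, r, ?_⟩
    rw [mul_comm]
    exact h

namespace SRing

variable {C : QRing k t R} {S : Type} [CommRing S] [Algebra k S] (L : SRing C S)

theorem pow_mul_σ (m : ℕ) : L.ι C.tau ^ m * L.σ ^ m = 1 := by
  rw [← mul_pow, L.mul_σ, one_pow]

/-- the unit `τ` -/
def U : Sˣ := ⟨L.ι C.tau, L.σ, L.mul_σ, by rw [mul_comm, L.mul_σ]⟩

@[simp] theorem U_val : (L.U : S) = L.ι C.tau := rfl

theorem cancel {m : ℕ} {x y : S} (h : L.ι C.tau ^ m * x = L.ι C.tau ^ m * y) : x = y := by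
  have h1 : L.σ ^ m * (L.ι C.tau ^ m * x) = L.σ ^ m * (L.ι C.tau ^ m * y) := by rw [h]
  rwa [← mul_assoc, ← mul_assoc, mul_comm (L.σ ^ m), L.pow_mul_σ, one_mul, one_mul] at h1

/-- functions on the chart `x ≠ 0` -/
def X : Submodule k S := C.X.map L.ι.toLinearMap

theorem mem_X (x : S) : x ∈ L.X ↔ ∃ r ∈ C.X, L.ι r = x := Iff.rfl

theorem X_mul {x y : S} (hx : x ∈ L.X) (hy : y ∈ L.X) : x * y ∈ L.X := by
  obtain ⟨r, hr, rfl⟩ := hx
  obtain ⟨s, hs, rfl⟩ := hy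
  exact ⟨r * s, C.mul_mem_X hr hs, map_mul L.ι r s⟩

/-- sections of `O(n)` on the chart `y (y² + t x²) ≠ 0` -/
def Y (n : ℤ) : Submodule k S where
  carrier := {x | ∃ (m : ℕ) (r : R), r ∈ C.Y (n + 2 * m) ∧ L.ι C.tau ^ m * x = L.ι r}
  add_mem' := by
    rintro x y ⟨m, r, hr, hx⟩ ⟨l, s, hs, hy⟩
    refine ⟨m + l, C.tau ^ l * r + C.tau ^ m * s, (C.Y _).add_mem ?_ ?_, ?_⟩
    · have h1 := C.mul_mem_Y (C.tau_pow_mem_Y l) hr
      rwa [show 2 * (l : ℤ) + (n + 2 * (m : ℤ)) = n + 2 * ((m + l : ℕ) : ℤ) by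
        push_cast; ring] at h1
    · have h1 := C.mul_mem_Y (C.tau_pow_mem_Y m) hs
      rwa [show 2 * (m : ℤ) + (n + 2 * (l : ℤ)) = n + 2 * ((m + l : ℕ) : ℤ) by
        push_cast; ring] at h1
    · rw [map_add, map_mul, map_mul, map_pow, map_pow, ← hx, ← hy, pow_add]
      ring
  zero_mem' := ⟨0, 0, (C.Y _).zero_mem, by simp⟩
  smul_mem' := by
    rintro c x ⟨m, r, hr, hx⟩
    exact ⟨m, c • r, (C.Y _).smul_mem c hr, by rw [map_smul, ← hx, mul_smul_comm]⟩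

theorem mem_Y (n : ℤ) (x : S) : x ∈ L.Y n ↔
    ∃ (m : ℕ) (r : R), r ∈ C.Y (n + 2 * m) ∧ L.ι C.tau ^ m * x = L.ι r := Iff.rfl

theorem ι_mem_Y {n : ℤ} {r : R} (h : r ∈ C.Y n) : L.ι r ∈ L.Y n :=
  ⟨0, r, by simpa using h, by simp⟩

theorem of_ι_mem_Y (E : QRoot k t K) {n : ℤ} {r : R} (h : L.ι r ∈ L.Y n) : r ∈ C.Y n := by
  obtain ⟨m, s, hs, h1⟩ := h
  rw [← map_pow, ← map_mul] at h1
  have h2 := L.inj h1
  rw [← h2] at hs
  exact C.tau_pow_mul_mem E m hs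

theorem Y_mul {m n : ℤ} {x y : S} (hx : x ∈ L.Y m) (hy : y ∈ L.Y n) : x * y ∈ L.Y (m + n) := by
  obtain ⟨a, r, hr, hx⟩ := hx
  obtain ⟨b, s, hs, hy⟩ := hy
  refine ⟨a + b, r * s, ?_, ?_⟩
  · have h1 := C.mul_mem_Y hr hs
    rwa [show m + 2 * (a : ℤ) + (n + 2 * (b : ℤ)) = m + n + 2 * ((a + b : ℕ) : ℤ) by
      push_cast; ring] at h1
  · rw [map_mul, ← hx, ← hy, pow_add]
    ring

theorem Y_mono {m n : ℤ} (h : m ≤ n) : L.Y m ≤ L.Y n := by
  rintro x ⟨a, r, hr, hx⟩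
  exact ⟨a, r, C.Y_mono (by linarith) hr, hx⟩

theorem one_mem_X : (1 : S) ∈ L.X := ⟨1, C.one_mem_X, map_one L.ι⟩

theorem one_mem_Y : (1 : S) ∈ L.Y 0 := by
  have h := L.ι_mem_Y (C.one_mem_Y (le_refl (0 : ℤ)))
  rwa [map_one] at h

theorem U_mem (m : ℤ) : ((L.U ^ m : Sˣ) : S) ∈ L.Y (2 * m) := by
  obtain ⟨n, rfl | rfl⟩ := Int.eq_nat_or_neg m
  · rw [zpow_natCast, Units.val_pow_eq_pow_val, U_val, ← map_pow]
    exact L.ι_mem_Y (C.tau_pow_mem_Y n)
  · refine ⟨n, 1, ?_, ?_⟩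
    · exact C.one_mem_Y (by omega)
    · rw [zpow_neg, zpow_natCast, map_one, ← U_val, ← Units.val_pow_eq_pow_val, Units.mul_inv]

/-! ### the map `h` -/

section hom

variable [CharP k 2]

/-- the image `w² + t Q² = Q w + Q² + Q` of `w` -/
def _root_.H36.QX.QRing.hw (C : QRing k t R) : R := C.Q * C.w + C.Q ^ 2 + C.Q

theorem hEqn : QRing.Eqn t (L.U : S) (L.ι C.hw) := by
  unfold QRing.Eqn
  have hQ : (L.U : S) ^ 2 + (L.U : S) + algebraMap k S t = L.ι (C.Q ^ 2) := by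
    have h1 : C.tau ^ 2 + C.tau + algebraMap k R t = C.Q ^ 2 := by
      rw [QRing.tau, C.Q_eq]
      have h2 := QRing.rtwo k (S := R)
      linear_combination (algebraMap k R t - (C.u : R) ^ 3 - algebraMap k R t * (C.u : R)) * h2
    rw [← h1, map_add, map_add, map_pow, AlgHom.commutes, U_val]
  rw [hQ, ← AlgHom.commutes L.ι, ← map_pow, ← map_pow, ← map_mul, ← map_mul, ← map_add, ← map_add]
  congr 1
  rw [QRing.hw]
  have h2 := QRing.rtwo k (S := R)
  have h3 := C.rel'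
  linear_combination C.Q ^ 2 * h3 + (C.Q ^ 3 * C.w + C.Q ^ 2 * C.w + C.Q ^ 3) * h2

/-- the homomorphism with `h u = u² + t`, `h w = w² + t Q²` -/
def h : R →ₐ[k] S := C.lift L.U (L.ι C.hw) L.hEqn

theorem h_bas (m : ℤ) (a : Fin 2) : L.h (C.bas (m, a)) =
    ((L.U ^ m : Sˣ) : S) * L.ι C.hw ^ (a : ℕ) := C.liftL_bas _ _ m a

theorem h_u : L.h (C.u : R) = L.ι C.tau := C.lift_u _ _ _

theorem h_w : L.h C.w = L.ι C.hw := C.lift_w _ _ _

theorem hw_mem_X : C.hw ∈ C.X := by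
  have h1 := C.mul_mem_X C.Q_mem_X C.w_mem_X
  have h2 := C.mul_mem_X C.Q_mem_X C.Q_mem_X
  rw [← pow_two] at h2
  exact C.X.add_mem (C.X.add_mem h1 h2) C.Q_mem_X

theorem hw_mem_Y : C.hw ∈ C.Y 4 := by
  have h1 := C.mul_mem_Y (C.Q_mem_Y (le_refl (2 : ℤ))) (C.w_mem_Y (le_refl (2 : ℤ)))
  have h2 := C.mul_mem_Y (C.Q_mem_Y (le_refl (2 : ℤ))) (C.Q_mem_Y (le_refl (2 : ℤ)))
  rw [← pow_two] at h2
  rw [show (2 : ℤ) + 2 = 4 by norm_num] at h1 h2
  exact (C.Y 4).add_mem ((C.Y 4).add_mem h1 h2) (C.Q_mem_Y (by norm_num))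

theorem h_mem_X {r : R} (hr : r ∈ C.X) : L.h r ∈ L.X := by
  have h : C.X ≤ L.X.comap L.h.toLinearMap := by
    conv_lhs => rw [QRing.Mul_X_eq]
    rw [Submodule.span_le]
    rintro _ ⟨⟨m, a⟩, hm, rfl⟩
    have hm' : 0 ≤ m := hm
    change L.h (C.bas (m, a)) ∈ L.X
    rw [h_bas]
    refine L.X_mul ?_ ?_
    · obtain ⟨n, rfl⟩ := Int.eq_ofNat_of_zero_le hm'
      rw [zpow_natCast, Units.val_pow_eq_pow_val, U_val, ← map_pow]
      exact ⟨_, C.tau_pow_mem_X n, rfl⟩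
    · rw [← map_pow]
      refine ⟨C.hw ^ (a : ℕ), ?_, rfl⟩
      fin_cases a
      · simpa using C.one_mem_X
      · simpa using hw_mem_X (C := C)
  exact h hr

theorem h_mem_Y {n : ℤ} {r : R} (hr : r ∈ C.Y n) : L.h r ∈ L.Y (2 * n) := by
  have h : C.Y n ≤ (L.Y (2 * n)).comap L.h.toLinearMap := by
    conv_lhs => rw [QRing.Mul_Y_eq]
    rw [Submodule.span_le]
    rintro _ ⟨⟨m, a⟩, hm, rfl⟩
    have hm' : m + 2 * ((a : ℕ) : ℤ) ≤ n := hm
    change L.h (C.bas (m, a)) ∈ L.Y (2 * n)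
    rw [h_bas]
    have h1 : L.ι C.hw ^ (a : ℕ) ∈ L.Y (4 * ((a : ℕ) : ℤ)) := by
      rw [← map_pow]
      refine L.ι_mem_Y ?_
      fin_cases a
      · simpa using C.one_mem_Y (le_refl (0 : ℤ))
      · simpa using hw_mem_Y (C := C)
    exact L.Y_mono (by linarith) (L.Y_mul (L.U_mem m) h1)
  exact h hr

/-! ### the derivation -/

theorem der_tau : C.der C.tau = 0 := by
  rw [QRing.tau, map_add, C.der_sq', C.der_algebraMap, add_zero]

theorem der_tau_pow (m : ℕ) : C.der (C.tau ^ m) = 0 := by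
  induction m with
  | zero => rw [pow_zero, C.der_one]
  | succ m ih => rw [pow_succ, C.der_mul, ih, der_tau, zero_mul, mul_zero, add_zero]

theorem der_tau_pow_mul (m : ℕ) (r : R) : C.der (C.tau ^ m * r) = C.tau ^ m * C.der r :=
  C.der_mul_left (der_tau_pow m) r

/-- the extension of the derivation -/
def derF (x : S) : S := L.σ ^ (L.surj x).choose * L.ι (C.der (L.surj x).choose_spec.choose)

theorem derF_spec (x : S) : ∃ (n : ℕ) (s : R), L.ι C.tau ^ n * x = L.ι s ∧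
    L.derF x = L.σ ^ n * L.ι (C.der s) :=
  ⟨_, _, (L.surj x).choose_spec.choose_spec, rfl⟩

theorem derF_eq {x : S} {m : ℕ} {r : R} (h : L.ι C.tau ^ m * x = L.ι r) :
    L.ι C.tau ^ m * L.derF x = L.ι (C.der r) := by
  obtain ⟨n, s, h0, hF⟩ := L.derF_spec x
  have h1 : C.tau ^ n * r = C.tau ^ m * s := by
    apply L.inj
    rw [map_mul, map_mul, map_pow, map_pow, ← h, ← h0]
    ring
  have h2 : C.tau ^ n * C.der r = C.tau ^ m * C.der s := by
    rw [← der_tau_pow_mul, h1, der_tau_pow_mul]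
  have h3 : L.ι C.tau ^ n * L.ι (C.der r) = L.ι C.tau ^ m * L.ι (C.der s) := by
    rw [← map_pow, ← map_mul, h2, map_mul, map_pow]
  refine L.cancel (m := n) ?_
  rw [h3, hF]
  have h4 := L.pow_mul_σ n
  linear_combination (L.ι C.tau ^ m * L.ι (C.der s)) * h4

/-- the extension of the derivation as a linear map -/
def der : S →ₗ[k] S where
  toFun := L.derF
  map_add' x y := by
    obtain ⟨m, r, hr⟩ := L.surj x
    obtain ⟨n, s, hs⟩ := L.surj y
    have h1 : L.ι C.tau ^ (m + n) * (x + y) = L.ι (C.tau ^ n * r + C.tau ^ m * s) := by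
      rw [map_add, map_mul, map_mul, map_pow, map_pow, ← hr, ← hs, pow_add]
      ring
    have h2 := L.derF_eq h1
    have h3 := L.derF_eq hr
    have h4 := L.derF_eq hs
    rw [map_add, der_tau_pow_mul, der_tau_pow_mul, map_add, map_mul, map_mul, map_pow, map_pow,
      ← h3, ← h4] at h2
    refine L.cancel (m := m + n) ?_
    rw [h2, pow_add]
    ring
  map_smul' c x := by
    obtain ⟨m, r, hr⟩ := L.surj x
    have h1 : L.ι C.tau ^ m * (c • x) = L.ι (c • r) := by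
      rw [mul_smul_comm, hr, map_smul]
    have h2 := L.derF_eq h1
    have h3 := L.derF_eq hr
    refine L.cancel (m := m) ?_
    rw [h2, map_smul, map_smul, RingHom.id_apply, mul_smul_comm, h3]

theorem der_eq {x : S} {m : ℕ} {r : R} (h : L.ι C.tau ^ m * x = L.ι r) :
    L.ι C.tau ^ m * L.der x = L.ι (C.der r) := L.derF_eq h

theorem der_ι (r : R) : L.der (L.ι r) = L.ι (C.der r) := by
  have h := L.der_eq (x := L.ι r) (m := 0) (r := r) (by rw [pow_zero, one_mul])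
  rwa [pow_zero, one_mul] at h

theorem der_mul (x y : S) : L.der (x * y) = L.der x * y + x * L.der y := by
  obtain ⟨m, r, hr⟩ := L.surj x
  obtain ⟨n, s, hs⟩ := L.surj y
  have h1 : L.ι C.tau ^ (m + n) * (x * y) = L.ι (r * s) := by
    rw [map_mul, ← hr, ← hs, pow_add]
    ring
  have h2 := L.der_eq h1
  have h3 := L.der_eq hr
  have h4 := L.der_eq hs
  rw [C.der_mul, map_add L.ι, map_mul L.ι, map_mul L.ι, ← h3, ← h4, ← hr, ← hs] at h2
  refine L.cancel (m := m + n) ?_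
  rw [h2, pow_add]
  ring

theorem der_one : L.der 1 = 0 := by
  rw [← map_one L.ι, der_ι, C.der_one, map_zero]

theorem der_U (m : ℤ) : L.der ((L.U ^ m : Sˣ) : S) = 0 := by
  have h0 : L.der (L.U : S) = 0 := by rw [U_val, der_ι, der_tau, map_zero]
  have h1 : L.der ((L.U⁻¹ : Sˣ) : S) = 0 := by
    have h2 : L.der ((L.U : S) * ((L.U⁻¹ : Sˣ) : S)) = 0 := by rw [Units.mul_inv, der_one]
    rw [der_mul, h0, zero_mul, zero_add] at h2
    have h3 : ((L.U⁻¹ : Sˣ) : S) * ((L.U : S) * L.der ((L.U⁻¹ : Sˣ) : S)) = 0 := by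
      rw [h2, mul_zero]
    rwa [← mul_assoc, Units.inv_mul, one_mul] at h3
  have h4 : ∀ (v : Sˣ), L.der (v : S) = 0 → ∀ n : ℕ, L.der ((v : S) ^ n) = 0 := by
    intro v hv n
    induction n with
    | zero => rw [pow_zero, der_one]
    | succ n ih => rw [pow_succ, der_mul, ih, hv, zero_mul, mul_zero, add_zero]
  obtain ⟨n, rfl | rfl⟩ := Int.eq_nat_or_neg m
  · rw [zpow_natCast, Units.val_pow_eq_pow_val]
    exact h4 _ h0 n
  · rw [zpow_neg, ← inv_zpow, zpow_natCast, Units.val_pow_eq_pow_val]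
    exact h4 _ h1 n

theorem der_hw : C.der C.hw = 0 := by
  rw [QRing.hw, map_add, map_add, C.der_mul, C.der_Q, C.der_w, C.der_sq']
  have h2 := QRing.rtwo k (S := R)
  linear_combination (C.Q * C.w + C.Q) * h2

/-- the derivation kills the image of `h` -/
theorem der_h (r : R) : L.der (L.h r) = 0 := by
  have h : L.der ∘ₗ L.h.toLinearMap = 0 := by
    refine C.bas.ext fun p => ?_
    obtain ⟨m, a⟩ := p
    change L.der (L.h (C.bas (m, a))) = 0
    rw [h_bas, der_mul, der_U, zero_mul, zero_add, ← map_pow, der_ι]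
    have h1 : C.der (C.hw ^ (a : ℕ)) = 0 := by
      fin_cases a
      · simp
      · simpa using der_hw (C := C)
    rw [h1, map_zero, mul_zero]
  exact LinearMap.congr_fun h r

theorem der_mem_X {x : S} (n : ℤ) (hx : x ∈ L.X) :
    L.der x + (n : k) • (L.ι ((C.u : R) + 1) * x) ∈ L.X := by
  obtain ⟨r, hr, rfl⟩ := hx
  refine ⟨C.nab n r, C.nab_mem_X n hr, ?_⟩
  change L.ι (C.nab n r) = L.der (L.ι r) + (n : k) • (L.ι ((C.u : R) + 1) * L.ι r)
  rw [C.nab_apply, map_add, der_ι, map_smul, map_mul]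

theorem der_mem_Y {x : S} (n : ℤ) (hx : x ∈ L.Y n) :
    L.der x + (n : k) • (L.ι ((C.u : R) + 1) * x) ∈ L.Y n := by
  obtain ⟨m, r, hr, hx⟩ := hx
  refine ⟨m, C.nab (n + 2 * m) r, C.nab_mem_Y _ hr, ?_⟩
  have e : ((n + 2 * (m : ℤ) : ℤ) : k) = (n : k) := by
    push_cast
    rw [show (2 : k) = 0 from CharTwo.two_eq_zero, zero_mul, add_zero]
  have h9 : L.ι (C.der r + (n : k) • (((C.u : R) + 1) * r)) =
      L.ι (C.der r) + (n : k) • (L.ι ((C.u : R) + 1) * L.ι r) := by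
    rw [map_add, map_smul, map_mul]
  rw [C.nab_apply, e, h9, ← L.der_eq hx, ← hx, mul_add, mul_smul_comm]
  congr 2
  ring

end hom

/-! ### the functional -/

theorem ι_mem_sup (E : QRoot k t K) {r : R} (h : L.ι r ∈ L.X ⊔ L.Y 0) : r ∈ C.X ⊔ C.Y 0 := by
  obtain ⟨x, ⟨s, hs, rfl⟩, y, hy, h1⟩ := Submodule.mem_sup.1 h
  have h2 : L.ι (r - s) ∈ L.Y 0 := by
    have h3 : L.ι (r - s) = y := by
      rw [map_sub, ← h1]
      exact add_sub_cancel_left _ _
    rw [h3]; exact hy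
  have h3 := L.of_ι_mem_Y E h2
  have h4 : r = s + (r - s) := by abel
  rw [h4]
  exact Submodule.add_mem_sup hs h3

/-- extension of a functional which kills `X` and `Y 0` -/
theorem exists_res (E : QRoot k t K) (f : R →ₗ[k] k) (hX : ∀ x ∈ C.X, f x = 0)
    (hY : ∀ x ∈ C.Y 0, f x = 0) : ∃ g : S →ₗ[k] k, (∀ r, g (L.ι r) = f r) ∧
      (∀ x ∈ L.X, g x = 0) ∧ (∀ x ∈ L.Y 0, g x = 0) := by
  have h1 : C.X ⊔ C.Y 0 ≤ (L.X ⊔ L.Y 0).comap L.ι.toLinearMap := by
    refine sup_le ?_ ?_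
    · intro x hx
      exact Submodule.mem_sup_left (⟨x, hx, rfl⟩ : L.ι x ∈ L.X)
    · intro x hx
      exact Submodule.mem_sup_right (L.ι_mem_Y hx)
  let φ := (C.X ⊔ C.Y 0).mapQ (L.X ⊔ L.Y 0) L.ι.toLinearMap h1
  have hφ : LinearMap.ker φ = ⊥ := by
    rw [LinearMap.ker_eq_bot']
    intro x hx
    obtain ⟨r, rfl⟩ := Submodule.mkQ_surjective _ x
    have h2 : (L.X ⊔ L.Y 0).mkQ (L.ι r) = 0 := hx
    rw [Submodule.mkQ_apply, Submodule.Quotient.mk_eq_zero] at h2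
    rw [Submodule.mkQ_apply, Submodule.Quotient.mk_eq_zero]
    exact L.ι_mem_sup E h2
  obtain ⟨g, hg⟩ := LinearMap.exists_leftInverse_of_injective φ hφ
  have h3 : C.X ⊔ C.Y 0 ≤ LinearMap.ker f := by
    refine sup_le ?_ ?_
    · intro x hx; exact hX x hx
    · intro x hx; exact hY x hx
  let f' := (C.X ⊔ C.Y 0).liftQ f h3
  have h0 : ∀ x ∈ L.X ⊔ L.Y 0, (f' ∘ₗ g ∘ₗ (L.X ⊔ L.Y 0).mkQ) x = 0 := by
    intro x hx
    have h4 : (L.X ⊔ L.Y 0).mkQ x = 0 := by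
      rw [Submodule.mkQ_apply, Submodule.Quotient.mk_eq_zero]; exact hx
    change f' (g ((L.X ⊔ L.Y 0).mkQ x)) = 0
    rw [h4, map_zero, map_zero]
  refine ⟨f' ∘ₗ g ∘ₗ (L.X ⊔ L.Y 0).mkQ, fun r => ?_, fun x hx => h0 x (Submodule.mem_sup_left hx),
    fun x hx => h0 x (Submodule.mem_sup_right hx)⟩
  have h5 : g ((L.X ⊔ L.Y 0).mkQ (L.ι r)) = (C.X ⊔ C.Y 0).mkQ r :=
    LinearMap.congr_fun hg ((C.X ⊔ C.Y 0).mkQ r)
  change f' (g ((L.X ⊔ L.Y 0).mkQ (L.ι r))) = f r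
  rw [h5]
  rfl

end SRing

end

end H36.QX
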