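import Pool.Agent.H36.QX.SmK
import Pool.Agent.H36.QX.HomsW
import Pool.Agent.H36.QX.Q0
import Pool.Agent.H36.QX.Dom

/-!
# SmQ : the bimodules `W n` are perfect; the diagonal bimodule is perfect if the cokernel of `Q : Q n → Q (n+2)` is
-/

set_option autoImplicit false

open NC

namespace H36.QX

open H36.NX
variable {k : Type} [Field k] {t : k} {R : Type} [CommRing R] [Algebra k R]
  {C : QRing k t R} {K : Type} [Field K] [Algebra k K] {D : Type} [CommRing D] [Algebra k D]

theorem PF_coker_phi (C : QRing k t R) (E : QRoot k t K) (m n : ℤ) :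
    PF (AA C) (BMod.coker (phiH C m n)) :=
  PF.ses1 (phiH C m n) (BMod.cokerπ (phiH C m n)) (BMod.coker_ses _ (phi_injective C m n))
    (PF_K C E m n) (PF_K C E (m + 1) (n + 1))

theorem PF_W (W : DblRing k C D) (E : QRoot k t K) (n : ℤ) : PF (AA C) (Wb W n) := by
  have h := PF.qi (psiBar W (-1) (n - 1)) (psiBar_qi W (-1) (n - 1)) (PF_coker_phi C E (-1) (n - 1))
  have e : (-1 : ℤ) + 1 + (n - 1 + 1) = n := by ring
  rwa [e] at h

theorem Q_ne_zero (C : QRing k t R) (E : QRoot k t K) : C.Q ≠ 0 := by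
  intro h
  have h1 := C.lead_Q E
  rw [h, map_zero] at h1
  exact zero_ne_one h1

/-- the multiplication by `Q` is injective -/
theorem qq_injective (C : QRing k t R) (E : QRoot k t K) (n : ℤ) :
    Function.Injective (qq C n).f := by
  have : IsDomain R := C.isDomain E
  have hQ := Q_ne_zero C E
  intro x y hxy
  refine q_ext C ?_
  funext s
  ext i j
  have h1 : ∀ z : (qSD C wt (wtn n)).V, qv C wt (wtn (n + 2)) ((qq C n).f z) s i j
      = C.Q * qv C wt (wtn n) z s i j := by
    intro z
    change qv C wt (wtn (n + 2)) (qQ C (q_eq2' n) z) s i j = _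
    rw [qv_qQ, smulR_apply]
  have h2 : qv C wt (wtn (n + 2)) ((qq C n).f x) s i j
      = qv C wt (wtn (n + 2)) ((qq C n).f y) s i j := by rw [hxy]
  rw [h1, h1] at h2
  exact mul_left_cancel₀ hQ h2

/-- `Q (n+2)` is perfect: `PF_push` with `W (n+2)`, `G` and `π` -/
theorem PF_Q (W : DblRing k C D) (E : QRoot k t K) [CharP k 2] (n : ℤ)
    (hc : PF (AA C) (BMod.coker (qq C n))) : PF (AA C) (Qb C (n + 2)) :=
  PF_push (gH W n) (piH W (n + 2)) (qq C n) (fun m => piH_gH W n m) (qq_injective C E n)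
    (PF_W W E (n + 2)) hc

/-- **smoothness** (super version), from the cokernel of `Q` -/
theorem PF_diag_of (W : DblRing k C D) (E : QRoot k t K) [CharP k 2]
    (hc : PF (AA C) (BMod.coker (qq C (-2)))) : PF (AA C) (BMod.diag (AA C)) := by
  have h := PF_Q W E (-2) hc
  rw [neg_add_cancel] at h
  exact PF.qi (q0H C) (QI_of_bijective _ (q0H_bijective C)) h

end H36.QX
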