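import Pool.Agent.H36.QX.FUt

/-!
# TauE : the functional `n [a] ↦ trace (n ∂a)` on `HC (fBi T)`, evaluated at the piece `e` in the frame `γ`
-/

set_option autoImplicit false

open NC

noncomputable section

namespace H36.QX

open H36.NX

section abs

variable {k : Type} [Field k] {R : DGA k} {N N' : SD k} {B F : Type} [Ring B] [Algebra k B]
  [AddCommGroup F] [Module k F] {b : Bi R R N} {tr : B →ₗ[k] F}

theorem TauData.tau1_map (d : TauData b tr) {b' : Bi R R N'} (d' : TauData b' tr)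
    (φ : N'.V →ₗ[k] N.V)
    (Φ : Wd k N'.V R.V →ₗ[k] Wd k N.V R.V) (h0 : ∀ n, Φ (Wd.nil n) = Wd.nil (φ n))
    (h1 : ∀ w r, Φ (Wd.snoc w r) = Wd.snoc (Φ w) r)
    (hg : ∀ n, d.g (φ n) = d'.g n) (hδ : ∀ r, d.δ r = d'.δ r) (x : Wd k N'.V R.V) :
    d.tau1 (Φ x) = d'.tau1 x := by
  have hX : ∀ w, d.gX (Φ w) = d'.gX w := by
    intro w
    induction w using Wd.induction with
    | hadd u v hu hv => rw [map_add, map_add, map_add, hu, hv]
    | hnil n => rw [h0, TauData.gX_nil, TauData.gX_nil, hg]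
    | hsnoc w _ r => rw [h1, TauData.gX_snoc, TauData.gX_snoc]
  induction x using Wd.induction with
  | hadd u v hu hv => rw [map_add, map_add, map_add, hu, hv]
  | hnil n => rw [h0, TauData.tau1_nil, TauData.tau1_nil]
  | hsnoc w _ r => rw [h1, TauData.tau1_snoc, TauData.tau1_snoc, hX, hδ]

end abs

variable {k : Type} [Field k] {t : k} {R : Type} [CommRing R] [Algebra k R]
  {F : Type} [Field F] [Algebra k F] {C : QRing k t R} {j : R →ₐ[k] F}

/-- conjugation by the diagonal matrix of the powers of `γ` -/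
def cj (k : Type) [Field k] {F : Type} [Field F] [Algebra k F] (γ : F) :
    Matrix (Fin 2) (Fin 2) F →ₗ[k] Matrix (Fin 2) (Fin 2) F where
  toFun M := Matrix.of (fun i l => γ ^ (-(wt l - wt i)) * M i l)
  map_add' M N := by
    ext i l
    change γ ^ (-(wt l - wt i)) * (M i l + N i l) = _
    rw [mul_add]
    rfl
  map_smul' c M := by
    ext i l
    change γ ^ (-(wt l - wt i)) * (c • M i l) = _
    rw [mul_smul_comm]
    rfl

theorem cj_apply (γ : F) (M : Matrix (Fin 2) (Fin 2) F) (i l : Fin 2) :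
    cj k γ M i l = γ ^ (-(wt l - wt i)) * M i l := rfl

theorem cj_mul {γ : F} (hγ : γ ≠ 0) (M N : Matrix (Fin 2) (Fin 2) F) :
    cj k γ (M * N) = cj k γ M * cj k γ N := by
  ext i l
  rw [cj_apply, Matrix.mul_apply, Matrix.mul_apply, Finset.mul_sum]
  refine Finset.sum_congr rfl (fun x _ => ?_)
  rw [cj_apply, cj_apply]
  have h : γ ^ (-(wt l - wt i)) = γ ^ (-(wt x - wt i)) * γ ^ (-(wt l - wt x)) := by
    rw [← zpow_add₀ hγ]
    congr 1
    ring
  rw [h]
  ring

theorem cj_one (M : Matrix (Fin 2) (Fin 2) F) : cj k (1 : F) M = M := by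
  ext i l
  rw [cj_apply, one_zpow, one_mul]

/-- the data of the functional on `fBi T` -/
def tauE (T : PS C j) (e : Pc) (he : e = Pc.X ∨ e = Pc.Y) (γ : F) (hγ : γ ≠ 0)
    (dF : F →ₗ[k] F) (hdF : ∀ a b, dF (a * b) = a * dF b + dF a * b) :
    TauData (fBi T) (Matrix.traceLinearMap (Fin 2) k F) where
  g := cj k γ ∘ₗ (LinearMap.proj e) ∘ₗ (fv T wt wt)
  χ := cj k γ ∘ₗ j.toLinearMap.mapMatrix ∘ₗ (LinearMap.proj e) ∘ₗ (qv C wt wt)
  δ := dF.mapMatrix ∘ₗ cj k γ ∘ₗ j.toLinearMap.mapMatrix ∘ₗ (LinearMap.proj e) ∘ₗ (qv C wt wt)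
  tr_comm x y := Matrix.trace_mul_comm x y
  gl a n := by
    change cj k γ (fv T wt wt ((fLA T wt).act a n) e)
      = cj k γ ((qv C wt wt a e).map j) * cj k γ (fv T wt wt n e)
    rw [← cj_mul hγ, fv_fLA]
    rcases he with rfl | rfl
    · rw [cMul_X, matL_apply]
    · rw [cMul_Y, matL_apply]
  gr n a := by
    change cj k γ (fv T wt wt ((fRA T wt).act n a) e)
      = cj k γ (fv T wt wt n e) * cj k γ ((qv C wt wt a e).map j)
    rw [← cj_mul hγ, fv_fRA]
    rcases he with rfl | rfl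
    · rw [cMul_X, matR_apply]
    · rw [cMul_Y, matR_apply]
  gD n := by
    change cj k γ (fv T wt wt ((fSD T wt wt).D n) e) = 0
    rw [fv_D]
    rcases he with rfl | rfl
    · exact map_zero _
    · exact map_zero _
  gP n := by
    change cj k γ (fv T wt wt ((fSD T wt wt).P n) e) = cj k γ (fv T wt wt n e)
    rw [fv_P]
    rcases he with rfl | rfl <;> rfl
  χP a := by
    rcases he with rfl | rfl <;> rfl
  χmul a c := by
    change cj k γ ((qv C wt wt (qMul C wt wt wt a c) e).map j)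
      = cj k γ ((qv C wt wt a e).map j) * cj k γ ((qv C wt wt c e).map j)
    rw [← cj_mul hγ, qv_qMul]
    rcases he with rfl | rfl
    · rw [cMul_X, matMul_apply, map_mul_j]
    · rw [cMul_Y, matMul_apply, map_mul_j]
  δP a := by
    rcases he with rfl | rfl <;> rfl
  δD a := by
    change dF.mapMatrix (cj k γ ((qv C wt wt ((qSD C wt wt).D a) e).map j)) = 0
    have h0 : (qv C wt wt ((qSD C wt wt).D a) e).map j = 0 := by
      rw [qv_D]
      rcases he with rfl | rfl
      · rw [cD_X]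
        ext i l
        simp
      · rw [cD_Y]
        ext i l
        simp
    rw [h0, map_zero, map_zero]
  δmul a c := by
    change dF.mapMatrix (cj k γ ((qv C wt wt (qMul C wt wt wt a c) e).map j))
      = cj k γ ((qv C wt wt a e).map j) * dF.mapMatrix (cj k γ ((qv C wt wt c e).map j))
        + dF.mapMatrix (cj k γ ((qv C wt wt a e).map j)) * cj k γ ((qv C wt wt c e).map j)
    have h0 : (qv C wt wt (qMul C wt wt wt a c) e).map j
        = (qv C wt wt a e).map j * (qv C wt wt c e).map j := by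
      rw [qv_qMul]
      rcases he with rfl | rfl
      · rw [cMul_X, matMul_apply, map_mul_j]
      · rw [cMul_Y, matMul_apply, map_mul_j]
    rw [h0, cj_mul hγ]
    generalize cj k γ ((qv C wt wt a e).map j) = X
    generalize cj k γ ((qv C wt wt c e).map j) = Y
    ext i l
    simp only [LinearMap.mapMatrix_apply, Matrix.map_apply, Matrix.mul_apply, Matrix.add_apply,
      map_sum, hdF, Finset.sum_add_distrib]

theorem che (U : Cht C j) : U.e = Pc.X ∨ U.e = Pc.Y := by
  rcases U.he with h | h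
  · exact Or.inl h.1
  · exact Or.inr h.1

variable (dF : F →ₗ[k] F) (hdF : ∀ a b, dF (a * b) = a * dF b + dF a * b)

/-- the functional of a chart is the functional at its piece and frame -/
theorem tauU_eq (U : Cht C j) (x : (HC (fBi U.T)).V) :
    tauU U dF hdF x = (tauE U.T U.e (che U) U.g U.g0 dF hdF).tau1 x := by
  refine TauData.tau1_map (tauNd U dF hdF) (tauE U.T U.e (che U) U.g U.g0 dF hdF)
    (evF U wt wt).f (FUeH U).f (fun n => FUeH_nil U n) (fun w r => FUeH_snoc U w r)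
    (fun n => ?_) (fun r => ?_) x
  · rfl
  · rfl

/-- the functionals are compatible with inclusions of piece systems -/
theorem tauE_incl {T T' : PS C j} (Φ : (HC (fBi T)).V →ₗ[k] (HC (fBi T')).V)
    (φ : (fSD T wt wt).V →ₗ[k] (fSD T' wt wt).V) (h0 : ∀ n, Φ (Wd.nil n) = Wd.nil (φ n))
    (h1 : ∀ w r, Φ (Wd.snoc w r) = Wd.snoc (Φ w) r)
    (hφ : ∀ n, fv T' wt wt (φ n) = fv T wt wt n)
    (e : Pc) (he : e = Pc.X ∨ e = Pc.Y) (γ : F) (hγ : γ ≠ 0) (x : (HC (fBi T)).V) :
    (tauE T' e he γ hγ dF hdF).tau1 (Φ x) = (tauE T e he γ hγ dF hdF).tau1 x := by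
  refine TauData.tau1_map (tauE T' e he γ hγ dF hdF) (tauE T e he γ hγ dF hdF) φ Φ h0 h1
    (fun n => ?_) (fun r => rfl) x
  change cj k γ (fv T' wt wt (φ n) e) = cj k γ (fv T wt wt n e)
  rw [hφ]

end H36.QX
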