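import Pool.Agent.H94.NC.MCtx

/-!
# Tht : contraction of Hochschild chains with a derivation, in characteristic two

In characteristic two the parity automorphisms are the identity and all signs disappear. For a
derivation `d` of a dg algebra, `jn d (a₀[a₁|..|aₙ]) = (d aₙ · a₀)[a₁|..|aₙ₋₁]` commutes with the
Hochschild differential.
-/

set_option autoImplicit false
set_option linter.unusedSectionVars false

open NC

noncomputable section

namespace H36.QX

variable {k : Type} [Field k] [CharP k 2]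

theorem add_self2 (k : Type) [Field k] [CharP k 2] {V : Type} [AddCommGroup V] [Module k V] (v : V) :
    v + v = 0 := by
  rw [← two_smul k v, show (2 : k) = 0 from CharTwo.two_eq_zero, zero_smul]

theorem neg_self2 (k : Type) [Field k] [CharP k 2] {V : Type} [AddCommGroup V] [Module k V] (v : V) :
    -v = v := neg_eq_of_add_eq_zero_left (add_self2 k v)

theorem E_two (X : SD k) (v : X.V) : X.E v = v := by
  rw [SD.E_apply, add_self2 k (X.P v), zero_sub, neg_self2 k]

theorem EW_two (N R : SD k) (w : Wd k N.V R.V) : EW N R w = w := by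
  rw [EW_apply, add_self2 k (PW N R w), zero_sub, neg_self2 k]

/-- an even derivation of a dg algebra commuting with the differential (characteristic two) -/
structure Dr (A : DGA k) where
  f : A.V →ₗ[k] A.V
  D : ∀ a, f (A.D a) = A.D (f a)
  P : ∀ a, f (A.P a) = A.P (f a)
  mul : ∀ a b, f (a * b) = f a * b + a * f b

/-- the Hochschild differential without signs -/
theorem hcD_two {A : DGA k} {N : SD k} (b : Bi A A N) (w : Wd k N.V A.V) (r : A.V) :
    hcD b (Wd.snoc w r) = Wd.snoc (Db b.r w) r + Wd.snoc w (A.D r) + tl A b.r.act w r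
      + hd A b.l r w := by
  rw [hcD_snoc]
  simp only [EW_two]
  have h : hd A b.l (A.P r) w + hd A b.l (r - A.P r) w = hd A b.l r w := by
    rw [← LinearMap.add_apply, ← map_add, add_sub_cancel]
  rw [sub_sub, h, sub_eq_add_neg, sub_eq_add_neg, neg_self2 k, neg_self2 k]

theorem om_two {A : DGA k} {N : SD k} (l : LA A N) (w : Wd k N.V A.V) (r : A.V) :
    om l (Wd.snoc w r) = hd A l r w := by
  rw [om_snoc, EW_two, ← LinearMap.add_apply, ← map_add, add_sub_cancel]

/-- contraction with a derivation -/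
def jn {A : DGA k} (d : Dr A) : Wd k A.V A.V →ₗ[k] Wd k A.V A.V :=
  Wd.recW 0 ((hd A A.diag.l ∘ₗ d.f).flip) 0

@[simp] theorem jn_nil {A : DGA k} (d : Dr A) (a : A.V) :
    jn d (Wd.nil (k := k) (R := A.V) a) = 0 := by simp [jn]

@[simp] theorem jn_snoc {A : DGA k} (d : Dr A) (w : Wd k A.V A.V) (r : A.V) :
    jn d (Wd.snoc w r) = hd A A.diag.l (d.f r) w := by simp [jn]

theorem om_hd_two {A : DGA k} (x : A.V) (v : Wd k A.V A.V) (s : A.V) :
    om A.diag.l (hd A A.diag.l x (Wd.snoc v s)) = hd A A.diag.l (s * x) v := by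
  rw [hd_snoc, om_two, hd_mul]

theorem jn_hcD_snoc {A : DGA k} (d : Dr A) (w : Wd k A.V A.V) (r : A.V) :
    jn d (hcD A.diag (Wd.snoc w r)) = hcD A.diag (hd A A.diag.l (d.f r) w) := by
  induction w using Wd.induction with
  | hadd u v hu hv => simp only [map_add, LinearMap.add_apply, hu, hv]
  | hnil n =>
    have e0 : jn d (hd A A.diag.l r (Wd.nil n)) = 0 := by
      rw [hd_nil]; exact jn_nil d _
    have e1 : jn d (tl A A.diag.r.act (Wd.nil n) r) = 0 := by
      rw [tl_nil]; exact jn_nil d _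
    have e2 : hcD A.diag (hd A A.diag.l (d.f r) (Wd.nil n)) = Wd.nil (A.D (d.f r * n)) := by
      rw [hd_nil]; exact hcD_nil _ _
    have e3 : hd A A.diag.l (d.f r) (Db A.diag.r (Wd.nil n)) = Wd.nil (d.f r * A.D n) := by
      rw [Db_nil]; exact hd_nil _ _ _
    have e4 : hd A A.diag.l (d.f (A.D r)) (Wd.nil n) = Wd.nil (d.f (A.D r) * n) := hd_nil _ _ _
    rw [hcD_two, map_add, map_add, map_add, jn_snoc, jn_snoc, e0, e1, e2, e3, e4,
      add_zero, add_zero, ← map_add, d.D]
    congr 1
    rw [A.D_mul', E_two, add_comm]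
  | hsnoc v _ s =>
    have h1 : hcD A.diag (hd A A.diag.l (d.f r) (Wd.snoc v s))
        = hd A A.diag.l (A.D (d.f r)) (Wd.snoc v s)
          + hd A A.diag.l (d.f r) (Db A.diag.r (Wd.snoc v s)) + hd A A.diag.l (s * d.f r) v := by
      rw [hcD_apply, Db_hd A.diag.l A.diag.r A.diag.lr, E_two, om_hd_two,
        sub_eq_add_neg, neg_self2 k]
    have e3 : jn d (tl A A.diag.r.act (Wd.snoc v s) r) = hd A A.diag.l (d.f s * r) v
        + hd A A.diag.l (s * d.f r) v := by
      rw [tl_snoc, jn_snoc, d.mul, map_add, LinearMap.add_apply]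
    have e4 : jn d (hd A A.diag.l r (Wd.snoc v s)) = hd A A.diag.l (d.f s * r) v := by
      rw [hd_snoc, jn_snoc, ← hd_mul]
    rw [hcD_two, map_add, map_add, map_add, jn_snoc, jn_snoc, e3, e4, h1, d.D]
    have h2 : ∀ x : Wd k A.V A.V, x + x = 0 := fun x => add_self2 k x
    have h3 := h2 (hd A A.diag.l (d.f s * r) v)
    calc hd A A.diag.l (d.f r) (Db A.diag.r (Wd.snoc v s)) + hd A A.diag.l (A.D (d.f r)) (Wd.snoc v s)
          + (hd A A.diag.l (d.f s * r) v + hd A A.diag.l (s * d.f r) v)
          + hd A A.diag.l (d.f s * r) v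
        = hd A A.diag.l (A.D (d.f r)) (Wd.snoc v s)
          + hd A A.diag.l (d.f r) (Db A.diag.r (Wd.snoc v s)) + hd A A.diag.l (s * d.f r) v
          + (hd A A.diag.l (d.f s * r) v + hd A A.diag.l (d.f s * r) v) := by abel
      _ = _ := by rw [h3, add_zero]

/-- the contraction is a chain map (characteristic two) -/
theorem jn_hcD {A : DGA k} (d : Dr A) (w : Wd k A.V A.V) :
    jn d (hcD A.diag w) = hcD A.diag (jn d w) := by
  induction w using Wd.induction with
  | hadd u v hu hv => simp only [map_add, hu, hv]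
  | hnil n => rw [hcD_nil, jn_nil, jn_nil, map_zero]
  | hsnoc w _ r => rw [jn_hcD_snoc, jn_snoc]

/-- the contraction is odd -/
theorem jn_PW {A : DGA k} (d : Dr A) (w : Wd k A.V A.V) :
    jn d (PW A.toSD A.toSD w) = jn d w - PW A.toSD A.toSD (jn d w) := by
  induction w using Wd.induction with
  | hadd u v hu hv => simp only [map_add, hu, hv]; abel
  | hnil n => rw [PW_nil, jn_nil, jn_nil, map_zero, sub_zero]
  | hsnoc w _ r =>
    rw [PW_snoc, map_sub, jn_snoc, jn_snoc, jn_snoc, hd_PW, E_two, d.P]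
    simp only [map_sub, LinearMap.sub_apply]
    have h2 : ∀ x : Wd k A.V A.V, x + x = 0 := fun x => add_self2 k x
    have h3 := h2 (hd A A.diag.l (d.f r) (PW A.toSD A.toSD w))
    have h4 := h2 (hd A A.diag.l (A.P (d.f r)) (PW A.toSD A.toSD w))
    generalize hd A A.diag.l (A.P (d.f r)) (PW A.toSD A.toSD w) = e at h4 ⊢
    generalize hd A A.diag.l (d.f r) (PW A.toSD A.toSD w) = c at h3 ⊢
    generalize hd A A.diag.l (A.P (d.f r)) w = b
    generalize hd A A.diag.l (d.f r) w = a
    calc b - c = b + c - (c + c) := by abel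
      _ = b + c - (e + e) := by rw [h3, h4]
      _ = _ := by abel

/-- a homomorphism killed by the derivation of the target -/
theorem jn_hcA_zero {A B : DGA k} (d : Dr B) (h : DGA.NHom A B) (h0 : ∀ a, d.f (h.f a) = 0)
    (w : Wd k A.V A.V) : jn d ((hcA h).f w) = 0 := by
  rw [hcA_f]
  induction w using Wd.induction with
  | hadd u v hu hv => simp only [map_add, hu, hv, add_zero]
  | hnil n => rw [Wd.map_nil, jn_nil]
  | hsnoc w _ r => rw [Wd.map_snoc, jn_snoc, h0, map_zero, LinearMap.zero_apply]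

theorem hd_map {A B : DGA k} (h : DGA.NHom A B) (x : A.V) (w : Wd k A.V A.V) :
    hd B B.diag.l (h.f x) (Wd.map h.f h.f w) = Wd.map h.f h.f (hd A A.diag.l x w) := by
  induction w using Wd.induction with
  | hadd u v hu hv => simp only [map_add, hu, hv]
  | hnil n =>
    rw [Wd.map_nil, hd_nil, hd_nil, Wd.map_nil]
    congr 1
    exact (h.mul x n).symm
  | hsnoc w hw r => rw [Wd.map_snoc, hd_snoc, hd_snoc, Wd.map_snoc, hw]

/-- a homomorphism commuting with the derivations -/
theorem jn_hcA {A B : DGA k} (d : Dr A) (d' : Dr B) (h : DGA.NHom A B)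
    (h0 : ∀ a, d'.f (h.f a) = h.f (d.f a)) (w : Wd k A.V A.V) :
    jn d' ((hcA h).f w) = (hcA h).f (jn d w) := by
  rw [hcA_f]
  induction w using Wd.induction with
  | hadd u v hu hv => simp only [map_add, hu, hv]
  | hnil n => rw [Wd.map_nil, jn_nil, jn_nil, map_zero]
  | hsnoc w _ r => rw [Wd.map_snoc, jn_snoc, jn_snoc, h0, hd_map]

end H36.QX
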