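import Pool.Agent.H36.QX.Emb
import Pool.Agent.H36.QX.HPz

/-!
# ThtA : the functional `Θ` on the Hochschild chains of the algebra of the example

`Θ` kills the boundaries, is even, and takes the value `t` on the explicit even cycle `zeta`.
-/

set_option autoImplicit false
set_option linter.unusedSectionVars false

open NC

noncomputable section

namespace H36.QX

open H36.NX

variable {k : Type} [Field k] {t : k} {R : Type} [CommRing R] [Algebra k R]

/-- the pieces of the curve -/
def QRing.psy (C : QRing k t R) : PSy k R where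
  pc := C.pc
  one s := C.one_mem_pc s le_rfl
  mul s _ _ _ _ ha hb := C.pc_mul_mem s ha hb
  top _ := rfl

/-- the realisation of the algebra of the example -/
def rzA (C : QRing k t R) : Rz (AA C) C.psy wt where
  v := av C
  inj := fun _ _ h => a_ext C h
  mem a := av_mem C a
  surj f hf := ⟨amk C f hf, av_amk C f hf⟩
  mul a b := av_mul C a b
  D a := av_D C a
  P a := av_P C a

/-- the coefficient of `u⁻¹ w` -/
def QRing.res (C : QRing k t R) : R →ₗ[k] k := C.bas.coord (-1, 1)

theorem QRing.res_apply (C : QRing k t R) (x : R) : C.res x = C.bas.repr x (-1, 1) := rfl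

theorem QRing.res_X (C : QRing k t R) {x : R} (h : x ∈ C.X) : C.res x = 0 :=
  (C.mem_X_iff x).1 h (-1) 1 (by norm_num)

theorem QRing.res_Y (C : QRing k t R) {x : R} (h : x ∈ C.Y 0) : C.res x = 0 :=
  (C.mem_Y_iff 0 x).1 h (-1) 1 (by norm_num)

theorem QRing.res_kappa (C : QRing k t R) : C.res (((C.u⁻¹ : Rˣ) : R) * C.w) = 1 := by
  have h : ((C.u⁻¹ : Rˣ) : R) * C.w = C.bas (-1, 1) := by
    rw [C.Mul_bas1, zpow_neg_one]
  rw [h, C.res_apply, Module.Basis.repr_self, Finsupp.single_eq_same]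

variable [CharP k 2]

/-- the connection of the curve -/
def QRing.cn (C : QRing k t R) : Cn C.psy where
  D := C.der
  g := (C.u : R) + 1
  mul := C.der_mul
  mem s n f hf := by
    cases s with
    | X => exact C.nab_mem_X n hf
    | Y => exact C.nab_mem_Y n hf
    | R => exact Submodule.mem_top

/-- the components with the trace -/
def ctA (C : QRing k t R) : CT (AA C) (Matrix (Fin 2) (Fin 2) R) :=
  (rzA C).ct C.res (fun _ h => C.res_X h) (fun _ h => C.res_Y h)

/-- the derivation of the algebra of the example -/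
def drA (C : QRing k t R) : Dr (AA C) := (rzA C).dr C.cn

/-- the functional `Θ` -/
def thA (C : QRing k t R) : Wd k (AA C).V (AA C).V →ₗ[k] k := (ctA C).Th (drA C)

theorem thA_hcD (C : QRing k t R) (w : Wd k (AA C).V (AA C).V) :
    thA C (hcD (AA C).diag w) = 0 := (ctA C).Th_hcD _ w

theorem thA_PW (C : QRing k t R) (w : Wd k (AA C).V (AA C).V) :
    thA C (PW (AA C).toSD (AA C).toSD w) = thA C w := (ctA C).Th_PW _ w

@[simp] theorem thA_nil (C : QRing k t R) (a : (AA C).V) : thA C (Wd.nil a) = 0 :=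
  (ctA C).Th_nil _ a

/-! ### the cycle -/

/-- `u⁻¹ w` in the overlap, from the second object to the first one -/
def cKf (C : QRing k t R) : Pc → Matrix (Fin 2) (Fin 2) R
  | Pc.X => 0
  | Pc.Y => 0
  | Pc.R => Matrix.single 1 0 (((C.u⁻¹ : Rˣ) : R) * C.w)

/-- the section `y` -/
def yAf (C : QRing k t R) : Pc → Matrix (Fin 2) (Fin 2) R
  | Pc.X => Matrix.single 0 1 (C.u : R)
  | Pc.Y => Matrix.single 0 1 (C.u : R)
  | Pc.R => 0

/-- `w` on the chart `x ≠ 0` -/
def wAf (C : QRing k t R) : Pc → Matrix (Fin 2) (Fin 2) R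
  | Pc.X => Matrix.single 0 0 C.w + Matrix.single 1 1 C.w
  | Pc.Y => 0
  | Pc.R => 0

theorem single_mem (C : QRing k t R) (s : Pc) (a b : Fin 2) (x : R)
    (hx : x ∈ C.pc s (wt b - wt a)) (i j : Fin 2) :
    Matrix.single a b x i j ∈ C.pc s (wt j - wt i) := by
  rw [Matrix.single_apply]
  split
  · next h => obtain ⟨rfl, rfl⟩ := h; exact hx
  · exact Submodule.zero_mem _

theorem cKf_mem (C : QRing k t R) : cKf C ∈ QQ C wt wt := by
  intro s i j
  cases s with
  | X => exact Submodule.zero_mem _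
  | Y => exact Submodule.zero_mem _
  | R => exact Submodule.mem_top

theorem yAf_mem (C : QRing k t R) : yAf C ∈ QQ C wt wt := by
  have key : ∀ (s : Pc) (i j : Fin 2),
      Matrix.single (0 : Fin 2) (1 : Fin 2) (C.u : R) i j ∈ C.pc s (wt j - wt i) := fun s i j =>
    single_mem C s 0 1 _ (C.u_mem_pc s (by simp [wt])) i j
  intro s i j
  cases s with
  | X => exact key Pc.X i j
  | Y => exact key Pc.Y i j
  | R => exact Submodule.mem_top

theorem wAf_mem (C : QRing k t R) : wAf C ∈ QQ C wt wt := by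
  intro s i j
  cases s with
  | X =>
    exact Submodule.add_mem _ (single_mem C Pc.X 0 0 _ C.w_mem_X i j)
      (single_mem C Pc.X 1 1 _ C.w_mem_X i j)
  | Y => exact Submodule.zero_mem _
  | R => exact Submodule.mem_top

def cK (C : QRing k t R) : (AA C).V := amk C (cKf C) (cKf_mem C)
def yA (C : QRing k t R) : (AA C).V := amk C (yAf C) (yAf_mem C)
def wA (C : QRing k t R) : (AA C).V := amk C (wAf C) (wAf_mem C)

theorem cK_P (C : QRing k t R) : (AA C).P (cK C) = 0 := by
  refine a_ext C ?_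
  rw [av_P, map_zero]
  funext s
  cases s <;> rfl

theorem cK_D (C : QRing k t R) : (AA C).D (cK C) = 0 := by
  refine a_ext C ?_
  rw [av_D, map_zero]
  funext s
  cases s with
  | X => rfl
  | Y => rfl
  | R =>
    change (0 : Matrix (Fin 2) (Fin 2) R) - 0 = 0
    rw [sub_zero]

theorem yA_P (C : QRing k t R) : (AA C).P (yA C) = yA C := by
  refine a_ext C ?_
  rw [av_P]
  funext s
  cases s <;> rfl

theorem yA_D (C : QRing k t R) : (AA C).D (yA C) = 0 := by
  refine a_ext C ?_
  rw [av_D, map_zero]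
  funext s
  cases s with
  | X => rfl
  | Y => rfl
  | R =>
    change Matrix.single (0 : Fin 2) (1 : Fin 2) (C.u : R) - Matrix.single 0 1 (C.u : R) = 0
    rw [sub_self]

theorem wA_P (C : QRing k t R) : (AA C).P (wA C) = wA C := by
  refine a_ext C ?_
  rw [av_P]
  funext s
  cases s <;> rfl

theorem zeta_aux (C : QRing k t R) :
    (cK C) * (yA C) + (yA C) * (cK C) + (AA C).D (wA C) = 0 := by
  refine a_ext C ?_
  rw [map_add, map_add, av_mul, av_mul, av_D, map_zero]
  have hu : ((C.u⁻¹ : Rˣ) : R) * C.w * (C.u : R) = C.w := by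
    rw [mul_comm, ← mul_assoc, C.u.mul_inv, one_mul]
  funext s
  cases s with
  | X =>
    change (0 : Matrix (Fin 2) (Fin 2) R) * _ + _ * 0 + 0 = 0
    rw [Matrix.zero_mul, Matrix.mul_zero, add_zero, add_zero]
  | Y =>
    change (0 : Matrix (Fin 2) (Fin 2) R) * _ + _ * 0 + 0 = 0
    rw [Matrix.zero_mul, Matrix.mul_zero, add_zero, add_zero]
  | R =>
    change ((0 : Matrix (Fin 2) (Fin 2) R) * 0
        + Matrix.single 1 0 (((C.u⁻¹ : Rˣ) : R) * C.w) * Matrix.single 0 1 (C.u : R))
      + (Matrix.single 0 1 (C.u : R) * Matrix.single 1 0 (((C.u⁻¹ : Rˣ) : R) * C.w) + 0 * 0)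
      + (0 - (Matrix.single 0 0 C.w + Matrix.single 1 1 C.w)) = 0
    rw [Matrix.single_mul_single_same, Matrix.single_mul_single_same, hu,
      show (C.u : R) * (((C.u⁻¹ : Rˣ) : R) * C.w) = C.w by
        rw [← mul_assoc, C.u.mul_inv, one_mul], Matrix.zero_mul]
    abel

/-- the explicit cycle -/
def zeta (C : QRing k t R) : Wd k (AA C).V (AA C).V :=
  Wd.snoc (Wd.nil (cK C)) (yA C) + Wd.nil (wA C)

theorem zeta_D (C : QRing k t R) : hcD (AA C).diag (zeta C) = 0 := by
  unfold zeta
  have e1 : Db (AA C).diag.r (Wd.nil (cK C)) = Wd.nil ((AA C).D (cK C)) := Db_nil _ _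
  have e2 : tl (AA C) (AA C).diag.r.act (Wd.nil (cK C)) (yA C) = Wd.nil (cK C * yA C) :=
    tl_nil _ _ _ _
  have e3 : hd (AA C) (AA C).diag.l (yA C) (Wd.nil (cK C)) = Wd.nil (yA C * cK C) :=
    hd_nil _ _ _
  have e4 : hcD (AA C).diag (Wd.nil (wA C)) = Wd.nil ((AA C).D (wA C)) := hcD_nil _ _
  rw [map_add, hcD_two, e1, e2, e3, e4, cK_D, yA_D, map_zero, map_zero, LinearMap.zero_apply,
    map_zero, zero_add, zero_add, ← map_add, ← map_add, zeta_aux, map_zero]

theorem zeta_P (C : QRing k t R) : PW (AA C).toSD (AA C).toSD (zeta C) = zeta C := by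
  unfold zeta
  rw [map_add, PW_snoc, PW_nil, PW_nil, cK_P, wA_P, yA_P, map_zero, map_zero,
    LinearMap.zero_apply, sub_zero]

theorem thA_zeta (C : QRing k t R) : thA C (zeta C) = t := by
  unfold zeta
  have h1 : thA C (Wd.snoc (Wd.nil (cK C)) (yA C)) = t := by
    have h2 := (ctA C).Th_nil_snoc (drA C) (cK C) (yA C)
    have hX : (ctA C).X ((drA C).f (yA C)) = Matrix.single 0 1 (algebraMap k R t) := by
      change (rzA C).v (((rzA C).dr C.cn).f (yA C)) Pc.X = _
      rw [Rz.v_dr, Cn.onPc_apply]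
      ext i j
      rw [Cn.onMat_apply]
      change C.der (Matrix.single (0 : Fin 2) (1 : Fin 2) (C.u : R) i j)
        + ((wt j - wt i : ℤ) : k) • (((C.u : R) + 1)
          * Matrix.single (0 : Fin 2) (1 : Fin 2) (C.u : R) i j) = _
      rw [Matrix.single_apply, Matrix.single_apply]
      by_cases h : 0 = i ∧ 1 = j
      · obtain ⟨rfl, rfl⟩ := h
        rw [if_pos ⟨rfl, rfl⟩, if_pos ⟨rfl, rfl⟩]
        have h3 := C.nab_u
        rw [C.nab_apply] at h3
        simpa [wt] using h3
      · rw [if_neg h, if_neg h, map_zero, mul_zero, smul_zero, add_zero]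
    have hY : (ctA C).Y (cK C) = 0 := rfl
    have hR : (ctA C).R (cK C) = Matrix.single 1 0 (((C.u⁻¹ : Rˣ) : R) * C.w) := rfl
    rw [hX, hY, hR, mul_zero, add_zero, Matrix.single_mul_single_same] at h2
    change (ctA C).Th (drA C) _ = t
    rw [h2]
    change C.res (Matrix.trace (Matrix.single (0 : Fin 2) (0 : Fin 2)
      (algebraMap k R t * (((C.u⁻¹ : Rˣ) : R) * C.w)))) = t
    rw [Matrix.trace_single_eq_same, ← Algebra.smul_def, map_smul, C.res_kappa, smul_eq_mul,
      mul_one]
  rw [map_add, h1, thA_nil, add_zero]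

end H36.QX
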