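import Pool.Agent.H36.QX.ThtP

/-!
# ThtE : the classes whose image under `i` comes from `h` are multiples of the class of the idempotent

If the even part of the Hochschild homology of `A` is spanned by two classes, every even cycle `x'` such that
`i x'` is homologous to `h x` for some `x` is homologous to a multiple of the class of the idempotent `e₀₀`; for
`x = e₀₀` the multiple is `1`.
-/

set_option autoImplicit false
set_option linter.unusedSectionVars false

open NC

noncomputable section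

namespace H36.QX

open H36.NX

/-! ### the rank -/

section rank

variable {k : Type} [Field k] {S : Type} [CommRing S] [Algebra k S]
  {I : Type} [Fintype I] [DecidableEq I] {A : DGA k} {P : PSy k S} {α : I → ℤ} (z : Rz A P α)

/-- trace of the component on the chart `x ≠ 0` -/
def Rz.rk : A.V →ₗ[k] S := Matrix.traceLinearMap I k S ∘ₗ LinearMap.proj Pc.X ∘ₗ z.v

theorem Rz.rk_apply (a : A.V) : z.rk a = (z.v a Pc.X).trace := rfl

theorem Rz.rk_D (a : A.V) : z.rk (A.D a) = 0 := by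
  rw [Rz.rk_apply, z.D, cD_X, Matrix.trace_zero]

theorem Rz.rk_comm (a b : A.V) : z.rk (a * b) = z.rk (b * a) := by
  rw [Rz.rk_apply, Rz.rk_apply, z.mul, z.mul]
  exact Matrix.trace_mul_comm _ _

variable [CharP k 2]

/-- the rank of a Hochschild chain -/
def Rz.rkW : Wd k A.V A.V →ₗ[k] S := tw z.rk

@[simp] theorem Rz.rkW_nil (a : A.V) : z.rkW (Wd.nil a) = z.rk a := tw_nil _

@[simp] theorem Rz.rkW_snoc (w : Wd k A.V A.V) (a : A.V) : z.rkW (Wd.snoc w a) = 0 := tw_snoc _ _

theorem Rz.rkW_tl_hd (w : Wd k A.V A.V) (r : A.V) :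
    z.rkW (tl A A.diag.r.act w r) + z.rkW (hd A A.diag.l r w) = 0 := by
  induction w using Wd.induction with
  | hadd u v hu hv =>
    simp only [map_add, LinearMap.add_apply]
    calc z.rkW (tl A A.diag.r.act u r) + z.rkW (tl A A.diag.r.act v r)
          + (z.rkW (hd A A.diag.l r u) + z.rkW (hd A A.diag.l r v))
        = (z.rkW (tl A A.diag.r.act u r) + z.rkW (hd A A.diag.l r u))
          + (z.rkW (tl A A.diag.r.act v r) + z.rkW (hd A A.diag.l r v)) := by abel
      _ = 0 := by rw [hu, hv, add_zero]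
  | hnil a =>
    have e1 : tl A A.diag.r.act (Wd.nil a) r = Wd.nil (a * r) := tl_nil _ _ _ _
    have e2 : hd A A.diag.l r (Wd.nil a) = Wd.nil (r * a) := hd_nil _ _ _
    rw [e1, e2, rkW_nil, rkW_nil, z.rk_comm, add_self2 k]
  | hsnoc u _ a => rw [tl_snoc, hd_snoc, rkW_snoc, rkW_snoc, add_zero]

theorem Rz.rkW_hcD (w : Wd k A.V A.V) : z.rkW (hcD A.diag w) = 0 := by
  induction w using Wd.induction with
  | hadd u v hu hv => simp only [map_add, hu, hv, add_zero]
  | hnil n =>
    have e : hcD A.diag (Wd.nil n) = Wd.nil (A.D n) := hcD_nil _ _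
    rw [e, rkW_nil, rk_D]
  | hsnoc v _ r =>
    rw [hcD_two, map_add, map_add, map_add, rkW_snoc, rkW_snoc, zero_add, zero_add,
      z.rkW_tl_hd]

theorem rkW_embH {S' : Type} [CommRing S'] [Algebra k S'] {I' : Type} [Fintype I'] [DecidableEq I']
    {B : DGA k} {P' : PSy k S'} {α' : I' → ℤ} (z' : Rz B P' α') {e : I → I'}
    (he : Function.Injective e) {φ : S →ₐ[k] S'} (h : EmbOK P α P' α' e φ) (w : Wd k A.V A.V) :
    z'.rkW ((hcA (embH z z' he h)).f w) = φ (z.rkW w) := by
  rw [hcA_f]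
  induction w using Wd.induction with
  | hadd u v hu hv => simp only [map_add, hu, hv]
  | hnil n =>
    rw [Wd.map_nil, Rz.rkW_nil, Rz.rkW_nil, Rz.rk_apply, v_embH, embP_apply, embM_trace he]
    rfl
  | hsnoc u _ a => rw [Wd.map_snoc, Rz.rkW_snoc, Rz.rkW_snoc, map_zero]

end rank

/-! ### linear algebra -/

theorem two_class {k : Type} [Field k] {W M : Type} [AddCommGroup W] [Module k W]
    [AddCommGroup M] [Module k M] (D : W →ₗ[k] W) (θ : W →ₗ[k] k) (r : W →ₗ[k] M) {t : k}
    (ht : t ≠ 0) (hθ : ∀ z, θ (D z) = 0) (hr : ∀ z, r (D z) = 0) (a b e f x : W)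
    (he : θ e = 0) (hf : θ f = t) (hx : θ x = 0) (hre : r e ≠ 0)
    (H1 : ∃ (c d : k) (z : W), D z = e - (c • a + d • b))
    (H2 : ∃ (c d : k) (z : W), D z = f - (c • a + d • b))
    (H3 : ∃ (c d : k) (z : W), D z = x - (c • a + d • b)) :
    ∃ (c : k) (z : W), D z = x - c • e := by
  obtain ⟨c1, d1, z1, h1⟩ := H1
  obtain ⟨c2, d2, z2, h2⟩ := H2
  obtain ⟨c3, d3, z3, h3⟩ := H3
  have inv : ∀ (p q s : k) (z : W), D z = p • e + q • f + s • x → q = 0 ∧ (s = 0 → p = 0) := by
    intro p q s z hz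
    have hT := congrArg θ hz
    rw [hθ, map_add, map_add, map_smul, map_smul, map_smul, he, hf, hx, smul_zero,
      smul_zero, zero_add, add_zero, smul_eq_mul] at hT
    have hq : q = 0 := (mul_eq_zero.1 hT.symm).resolve_right ht
    refine ⟨hq, fun hs => ?_⟩
    have hR := congrArg r hz
    rw [hr, hq, hs, zero_smul, zero_smul, add_zero, add_zero, map_smul] at hR
    exact (smul_eq_zero.1 hR.symm).resolve_right hre
  have hdet : c1 * d2 - c2 * d1 ≠ 0 := by
    intro hdet
    have r1 := inv d2 (-d1) 0 (d2 • z1 - d1 • z2) (by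
      rw [map_sub, map_smul, map_smul, h1, h2]
      have e : d2 • (e - (c1 • a + d1 • b)) - d1 • (f - (c2 • a + d2 • b))
          = d2 • e + (-d1) • f + (0 : k) • x - (c1 * d2 - c2 * d1) • a := by
        module
      rw [e, hdet, zero_smul k a, sub_zero])
    have r2 := inv c2 (-c1) 0 (c2 • z1 - c1 • z2) (by
      rw [map_sub, map_smul, map_smul, h1, h2]
      have e : c2 • (e - (c1 • a + d1 • b)) - c1 • (f - (c2 • a + d2 • b))
          = c2 • e + (-c1) • f + (0 : k) • x + (c1 * d2 - c2 * d1) • b := by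
        module
      rw [e, hdet, zero_smul k b, add_zero])
    have hd1 : d1 = 0 := neg_eq_zero.1 r1.1
    have hc1 : c1 = 0 := neg_eq_zero.1 r2.1
    have r3 := inv 1 0 0 z1 (by
      rw [h1, hd1, hc1, zero_smul, zero_smul, add_zero, sub_zero, one_smul, zero_smul, zero_smul,
        add_zero, add_zero])
    exact one_ne_zero (r3.2 rfl)
  set dt := c1 * d2 - c2 * d1 with hdt
  have h4 : D ((c2 * d3 - c3 * d2) • z1 + (c3 * d1 - c1 * d3) • z2 + dt • z3)
      = (c2 * d3 - c3 * d2) • e + (c3 * d1 - c1 * d3) • f + dt • x := by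
    rw [map_add, map_add, map_smul, map_smul, map_smul, h1, h2, h3, hdt]
    module
  have h5 := (inv _ _ _ _ h4).1
  refine ⟨-(dt⁻¹ * (c2 * d3 - c3 * d2)), dt⁻¹ • ((c2 * d3 - c3 * d2) • z1
    + (c3 * d1 - c1 * d3) • z2 + dt • z3), ?_⟩
  rw [map_smul, h4, h5, zero_smul, add_zero, smul_add, smul_smul, smul_smul,
    inv_mul_cancel₀ hdet, one_smul]
  module

/-! ### the conclusion -/

variable {k : Type} [Field k] [CharP k 2] {t : k} {R : Type} [CommRing R] [Algebra k R]
  {C : QRing k t R} {S : Type} [CommRing S] [Algebra k S] {L : SRing C S}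

/-- the class of the idempotent `e₀₀` -/
def e0 (C : QRing k t R) : (HC (AA C).diag).V := (Wd.nil (amk C (e00 R) (e00_mem C)) : Wd k (AA C).V (AA C).V)

theorem e0_eq (C : QRing k t R) : e0 C = Wd.nil (eA C) := rfl

theorem rk_e0 : (rzA C).rkW (e0 C) = 1 := by
  unfold e0
  rw [Rz.rkW_nil]
  exact tauA_eA C

theorem e0_D : (HC (AA C).diag).D (e0 C) = 0 := by
  have e : hcD (AA C).diag (Wd.nil (amk C (e00 R) (e00_mem C)))
      = Wd.nil ((AA C).D (amk C (e00 R) (e00_mem C))) := hcD_nil _ _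
  have h : (AA C).D (amk C (e00 R) (e00_mem C)) = 0 := eA_D C
  change hcD (AA C).diag (Wd.nil (amk C (e00 R) (e00_mem C))) = 0
  rw [e, h, map_zero]

theorem e0_P : (HC (AA C).diag).P (e0 C) = e0 C := by
  change PW (AA C).toSD (AA C).toSD (Wd.nil (amk C (e00 R) (e00_mem C))) = _
  rw [PW_nil]
  have h : (AA C).P (amk C (e00 R) (e00_mem C)) = amk C (e00 R) (e00_mem C) :=
    (mem_agr_zero C _).1 (eA_gr C)
  rw [h]
  rfl

theorem thA_e0 : thA C (e0 C) = 0 := thA_nil C _

/-- if the even Hochschild homology is spanned by two classes, an even cycle killed by `Θ` is homologous to a multiple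
of the class of the idempotent -/
theorem hml_of_thA [Nontrivial R] (ht : t ≠ 0)
    (hh : ∃ a b : (HC (AA C).diag).V,
      ∀ x, (HC (AA C).diag).P x = x → (HC (AA C).diag).D x = 0 →
        ∃ c d : k, (HC (AA C).diag).Hml x (c • a + d • b))
    (x : (HC (AA C).diag).V) (hP : (HC (AA C).diag).P x = x)
    (hD : (HC (AA C).diag).D x = 0) (hx : thA C x = 0) :
    ∃ c : k, (HC (AA C).diag).Hml x (c • e0 C) := by
  obtain ⟨a, b, hab⟩ := hh
  exact two_class (HC (AA C).diag).D (thA C) (rzA C).rkW ht (fun z => thA_hcD C z)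
    (fun z => (rzA C).rkW_hcD z) a b (e0 C) (zeta C) x thA_e0 (thA_zeta C) hx
    (by rw [rk_e0]; exact one_ne_zero) (hab _ e0_P e0_D) (hab _ (zeta_P C) (zeta_D C))
    (hab _ hP hD)

/-- **Conclusion.** An even cycle `x'` with `i x'` homologous to `h x` is homologous to a multiple of the class of the
idempotent. -/
theorem hml_of_T [Nontrivial R] (ρ : SRes L) (ht : t ≠ 0)
    (hh : ∃ a b : (HC (AA C).diag).V,
      ∀ x, (HC (AA C).diag).P x = x → (HC (AA C).diag).D x = 0 →
        ∃ c d : k, (HC (AA C).diag).Hml x (c • a + d • b))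
    (x x' : (HC (AA C).diag).V) (hP : (HC (AA C).diag).P x' = x')
    (hD : (HC (AA C).diag).D x' = 0)
    (h : (HC (AP L).diag).Hml ((hcA (iA L)).f x') ((hcA (hA L)).f x)) :
    ∃ c : k, (HC (AA C).diag).Hml x' (c • e0 C) := by
  obtain ⟨z, hz⟩ := h
  exact hml_of_thA ht hh x' hP hD (thA_eq_zero ρ x x' z hz.symm)

/-- for `x = e₀₀` the multiple is `1` -/
theorem hml_e0_of_T [Nontrivial R] (ρ : SRes L) (ht : t ≠ 0)
    (hh : ∃ a b : (HC (AA C).diag).V,
      ∀ x, (HC (AA C).diag).P x = x → (HC (AA C).diag).D x = 0 →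
        ∃ c d : k, (HC (AA C).diag).Hml x (c • a + d • b))
    (x' : (HC (AA C).diag).V) (hP : (HC (AA C).diag).P x' = x')
    (hD : (HC (AA C).diag).D x' = 0)
    (h : (HC (AP L).diag).Hml ((hcA (iA L)).f x') ((hcA (hA L)).f (e0 C))) :
    (HC (AA C).diag).Hml x' (e0 C) := by
  obtain ⟨c, z', hz'⟩ := hml_of_T ρ ht hh _ x' hP hD h
  obtain ⟨z, hz⟩ := h
  have e1 : (rzP L).rkW ((hcA (iA L)).f x') = L.ι ((rzA C).rkW x') :=
    rkW_embH (rzA C) (rzP L) (Fin.castSucc_injective 2) (embOK_ι L) x'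
  have e2 : (rzP L).rkW ((hcA (hA L)).f (e0 C)) = L.h ((rzA C).rkW (e0 C)) :=
    rkW_embH (rzA C) (rzP L) e02_injective (embOK_h L) (e0 C)
  have e3 : (rzP L).rkW ((HC (AP L).diag).D z) = 0 := Rz.rkW_hcD _ _
  rw [hz, map_sub, e1, e2, rk_e0, map_one] at e3
  have e5 : (rzA C).rkW x' = 1 := by
    apply L.inj
    rw [map_one]
    exact sub_eq_zero.1 e3
  have e6 : (rzA C).rkW ((HC (AA C).diag).D z') = 0 := Rz.rkW_hcD _ _
  rw [hz', map_sub, map_smul, e5, rk_e0] at e6
  have e8 : c = 1 := by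
    have h9 : (1 - c) • (1 : R) = 0 := by rw [sub_smul, one_smul]; exact e6
    exact (sub_eq_zero.1 ((smul_eq_zero.1 h9).resolve_right one_ne_zero)).symm
  refine ⟨z', ?_⟩
  rw [hz', e8, one_smul]

end H36.QX
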