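import Pool.Agent.H36.QX.Tht

/-!
# ThtF : the trace functional on Hochschild chains of a Čech algebra, in characteristic two

For a dg algebra whose elements have components `X a`, `Y a` (even) and `R a` (odd) with
`R (a b) = X a R b + R a Y b` and `R (D a) = Y a - X a`, and a trace `tr` with `tr (Y a - X a) = 0`,
the functional `a₀[a₁|..|aₙ] ↦ tr (R a₀ R a₁ ⋯ R aₙ)` kills the boundaries.
-/

set_option autoImplicit false
set_option linter.unusedSectionVars false

open NC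

noncomputable section

namespace H36.QX

variable {k : Type} [Field k] [CharP k 2]

/-- Čech components with values in an algebra `M` with a trace -/
structure CT (A : DGA k) (M : Type) [Ring M] [Algebra k M] where
  X : A.V →ₗ[k] M
  Y : A.V →ₗ[k] M
  R : A.V →ₗ[k] M
  mulR : ∀ a b : A.V, R (a * b) = X a * R b + R a * Y b
  DR : ∀ a, R (A.D a) = Y a - X a
  PR : ∀ a, R (A.P a) = 0
  tr : M →ₗ[k] k
  tr_comm : ∀ x y, tr (x * y) = tr (y * x)
  tr_zero : ∀ a, tr (Y a - X a) = 0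

namespace CT

variable {A : DGA k} {M : Type} [Ring M] [Algebra k M] (T : CT A M)

/-- `a₀[a₁|..|aₙ] ↦ R a₀ R a₁ ⋯ R aₙ` -/
def p : Wd k A.V A.V →ₗ[k] M := Wd.recW T.R 0 ((LinearMap.mul k M).compl₂ T.R)

@[simp] theorem p_nil (a : A.V) : T.p (Wd.nil a) = T.R a := by simp [p]

@[simp] theorem p_snoc (w : Wd k A.V A.V) (r : A.V) : T.p (Wd.snoc w r) = T.p w * T.R r := by
  simp [p]

/-- `a₀[a₁|..|aₙ] ↦ Y a₀ R a₁ ⋯ R aₙ` -/
def q : Wd k A.V A.V →ₗ[k] M := Wd.recW T.Y 0 ((LinearMap.mul k M).compl₂ T.R)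

@[simp] theorem q_nil (a : A.V) : T.q (Wd.nil a) = T.Y a := by simp [q]

@[simp] theorem q_snoc (w : Wd k A.V A.V) (r : A.V) : T.q (Wd.snoc w r) = T.q w * T.R r := by
  simp [q]

/-- `a₀[a₁|..|aₙ] ↦ R a₀ R a₁ ⋯ X aₙ` -/
def s : Wd k A.V A.V →ₗ[k] M :=
  Wd.recW T.X (((LinearMap.mul k M).compl₂ T.X) ∘ₗ T.p) 0

@[simp] theorem s_nil (a : A.V) : T.s (Wd.nil a) = T.X a := by simp [s]

@[simp] theorem s_snoc (w : Wd k A.V A.V) (r : A.V) : T.s (Wd.snoc w r) = T.p w * T.X r := by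
  simp [s]

theorem p_tl (w : Wd k A.V A.V) (r : A.V) :
    T.p (tl A A.diag.r.act w r) = T.s w * T.R r + T.p w * T.Y r := by
  induction w using Wd.induction with
  | hadd u v hu hv => simp only [map_add, LinearMap.add_apply, hu, hv, add_mul]; abel
  | hnil n =>
    rw [tl_nil, p_nil, s_nil, p_nil]
    exact T.mulR n r
  | hsnoc v _ z => rw [tl_snoc, p_snoc, s_snoc, p_snoc, T.mulR, mul_add, mul_assoc, mul_assoc]

theorem p_hd (x : A.V) (w : Wd k A.V A.V) :
    T.p (hd A A.diag.l x w) = T.X x * T.p w + T.R x * T.q w := by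
  induction w using Wd.induction with
  | hadd u v hu hv => simp only [map_add, hu, hv, mul_add]; abel
  | hnil n =>
    rw [hd_nil, p_nil, q_nil, p_nil]
    exact T.mulR x n
  | hsnoc v hv z => rw [hd_snoc, p_snoc, hv, p_snoc, q_snoc, add_mul, mul_assoc, mul_assoc]

theorem Db_two (w : Wd k A.V A.V) (r : A.V) :
    Db A.diag.r (Wd.snoc w r) = Wd.snoc (Db A.diag.r w) r + Wd.snoc w (A.D r)
      + tl A A.diag.r.act w r := by
  rw [Db_snoc, EW_two, sub_eq_add_neg, neg_self2 k]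

theorem p_Db (w : Wd k A.V A.V) : T.p (Db A.diag.r w) = T.s w + T.q w := by
  induction w using Wd.induction with
  | hadd u v hu hv => simp only [map_add, hu, hv]; abel
  | hnil n =>
    rw [Db_nil, p_nil, s_nil, q_nil]
    have h := T.DR n
    rw [sub_eq_add_neg, neg_self2 k, add_comm] at h
    exact h
  | hsnoc v hv z =>
    rw [Db_two, map_add, map_add, p_snoc, p_snoc, p_tl, hv, s_snoc, q_snoc, T.DR, add_mul, mul_sub,
      sub_eq_add_neg, neg_self2 k]
    have h1 := add_self2 k (T.s v * T.R z)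
    have h2 := add_self2 k (T.p v * T.Y z)
    calc T.s v * T.R z + T.q v * T.R z + (T.p v * T.Y z + T.p v * T.X z)
          + (T.s v * T.R z + T.p v * T.Y z)
        = T.p v * T.X z + T.q v * T.R z + (T.s v * T.R z + T.s v * T.R z)
          + (T.p v * T.Y z + T.p v * T.Y z) := by abel
      _ = _ := by rw [h1, h2, add_zero, add_zero]

/-- the functional kills the boundaries -/
theorem tr_p_hcD (w : Wd k A.V A.V) : T.tr (T.p (hcD A.diag w)) = 0 := by
  induction w using Wd.induction with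
  | hadd u v hu hv => simp only [map_add, hu, hv, add_zero]
  | hnil n =>
    have e : hcD A.diag (Wd.nil n) = Wd.nil (A.D n) := hcD_nil _ _
    rw [e, p_nil, T.DR, T.tr_zero]
  | hsnoc v _ z =>
    rw [hcD_apply, map_sub, p_Db, om_two, p_hd, s_snoc, q_snoc, map_sub, map_add, map_add,
      T.tr_comm (T.p v), T.tr_comm (T.q v), sub_self]

/-- the functional is odd -/
theorem p_PW (w : Wd k A.V A.V) : T.p (PW A.toSD A.toSD w) = 0 := by
  induction w using Wd.induction with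
  | hadd u v hu hv => simp only [map_add, hu, hv, add_zero]
  | hnil n => rw [PW_nil, p_nil, T.PR]
  | hsnoc v hv z =>
    rw [PW_snoc, map_sub, p_snoc, p_snoc, T.PR, hv, mul_zero, zero_mul, sub_zero]

/-- the functional on Hochschild chains defined by a derivation -/
def Th (d : Dr A) : Wd k A.V A.V →ₗ[k] k := T.tr ∘ₗ T.p ∘ₗ jn d

theorem Th_apply (d : Dr A) (w : Wd k A.V A.V) : T.Th d w = T.tr (T.p (jn d w)) := rfl

theorem Th_hcD (d : Dr A) (w : Wd k A.V A.V) : T.Th d (hcD A.diag w) = 0 := by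
  rw [Th_apply, jn_hcD, tr_p_hcD]

theorem Th_PW (d : Dr A) (w : Wd k A.V A.V) : T.Th d (PW A.toSD A.toSD w) = T.Th d w := by
  rw [Th_apply, jn_PW, map_sub, p_PW, sub_zero, Th_apply]

@[simp] theorem Th_nil (d : Dr A) (a : A.V) : T.Th d (Wd.nil a) = 0 := by
  rw [Th_apply, jn_nil, map_zero, map_zero]

theorem Th_nil_snoc (d : Dr A) (a b : A.V) : T.Th d (Wd.snoc (Wd.nil a) b) =
    T.tr (T.X (d.f b) * T.R a + T.R (d.f b) * T.Y a) := by
  have e : hd A A.diag.l (d.f b) (Wd.nil a) = Wd.nil (d.f b * a) := hd_nil _ _ _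
  rw [Th_apply, jn_snoc, e, p_nil, T.mulR]

/-- a homomorphism killed by the derivation of the target -/
theorem Th_hcA_zero {B : DGA k} (T' : CT B M) (d : Dr B) (h : DGA.NHom A B)
    (h0 : ∀ a, d.f (h.f a) = 0) (w : Wd k A.V A.V) : T'.Th d ((hcA h).f w) = 0 := by
  rw [Th_apply, jn_hcA_zero d h h0, map_zero, map_zero]

theorem tr_p_hcA {M' : Type} [Ring M'] [Algebra k M'] {B : DGA k} (T' : CT B M')
    (h : DGA.NHom A B) (φ : M →ₗ[k] M') (hφ : ∀ x y, φ (x * y) = φ x * φ y)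
    (hR : ∀ a, T'.R (h.f a) = φ (T.R a))
    (w : Wd k A.V A.V) : T'.p ((hcA h).f w) = φ (T.p w) := by
  rw [hcA_f]
  induction w using Wd.induction with
  | hadd u v hu hv => simp only [map_add, hu, hv]
  | hnil n => rw [Wd.map_nil, p_nil, p_nil, hR]
  | hsnoc v hv z => rw [Wd.map_snoc, p_snoc, hv, p_snoc, hR, hφ]

/-- compatibility of the functionals with a homomorphism -/
theorem Th_hcA {M' : Type} [Ring M'] [Algebra k M'] {B : DGA k} (T' : CT B M') (d : Dr A)
    (d' : Dr B) (h : DGA.NHom A B) (φ : M →ₗ[k] M') (hφ : ∀ x y, φ (x * y) = φ x * φ y)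
    (hR : ∀ a, T'.R (h.f a) = φ (T.R a)) (htr : ∀ x, T'.tr (φ x) = T.tr x)
    (h0 : ∀ a, d'.f (h.f a) = h.f (d.f a)) (w : Wd k A.V A.V) :
    T'.Th d' ((hcA h).f w) = T.Th d w := by
  rw [Th_apply, jn_hcA d d' h h0, tr_p_hcA T T' h φ hφ hR, htr, Th_apply]

end CT

end H36.QX
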