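import Pool.Agent.H36.QX.ThtA
import Pool.Agent.H36.QX.SLoc

/-!
# ThtP : the algebra `A⁺`, the homomorphisms `i`, `h : A → A⁺` and the functional `Θ⁺`

`A⁺` is the algebra of Čech matrices of sections over the charts `x ≠ 0`, `y (y² + t x²) ≠ 0` with the weights
`0, 1, 2`. `iA` is the inclusion on the objects `0, 1`, and `hA` the homomorphism defined by `h : R → S` and the
objects `0, 2`. `Θ⁺ i = Θ` and `Θ⁺ h = 0`.
-/

set_option autoImplicit false
set_option linter.unusedSectionVars false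

open NC

noncomputable section

namespace H36.QX

open H36.NX

variable {k : Type} [Field k] {t : k} {R : Type} [CommRing R] [Algebra k R]
  {C : QRing k t R} {S : Type} [CommRing S] [Algebra k S] (L : SRing C S)

/-- the pieces of `S` -/
def SRing.pc (s : Pc) (n : ℤ) : Submodule k S :=
  match s with
  | Pc.X => L.X
  | Pc.Y => L.Y n
  | Pc.R => ⊤

/-- the system of pieces of `S` -/
def SRing.psy : PSy k S where
  pc := L.pc
  one s := by
    cases s with
    | X => exact L.one_mem_X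
    | Y => exact L.one_mem_Y
    | R => exact Submodule.mem_top
  mul s _ _ _ _ ha hb := by
    cases s with
    | X => exact L.X_mul ha hb
    | Y => exact L.Y_mul ha hb
    | R => exact Submodule.mem_top
  top _ := rfl

theorem SRing.ι_mem_pc (s : Pc) (n : ℤ) {x : R} (h : x ∈ C.pc s n) : L.ι x ∈ L.pc s n := by
  cases s with
  | X => exact ⟨x, h, rfl⟩
  | Y => exact L.ι_mem_Y h
  | R => exact Submodule.mem_top

/-- the weights of `A⁺` -/
def wtp (i : Fin 3) : ℤ := ((i : ℕ) : ℤ)

/-- the algebra `A⁺` -/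
abbrev AP : DGA k := CA L.psy wtp

/-- the realisation of `A⁺` -/
def rzP : Rz (AP L) L.psy wtp := CA.rz L.psy wtp

theorem embOK_ι : EmbOK C.psy wt L.psy wtp Fin.castSucc L.ι :=
  fun s _ _ _ hx => L.ι_mem_pc s _ hx

/-- the inclusion `A → A⁺` -/
def iA : DGA.NHom (AA C) (AP L) :=
  embH (rzA C) (rzP L) (Fin.castSucc_injective 2) (embOK_ι L)

theorem v_iA (a : (AA C).V) : (rzP L).v ((iA L).f a) = embP Fin.castSucc L.ι (av C a) :=
  v_embH (rzA C) (rzP L) (Fin.castSucc_injective 2) (embOK_ι L) a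

/-- the objects `0`, `2` -/
def e02 (i : Fin 2) : Fin 3 := ⟨2 * (i : ℕ), by omega⟩

theorem e02_injective : Function.Injective e02 := by
  intro i j h
  have h1 : 2 * (i : ℕ) = 2 * (j : ℕ) := congrArg Fin.val h
  exact Fin.ext (by omega)

theorem wtp_e02 (i j : Fin 2) : wtp (e02 j) - wtp (e02 i) = 2 * (wt j - wt i) := by
  unfold wtp e02 wt
  push_cast
  ring

section

variable [CharP k 2]

theorem SRing.h_mem_pc (s : Pc) (n : ℤ) {x : R} (h : x ∈ C.pc s n) : L.h x ∈ L.pc s (2 * n) := by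
  cases s with
  | X => exact L.h_mem_X h
  | Y => exact L.h_mem_Y h
  | R => exact Submodule.mem_top

theorem embOK_h : EmbOK C.psy wt L.psy wtp e02 L.h := by
  intro s i j x hx
  rw [wtp_e02]
  exact L.h_mem_pc s _ hx

/-- the homomorphism `h : A → A⁺` -/
def hA : DGA.NHom (AA C) (AP L) :=
  embH (rzA C) (rzP L) e02_injective (embOK_h L)

theorem v_hA (a : (AA C).V) : (rzP L).v ((hA L).f a) = embP e02 L.h (av C a) :=
  v_embH (rzA C) (rzP L) e02_injective (embOK_h L) a

/-- the connection on `S` -/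
def SRing.cn : Cn L.psy where
  D := L.der
  g := L.ι ((C.u : R) + 1)
  mul := L.der_mul
  mem s n f hf := by
    cases s with
    | X => exact L.der_mem_X n hf
    | Y => exact L.der_mem_Y n hf
    | R => exact Submodule.mem_top

/-- the derivation of `A⁺` -/
def drP : Dr (AP L) := (rzP L).dr L.cn

theorem drP_iA (a : (AA C).V) : (drP L).f ((iA L).f a) = (iA L).f ((drA C).f a) :=
  dr_embH (rzA C) (rzP L) (Fin.castSucc_injective 2) (embOK_ι L) C.cn L.cn (fun _ _ => rfl)
    (fun x => L.der_ι x) rfl a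

theorem drP_hA (a : (AA C).V) : (drP L).f ((hA L).f a) = 0 :=
  dr_embH_zero (rzA C) (rzP L) e02_injective (embOK_h L) L.cn (fun i j => by
    rw [wtp_e02]
    push_cast
    rw [show (2 : k) = 0 from CharTwo.two_eq_zero, zero_mul]) (fun x => L.der_h x) a

/-- a functional on `S` which extends the coefficient of `u⁻¹ w` and kills the functions on the charts -/
structure SRes where
  f : S →ₗ[k] k
  ι : ∀ r : R, f (L.ι r) = C.res r
  X : ∀ x ∈ L.X, f x = 0
  Y : ∀ x ∈ L.Y 0, f x = 0

theorem exists_sRes {K : Type} [Field K] [Algebra k K] (E : QRoot k t K) :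
    Nonempty (SRes L) := by
  obtain ⟨g, h1, h2, h3⟩ := L.exists_res E C.res (fun _ h => C.res_X h) (fun _ h => C.res_Y h)
  exact ⟨⟨g, h1, h2, h3⟩⟩

variable {L} (ρ : SRes L)

/-- the components of `A⁺` with the trace -/
def ctP : CT (AP L) (Matrix (Fin 3) (Fin 3) S) := (rzP L).ct ρ.f ρ.X ρ.Y

/-- the functional `Θ⁺` -/
def thP : Wd k (AP L).V (AP L).V →ₗ[k] k := (ctP ρ).Th (drP L)

theorem thP_hcD (w : Wd k (AP L).V (AP L).V) : thP ρ (hcD (AP L).diag w) = 0 :=
  (ctP ρ).Th_hcD _ w

/-- `Θ⁺ h = 0` -/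
theorem thP_hA (w : Wd k (AA C).V (AA C).V) : thP ρ ((hcA (hA L)).f w) = 0 := by
  rw [thP, CT.Th_apply, jn_hcA_zero (drP L) (hA L) (drP_hA L), map_zero, map_zero]

/-- `Θ⁺ i = Θ` -/
theorem thP_iA (w : Wd k (AA C).V (AA C).V) : thP ρ ((hcA (iA L)).f w) = thA C w := by
  refine CT.Th_hcA (ctA C) (ctP ρ) (drA C) (drP L) (iA L) (embM Fin.castSucc L.ι)
    (embM_mul (Fin.castSucc_injective 2) L.ι) (fun a => ?_) (fun x => ?_) (drP_iA L) w
  · change (rzP L).v ((iA L).f a) Pc.R = embM Fin.castSucc L.ι (av C a Pc.R)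
    rw [v_iA, embP_apply]
  · change ρ.f (embM Fin.castSucc L.ι x).trace = C.res x.trace
    rw [embM_trace (Fin.castSucc_injective 2), ρ.ι]

include ρ in
/-- the functional `Θ` vanishes on the classes whose image under `i` comes from `h` -/
theorem thA_eq_zero (w w' : Wd k (AA C).V (AA C).V) (z : Wd k (AP L).V (AP L).V)
    (hz : (hcA (iA L)).f w' - (hcA (hA L)).f w = hcD (AP L).diag z) : thA C w' = 0 := by
  have h := congrArg (thP ρ) hz
  rw [map_sub, thP_iA, thP_hA, sub_zero, thP_hcD] at h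
  exact h

end

end H36.QX
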